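import Pool.Agent.Lib.Pbb5b69.Cover
import Pool.Agent.Lib.P26f563.Equi

/-!
# Mathlib's singular homology over `ZMod 2` versus the augmented chains `STop.SC`
-/

noncomputable section

namespace Pbb5b69

open CategoryTheory AlgebraicTopology Simplicial

section classes

variable {K : ChainComplex M2 ℕ}

/-- cycles of a complex of vector spaces -/
def Zc (K : ChainComplex M2 ℕ) (k : ℕ) : Submodule (ZMod 2) (K.X k) := LinearMap.ker (K.sc k).g.hom

theorem mem_Zc {k : ℕ} (w : K.X k) : w ∈ Zc K k ↔ ∀ j, (K.d k j).hom w = 0 := by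
  rw [Zc, LinearMap.mem_ker]
  constructor
  · intro h j
    by_cases hj : (ComplexShape.down ℕ).Rel k j
    · have := (ComplexShape.down ℕ).next_eq' hj
      subst this
      exact h
    · rw [K.shape k j hj]
      rfl
  · intro h
    exact h _

/-- the class of a cycle -/
def Kcls (K : ChainComplex M2 ℕ) (k : ℕ) : Zc K k →ₗ[ZMod 2] K.homology k :=
  ((K.sc k).moduleCatCyclesIso.inv ≫ K.homologyπ k).hom

theorem Kcls_i {k : ℕ} (w : Zc K k) :
    (K.iCycles k).hom ((K.sc k).moduleCatCyclesIso.inv.hom w) = w := by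
  have := congrArg (fun f => f.hom w) (K.sc k).moduleCatCyclesIso_inv_iCycles
  exact this

theorem Kcls_surjective (k : ℕ) : Function.Surjective (Kcls K k) := by
  intro x
  obtain ⟨z, rfl⟩ := pi_surj k x
  refine ⟨(K.sc k).moduleCatCyclesIso.hom.hom z, ?_⟩
  have := congrArg (fun f => f.hom z) (K.sc k).moduleCatCyclesIso.hom_inv_id
  change (K.homologyπ k).hom ((K.sc k).moduleCatCyclesIso.inv.hom _) = _
  exact congrArg _ this

theorem Kcls_eq_zero {k : ℕ} (w : Zc K k) :
    Kcls K k w = 0 ↔ ∃ u : K.X (k + 1), (K.d (k + 1) k).hom u = w := by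
  refine (pi_eq_zero ((K.sc k).moduleCatCyclesIso.inv.hom w)).trans ?_
  rw [Kcls_i]

theorem Kcls_nat {K L : ChainComplex M2 ℕ} (φ : K ⟶ L) (k : ℕ) (w : Zc K k) (w' : Zc L k)
    (h : (w' : L.X k) = (φ.f k).hom w) :
    Kcls L k w' = (HomologicalComplex.homologyMap φ k).hom (Kcls K k w) := by
  have nat1 : ∀ z : K.cycles k, (HomologicalComplex.homologyMap φ k).hom ((K.homologyπ k).hom z) =
      (L.homologyπ k).hom ((HomologicalComplex.cyclesMap φ k).hom z) := fun z =>
    congrArg (fun f => f.hom z) (HomologicalComplex.homologyπ_naturality φ k)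
  have nat2 : ∀ z : K.cycles k, (L.iCycles k).hom ((HomologicalComplex.cyclesMap φ k).hom z) =
      (φ.f k).hom ((K.iCycles k).hom z) := fun z =>
    congrArg (fun f => f.hom z) (HomologicalComplex.cyclesMap_i φ k)
  have h1 : (L.sc k).moduleCatCyclesIso.inv.hom w' =
      (HomologicalComplex.cyclesMap φ k).hom ((K.sc k).moduleCatCyclesIso.inv.hom w) := by
    apply (ModuleCat.mono_iff_injective (L.iCycles k)).1 inferInstance
    refine (Kcls_i w').trans ?_
    rw [h]
    refine Eq.trans ?_ (nat2 _).symm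
    rw [Kcls_i]
  exact (congrArg (L.homologyπ k).hom h1).trans (nat1 _).symm

end classes

section emb

open STop (Sing SC Dmap Dl LC bd1 realL bdS Deg CIn lin lin_ext lin_single supp mem_supp)

variable {X Y : Type} [TopologicalSpace X] [TopologicalSpace Y]

/-- explicit chains as chains of `STop.SC` -/
def emb (n : ℕ) : Ch n X →ₗ[ZMod 2] STop.SC X :=
  lin fun s => Finsupp.single ⟨n + 1, s⟩ 1

theorem emb_single {n : ℕ} (s : Sp n X) :
    emb n (Finsupp.single s 1) = Finsupp.single (⟨n + 1, s⟩ : Sing X) 1 := lin_single _ _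

/-- the part of a chain in a given degree -/
def unemb (n : ℕ) : STop.SC X →ₗ[ZMod 2] Ch n X :=
  lin fun σ => if h : σ.nv = n + 1 then
    Finsupp.single (cast (congrArg (fun m => C(Dl m, X)) h) σ.map : Sp n X) 1 else 0

theorem unemb_single {n : ℕ} (s : Sp n X) :
    unemb n (Finsupp.single (⟨n + 1, s⟩ : Sing X) 1) = Finsupp.single s 1 := by
  rw [unemb, lin_single]
  simp

theorem unemb_emb {n : ℕ} (c : Ch n X) : unemb n (emb n c) = c := by
  have : (unemb n ∘ₗ emb n : Ch n X →ₗ[ZMod 2] Ch n X) = LinearMap.id := by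
    apply lin_ext
    intro s
    rw [LinearMap.comp_apply, emb_single, unemb_single]
    rfl
  exact LinearMap.congr_fun this c

theorem emb_mem {n : ℕ} (c : Ch n X) : emb n c ∈ Deg X (n + 1) := by
  have hc : c ∈ supp (fun _ : Sp n X => True) := by
    rw [mem_supp]
    intros
    trivial
  refine STop.supp_induction (Deg X (n + 1)) (emb n) ?_ hc
  intro s _
  rw [emb_single]
  exact STop.single_mem_supp (P := fun σ : Sing X => σ.nv = n + 1) rfl

theorem emb_unemb {n : ℕ} {z : STop.SC X} (hz : z ∈ Deg X (n + 1)) : emb n (unemb n z) = z := by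
  refine STop.supp_ext (emb n ∘ₗ unemb n) LinearMap.id ?_ hz
  rintro ⟨m, σ⟩ (h : m = n + 1)
  subst h
  rw [LinearMap.comp_apply, unemb_single, emb_single]
  rfl

theorem emb_push {n : ℕ} (g : C(X, Y)) (c : Ch n X) : STop.push g (emb n c) = emb n (push g c) := by
  have : (STop.push g ∘ₗ emb n : Ch n X →ₗ[ZMod 2] STop.SC Y) = emb n ∘ₗ push g := by
    apply lin_ext
    intro s
    rw [LinearMap.comp_apply, LinearMap.comp_apply, emb_single, push_single, emb_single,
      STop.push_single]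
  exact LinearMap.congr_fun this c

theorem bd1_eq_sum {T : Type} (l : List T) :
    bd1 l = ∑ i : Fin l.length, Finsupp.single (l.eraseIdx i) (1 : ZMod 2) := by
  induction l with
  | nil => simp
  | cons a l ih =>
    rw [STop.bd1_cons, ih, map_sum]
    refine Eq.trans ?_ (Fin.sum_univ_succ (n := l.length)
      (fun i => Finsupp.single ((a :: l).eraseIdx i) (1 : ZMod 2))).symm
    simp

theorem bdS_emb {n : ℕ} (c : Ch (n + 1) X) : bdS (emb (n + 1) c) = emb n (bd c) := by
  have : (bdS ∘ₗ emb (n + 1) : Ch (n + 1) X →ₗ[ZMod 2] STop.SC X) = emb n ∘ₗ bd := by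
    apply lin_ext
    intro s
    rw [LinearMap.comp_apply, LinearMap.comp_apply, emb_single, bd_single, STop.bdS_single,
      map_sum, STop.univ, STop.bd_single, bd1_eq_sum, map_sum]
    refine Fintype.sum_equiv (finCongr (by simp)) _ _ ?_
    intro i
    rw [STop.realL_single, emb_single]
    congr 1
    change (⟨_, s.comp (Dmap _)⟩ : Sing X) =
      ⟨_, s.comp (Dmap (SimplexCategory.δ (finCongr (by simp) i)).toOrderHom)⟩
    have hi : (i : ℕ) < n + 1 + 1 := by simpa using i.2
    apply STop.Sing.mk_congr _ _ _ (by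
      rw [List.length_eraseIdx]
      simp [hi])
    intro j
    apply Fin.ext
    rw [List.get_eq_getElem, List.getElem_eraseIdx]
    change _ = (Fin.succAbove _ _ : Fin (n + 1 + 1)).1
    by_cases h1 : (j : ℕ) < i
    · rw [dif_pos h1, Fin.succAbove_of_castSucc_lt _ _ (by simpa [Fin.lt_def] using h1)]
      simp
    · rw [dif_neg h1, Fin.succAbove_of_le_castSucc _ _ (by simpa [Fin.le_def] using h1)]
      simp
  exact LinearMap.congr_fun this c

theorem mem_Deg_zero_of_ne {m : ℕ} (hm : m ≠ 0) {z : STop.SC X} (h : z ∈ Deg X m)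
    (h0 : z ∈ Deg X 0) : z = 0 := by
  rw [← STop.prv_of_mem h, STop.prv_of_mem_ne h0 (Ne.symm hm)]

/-- chains of dimension `k` whose boundary is a multiple of the empty simplex -/
def CycS (k : ℕ) (X : Type) [TopologicalSpace X] : Submodule (ZMod 2) (STop.SC X) :=
  Deg X (k + 1) ⊓ (Deg X 0).comap bdS

theorem mem_CycS {k : ℕ} {z : STop.SC X} :
    z ∈ CycS k X ↔ z ∈ Deg X (k + 1) ∧ bdS z ∈ Deg X 0 := Iff.rfl

theorem isCyc_unemb {k : ℕ} {z : STop.SC X} (hz : z ∈ CycS k X) : IsCyc (unemb k z) := by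
  cases k with
  | zero => trivial
  | succ n =>
    change bd _ = 0
    rw [← unemb_emb (bd (unemb (n + 1) z)), ← bdS_emb, emb_unemb hz.1,
      mem_Deg_zero_of_ne (Nat.succ_ne_zero n) (STop.bdS_mem_Deg hz.1) hz.2, map_zero]

theorem bdS_emb_zero (c : Ch 0 X) : bdS (emb 0 c) ∈ Deg X 0 := STop.bdS_mem_Deg (emb_mem c)

theorem emb_mem_CycS {k : ℕ} {c : Ch k X} (hc : IsCyc c) : emb k c ∈ CycS k X := by
  refine ⟨emb_mem c, ?_⟩
  change bdS _ ∈ Deg X 0
  cases k with
  | zero => exact bdS_emb_zero c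
  | succ n =>
    rw [bdS_emb, show bd c = 0 from hc, map_zero]
    exact Submodule.zero_mem _

/-- the class of a cycle of `STop.SC` in Mathlib's singular homology -/
def kap (k : ℕ) (X : Type) [TopologicalSpace X] : CycS k X →ₗ[ZMod 2] Hom2 k X :=
  (Kcls (SC X) k) ∘ₗ ((toM k X ∘ₗ unemb k ∘ₗ (CycS k X).subtype).codRestrict (Zc (SC X) k)
    (fun z => by
      rw [mem_Zc, isCyc_iff]
      simp only [LinearMap.comp_apply, Submodule.subtype_apply]
      rw [ofM_toM]
      exact isCyc_unemb z.2))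

theorem kap_surjective (k : ℕ) : Function.Surjective (kap k X) := by
  intro x
  obtain ⟨w, rfl⟩ := Kcls_surjective (K := SC X) k x
  have hw := (isCyc_iff w.1).1 ((mem_Zc w.1).1 w.2)
  refine ⟨⟨emb k ((ofM k X).hom w.1), emb_mem_CycS hw⟩, ?_⟩
  simp only [kap, LinearMap.comp_apply]
  congr 1
  apply Subtype.ext
  simp only [LinearMap.codRestrict_apply, LinearMap.comp_apply, Submodule.subtype_apply]
  rw [unemb_emb, toM_ofM]

theorem kap_eq_zero {k : ℕ} (z : CycS k X) :
    kap k X z = 0 ↔ ∃ c : STop.SC X, (z : STop.SC X) + bdS c ∈ Deg X 0 := by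
  refine (Kcls_eq_zero (K := SC X) _).trans ?_
  simp only [LinearMap.codRestrict_apply, LinearMap.comp_apply, Submodule.subtype_apply]
  constructor
  · rintro ⟨u, hu⟩
    refine ⟨emb (k + 1) ((ofM (k + 1) X).hom u), ?_⟩
    rw [bdS_emb, ← ofM_d, hu, ofM_toM, emb_unemb z.2.1, add_self2]
    exact Submodule.zero_mem _
  · rintro ⟨c, hc⟩
    have h1 := STop.prv_of_mem_ne hc (Nat.succ_ne_zero k).symm
    rw [map_add, STop.prv_of_mem z.2.1, ← STop.bdS_prv] at h1
    have h2 := eq_of_add_eq_zero2 h1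
    refine ⟨toM (k + 1) X (unemb (k + 1) (STop.prv (k + 1 + 1) c)), ?_⟩
    apply ofM_inj
    rw [ofM_d, ofM_toM, ofM_toM, h2]
    rw [← unemb_emb (bd _), ← bdS_emb, emb_unemb (STop.prv_mem _ _)]

theorem push_mem_CycS {k : ℕ} (g : C(X, Y)) {z : STop.SC X} (hz : z ∈ CycS k X) :
    STop.push g z ∈ CycS k Y := by
  have hD : ∀ m, ∀ z ∈ Deg X m, STop.push g z ∈ Deg Y m := by
    intro m z hz
    rw [← STop.prv_of_mem hz, STop.push_prv]
    exact STop.prv_mem _ _
  refine ⟨hD _ _ hz.1, ?_⟩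
  change bdS _ ∈ Deg Y 0
  rw [← STop.push_bdS]
  exact hD _ _ hz.2

theorem kap_nat {k : ℕ} (g : C(X, Y)) (z : CycS k X) :
    kap k Y ⟨STop.push g z, push_mem_CycS g z.2⟩ = (hmap k g).hom (kap k X z) := by
  simp only [kap, LinearMap.comp_apply]
  refine Kcls_nat (scmap g) k _ _ ?_
  simp only [LinearMap.codRestrict_apply, LinearMap.comp_apply, Submodule.subtype_apply]
  apply ofM_inj
  rw [ofM_toM, ofM_map, ofM_toM]
  conv_lhs => rw [← emb_unemb z.2.1, emb_push, unemb_emb]

theorem hmap_injective_iff_stop (k : ℕ) (g : C(X, Y)) :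
    Function.Injective (hmap k g).hom ↔
      ∀ z ∈ CycS k X, (∃ c : STop.SC Y, STop.push g z + bdS c ∈ Deg Y 0) →
        ∃ c : STop.SC X, z + bdS c ∈ Deg X 0 := by
  rw [injective_iff_map_eq_zero]
  constructor
  · intro h z hz hc
    refine (kap_eq_zero ⟨z, hz⟩).1 (h _ ?_)
    rw [← kap_nat]
    exact (kap_eq_zero _).2 hc
  · intro h x hx
    obtain ⟨z, rfl⟩ := kap_surjective k x
    rw [← kap_nat, kap_eq_zero] at hx
    exact (kap_eq_zero z).2 (h z z.2 hx)

theorem hom2_subsingleton_iff (k : ℕ) :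
    Subsingleton (Hom2 k X) ↔
      ∀ z ∈ CycS k X, ∃ c : STop.SC X, z + bdS c ∈ Deg X 0 := by
  constructor
  · intro h z hz
    exact (kap_eq_zero ⟨z, hz⟩).1 (Subsingleton.elim _ _)
  · intro h
    refine subsingleton_of_forall_eq 0 fun x => ?_
    obtain ⟨z, rfl⟩ := kap_surjective k x
    exact (kap_eq_zero z).2 (h z z.2)

theorem kap_add {k : ℕ} {z g : STop.SC X} (hz : z ∈ CycS k X) (hg : g ∈ CycS k X) :
    kap k X ⟨z + g, Submodule.add_mem _ hz hg⟩ = kap k X ⟨z, hz⟩ + kap k X ⟨g, hg⟩ := by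
  rw [← map_add, AddMemClass.mk_add_mk]

theorem hom2_finrank_one_iff (k : ℕ) :
    Module.finrank (ZMod 2) (Hom2 k X) = 1 ↔
      ∃ g ∈ CycS k X, (¬ ∃ c : STop.SC X, g + bdS c ∈ Deg X 0) ∧
        ∀ z ∈ CycS k X, (∃ c : STop.SC X, z + bdS c ∈ Deg X 0) ∨
          ∃ c : STop.SC X, z + g + bdS c ∈ Deg X 0 := by
  rw [finrank_eq_one_iff']
  constructor
  · rintro ⟨v, hv, h⟩
    obtain ⟨⟨g, hg⟩, rfl⟩ := kap_surjective k v
    refine ⟨g, hg, fun hc => hv ((kap_eq_zero ⟨g, hg⟩).2 hc), fun z hz => ?_⟩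
    obtain ⟨a, ha⟩ := h (kap k X ⟨z, hz⟩)
    have h2 : a = 0 ∨ a = 1 := by
      clear ha
      revert a
      decide
    rcases h2 with rfl | rfl
    · left
      rw [zero_smul] at ha
      exact (kap_eq_zero ⟨z, hz⟩).1 ha.symm
    · right
      rw [one_smul] at ha
      have h3 : kap k X ⟨z + g, Submodule.add_mem _ hz hg⟩ = 0 := by
        rw [kap_add hz hg, ← ha, add_self2]
      exact (kap_eq_zero ⟨z + g, Submodule.add_mem _ hz hg⟩).1 h3
  · rintro ⟨g, hg, hn, h⟩
    refine ⟨kap k X ⟨g, hg⟩, fun h0 => hn ((kap_eq_zero ⟨g, hg⟩).1 h0), fun w => ?_⟩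
    obtain ⟨⟨z, hz⟩, rfl⟩ := kap_surjective k w
    rcases h z hz with h1 | h1
    · exact ⟨0, by rw [zero_smul, (kap_eq_zero ⟨z, hz⟩).2 h1]⟩
    · refine ⟨1, ?_⟩
      have h3 : kap k X ⟨z + g, Submodule.add_mem _ hz hg⟩ = 0 :=
        (kap_eq_zero ⟨z + g, Submodule.add_mem _ hz hg⟩).2 h1
      rw [kap_add hz hg] at h3
      rw [one_smul, eq_of_add_eq_zero2 h3]

/-- the inclusion of a subset -/
def inclC (A : Set X) : C(A, X) := ⟨Subtype.val, continuous_subtype_val⟩

theorem exists_restrict (A : Set X) {z : STop.SC X} (hz : z ∈ CIn A) :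
    ∃ z' : STop.SC A, STop.push (inclC A) z' = z := by
  have : z ∈ LinearMap.range (STop.push (inclC A)) := by
    refine STop.supp_induction (LinearMap.range (STop.push (inclC A))) LinearMap.id ?_ hz
    intro σ hσ
    refine ⟨Finsupp.single ⟨σ.nv, ⟨fun t => ⟨σ.map t, hσ t⟩,
      σ.map.continuous.subtype_mk _⟩⟩ 1, ?_⟩
    rw [STop.push_single]
    rfl
  exact this

theorem push_incl_mem (A : Set X) (z : STop.SC A) : STop.push (inclC A) z ∈ CIn A :=
  STop.push_mem_CIn (A := Set.univ) (inclC A) (fun a _ => a.2) (STop.CIn_univ z)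

theorem push_incl_injective (A : Set X) :
    Function.Injective (STop.push (inclC A) : STop.SC A → STop.SC X) := by
  have h : Function.Injective (fun σ : Sing A => σ.push (inclC A)) := by
    rintro ⟨n, σ⟩ ⟨m, τ⟩ h
    have h1 : n = m := congrArg Sing.nv h
    subst h1
    have h2 : (inclC A).comp σ = (inclC A).comp τ := by
      have := h
      simp only [Sing.push, Sing.mk.injEq, heq_eq_eq, true_and] at this
      exact this
    congr 1
    ext t
    exact congrArg (fun f : C(Dl n, X) => f t) h2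
  have h3 : (STop.push (inclC A) : STop.SC A →ₗ[ZMod 2] STop.SC X) =
      Finsupp.lmapDomain (ZMod 2) (ZMod 2) (fun σ : Sing A => σ.push (inclC A)) := by
    apply lin_ext
    intro σ
    rw [STop.push_single]
    simp
  rw [h3]
  exact Finsupp.mapDomain_injective h

theorem mem_Deg_of_push {A : Set X} {m : ℕ} {z : STop.SC A}
    (h : STop.push (inclC A) z ∈ Deg X m) : z ∈ Deg A m := by
  have h1 : STop.push (inclC A) (STop.prv m z) = STop.push (inclC A) z := by
    rw [STop.push_prv, STop.prv_of_mem h]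
  rw [← push_incl_injective A h1]
  exact STop.prv_mem _ _

/-- Injectivity of the map induced by an inclusion, in terms of chains. -/
theorem hmap_incl_injective_iff (k : ℕ) (A : Set X) :
    Function.Injective (hmap k (inclC A)).hom ↔
      ∀ z ∈ CIn A, z ∈ Deg X (k + 1) → bdS z ∈ Deg X 0 → (∃ c : STop.SC X, z + bdS c ∈ Deg X 0) →
        ∃ c ∈ CIn A, z + bdS c ∈ Deg X 0 := by
  rw [hmap_injective_iff_stop]
  constructor
  · intro h z hz hz1 hz2 hc
    obtain ⟨z', rfl⟩ := exists_restrict A hz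
    have h1 : z' ∈ CycS k A := ⟨mem_Deg_of_push hz1, mem_Deg_of_push (by
      rw [STop.push_bdS]; exact hz2)⟩
    obtain ⟨c, hc⟩ := h z' h1 hc
    refine ⟨STop.push (inclC A) c, push_incl_mem A c, ?_⟩
    rw [← STop.push_bdS, ← map_add, ← STop.prv_of_mem hc, STop.push_prv]
    exact STop.prv_mem _ _
  · intro h z hz hc
    have hz' := push_mem_CycS (inclC A) hz
    obtain ⟨c, hcA, hc⟩ := h _ (push_incl_mem A z) hz'.1 hz'.2 hc
    obtain ⟨c', rfl⟩ := exists_restrict A hcA
    refine ⟨c', mem_Deg_of_push ?_⟩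
    rw [map_add, STop.push_bdS]
    exact hc

end emb

end Pbb5b69
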