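import Mathlib

/-!
# Definitions: manifolds like projective planes, tight maps, convex hypersurfaces
-/

namespace TightPP

open AlgebraicTopology

/-- `S` is a tamely (locally flatly) embedded `d`-sphere in the `n`-manifold `X`: it is
homeomorphic to the unit sphere of `ℝ^(d+1)`, and every point of `S` has an open neighbourhood in
`X` with a homeomorphism onto `ℝ^n` taking `S` onto the coordinate subspace `ℝ^d × 0`. -/
structure IsTameSphere (d n : ℕ) {X : Type} [TopologicalSpace X] (S : Set X) : Prop where
  homeo : Nonempty (S ≃ₜ Metric.sphere (0 : EuclideanSpace ℝ (Fin (d + 1))) 1)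
  flat : ∀ x ∈ S, ∃ (U : Set X) (e : U ≃ₜ EuclideanSpace ℝ (Fin n)), IsOpen U ∧ x ∈ U ∧
    ∀ y : U, (y : X) ∈ S ↔ ∀ i : Fin n, d ≤ (i : ℕ) → e y i = 0

/-- `P` is a manifold like a projective plane, of dimension `2 d`: a closed topological manifold
(compact, Hausdorff, second countable, every point has an open neighbourhood homeomorphic to
`ℝ^(2d)`) which contains a tamely embedded sphere `S^d` whose complement is homeomorphic to
`ℝ^(2d)`. -/
structure IsLikeProjectivePlane (d : ℕ) (P : Type) [TopologicalSpace P] : Prop where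
  pos : 1 ≤ d
  compact : CompactSpace P
  hausdorff : T2Space P
  countable : SecondCountableTopology P
  locallyEuclidean : ∀ x : P, ∃ U : Set P, IsOpen U ∧ x ∈ U ∧
    Nonempty (U ≃ₜ EuclideanSpace ℝ (Fin (2 * d)))
  sphere : ∃ S : Set P, IsTameSphere d (2 * d) S ∧
    Nonempty ((Sᶜ : Set P) ≃ₜ EuclideanSpace ℝ (Fin (2 * d)))

/-- The map `H_k(A; ℤ/2) → H_k(X; ℤ/2)` in singular homology induced by the inclusion. -/
noncomputable def inclHom (k : ℕ) {X : Type} [TopologicalSpace X] (A : Set X) :
    ((singularHomologyFunctor (ModuleCat.{0} (ZMod 2)) k).obj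
      (ModuleCat.of (ZMod 2) (ZMod 2))).obj (TopCat.of A) ⟶
    ((singularHomologyFunctor (ModuleCat.{0} (ZMod 2)) k).obj
      (ModuleCat.of (ZMod 2) (ZMod 2))).obj (TopCat.of X) :=
  ((singularHomologyFunctor (ModuleCat.{0} (ZMod 2)) k).obj
      (ModuleCat.of (ZMod 2) (ZMod 2))).map
    (TopCat.ofHom (⟨Subtype.val, continuous_subtype_val⟩ : C(A, X)))

/-- `f` is tight: it is continuous and for every closed half-space `h` and every `k` the inclusion
of `f⁻¹(h)` induces an injective map on the `k`-th homology with `ℤ/2` coefficients. -/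
structure IsTight {X : Type} [TopologicalSpace X] {N : ℕ} (f : X → EuclideanSpace ℝ (Fin N)) :
    Prop where
  continuous : Continuous f
  injective : ∀ (z : EuclideanSpace ℝ (Fin N)) (t : ℝ), z ≠ 0 → ∀ k : ℕ,
    Function.Injective (inclHom k {x | t ≤ inner ℝ z (f x)}).hom

/-- `f` is substantial: its image lies in no affine hyperplane. -/
def IsSubstantial {X : Type} {N : ℕ} (f : X → EuclideanSpace ℝ (Fin N)) : Prop :=
  ∀ (z : EuclideanSpace ℝ (Fin N)) (t : ℝ), z ≠ 0 → ∃ x, inner ℝ z (f x) ≠ t

/-- A convex hypersurface: the boundary of a compact convex set with nonempty interior. -/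
def IsConvexHypersurface {N : ℕ} (A : Set (EuclideanSpace ℝ (Fin N))) : Prop :=
  ∃ K : Set (EuclideanSpace ℝ (Fin N)), IsCompact K ∧ Convex ℝ K ∧ (interior K).Nonempty ∧
    A = frontier K

end TightPP
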