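import Pool.Agent.Lib.Pbb5b69.Fund

/-!
# Small fundamental cycles
-/

open Finsupp

namespace STop

section

variable {E : Type} [NormedAddCommGroup E] [NormedSpace ℝ E]

theorem cc_mem_convex {A : Set E} (hA : Convex ℝ A) {k : ℕ} (t : Dl k) (p : Fin k → E)
    (hp : ∀ i, p i ∈ A) : cc t p ∈ A := by
  change ∑ i, t i • p i ∈ A
  exact hA.sum_mem (fun i _ => t.2.1 i) t.2.2 (fun i _ => hp i)

theorem aff_In_convex {A : Set E} (hA : Convex ℝ A) {l : List E} (hl : ∀ v ∈ l, v ∈ A) :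
    (aff l).In A := fun t => cc_mem_convex hA t _ fun i => hl _ (List.get_mem l i)

theorem sd_conv {A : Set E} (hA : Convex ℝ A) (l : List E) (hl : ∀ v ∈ l, v ∈ A) :
    sd (single l 1) ∈ supp fun q : List E => ∀ v ∈ q, v ∈ A := by
  revert l
  refine list_len_induction ?_ ?_
  · intro _
    rw [sd_single_nil]
    exact single_mem_supp (P := fun q : List E => ∀ v ∈ q, v ∈ A) (by simp)
  · intro a l ih hl
    rw [sd_single_cons]
    have h1 : sd (bd1 (a :: l)) ∈ supp fun q : List E => ∀ v ∈ q, v ∈ A := by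
      have hx : bd1 (a :: l) ∈ supp fun q : List E => q.length = l.length ∧ ∀ v ∈ q, v ∈ a :: l := by
        rw [mem_supp]
        intro q hq
        exact ⟨mem_supp.1 (bd1_len a l) q hq, mem_supp.1 (bd1_mem (a :: l)) q hq⟩
      refine supp_induction _ sd ?_ hx
      rintro q ⟨hq1, hq2⟩
      exact ih q hq1 fun v hv => hl v (hq2 v hv)
    refine supp_induction _ (cone (bary a l)) ?_ h1
    intro q hq
    rw [cone_single]
    apply single_mem_supp (P := fun q : List E => ∀ v ∈ q, v ∈ A)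
    intro v hv
    rcases List.mem_cons.1 hv with h | h
    · rw [h]
      exact cc_mem_convex hA _ _ fun i => hl _ (List.get_mem (a :: l) i)
    · exact hq v h

theorem sd_iter_conv {A : Set E} (hA : Convex ℝ A) (l : List E) (hl : ∀ v ∈ l, v ∈ A) (k : ℕ) :
    (sd^[k]) (single l 1) ∈ supp fun q : List E => ∀ v ∈ q, v ∈ A := by
  induction k with
  | zero => exact single_mem_supp (P := fun q : List E => ∀ v ∈ q, v ∈ A) hl
  | succ k ih =>
    rw [Function.iterate_succ_apply']
    exact supp_induction _ sd (fun q hq => sd_conv hA q hq) ih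

theorem sd_iter_len (l : List E) (k : ℕ) :
    (sd^[k]) (single l 1) ∈ supp fun q : List E => q.length = l.length := by
  induction k with
  | zero => exact single_mem_supp (P := fun q : List E => q.length = l.length) rfl
  | succ k ih =>
    rw [Function.iterate_succ_apply']
    refine supp_induction _ sd (fun q hq => ?_) ih
    have := sd_len q
    rwa [hq] at this

theorem iter_linear {M : Type*} [AddCommGroup M] [Module F2 M] (f : M →ₗ[F2] M) (k : ℕ) :
    ⇑(f ^ k) = f^[k] := iterate_linear f k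

theorem bd_sd_iter (x : LC E) (k : ℕ) : bd ((sd^[k]) x) = (sd^[k]) (bd x) := by
  induction k generalizing x with
  | zero => rfl
  | succ k ih => rw [Function.iterate_succ_apply, Function.iterate_succ_apply, ih, bd_sd]

end

section fund

variable {E : Type} [NormedAddCommGroup E] [InnerProductSpace ℝ E] [FiniteDimensional ℝ E]

/-- Separation of a list in a half space from the origin. -/
theorem halfP_bounds {l : List E} (h : HalfP l) : ∃ δ : ℝ, 0 < δ ∧ ∃ R : ℝ, ∃ A : Set E,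
    Convex ℝ A ∧ (∀ v ∈ l, v ∈ A) ∧ ∀ x ∈ A, δ ≤ ‖x‖ ∧ ‖x‖ ≤ R := by
  obtain ⟨φ, hφ⟩ := h
  have h1 : ∀ l : List E, (∀ v ∈ l, 0 < φ v) → ∃ c : ℝ, 0 < c ∧ ∃ R : ℝ, ∀ v ∈ l, c ≤ φ v ∧
      ‖v‖ ≤ R := by
    intro l
    induction l with
    | nil => intro _; exact ⟨1, one_pos, 0, by simp⟩
    | cons a l ih =>
      intro h
      obtain ⟨c, hc, R, hR⟩ := ih fun v hv => h v (List.mem_cons_of_mem _ hv)
      refine ⟨min c (φ a), lt_min hc (h a List.mem_cons_self), max R ‖a‖, ?_⟩
      intro v hv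
      rcases List.mem_cons.1 hv with h2 | h2
      · rw [h2]; exact ⟨min_le_right _ _, le_max_right _ _⟩
      · exact ⟨(min_le_left _ _).trans (hR v h2).1, (hR v h2).2.trans (le_max_left _ _)⟩
  obtain ⟨c, hc, R, hR⟩ := h1 l hφ
  let Φ : E →L[ℝ] ℝ := LinearMap.toContinuousLinearMap φ
  have hΦ : ∀ x, φ x ≤ ‖Φ‖ * ‖x‖ := fun x => (le_abs_self _).trans (Φ.le_opNorm x)
  have hpos : 0 < ‖Φ‖ + 1 := by positivity
  refine ⟨c / (‖Φ‖ + 1), by positivity, R, {x | c ≤ φ x} ∩ Metric.closedBall 0 R, ?_, ?_, ?_⟩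
  · refine Convex.inter ?_ (convex_closedBall _ _)
    exact convex_halfSpace_ge (LinearMap.isLinear φ) c
  · intro v hv
    exact ⟨(hR v hv).1, by simpa using (hR v hv).2⟩
  · rintro x ⟨hx1, hx2⟩
    refine ⟨?_, by simpa using hx2⟩
    rw [div_le_iff₀ hpos]
    have := hΦ x
    have hx1' : c ≤ φ x := hx1
    nlinarith [norm_nonneg x]

theorem fund : FundStatement := by
  intro E _ _ _ hn
  obtain ⟨W, hW1, hW2, hW3⟩ := exists_W (Module.finrank ℝ E) E rfl
  set n := Module.finrank ℝ E with hnn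
  obtain ⟨L0, hL0⟩ : ∃ L0, L0 = bd W := ⟨_, rfl⟩
  have hlen : ∀ l ∈ L0.support, l.length = n := by
    have h1 : bd W ∈ supp fun l : List E => l.length = n := by
      refine supp_induction _ bd ?_ hW1
      intro l hl
      rw [bd_single]
      exact bd1_len' l hl
    rw [← hL0, mem_supp] at h1
    exact h1
  have hbounds : ∀ s : Finset (List E), (∀ l ∈ s, HalfP l) → ∃ δ : ℝ, 0 < δ ∧ ∃ R : ℝ, 0 < R ∧
      ∀ l ∈ s, ∃ A : Set E, Convex ℝ A ∧ (∀ v ∈ l, v ∈ A) ∧ ∀ x ∈ A, δ ≤ ‖x‖ ∧ ‖x‖ ≤ R := by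
    classical
    intro s
    induction s using Finset.induction_on with
    | empty => intro _; exact ⟨1, one_pos, 1, one_pos, by simp⟩
    | insert a s ha ih =>
      intro h
      obtain ⟨δ, hδ, R, hR, h1⟩ := ih fun l hl => h l (Finset.mem_insert_of_mem hl)
      obtain ⟨δ', hδ', R', A', hA', hl', hx'⟩ := halfP_bounds (h a (Finset.mem_insert_self _ _))
      refine ⟨min δ δ', lt_min hδ hδ', max R R', lt_max_of_lt_left hR, ?_⟩
      intro l hl
      rcases Finset.mem_insert.1 hl with h2 | h2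
      · subst h2
        exact ⟨A', hA', hl', fun x hx => ⟨(min_le_right _ _).trans (hx' x hx).1,
          (hx' x hx).2.trans (le_max_right _ _)⟩⟩
      · obtain ⟨A, hA, hlA, hxA⟩ := h1 l h2
        exact ⟨A, hA, hlA, fun x hx => ⟨(min_le_left _ _).trans (hxA x hx).1,
          (hxA x hx).2.trans (le_max_left _ _)⟩⟩
  obtain ⟨δ, hδ, R, hR, hA⟩ := hbounds L0.support (by
    have := hW2
    rw [← hL0, mem_supp] at this
    exact this)
  have hsuppL0 : L0 ∈ supp fun l : List E => l.length = n ∧ Mesh (2 * R) l ∧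
      ∃ A : Set E, Convex ℝ A ∧ (∀ v ∈ l, v ∈ A) ∧ ∀ x ∈ A, δ ≤ ‖x‖ ∧ ‖x‖ ≤ R := by
    rw [mem_supp]
    intro l hl
    refine ⟨hlen l hl, ?_, hA l hl⟩
    obtain ⟨A, _, hlA, hxA⟩ := hA l hl
    intro a ha b hb
    have h1 := (hxA a (hlA a ha)).2
    have h2 := (hxA b (hlA b hb)).2
    rw [dist_eq_norm]
    linarith [norm_sub_le a b]
  refine ⟨max 1 (R / δ), le_max_left _ _, ?_⟩
  intro ρ hρ
  have hn0 : (0 : ℝ) < (n : ℝ) := by exact_mod_cast hn
  have hc0 : (0 : ℝ) ≤ 1 - 1 / (n : ℝ) := by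
    have : (1 : ℝ) / n ≤ 1 := by
      rw [div_le_one hn0]
      exact_mod_cast hn
    linarith
  have hc1 : (1 : ℝ) - 1 / (n : ℝ) < 1 := by
    have : (0 : ℝ) < 1 / (n : ℝ) := by positivity
    linarith
  obtain ⟨k, hk⟩ := exists_pow_lt_of_lt_one (show 0 < δ * ρ / (2 * R) by positivity) hc1
  have hk' : (1 - 1 / (n : ℝ)) ^ k * (2 * R) ≤ δ * ρ := by
    have h2R : 0 < 2 * R := by linarith
    rw [lt_div_iff₀ h2R] at hk
    exact hk.le
  obtain ⟨L1, hL1⟩ : ∃ L1, L1 = (sd^[k]) L0 := ⟨_, rfl⟩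
  have hL1s : L1 ∈ supp fun l : List E => l.length = n ∧ Mesh (δ * ρ) l ∧
      (∀ x ∈ l, δ ≤ ‖x‖ ∧ ‖x‖ ≤ R) ∧ (aff l).In ({0}ᶜ : Set E) := by
    rw [hL1, ← iter_linear]
    refine supp_induction _ (sd ^ k) ?_ hsuppL0
    rintro l ⟨hl1, hl2, A, hAc, hlA, hxA⟩
    rw [iter_linear]
    have e1 := sd_iter_len l k
    have e2 := sd_iter_conv hAc l hlA k
    have e3 := sd_iter_mesh (2 * R) (by linarith) n (by omega) l hl1.le hl2 k
    rw [mem_supp] at e1 e2 e3 ⊢
    intro q hq
    refine ⟨(e1 q hq).trans hl1, ?_, fun x hx => hxA x (e2 q hq x hx), ?_⟩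
    · intro a ha b hb
      exact ((e3 q hq).2 a ha b hb).trans hk'
    · intro t ht
      have h0 : (0 : E) ∈ A := by
        have := aff_In_convex hAc (e2 q hq) t
        rwa [Set.mem_singleton_iff.1 ht] at this
      have := (hxA 0 h0).1
      rw [norm_zero] at this
      linarith
  have hsc : IsAff (fun x : E => δ⁻¹ • x) := isAff_linear (δ⁻¹ • (LinearMap.id : E →ₗ[ℝ] E))
  let sc : C(E, E) := ⟨fun x => δ⁻¹ • x, by fun_prop⟩
  let sc' : C(E, E) := ⟨fun x => δ • x, by fun_prop⟩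
  refine ⟨mapL (fun x => δ⁻¹ • x) L1, ?_, ?_, ?_⟩
  · rw [← mapL_bd, hL1, bd_sd_iter, hL0, bd_bd]
    have : (sd^[k]) (0 : LC E) = 0 := by rw [← iter_linear, map_zero]
    rw [this, map_zero]
  · have h1 : mapL (fun x => δ⁻¹ • x) L1 ∈ supp fun l : List E => l.length = n ∧ Mesh ρ l ∧
        ∀ v ∈ l, 1 ≤ ‖v‖ ∧ ‖v‖ ≤ max 1 (R / δ) := by
      refine supp_induction _ (mapL _) ?_ hL1s
      rintro l ⟨h1, h2, h3, _⟩
      rw [mapL_single]
      apply single_mem_supp (P := fun l : List E => l.length = n ∧ Mesh ρ l ∧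
        ∀ v ∈ l, 1 ≤ ‖v‖ ∧ ‖v‖ ≤ max 1 (R / δ))
      refine ⟨by rw [List.length_map, h1], ?_, ?_⟩
      · intro a ha b hb
        obtain ⟨a', ha', rfl⟩ := List.mem_map.1 ha
        obtain ⟨b', hb', rfl⟩ := List.mem_map.1 hb
        have h4 := h2 a' ha' b' hb'
        rw [dist_eq_norm] at h4 ⊢
        rw [← smul_sub, norm_smul, norm_inv, Real.norm_eq_abs, abs_of_pos hδ]
        rw [inv_mul_le_iff₀ hδ]
        exact h4
      · intro v hv
        obtain ⟨v', hv', rfl⟩ := List.mem_map.1 hv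
        obtain ⟨h5, h6⟩ := h3 v' hv'
        rw [norm_smul, norm_inv, Real.norm_eq_abs, abs_of_pos hδ]
        constructor
        · rw [le_inv_mul_iff₀ hδ, mul_one]; exact h5
        · refine le_trans ?_ (le_max_right _ _)
          rw [inv_mul_eq_div]
          exact div_le_div_of_nonneg_right h6 hδ.le
    rw [mem_supp] at h1
    exact h1
  · rintro ⟨c, hc, hbc⟩
    -- undo the scaling
    have h1 : bdS (push sc' c) = affL L1 := by
      rw [← push_bdS, hbc]
      have e1 : affL (mapL (fun x => δ⁻¹ • x) L1) = push sc (affL L1) := by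
        rw [push_affL sc hsc]
        rfl
      rw [e1, push_push]
      have e2 : sc'.comp sc = ContinuousMap.id E := by
        ext x
        change δ • δ⁻¹ • x = x
        rw [smul_smul, mul_inv_cancel₀ hδ.ne', one_smul]
      rw [e2, push_id]
    have h2 : push sc' c ∈ CIn ({0}ᶜ : Set E) := by
      apply push_mem_CIn (A := ({0}ᶜ : Set E)) (B := ({0}ᶜ : Set E)) _ _ hc
      intro a ha h0
      apply ha
      have : δ • a = 0 := h0
      rcases smul_eq_zero.1 this with h | h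
      · exact absurd h hδ.ne'
      · exact h
    -- undo the subdivision
    have hL0c : affL L0 ∈ CIn ({0}ᶜ : Set E) := by
      refine supp_induction _ affL ?_ hsuppL0
      rintro l ⟨_, _, A, hAc, hlA, hxA⟩
      rw [affL_single]
      apply single_mem_CIn
      intro t ht
      have h0 : (0 : E) ∈ A := by
        have := aff_In_convex hAc hlA t
        rwa [Set.mem_singleton_iff.1 ht] at this
      have := (hxA 0 h0).1
      rw [norm_zero] at this
      linarith
    have h3 : affL L1 = (sdS^[k]) (affL L0) := by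
      have := sdS_iter_push (ContinuousMap.id E) L0 k
      rw [push_id, push_id] at this
      rw [this, hL1]
    have h4 := bdS_tdIter k (affL L0)
    have hb0 : bdS (affL L0) = 0 := by rw [bdS_affL, hL0, bd_bd, map_zero]
    rw [hb0, map_zero, add_zero, ← h3, ← h1] at h4
    -- `affL L0` bounds in the complement of the origin
    obtain ⟨c0, hc0⟩ : ∃ c0, c0 = tdIter k (affL L0) + push sc' c := ⟨_, rfl⟩
    have hc0m : c0 ∈ CIn ({0}ᶜ : Set E) := by
      rw [hc0]; exact Submodule.add_mem _ (tdIter_mem_CIn hL0c k) h2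
    have hbc0 : bdS c0 = affL L0 := by
      rw [hc0, map_add, h4, add_assoc, add_self_eq_zero', add_zero]
    have h5 : bdS (affL W + c0) = 0 := by
      rw [map_add, hbc0, bdS_affL, hL0, add_self_eq_zero']
    obtain ⟨e, _, he⟩ := acyclic_convex (A := (Set.univ : Set E)) convex_univ ⟨0, trivial⟩ _
      (CIn_univ _) h5
    apply hW3.ne e (CIn_univ _)
    rw [he, ← add_assoc, add_self_eq_zero', zero_add]
    exact hc0m

end fund

end STop
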