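import Pool.Agent.Lib.Pbb5b69.Facts

/-!
# Module Generic: small generic translations miss the high dimensional faces
-/

open Module Set

namespace STop

section face

variable {E : Type} [NormedAddCommGroup E] [InnerProductSpace ℝ E]

theorem FaceOf_convex {C : Set E} (hC : Convex ℝ C) (v : E) : Convex ℝ (FaceOf C v) := by
  intro x hx y hy a b ha hb hab
  refine ⟨hC hx.1 hy.1 ha hb hab, fun z hz => ?_⟩
  rw [inner_add_right, inner_smul_right, inner_smul_right]
  have h1 := hx.2 z hz
  have h2 := hy.2 z hz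
  have : inner ℝ v z = a * inner ℝ v z + b * inner ℝ v z := by rw [← add_mul, hab, one_mul]
  rw [this]
  exact add_le_add (mul_le_mul_of_nonneg_left h1 ha) (mul_le_mul_of_nonneg_left h2 hb)

/-- The points `y + v` with `y` in the face of direction `v`. -/
def NDom (C : Set E) : Set E := {w | ∃ v, w - v ∈ FaceOf C v}

open Classical in
/-- The direction of a point. -/
noncomputable def NDir (C : Set E) (w : E) : E := if h : ∃ v, w - v ∈ FaceOf C v then h.choose else 0

theorem NDir_spec {C : Set E} {w : E} (h : w ∈ NDom C) : w - NDir C w ∈ FaceOf C (NDir C w) := by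
  have h' : ∃ v, w - v ∈ FaceOf C v := h
  unfold NDir
  rw [dif_pos h']
  exact h'.choose_spec

theorem sq_le_aux {a b : ℝ} (h : a ^ 2 ≤ b ^ 2) (hb : 0 ≤ b) : a ≤ b := by
  by_contra hc
  push Not at hc
  nlinarith

theorem face_mono {C : Set E} {w w' v v' : E} (h : w - v ∈ FaceOf C v)
    (h' : w' - v' ∈ FaceOf C v') : dist v v' ≤ dist w w' := by
  have h1 := h.2 _ h'.1
  have h2 := h'.2 _ h.1
  have h3 : 0 ≤ inner ℝ (v - v') ((w - v) - (w' - v')) := by
    rw [inner_sub_left, inner_sub_right v, inner_sub_right v']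
    linarith
  rw [dist_eq_norm, dist_eq_norm]
  have h4 : w - w' = (v - v') + ((w - v) - (w' - v')) := by abel
  have h5 : ‖w - w'‖ ^ 2 = ‖v - v'‖ ^ 2 + 2 * inner ℝ (v - v') ((w - v) - (w' - v')) +
      ‖(w - v) - (w' - v')‖ ^ 2 := by
    rw [h4]
    exact norm_add_sq_real _ _
  have h6 : ‖v - v'‖ ^ 2 ≤ ‖w - w'‖ ^ 2 := by
    rw [h5]
    nlinarith [sq_nonneg ‖(w - v) - (w' - v')‖]
  exact sq_le_aux h6 (norm_nonneg _)

theorem NDir_eq {C : Set E} {w v : E} (h : w - v ∈ FaceOf C v) : NDir C w = v := by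
  have hw : w ∈ NDom C := ⟨v, h⟩
  have := face_mono (NDir_spec hw) h
  rw [dist_self] at this
  exact dist_le_zero.1 this

theorem NDir_lip (C : Set E) {w w' : E} (h : w ∈ NDom C) (h' : w' ∈ NDom C) :
    dist (NDir C w) (NDir C w') ≤ dist w w' :=
  face_mono (NDir_spec h) (NDir_spec h')

end face

section main

variable {E : Type} [NormedAddCommGroup E] [InnerProductSpace ℝ E] [FiniteDimensional ℝ E]

omit [FiniteDimensional ℝ E] in
theorem exists_sub_finrank (V : Submodule ℝ E) {j : ℕ} (hj : j ≤ finrank ℝ V) :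
    ∃ W : Submodule ℝ E, W ≤ V ∧ finrank ℝ W = j := by
  obtain ⟨f, hf⟩ := exists_linearIndependent_of_le_finrank hj
  have hf2 : LinearIndependent ℝ (fun i => (f i : E)) :=
    hf.map' V.subtype (by simp)
  refine ⟨Submodule.span ℝ (range fun i => (f i : E)), ?_, ?_⟩
  · rw [Submodule.span_le]
    rintro _ ⟨i, rfl⟩
    exact (f i).2
  · rw [finrank_span_eq_card hf2, Fintype.card_fin]

/-- Some member of the dense sequence of linear maps is an isomorphism on a given subspace. -/
theorem exists_dense_equiv {j : ℕ} (W : Submodule ℝ E) (hW : finrank ℝ W = j) :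
    ∃ n, ∃ e : W ≃L[ℝ] (Fin j → ℝ),
      ∀ w : W, e w = TopologicalSpace.denseSeq (E →L[ℝ] (Fin j → ℝ)) n w := by
  have hf : finrank ℝ W = finrank ℝ (Fin j → ℝ) := by rw [hW]; simp
  let e₀ : W ≃L[ℝ] (Fin j → ℝ) := ContinuousLinearEquiv.ofFinrankEq hf
  let A₀ : E →L[ℝ] (Fin j → ℝ) := (e₀ : W →L[ℝ] (Fin j → ℝ)).comp W.orthogonalProjectionOnto
  let Φ : (E →L[ℝ] (Fin j → ℝ)) → (W →L[ℝ] (Fin j → ℝ)) := fun A => A.comp W.subtypeL
  have hΦ : Continuous Φ := by
    exact continuous_id.clm_comp continuous_const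
  have hopen : IsOpen (Φ ⁻¹' range ((↑) : (W ≃L[ℝ] (Fin j → ℝ)) → W →L[ℝ] (Fin j → ℝ))) :=
    ContinuousLinearEquiv.isOpen.preimage hΦ
  have hne : (Φ ⁻¹' range ((↑) : (W ≃L[ℝ] (Fin j → ℝ)) → W →L[ℝ] (Fin j → ℝ))).Nonempty := by
    refine ⟨A₀, e₀, ?_⟩
    ext w : 1
    change e₀ w = e₀ (W.orthogonalProjectionOnto (w : E))
    rw [Submodule.orthogonalProjectionOnto_mem_subspace_eq_self]
  obtain ⟨n, hn⟩ :=
    (TopologicalSpace.denseRange_denseSeq (E →L[ℝ] (Fin j → ℝ))).exists_mem_open hopen hne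
  obtain ⟨e, he⟩ := hn
  refine ⟨n, e, fun w => ?_⟩
  have := congrArg (fun g : W →L[ℝ] (Fin j → ℝ) => g w) he
  exact this

theorem cover {C : Set E} (hC : Convex ℝ C) {j : ℕ} {v : E}
    (hj : j ≤ finrank ℝ (vectorSpan ℝ (FaceOf C v))) (hne : (FaceOf C v).Nonempty) :
    ∃ n m, Function.Surjective (TopologicalSpace.denseSeq (E →L[ℝ] (Fin j → ℝ)) n) ∧
      ∃ w ∈ NDom C, NDir C w = v ∧
        TopologicalSpace.denseSeq (E →L[ℝ] (Fin j → ℝ)) n w =
          TopologicalSpace.denseSeq (Fin j → ℝ) m := by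
  obtain ⟨W, hWle, hW⟩ := exists_sub_finrank _ hj
  obtain ⟨n, e, he⟩ := exists_dense_equiv W hW
  -- a ball in the face
  obtain ⟨x₀, hx₀⟩ := hne.intrinsicInterior (FaceOf_convex hC v)
  have hx₀F : x₀ ∈ FaceOf C v := intrinsicInterior_subset hx₀
  have hball : ∃ r > 0, ∀ u ∈ W, ‖u‖ < r → x₀ + u ∈ FaceOf C v := by
    rw [mem_intrinsicInterior] at hx₀
    obtain ⟨y, hy, hyx⟩ := hx₀
    rw [mem_interior_iff_mem_nhds, Metric.mem_nhds_iff] at hy
    obtain ⟨r, hr, hb⟩ := hy
    refine ⟨r, hr, fun u hu hur => ?_⟩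
    have hmem : x₀ + u ∈ affineSpan ℝ (FaceOf C v) := by
      rw [add_comm]
      apply AffineSubspace.vadd_mem_of_mem_direction
      · rw [direction_affineSpan]
        exact hWle hu
      · exact subset_affineSpan _ _ hx₀F
    have := @hb ⟨x₀ + u, hmem⟩ (by
      rw [Metric.mem_ball, Subtype.dist_eq, hyx, dist_eq_norm]
      simpa using hur)
    exact this
  obtain ⟨r, hr, hball⟩ := hball
  have hopen : IsOpen ((fun y => y + TopologicalSpace.denseSeq (E →L[ℝ] (Fin j → ℝ)) n (x₀ + v)) ''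
      (e '' Metric.ball (0 : W) r)) := by
    apply (Homeomorph.addRight _).isOpenMap
    exact e.toHomeomorph.isOpenMap _ Metric.isOpen_ball
  obtain ⟨m, hm⟩ := (TopologicalSpace.denseRange_denseSeq (Fin j → ℝ)).exists_mem_open hopen
    ⟨_, ⟨_, ⟨⟨0, Metric.mem_ball_self hr, rfl⟩, rfl⟩⟩⟩
  obtain ⟨_, ⟨u, hu, rfl⟩, hum⟩ := hm
  refine ⟨n, m, ?_, x₀ + u + v, ?_, ?_, ?_⟩
  · intro y
    refine ⟨(e.symm y : W), ?_⟩
    rw [← he, e.apply_symm_apply]
  · refine ⟨v, ?_⟩
    rw [add_sub_cancel_right]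
    apply hball _ u.2
    simpa using hu
  · apply NDir_eq
    rw [add_sub_cancel_right]
    apply hball _ u.2
    simpa using hu
  · rw [← hum]
    simp only
    rw [he, ← map_add]
    congr 1
    abel

theorem generic : GenericStatement := by
  intro E _ _ _ C hC j hj S hS ε hε
  by_cases hN : finrank ℝ E < j
  · refine ⟨0, by simpa using hε, fun l _ x _ => ?_⟩
    exact lt_of_le_of_lt (Submodule.finrank_le _) hN
  push Not at hN
  -- the bad set
  let A := TopologicalSpace.denseSeq (E →L[ℝ] (Fin j → ℝ))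
  let b := TopologicalSpace.denseSeq (Fin j → ℝ)
  let T : List E → ℕ → ℕ → Set E := fun l n m =>
    {t | Function.Surjective (A n) ∧ ∃ x ∈ convexHull ℝ {y | y ∈ l}, ∃ w ∈ NDom C,
      NDir C w = x + t ∧ A n w = b m}
  have hdim : ∀ l ∈ S, ∀ n m, dimH (T l n m) ≤ ((finrank ℝ E - 1 : ℕ) : ENNReal) := by
    intro l hl n m
    by_cases hT : (T l n m).Nonempty
    · obtain ⟨t₀, hsurj, x₀, hx₀, w₀, hw₀, hw₀x, hw₀b⟩ := hT
      let V := vectorSpan ℝ {y | y ∈ l}
      let K := LinearMap.ker (A n).toLinearMap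
      let D : Set (K × V) := {p | w₀ + (p.1 : E) ∈ NDom C}
      let g : K × V → E := fun p => NDir C (w₀ + p.1) - (x₀ + p.2)
      have hsub : T l n m ⊆ g '' D := by
        rintro t ⟨_, x, hx, w, hw, hwx, hwb⟩
        have h1 : w - w₀ ∈ K := by
          change A n (w - w₀) = 0
          rw [map_sub, hwb, hw₀b, sub_self]
        have h2 : x - x₀ ∈ V := by
          have hA : x ∈ affineSpan ℝ {y | y ∈ l} := convexHull_subset_affineSpan _ hx
          have hB : x₀ ∈ affineSpan ℝ {y | y ∈ l} := convexHull_subset_affineSpan _ hx₀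
          have := AffineSubspace.vsub_mem_direction hA hB
          rwa [direction_affineSpan] at this
        refine ⟨(⟨w - w₀, h1⟩, ⟨x - x₀, h2⟩), ?_, ?_⟩
        · change w₀ + (w - w₀) ∈ NDom C
          rw [add_sub_cancel]; exact hw
        · change NDir C (w₀ + (w - w₀)) - (x₀ + (x - x₀)) = t
          rw [add_sub_cancel, add_sub_cancel, hwx]
          abel
      have hlip : LipschitzOnWith 2 g D := by
        apply LipschitzOnWith.of_dist_le_mul
        rintro ⟨u, s⟩ hu ⟨u', s'⟩ hu'
        have hd := NDir_lip C hu hu'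
        have e1 : dist (w₀ + (u : E)) (w₀ + u') = dist u u' := by
          rw [dist_add_left, Subtype.dist_eq]
        simp only at hd
        rw [e1] at hd
        have e2 : dist (x₀ + (s : E)) (x₀ + s') = dist s s' := by
          rw [dist_add_left, Subtype.dist_eq]
        have h3 : dist (g (u, s)) (g (u', s')) ≤ dist u u' + dist s s' := by
          change dist (NDir C (w₀ + u) - (x₀ + s)) (NDir C (w₀ + u') - (x₀ + s')) ≤ _
          refine (dist_sub_sub_le _ _ _ _).trans ?_
          rw [e2]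
          exact add_le_add hd le_rfl
        refine h3.trans ?_
        rw [Prod.dist_eq]
        have := le_max_left (dist u u') (dist s s')
        have := le_max_right (dist u u') (dist s s')
        simp only [NNReal.coe_ofNat]
        linarith
      refine (dimH_mono hsub).trans (hlip.dimH_image_le.trans ?_)
      refine (dimH_mono (subset_univ D)).trans ?_
      rw [Real.dimH_univ_eq_finrank, Module.finrank_prod]
      have hK : finrank ℝ K + j = finrank ℝ E := by
        have := LinearMap.finrank_range_add_finrank_ker (A n).toLinearMap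
        rw [LinearMap.range_eq_top.2 hsurj, finrank_top] at this
        simp only [Module.finrank_fin_fun] at this
        rw [← this, add_comm]
      have hV : finrank ℝ V + 1 ≤ j := by
        have hlen : l.length ≠ 0 := by
          intro h0
          rw [List.length_eq_zero_iff] at h0
          rw [h0] at hx₀
          simp at hx₀
        obtain ⟨k, hk⟩ := Nat.exists_eq_succ_of_ne_zero hlen
        have := finrank_vectorSpan_range_le ℝ l.get (n := k) (by rw [Fintype.card_fin, hk])
        rw [Set.range_list_get] at this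
        have h2 := hS l hl
        have h3 : finrank ℝ V ≤ k := this
        omega
      have : finrank ℝ K + finrank ℝ V ≤ finrank ℝ E - 1 := by omega
      exact_mod_cast this
    · rw [Set.not_nonempty_iff_eq_empty] at hT
      rw [hT, dimH_empty]
      exact bot_le
  have hbad : dimH (⋃ l : S, ⋃ n, ⋃ m, T l n m) < finrank ℝ E := by
    have h1 : dimH (⋃ l : S, ⋃ n, ⋃ m, T l n m) ≤ ((finrank ℝ E - 1 : ℕ) : ENNReal) := by
      rw [dimH_iUnion]
      apply iSup_le
      intro l
      rw [dimH_iUnion]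
      apply iSup_le
      intro n
      rw [dimH_iUnion]
      apply iSup_le
      intro m
      exact hdim l l.2 n m
    refine lt_of_le_of_lt h1 ?_
    have : finrank ℝ E - 1 < finrank ℝ E := by omega
    exact_mod_cast this
  have hdense := dense_compl_of_dimH_lt_finrank hbad
  obtain ⟨t, ht, htn⟩ := hdense.exists_dist_lt 0 hε
  refine ⟨t, by rwa [dist_zero_left] at htn, fun l hl x hx => ?_⟩
  by_contra hcon
  push Not at hcon
  have hne : (FaceOf C (x + t)).Nonempty := by
    by_contra h0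
    rw [Set.not_nonempty_iff_eq_empty] at h0
    rw [h0, vectorSpan_empty, finrank_bot] at hcon
    omega
  obtain ⟨n, m, hs, w, hw, hwv, hwb⟩ := cover hC hcon hne
  apply ht
  refine mem_iUnion.2 ⟨⟨l, hl⟩, mem_iUnion.2 ⟨n, mem_iUnion.2 ⟨m, hs, x, hx, w, hw, hwv, hwb⟩⟩⟩

end main

end STop
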