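import Pool.Agent.Lib.Pbb5b69.TightPart
import Pool.Agent.Lib.Pbb5b69.Generic
import Pool.Agent.Lib.Pbb5b69.Fund2
import Pool.Agent.Lib.Pbb5b69.Bridge
import Pool.Agent.Lib.Pbb5b69.ConeDefs

/-!
# Module Assemble: the dimension bound from the homological facts
-/

open Finsupp

namespace STop

open TP

section

variable {X : Type} [TopologicalSpace X]

theorem sum_prv (z : SC X) : z = ∑ m ∈ z.support.image Sing.nv, prv m z := by
  classical
  have h : (∑ m ∈ z.support.image Sing.nv, (prv m : SC X →ₗ[F2] SC X)) z =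
      (LinearMap.id : SC X →ₗ[F2] SC X) z := by
    apply eq_of_supp
    intro σ hσ
    rw [LinearMap.sum_apply, LinearMap.id_apply,
      Finset.sum_eq_single_of_mem σ.nv (Finset.mem_image_of_mem _ hσ), prv_single_of_eq rfl]
    intro m _ hm
    exact prv_single_of_ne (Ne.symm hm)
  rw [LinearMap.sum_apply, LinearMap.id_apply] at h
  exact h.symm

theorem mem_map_of_homog {A : Set X} {z : SC X}
    (h : ∀ m, ∃ e ∈ CIn A, bdS e = prv m z) : ∃ e ∈ CIn A, bdS e = z := by
  have : z ∈ (CIn A).map (bdS : SC X →ₗ[F2] SC X) := by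
    rw [sum_prv z]
    apply Submodule.sum_mem
    intro m _
    exact h m
  exact this

theorem bounds_zero {A : Set X} (hA : A.Nonempty) {z : SC X} (hz : z ∈ Deg X 0) :
    ∃ e ∈ CIn A, bdS e = z := by
  obtain ⟨x, hx⟩ := hA
  have : z ∈ (CIn A).map (bdS : SC X →ₗ[F2] SC X) := by
    refine supp_induction ((CIn A).map bdS) LinearMap.id ?_ hz
    intro σ hσ
    refine ⟨single (cst x 1) 1, single_mem_CIn (cst_In hx 1), ?_⟩
    rw [bdS_cst, LinearMap.id_apply, eq_e0 hσ, eq_e0 (σ := cst x (1 - 1)) rfl]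
    simp
  exact this

end

theorem tightC_of_isTight {P : Type} [TopologicalSpace P] {N : ℕ}
    {f : P → EuclideanSpace ℝ (Fin N)} (hf : TightPP.IsTight f) : TightC f := by
  intro v c hv hne z hz ⟨e, he⟩
  apply mem_map_of_homog
  intro m
  rcases Nat.eq_zero_or_pos m with h0 | h0
  · subst h0
    exact bounds_zero hne (prv_mem 0 z)
  · obtain ⟨k, rfl⟩ : ∃ k, m = k + 1 := ⟨m - 1, by omega⟩
    have h1 := hf.injective v c hv k
    have h2 := (Pbb5b69.hmap_incl_injective_iff k {x | c ≤ inner ℝ v (f x)}).1 h1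
    have hz' : bdS (prv (k + 1) z) = 0 := by
      rw [← he, ← bdS_prv, bdS_bdS]
    obtain ⟨c', hc', hcd⟩ := h2 (prv (k + 1) z) (prv_CIn hz _) (prv_mem _ _)
      (by rw [hz']; exact Submodule.zero_mem _)
      ⟨prv (k + 1 + 1) e, by
        rw [bdS_prv, he, add_self_eq_zero']
        exact Submodule.zero_mem _⟩
    refine ⟨prv (k + 1 + 1) c', prv_CIn hc' _, ?_⟩
    have h3 : prv (k + 1) (prv (k + 1) z + bdS c') = 0 := prv_of_mem_ne hcd (by omega)
    rw [map_add, prv_of_mem (prv_mem (k + 1) z)] at h3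
    rw [bdS_prv]
    exact (eq_of_add_eq_zero h3).symm

theorem affineSpan_of_isSubstantial {P : Type} [TopologicalSpace P] [Nonempty P] {N : ℕ}
    {f : P → EuclideanSpace ℝ (Fin N)} (hs : TightPP.IsSubstantial f) :
    affineSpan ℝ (Set.range f) = ⊤ := by
  by_contra hcon
  obtain ⟨x0⟩ := ‹Nonempty P›
  set W := vectorSpan ℝ (Set.range f) with hW
  have hWtop : W ≠ ⊤ := by
    intro h
    apply hcon
    have h2 : (affineSpan ℝ (Set.range f)).direction = ⊤ := by
      rw [direction_affineSpan]; exact h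
    have hne : ((affineSpan ℝ (Set.range f) : AffineSubspace ℝ (EuclideanSpace ℝ (Fin N))) :
        Set (EuclideanSpace ℝ (Fin N))).Nonempty :=
      ⟨f x0, subset_affineSpan ℝ _ (Set.mem_range_self x0)⟩
    exact (AffineSubspace.direction_eq_top_iff_of_nonempty hne).1 h2
  have hWo : Wᗮ ≠ ⊥ := fun h => hWtop ((Submodule.orthogonal_eq_bot_iff).1 h)
  obtain ⟨z, hz, hz0⟩ := Submodule.exists_mem_ne_zero_of_ne_bot hWo
  obtain ⟨x, hx⟩ := hs z (inner ℝ z (f x0)) hz0
  apply hx
  have h1 : f x - f x0 ∈ W := vsub_mem_vectorSpan ℝ ⟨x, rfl⟩ ⟨x0, rfl⟩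
  have h2 := (Submodule.mem_orthogonal' W z).1 hz _ h1
  rw [inner_sub_right] at h2
  linarith

/-- **The dimension bound from the homological facts.** -/
theorem bound_of_facts {d N : ℕ} {P : Type} [TopologicalSpace P]
    (hP : TightPP.IsLikeProjectivePlane d P) (hF : ∃ g, Facts P d g)
    (f : P → EuclideanSpace ℝ (Fin N)) (hf : TightPP.IsTight f)
    (hs : TightPP.IsSubstantial f) : N ≤ 3 * d + 2 := by
  obtain ⟨g, hF⟩ := hF
  have := hP.compact
  have := hP.hausdorff
  obtain ⟨S, _, ⟨φ⟩⟩ := hP.sphere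
  have : Nonempty P := ⟨(φ.symm 0 : (Sᶜ : Set P))⟩
  have := tight_bound hF generic fund f hf.continuous (affineSpan_of_isSubstantial hs)
    (tightC_of_isTight hf)
  rwa [finrank_euclideanSpace_fin] at this

end STop
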