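import Mathlib

/-!
# Mod 2 singular homology: from Mathlib's functor to explicit chains
-/

noncomputable section

namespace Pbb5b69

open CategoryTheory AlgebraicTopology Simplicial

/-- The category of vector spaces over the field with two elements. -/
abbrev M2 := ModuleCat.{0} (ZMod 2)

/-- The coefficient group. -/
abbrev F2 : M2 := ModuleCat.of (ZMod 2) (ZMod 2)

/-- The `k`-th singular homology of `X` with coefficients in `ZMod 2`. -/
abbrev Hom2 (k : ℕ) (X : Type) [TopologicalSpace X] : M2 :=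
  ((singularHomologyFunctor M2 k).obj F2).obj (TopCat.of X)

/-- The map induced by a continuous map on the `k`-th singular homology with coefficients
in `ZMod 2`. -/
def hmap (k : ℕ) {X Y : Type} [TopologicalSpace X] [TopologicalSpace Y] (g : C(X, Y)) :
    Hom2 k X ⟶ Hom2 k Y :=
  ((singularHomologyFunctor M2 k).obj F2).map (TopCat.ofHom g)

variable {X Y Z : Type} [TopologicalSpace X] [TopologicalSpace Y] [TopologicalSpace Z]

theorem hmap_id (k : ℕ) : hmap k (ContinuousMap.id X) = 𝟙 _ :=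
  ((singularHomologyFunctor M2 k).obj F2).map_id _

theorem hmap_comp (k : ℕ) (g : C(Y, Z)) (f : C(X, Y)) :
    hmap k (g.comp f) = hmap k f ≫ hmap k g :=
  ((singularHomologyFunctor M2 k).obj F2).map_comp _ _

theorem hmap_homotopic (k : ℕ) {f g : C(X, Y)} (h : f.Homotopic g) : hmap k f = hmap k g := by
  obtain ⟨H⟩ := h
  exact TopCat.Homotopy.congr_homologyMap_singularChainComplexFunctor
    (X := TopCat.of X) (Y := TopCat.of Y) (f := TopCat.ofHom f) (g := TopCat.ofHom g) H F2 k

/-- singular simplices -/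
abbrev Sp (n : ℕ) (X : Type) [TopologicalSpace X] := C(stdSimplex ℝ (Fin (n + 1)), X)

/-- the mod 2 singular chain complex of Mathlib -/
abbrev SC (X : Type) [TopologicalSpace X] : ChainComplex M2 ℕ :=
  (TopCat.toSSet.obj (TopCat.of X)).chainComplex F2

abbrev scmap (g : C(X, Y)) : SC X ⟶ SC Y :=
  SSet.chainComplexMap (TopCat.toSSet.map (TopCat.ofHom g)) F2

theorem hmap_eq (k : ℕ) (g : C(X, Y)) :
    hmap k g = HomologicalComplex.homologyMap (scmap g) k := rfl

/-- Mathlib's simplices -/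
abbrev MS (n : ℕ) (X : Type) [TopologicalSpace X] := (TopCat.toSSet.obj (TopCat.of X)) _⦋n⦌

/-- the comparison of simplices -/
def spEquiv (n : ℕ) (X : Type) [TopologicalSpace X] : MS n X ≃ Sp n X :=
  TopCat.toSSetObjEquiv (TopCat.of X) (Opposite.op ⦋n⦌)

/-- explicit chains -/
abbrev Ch (n : ℕ) (X : Type) [TopologicalSpace X] := Sp n X →₀ ZMod 2

/-- face of a simplex -/
def face {n : ℕ} (i : Fin (n + 2)) (s : Sp (n + 1) X) : Sp n X :=
  s.comp ⟨_, stdSimplex.continuous_map (S := ℝ) (SimplexCategory.δ i).toOrderHom⟩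

theorem spEquiv_δ {n : ℕ} (i : Fin (n + 2)) (s : MS (n + 1) X) :
    spEquiv n X ((TopCat.toSSet.obj (TopCat.of X)).δ i s) = face i (spEquiv (n + 1) X s) := by
  rfl

theorem spEquiv_map {n : ℕ} (g : C(X, Y)) (s : MS n X) :
    spEquiv n Y ((TopCat.toSSet.map (TopCat.ofHom g)).app _ s) = g.comp (spEquiv n X s) := by
  rfl

/-- the summand inclusion in Mathlib's chain group -/
abbrev mι {n : ℕ} (s : MS n X) : F2 ⟶ (SC X).X n :=
  SSet.ιChainComplex (R := F2) (TopCat.toSSet.obj (TopCat.of X)) s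

/-- from explicit chains to Mathlib's chains -/
def toM (n : ℕ) (X : Type) [TopologicalSpace X] : Ch n X →ₗ[ZMod 2] (SC X).X n :=
  Finsupp.lsum (ZMod 2) (fun s => (mι ((spEquiv n X).symm s)).hom)

/-- from Mathlib's chains to explicit chains -/
def ofM (n : ℕ) (X : Type) [TopologicalSpace X] : (SC X).X n ⟶ ModuleCat.of (ZMod 2) (Ch n X) :=
  Limits.Sigma.desc (fun s => ModuleCat.ofHom (Finsupp.lsingle (spEquiv n X s)))

theorem mι_ofM {n : ℕ} (s : MS n X) :
    mι s ≫ ofM n X = ModuleCat.ofHom (Finsupp.lsingle (spEquiv n X s)) :=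
  Limits.Sigma.ι_desc _ _

theorem toM_single {n : ℕ} (s : Sp n X) (a : ZMod 2) :
    toM n X (Finsupp.single s a) = (mι ((spEquiv n X).symm s)).hom a := by
  simp [toM]

theorem ofM_toM {n : ℕ} (c : Ch n X) : (ofM n X).hom (toM n X c) = c := by
  have : (ofM n X).hom ∘ₗ (toM n X) = LinearMap.id := by
    apply Finsupp.lhom_ext
    intro s a
    rw [LinearMap.comp_apply, toM_single]
    have := congrArg (fun f => f.hom a) (mι_ofM ((spEquiv n X).symm s))
    simp only [ModuleCat.hom_comp, LinearMap.comp_apply, ModuleCat.hom_ofHom,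
      Finsupp.lsingle_apply, Equiv.apply_symm_apply] at this
    exact this
  exact LinearMap.congr_fun this c

theorem toM_ofM {n : ℕ} (c : (SC X).X n) : toM n X ((ofM n X).hom c) = c := by
  have : ofM n X ≫ ModuleCat.ofHom (toM n X) = 𝟙 _ := by
    apply SSet.chainComplex_hom_ext
    intro s
    refine (Category.assoc _ _ _).symm.trans ?_
    rw [mι_ofM, Category.comp_id]
    ext a
    simp only [ModuleCat.hom_comp, LinearMap.comp_apply, ModuleCat.hom_ofHom,
      Finsupp.lsingle_apply]
    rw [toM_single, Equiv.symm_apply_apply]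
  exact congrArg (fun f => f.hom c) this

section gen

variable {K L : ChainComplex M2 ℕ}

theorem iCyc_d {k : ℕ} (z : K.cycles k) (j : ℕ) : (K.d k j).hom ((K.iCycles k).hom z) = 0 := by
  exact congrArg (fun f => f.hom z) (K.iCycles_d k j)

theorem exists_cyc {k : ℕ} (w : K.X k) (hw : ∀ j, (K.d k j).hom w = 0) :
    ∃ z : K.cycles k, (K.iCycles k).hom z = w := by
  let f : F2 ⟶ K.X k := ModuleCat.ofHom (LinearMap.toSpanSingleton (ZMod 2) _ w)
  have hf : f ≫ K.d k ((ComplexShape.down ℕ).next k) = 0 := by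
    ext
    simp [f, hw]
  refine ⟨(K.liftCycles f _ rfl hf).hom 1, ?_⟩
  have := congrArg (fun f => f.hom (1 : ZMod 2)) (K.liftCycles_i f _ rfl hf)
  refine Eq.trans this ?_
  simp [f]

theorem pi_surj (k : ℕ) (x : K.homology k) : ∃ z : K.cycles k, (K.homologyπ k).hom z = x :=
  (ModuleCat.epi_iff_surjective (K.homologyπ k)).1 inferInstance x

theorem pi_eq_zero {k : ℕ} (z : K.cycles k) :
    (K.homologyπ k).hom z = 0 ↔ ∃ u : K.X (k + 1), (K.d (k + 1) k).hom u = (K.iCycles k).hom z := by
  have hex : (ShortComplex.mk (K.toCycles (k + 1) k) (K.homologyπ k) (by simp)).Exact :=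
    ShortComplex.exact_of_g_is_cokernel _ (K.homologyIsCokernel (k + 1) k (by simp))
  rw [ShortComplex.moduleCat_exact_iff] at hex
  constructor
  · intro h
    obtain ⟨u, hu⟩ := hex z h
    refine ⟨u, ?_⟩
    have := congrArg (fun f => f.hom u) (K.toCycles_i (k + 1) k)
    simp only [ModuleCat.hom_comp, LinearMap.comp_apply] at this
    rw [← this]
    congr 1
  · rintro ⟨u, hu⟩
    have h1 : (K.toCycles (k + 1) k).hom u = z := by
      apply (ModuleCat.mono_iff_injective (K.iCycles k)).1 inferInstance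
      have := congrArg (fun f => f.hom u) (K.toCycles_i (k + 1) k)
      simp only [ModuleCat.hom_comp, LinearMap.comp_apply] at this
      exact this.trans hu
    rw [← h1]
    exact congrArg (fun f => f.hom u) (K.toCycles_comp_homologyπ (k + 1) k)

theorem homologyMap_injective_iff (φ : K ⟶ L) (k : ℕ) :
    Function.Injective (HomologicalComplex.homologyMap φ k).hom ↔
      ∀ w : K.X k, (∀ j, (K.d k j).hom w = 0) →
        (∃ u : L.X (k + 1), (L.d (k + 1) k).hom u = (φ.f k).hom w) →
          ∃ v : K.X (k + 1), (K.d (k + 1) k).hom v = w := by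
  have nat1 : ∀ z : K.cycles k, (HomologicalComplex.homologyMap φ k).hom ((K.homologyπ k).hom z) =
      (L.homologyπ k).hom ((HomologicalComplex.cyclesMap φ k).hom z) := fun z =>
    congrArg (fun f => f.hom z) (HomologicalComplex.homologyπ_naturality φ k)
  have nat2 : ∀ z : K.cycles k, (L.iCycles k).hom ((HomologicalComplex.cyclesMap φ k).hom z) =
      (φ.f k).hom ((K.iCycles k).hom z) := fun z =>
    congrArg (fun f => f.hom z) (HomologicalComplex.cyclesMap_i φ k)
  rw [injective_iff_map_eq_zero]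
  constructor
  · rintro h w hw ⟨u, hu⟩
    obtain ⟨z, rfl⟩ := exists_cyc w hw
    rw [← pi_eq_zero]
    apply h
    rw [nat1, pi_eq_zero]
    exact ⟨u, by rw [nat2, hu]⟩
  · intro h x hx
    obtain ⟨z, rfl⟩ := pi_surj k x
    rw [nat1, pi_eq_zero] at hx
    obtain ⟨u, hu⟩ := hx
    rw [pi_eq_zero]
    exact h _ (iCyc_d z) ⟨u, by rw [hu, nat2]⟩

theorem isZero_homology_iff (k : ℕ) :
    (∀ x : K.homology k, x = 0) ↔
      ∀ w : K.X k, (∀ j, (K.d k j).hom w = 0) →
          ∃ v : K.X (k + 1), (K.d (k + 1) k).hom v = w := by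
  constructor
  · rintro h w hw
    obtain ⟨z, rfl⟩ := exists_cyc w hw
    rw [← pi_eq_zero]
    exact h _
  · intro h x
    obtain ⟨z, rfl⟩ := pi_surj k x
    rw [pi_eq_zero]
    exact h _ (iCyc_d z)

end gen

/-- The boundary of a mod 2 chain. -/
def bd {n : ℕ} : Ch (n + 1) X →ₗ[ZMod 2] Ch n X :=
  ∑ i : Fin (n + 2), Finsupp.lmapDomain (ZMod 2) (ZMod 2) (face i)

/-- The image of a chain. -/
def push {n : ℕ} (g : C(X, Y)) : Ch n X →ₗ[ZMod 2] Ch n Y :=
  Finsupp.lmapDomain (ZMod 2) (ZMod 2) (fun s => g.comp s)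

theorem bd_single {n : ℕ} (s : Sp (n + 1) X) (a : ZMod 2) :
    bd (Finsupp.single s a) = ∑ i : Fin (n + 2), Finsupp.single (face i s) a := by
  simp [bd, LinearMap.sum_apply]

theorem push_single {n : ℕ} (g : C(X, Y)) (s : Sp n X) (a : ZMod 2) :
    push g (Finsupp.single s a) = Finsupp.single (g.comp s) a := by
  simp [push]

theorem two_eq_zero' (M : Type) [AddCommGroup M] [Module (ZMod 2) M] (x : M) : -x = x := by
  have h : (-1 : ZMod 2) = 1 := by decide
  rw [← neg_one_smul (ZMod 2) x, h, one_smul]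

theorem ofM_d {n : ℕ} (c : (SC X).X (n + 1)) :
    (ofM n X).hom (((SC X).d (n + 1) n).hom c) = bd ((ofM (n + 1) X).hom c) := by
  have : (SC X).d (n + 1) n ≫ ofM n X = ofM (n + 1) X ≫ ModuleCat.ofHom bd := by
    apply SSet.chainComplex_hom_ext
    intro s
    refine (Category.assoc _ _ _).symm.trans ?_
    refine Eq.trans ?_ (Category.assoc _ _ _)
    rw [mι_ofM, SSet.ιChainComplex_d, Preadditive.sum_comp]
    ext
    simp only [ModuleCat.hom_comp, LinearMap.comp_apply, ModuleCat.hom_ofHom,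
      Finsupp.lsingle_apply, ModuleCat.hom_sum, LinearMap.sum_apply]
    rw [bd_single]
    refine congrArg (fun f : Ch n X => f _) (Finset.sum_congr rfl fun i _ => ?_)
    have key : ∀ (t : MS n X), (ofM n X).hom ((((-1) ^ (i : ℕ) : ℤ) • mι t).hom 1) =
        Finsupp.single (spEquiv n X t) 1 := by
      intro t
      have h1 := congrArg (fun f => f.hom (1 : ZMod 2)) (mι_ofM t)
      simp only [ModuleCat.hom_comp, LinearMap.comp_apply, ModuleCat.hom_ofHom,
        Finsupp.lsingle_apply] at h1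
      rcases neg_one_pow_eq_or ℤ (i : ℕ) with h | h
      · rw [h, one_smul]
        exact h1
      · rw [h, neg_one_smul, ModuleCat.hom_neg, LinearMap.neg_apply, map_neg]
        rw [two_eq_zero']
        exact h1
    exact key _
  exact congrArg (fun f => f.hom c) this

theorem ofM_map {n : ℕ} (g : C(X, Y)) (c : (SC X).X n) :
    (ofM n Y).hom (((scmap g).f n).hom c) = push g ((ofM n X).hom c) := by
  have : (scmap g).f n ≫ ofM n Y = ofM n X ≫ ModuleCat.ofHom (push g) := by
    apply SSet.chainComplex_hom_ext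
    intro s
    refine (Category.assoc _ _ _).symm.trans ?_
    refine Eq.trans ?_ (Category.assoc _ _ _)
    rw [mι_ofM, SSet.ι_chainComplexMap_f]
    refine Eq.trans (mι_ofM (X := Y) _) ?_
    ext
    simp only [ModuleCat.hom_comp, LinearMap.comp_apply, ModuleCat.hom_ofHom,
      Finsupp.lsingle_apply]
    rw [push_single]
    rfl
  exact congrArg (fun f => f.hom c) this

/-- cycles -/
def IsCyc {n : ℕ} (c : Ch n X) : Prop :=
  match n, c with
  | 0, _ => True
  | _ + 1, c => bd c = 0

theorem isCyc_iff {k : ℕ} (w : (SC X).X k) :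
    (∀ j, ((SC X).d k j).hom w = 0) ↔ IsCyc ((ofM k X).hom w) := by
  cases k with
  | zero =>
    simp only [IsCyc, iff_true]
    intro j
    rw [(SC X).shape 0 j (by simp)]
    rfl
  | succ n =>
    simp only [IsCyc]
    constructor
    · intro h
      rw [← ofM_d, h n, map_zero]
    · intro h j
      by_cases hj : j = n
      · subst hj
        rw [← toM_ofM (((SC X).d (j + 1) j).hom w), ofM_d, h, map_zero]
      · rw [(SC X).shape (n + 1) j (by simpa using fun h => hj h)]
        rfl

theorem ofM_inj {k : ℕ} {u v : (SC X).X k} (h : (ofM k X).hom u = (ofM k X).hom v) : u = v := by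
  rw [← toM_ofM u, h, toM_ofM]

theorem hmap_injective_iff (k : ℕ) (g : C(X, Y)) :
    Function.Injective (hmap k g).hom ↔
      ∀ c : Ch k X, IsCyc c → (∃ e : Ch (k + 1) Y, bd e = push g c) →
        ∃ e : Ch (k + 1) X, bd e = c := by
  refine Iff.trans (homologyMap_injective_iff (scmap g) k) ?_
  constructor
  · rintro h c hc ⟨e, he⟩
    obtain ⟨v, hv⟩ := h (toM k X c) (by rw [isCyc_iff, ofM_toM]; exact hc)
      ⟨toM (k + 1) Y e, by
        apply ofM_inj
        rw [ofM_d, ofM_toM, he, ofM_map, ofM_toM]⟩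
    exact ⟨(ofM (k + 1) X).hom v, by rw [← ofM_d, hv, ofM_toM]⟩
  · rintro h w hw ⟨u, hu⟩
    obtain ⟨e, he⟩ := h ((ofM k X).hom w) ((isCyc_iff w).1 hw)
      ⟨(ofM (k + 1) Y).hom u, by rw [← ofM_d, hu, ofM_map]⟩
    exact ⟨toM (k + 1) X e, ofM_inj (by rw [ofM_d, ofM_toM, he])⟩

theorem hom2_zero_iff (k : ℕ) :
    (∀ x : Hom2 k X, x = 0) ↔
      ∀ c : Ch k X, IsCyc c → ∃ e : Ch (k + 1) X, bd e = c := by
  change (∀ x : (SC X).homology k, x = 0) ↔ _
  rw [isZero_homology_iff]
  constructor
  · rintro h c hc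
    obtain ⟨v, hv⟩ := h (toM k X c) (by rw [isCyc_iff, ofM_toM]; exact hc)
    exact ⟨(ofM (k + 1) X).hom v, by rw [← ofM_d, hv, ofM_toM]⟩
  · rintro h w hw
    obtain ⟨e, he⟩ := h ((ofM k X).hom w) ((isCyc_iff w).1 hw)
    exact ⟨toM (k + 1) X e, ofM_inj (by rw [ofM_d, ofM_toM, he])⟩

/-- Points have no homology in positive degrees. -/
theorem hom2_unit (k : ℕ) (hk : k ≠ 0) (x : Hom2 k Unit) : x = 0 := by
  have h := isZero_singularHomologyFunctor_of_totallyDisconnectedSpace M2 k F2 (TopCat.of Unit) hk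
  exact (ModuleCat.subsingleton_of_isZero h).elim _ _

/-- Contractible spaces have no homology in positive degrees. -/
theorem hom2_contractible [ContractibleSpace X] (k : ℕ) (hk : k ≠ 0) (x : Hom2 k X) : x = 0 := by
  obtain ⟨p, hp⟩ := (id_nullhomotopic X)
  have h1 : hmap k (ContinuousMap.id X) = hmap k (ContinuousMap.const X p) := hmap_homotopic k hp
  have h2 : (ContinuousMap.const X p) =
      (ContinuousMap.const Unit p).comp (ContinuousMap.const X ()) := rfl
  rw [hmap_id, h2, hmap_comp] at h1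
  have h3 := congrArg (fun f => f.hom x) h1
  simp only [ModuleCat.hom_id, LinearMap.id_apply, ModuleCat.hom_comp, LinearMap.comp_apply] at h3
  rw [h3, hom2_unit k hk ((hmap k (ContinuousMap.const X ())).hom x), map_zero]

end Pbb5b69
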