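import Pool.Agent.Lib.Pbb5b69.Deform

/-!
# The real projective plane is a manifold like a projective plane
-/

noncomputable section

namespace Pbb5b69

open Metric

/-- the vector `(1, u, v)` in coordinates `i, j, k` -/
def vec3 (i j : Fin 3) (u v : ℝ) : E3 :=
  WithLp.toLp 2 fun a => if a = i then 1 else if a = j then u else v

theorem vec3_ne_zero (i j : Fin 3) (u v : ℝ) : vec3 i j u v ≠ 0 := by
  intro h
  have := congrArg (fun x : E3 => x i) h
  simp [vec3] at this

/-- the affine chart -/
def affU (i : Fin 3) : Set PP := {A | A.1 i i ≠ 0}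

theorem isOpen_affU (i : Fin 3) : IsOpen (affU i) := by
  have : Continuous fun A : PP => A.1 i i :=
    (continuous_apply i).comp ((continuous_apply i).comp continuous_PPval)
  exact isOpen_ne.preimage this

/-- the chart -/
def chart (i j k : Fin 3) (hij : i ≠ j) (hik : i ≠ k) (hjk : j ≠ k) :
    affU i ≃ₜ EuclideanSpace ℝ (Fin 2) where
  toFun A := WithLp.toLp 2 ![A.1.1 i j / A.1.1 i i, A.1.1 i k / A.1.1 i i]
  invFun y := ⟨⟨nrm (ver (vec3 i j (y 0) (y 1))), ‖vec3 i j (y 0) (y 1)‖⁻¹ • vec3 i j (y 0) (y 1),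
      unit_normalize (vec3_ne_zero i j _ _), (nrm_ver _).symm⟩, by
    change nrm (ver (vec3 i j (y 0) (y 1))) i i ≠ 0
    rw [nrm, tr_ver]
    refine div_ne_zero ?_ (pow_ne_zero _ (norm_ne_zero_iff.2 (vec3_ne_zero i j _ _)))
    simp [ver, vec3]⟩
  left_inv := by
    rintro ⟨⟨A, x, hx, rfl⟩, hA⟩
    have hxi : x i ≠ 0 := fun h => hA (by simp [ver, h])
    apply Subtype.ext
    apply Subtype.ext
    change nrm (ver (vec3 i j (ver x i j / ver x i i) (ver x i k / ver x i i))) = ver x
    have h1 : vec3 i j (ver x i j / ver x i i) (ver x i k / ver x i i) = (x i)⁻¹ • x := by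
      ext a
      have ha : a = i ∨ a = j ∨ a = k := by
        clear * - hij hik hjk
        revert i j k a
        decide
      rcases ha with rfl | rfl | rfl
      · simp [vec3, hxi]
      · simp only [vec3, ver, if_neg hij.symm, PiLp.smul_apply, smul_eq_mul, if_true]
        rw [mul_div_mul_left _ _ hxi, div_eq_inv_mul]
      · simp only [vec3, ver, if_neg hik.symm, if_neg hjk.symm, PiLp.smul_apply, smul_eq_mul]
        rw [mul_div_mul_left _ _ hxi, div_eq_inv_mul]
    rw [h1, nrm_ver, norm_smul, hx, mul_one, smul_smul, ver_smul]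
    ext a b
    have : (‖(x i)⁻¹‖⁻¹ * (x i)⁻¹) ^ 2 = 1 := by
      rw [mul_pow, inv_pow, Real.norm_eq_abs, sq_abs]
      field_simp
    rw [this, one_mul]
  right_inv := by
    intro y
    ext a
    change ![nrm (ver (vec3 i j (y 0) (y 1))) i j / nrm (ver (vec3 i j (y 0) (y 1))) i i,
      nrm (ver (vec3 i j (y 0) (y 1))) i k / nrm (ver (vec3 i j (y 0) (y 1))) i i] a = y a
    have ht : tr (ver (vec3 i j (y 0) (y 1))) ≠ 0 := by
      rw [tr_ver]
      exact pow_ne_zero _ (norm_ne_zero_iff.2 (vec3_ne_zero i j _ _))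
    fin_cases a
    · simp only [nrm, ver, vec3, if_neg hij.symm]
      simp
      field_simp
      exact mul_div_cancel_right₀ _ ht
    · simp only [nrm, ver, vec3, if_neg hik.symm, if_neg hjk.symm]
      simp
      field_simp
      exact mul_div_cancel_right₀ _ ht
  continuous_toFun := by
    have hA : ∀ a b, Continuous fun A : affU i => A.1.1 a b := fun a b =>
      (continuous_apply b).comp ((continuous_apply a).comp
        (continuous_PPval.comp continuous_subtype_val))
    refine (PiLp.continuous_toLp 2 _).comp (continuous_pi fun a => ?_)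
    fin_cases a
    · exact (hA i j).div (hA i i) fun A => A.2
    · exact (hA i k).div (hA i i) fun A => A.2
  continuous_invFun := by
    refine Continuous.subtype_mk (Continuous.subtype_mk ?_ _) _
    have hv : ∀ a, Continuous fun y : EuclideanSpace ℝ (Fin 2) => vec3 i j (y 0) (y 1) a := by
      intro a
      simp only [vec3]
      split_ifs
      · exact continuous_const
      · fun_prop
      · fun_prop
    have hc : ∀ a b, Continuous fun y : EuclideanSpace ℝ (Fin 2) =>
        ver (vec3 i j (y 0) (y 1)) a b := fun a b => (hv a).mul (hv b)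
    refine continuous_pi fun a => continuous_pi fun b => ?_
    unfold nrm
    refine (hc a b).div ?_ ?_
    · unfold tr
      exact continuous_finsetSum _ fun k _ => hc k k
    · intro y
      rw [tr_ver]
      exact pow_ne_zero _ (norm_ne_zero_iff.2 (vec3_ne_zero i j _ _))

/-- the line at infinity -/
def lineInf : Set PP := {A | A.1 0 0 = 0}

theorem lineInf_compl : lineInfᶜ = affU 0 := rfl

theorem ver_zero_iff (x : E3) (i : Fin 3) : ver x i i = 0 ↔ x i = 0 := by
  simp [ver]

theorem exists_mem_affU (A : PP) : ∃ i, A ∈ affU i := by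
  obtain ⟨A, x, hx, rfl⟩ := A
  by_contra hc
  push Not at hc
  have h : ∀ i, x i = 0 := by
    intro i
    have := hc i
    simp only [affU, Set.mem_ofPred_eq, not_not] at this
    exact (ver_zero_iff x i).1 this
  have : x = 0 := by ext i; simpa using h i
  rw [this, norm_zero] at hx
  exact zero_ne_one hx

/-- the parametrisation of the line at infinity -/
def circInf : lineInf ≃ₜ sphere (0 : EuclideanSpace ℝ (Fin 2)) 1 where
  toFun A := ⟨WithLp.toLp 2 ![A.1.1 1 1 - A.1.1 2 2, 2 * A.1.1 1 2], by
    obtain ⟨⟨A, x, hx, rfl⟩, hA⟩ := A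
    have h0 : x 0 = 0 := (ver_zero_iff x 0).1 hA
    have h1 : x 1 ^ 2 + x 2 ^ 2 = 1 := by
      have := norm_sq_eq x
      rw [hx, h0] at this
      linarith
    rw [mem_sphere_zero_iff_norm, EuclideanSpace.norm_eq, Real.sqrt_eq_one, Fin.sum_univ_two]
    simp only [ver, Real.norm_eq_abs, sq_abs, Matrix.cons_val_zero, Matrix.cons_val_one]
    nlinarith⟩
  invFun y := ⟨⟨![![0, 0, 0], ![0, (1 + y.1 0) / 2, y.1 1 / 2], ![0, y.1 1 / 2, (1 - y.1 0) / 2]],
      by
    have h1 : y.1 0 ^ 2 + y.1 1 ^ 2 = 1 := by
      have := y.2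
      rw [mem_sphere_zero_iff_norm, EuclideanSpace.norm_eq, Real.sqrt_eq_one,
        Fin.sum_univ_two] at this
      simpa [Real.norm_eq_abs, sq_abs] using this
    obtain ⟨θ, hc, hs⟩ := exists_angle h1
    have e1 : y.1 0 = Real.cos (θ / 2) ^ 2 - Real.sin (θ / 2) ^ 2 := by
      rw [← hc]
      have := Real.cos_two_mul' (θ / 2)
      rwa [mul_div_cancel₀ _ (two_ne_zero' ℝ)] at this
    have e2 : y.1 1 = 2 * Real.sin (θ / 2) * Real.cos (θ / 2) := by
      rw [← hs]
      have := Real.sin_two_mul (θ / 2)
      rwa [mul_div_cancel₀ _ (two_ne_zero' ℝ)] at this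
    have e3 := Real.sin_sq_add_cos_sq (θ / 2)
    refine ⟨WithLp.toLp 2 ![0, Real.cos (θ / 2), Real.sin (θ / 2)], ?_, ?_⟩
    · rw [EuclideanSpace.norm_eq, Real.sqrt_eq_one, Fin.sum_univ_three]
      simp [Real.norm_eq_abs, sq_abs]
    · rw [e1, e2]
      ext a b
      fin_cases a <;> fin_cases b <;> simp [ver] <;> nlinarith⟩, rfl⟩
  left_inv := by
    rintro ⟨⟨A, x, hx, rfl⟩, hA⟩
    have h0 : x 0 = 0 := (ver_zero_iff x 0).1 hA
    have h1 : x 1 ^ 2 + x 2 ^ 2 = 1 := by
      have := norm_sq_eq x
      rw [hx, h0] at this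
      linarith
    apply Subtype.ext
    apply Subtype.ext
    ext a b
    fin_cases a <;> fin_cases b <;> simp [ver, h0] <;> nlinarith
  right_inv := by
    intro y
    apply Subtype.ext
    ext a
    fin_cases a
    · simp; ring
    · simp; ring
  continuous_toFun := by
    have hA : ∀ a b, Continuous fun A : lineInf => A.1.1 a b := fun a b =>
      (continuous_apply b).comp ((continuous_apply a).comp
        (continuous_PPval.comp continuous_subtype_val))
    refine Continuous.subtype_mk ((PiLp.continuous_toLp 2 _).comp (continuous_pi fun a => ?_)) _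
    fin_cases a
    · exact (hA 1 1).sub (hA 2 2)
    · exact continuous_const.mul (hA 1 2)
  continuous_invFun := by
    refine Continuous.subtype_mk (Continuous.subtype_mk ?_ _) _
    refine continuous_pi fun a => continuous_pi fun b => ?_
    fin_cases a <;> fin_cases b <;> simp <;> fun_prop

end Pbb5b69
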