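import Pool.Agent.Lib.Pbb5b69.Charts
import Pool.Agent.Lib.Pbb5b69.ConeDefs

/-!
# A tight substantial map of the real projective plane onto a cone over a circle
-/

noncomputable section

namespace Pbb5b69

open Metric TightPP

theorem inclHom_eq (k : ℕ) {X : Type} [TopologicalSpace X] (A : Set X) :
    inclHom k A = hmap k (inclC A) := rfl

theorem PP_like : IsLikeProjectivePlane 1 PP where
  pos := le_rfl
  compact := inferInstance
  hausdorff := inferInstance
  countable := inferInstanceAs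
    (SecondCountableTopology {A : Mat // ∃ x : E3, ‖x‖ = 1 ∧ ver x = A})
  locallyEuclidean := by
    intro A
    obtain ⟨i, hi⟩ := exists_mem_affU A
    have h : ∃ j k : Fin 3, i ≠ j ∧ i ≠ k ∧ j ≠ k := by
      clear hi
      revert i
      decide
    obtain ⟨j, k, hij, hik, hjk⟩ := h
    exact ⟨affU i, isOpen_affU i, hi, ⟨chart i j k hij hik hjk⟩⟩
  sphere := by
    refine ⟨lineInf, ⟨⟨circInf⟩, ?_⟩, ⟨chart 0 1 2 (by decide) (by decide) (by decide)⟩⟩
    intro A hA
    obtain ⟨i, hi⟩ := exists_mem_affU A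
    have hi0 : i ≠ 0 := by
      rintro rfl
      exact hi hA
    have h : ∃ j : Fin 3, i ≠ j ∧ j ≠ 0 := by
      clear hi
      revert i
      decide
    obtain ⟨j, hij, hj0⟩ := h
    refine ⟨affU i, chart i j 0 hij hi0 hj0, isOpen_affU i, hi, ?_⟩
    rintro ⟨⟨B, x, hx, rfl⟩, hB⟩
    have hxi : x i ≠ 0 := fun h => hB (by simp [ver, h])
    constructor
    · intro h k hk
      have hk1 : k = 1 := by
        clear * - hk
        revert k
        decide
      subst hk1
      have h0 : x 0 = 0 := (ver_zero_iff x 0).1 h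
      change ver x i 0 / ver x i i = 0
      simp [ver, h0]
    · intro h
      have h1 := h 1 le_rfl
      change ver x i 0 / ver x i i = 0 at h1
      change ver x 0 0 = 0
      simp only [ver] at h1 ⊢
      rcases div_eq_zero_iff.1 h1 with h2 | h2
      · rcases mul_eq_zero.1 h2 with h3 | h3
        · exact absurd h3 hxi
        · rw [h3, mul_zero]
      · exact absurd (mul_self_eq_zero.1 h2) hxi

/-- every symmetric quadratic form is diagonal in an orthonormal basis -/
theorem exists_diag (Q : Matrix (Fin 3) (Fin 3) ℝ) (hQ : Q.IsHermitian) :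
    ∃ (b : OrthonormalBasis (Fin 3) ℝ E3) (lam : Fin 3 → ℝ),
      ∀ x : E3, qf b lam x = ∑ i, ∑ j, Q i j * x i * x j := by
  refine ⟨hQ.eigenvectorBasis, hQ.eigenvalues, fun x => ?_⟩
  set b := hQ.eigenvectorBasis with hb
  let T : E3 → E3 := fun x => WithLp.toLp 2 (Q.mulVec x)
  have hT : ∀ x i, T x i = ∑ j, Q i j * x j := fun x i => rfl
  have hsym : ∀ i j, Q i j = Q j i := fun i j => by
    have := congrFun (congrFun hQ j) i
    simpa using this
  have h1 : ∀ i, inner ℝ (b i) (T x) = hQ.eigenvalues i * inner ℝ (b i) x := by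
    intro i
    have e : ∀ l, ∑ k, Q l k * (b i) k = hQ.eigenvalues i * (b i) l := by
      intro l
      have := congrFun (hQ.mulVec_eigenvectorBasis i) l
      simpa [Matrix.mulVec, dotProduct] using this
    simp only [PiLp.inner_apply, RCLike.inner_apply, conj_trivial, hT]
    have e' : ∀ l, x l * (hQ.eigenvalues i * (b i) l) = x l * ∑ k, Q l k * (b i) k := fun l => by
      rw [e]
    calc ∑ k, (∑ l, Q k l * x l) * (b i) k = ∑ l, x l * ∑ k, Q l k * (b i) k := by
          simp only [Finset.sum_mul, Finset.mul_sum]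
          rw [Finset.sum_comm]
          refine Finset.sum_congr rfl fun l _ => Finset.sum_congr rfl fun k _ => ?_
          rw [hsym k l]
          ring
      _ = ∑ l, x l * (hQ.eigenvalues i * (b i) l) := Finset.sum_congr rfl fun l _ => (e' l).symm
      _ = _ := by
          rw [Finset.mul_sum]
          refine Finset.sum_congr rfl fun l _ => ?_
          ring
  have h2 : ∑ i, ∑ j, Q i j * x i * x j = inner ℝ x (T x) := by
    simp only [PiLp.inner_apply, RCLike.inner_apply, conj_trivial, hT, Finset.sum_mul]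
    refine Finset.sum_congr rfl fun l _ => Finset.sum_congr rfl fun k _ => ?_
    ring
  rw [h2, ← OrthonormalBasis.sum_inner_mul_inner b]
  rw [qf]
  refine Finset.sum_congr rfl fun i _ => ?_
  rw [h1, real_inner_comm x]
  ring

/-- the map onto the cone -/
def fcone (A : PP) : EuclideanSpace ℝ (Fin 3) :=
  WithLp.toLp 2 ![A.1 1 1 + A.1 2 2, A.1 1 1 - A.1 2 2, 2 * A.1 1 2]

theorem continuous_fcone : Continuous fcone := by
  have hA : ∀ a b, Continuous fun A : PP => A.1 a b := fun a b =>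
    (continuous_apply b).comp ((continuous_apply a).comp continuous_PPval)
  refine (PiLp.continuous_toLp 2 _).comp (continuous_pi fun a => ?_)
  fin_cases a
  · exact (hA 1 1).add (hA 2 2)
  · exact (hA 1 1).sub (hA 2 2)
  · exact continuous_const.mul (hA 1 2)

theorem inner_fcone (z : EuclideanSpace ℝ (Fin 3)) (A : PP) :
    inner ℝ z (fcone A) = z 0 * (A.1 1 1 + A.1 2 2) + z 1 * (A.1 1 1 - A.1 2 2) +
      z 2 * (2 * A.1 1 2) := by
  simp only [PiLp.inner_apply, RCLike.inner_apply, conj_trivial, Fin.sum_univ_three, fcone]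
  simp
  ring

theorem halfspace_eq (z : EuclideanSpace ℝ (Fin 3)) (t : ℝ) :
    ∃ (b : OrthonormalBasis (Fin 3) ℝ E3) (lam : Fin 3 → ℝ),
      {A : PP | t ≤ inner ℝ z (fcone A)} = Sset b lam := by
  let Q : Matrix (Fin 3) (Fin 3) ℝ :=
    !![-t, 0, 0; 0, z 0 + z 1 - t, z 2; 0, z 2, z 0 - z 1 - t]
  have hQ : Q.IsHermitian := by
    ext i j
    fin_cases i <;> fin_cases j <;> simp [Q]
  obtain ⟨b, lam, h⟩ := exists_diag Q hQ
  have key : ∀ x : E3, ‖x‖ = 1 → qf b lam x = z 0 * (x 1 * x 1 + x 2 * x 2) +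
      z 1 * (x 1 * x 1 - x 2 * x 2) + z 2 * (2 * (x 1 * x 2)) - t := by
    intro x hx
    have h1 := norm_sq_eq x
    rw [hx] at h1
    rw [h]
    simp only [Fin.sum_univ_three, Q]
    simp
    have h2 : t = t * (x 0 ^ 2 + x 1 ^ 2 + x 2 ^ 2) := by rw [← h1]; ring
    nlinarith
  refine ⟨b, lam, ?_⟩
  ext A
  constructor
  · intro hA
    obtain ⟨A, x, hx, rfl⟩ := A
    refine ⟨x, hx, rfl, ?_⟩
    rw [key x hx]
    change t ≤ _ at hA
    rw [inner_fcone] at hA
    simp only [ver] at hA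
    linarith
  · rintro ⟨x, hx, hA, hq⟩
    change t ≤ _
    rw [inner_fcone, ← hA]
    simp only [ver]
    rw [key x hx] at hq
    linarith

theorem fcone_tight : IsTight fcone where
  continuous := continuous_fcone
  injective z t _ k := by
    obtain ⟨b, lam, h⟩ := halfspace_eq z t
    rw [h]
    exact Sset_injective b lam k

/-- points of the plane -/
def mkP (x : E3) (hx : ‖x‖ = 1) : PP := ⟨ver x, x, hx, rfl⟩

theorem fcone_mem (A : PP) : 0 ≤ fcone A 0 ∧ fcone A 0 ≤ 1 ∧
    fcone A 1 ^ 2 + fcone A 2 ^ 2 = fcone A 0 ^ 2 := by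
  obtain ⟨A, x, hx, rfl⟩ := A
  have h1 := norm_sq_eq x
  rw [hx] at h1
  have e0 : fcone ⟨ver x, x, hx, rfl⟩ 0 = x 1 * x 1 + x 2 * x 2 := rfl
  have e1 : fcone ⟨ver x, x, hx, rfl⟩ 1 = x 1 * x 1 - x 2 * x 2 := rfl
  have e2 : fcone ⟨ver x, x, hx, rfl⟩ 2 = 2 * (x 1 * x 2) := rfl
  rw [e0, e1, e2]
  refine ⟨by nlinarith, by nlinarith [sq_nonneg (x 0)], by ring⟩

theorem norm_axis (v : Fin 3 → ℝ) (h : v 0 ^ 2 + v 1 ^ 2 + v 2 ^ 2 = 1) :
    ‖(WithLp.toLp 2 v : E3)‖ = 1 := by
  have h1 := norm_sq_eq (WithLp.toLp 2 v : E3)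
  have h2 : ‖(WithLp.toLp 2 v : E3)‖ ^ 2 = 1 := by rw [h1]; exact h
  nlinarith [norm_nonneg (WithLp.toLp 2 v : E3)]

theorem fcone_substantial : IsSubstantial fcone := by
  intro z t hz
  by_contra hc
  push Not at hc
  have g : ∀ (v : Fin 3 → ℝ) (h : v 0 ^ 2 + v 1 ^ 2 + v 2 ^ 2 = 1),
      z 0 * (v 1 * v 1 + v 2 * v 2) + z 1 * (v 1 * v 1 - v 2 * v 2) + z 2 * (2 * (v 1 * v 2)) = t := by
    intro v h
    have := hc (mkP (WithLp.toLp 2 v) (norm_axis v h))
    rw [inner_fcone] at this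
    exact this
  have h0 := g ![1, 0, 0] (by simp)
  have h1 := g ![0, 1, 0] (by simp)
  have h2 := g ![0, 0, 1] (by simp)
  have h3 := g ![0, 3 / 5, 4 / 5] (by simp; norm_num)
  simp at h0 h1 h2 h3
  apply hz
  have e0 : z 0 = 0 := by linarith
  have e1 : z 1 = 0 := by linarith
  have e2 : z 2 = 0 := by
    rw [e0, e1, ← h0] at h3
    linarith
  ext i
  fin_cases i
  · exact e0
  · exact e1
  · exact e2

theorem not_hypersurface : ¬ IsConvexHypersurface (Set.range fcone) := by
  rintro ⟨K, hK, hconv, hint, hr⟩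
  have hcl : IsClosed K := hK.isClosed
  have hsub : Set.range fcone ⊆ K := by
    rw [hr]
    exact hcl.frontier_subset
  -- a maximiser of the first coordinate over `K` is not interior
  have hmax : ∀ y ∈ K, (∀ w ∈ K, w 0 ≤ y 0) → y ∈ Set.range fcone := by
    intro y hy hm
    rw [hr, hcl.frontier_eq]
    refine ⟨hy, fun hyi => ?_⟩
    have hc : Continuous fun s : ℝ => y + s • (EuclideanSpace.single (0 : Fin 3) (1 : ℝ)) := by
      fun_prop
    have hn : ∀ᶠ s in nhds (0 : ℝ), y + s • (EuclideanSpace.single (0 : Fin 3) (1 : ℝ)) ∈ K := by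
      apply hc.continuousAt.eventually_mem
      simpa using mem_interior_iff_mem_nhds.1 hyi
    obtain ⟨ε, hε, hball⟩ := Metric.eventually_nhds_iff.1 hn
    have h1 := hball (y := ε / 2) (by
      rw [Real.dist_eq, sub_zero, abs_of_pos (by positivity)]
      linarith)
    have h2 := hm _ h1
    simp at h2
    linarith
  obtain ⟨y, hy, hym⟩ := hK.exists_isMaxOn (hint.mono interior_subset)
    (f := fun w : EuclideanSpace ℝ (Fin 3) => w 0) (by fun_prop)
  have hym' : ∀ w ∈ K, w 0 ≤ y 0 := fun w hw => hym hw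
  obtain ⟨A, hA⟩ := hmax y hy hym'
  have hy1 : y 0 ≤ 1 := by rw [← hA]; exact (fcone_mem A).2.1
  -- the midpoint of two points of the top circle
  have m1 := hsub ⟨mkP (WithLp.toLp 2 ![0, 1, 0]) (norm_axis _ (by simp)), rfl⟩
  have m2 := hsub ⟨mkP (WithLp.toLp 2 ![0, 0, 1]) (norm_axis _ (by simp)), rfl⟩
  have hm := hconv m1 m2 (by norm_num : (0 : ℝ) ≤ 1 / 2) (by norm_num : (0 : ℝ) ≤ 1 / 2)
    (by norm_num)
  set m := (1 / 2 : ℝ) • fcone (mkP (WithLp.toLp 2 ![0, 1, 0]) (norm_axis _ (by simp))) +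
    (1 / 2 : ℝ) • fcone (mkP (WithLp.toLp 2 ![0, 0, 1]) (norm_axis _ (by simp))) with hmdef
  have c0 : m 0 = 1 := by
    simp [hmdef, fcone, mkP, ver]
    norm_num
  have c1 : m 1 = 0 := by
    simp [hmdef, fcone, mkP, ver]
  have c2 : m 2 = 0 := by
    simp [hmdef, fcone, mkP, ver]
  obtain ⟨B, hB⟩ := hmax m hm fun w hw => by rw [c0]; exact (hym' w hw).trans hy1
  have h3 := (fcone_mem B).2.2
  rw [hB, c0, c1, c2] at h3
  norm_num at h3

theorem main : ∃ (P : Type) (_ : TopologicalSpace P) (f : P → EuclideanSpace ℝ (Fin (2 * 1 + 1))),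
    IsLikeProjectivePlane 1 P ∧ IsTight f ∧ IsSubstantial f ∧
      ¬ IsConvexHypersurface (Set.range f) :=
  ⟨PP, inferInstance, fcone, PP_like, fcone_tight, fcone_substantial, not_hypersurface⟩

end Pbb5b69
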