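import Pool.Agent.Lib.Pbb5b69.Chains

/-!
# Mod 2 homology and coverings
-/

noncomputable section

namespace Pbb5b69

open CategoryTheory AlgebraicTopology Simplicial

section finsupp

variable {S B : Type}

/-- in characteristic two -/
theorem add_self2 {M : Type} [AddCommGroup M] [Module (ZMod 2) M] (x : M) : x + x = 0 := by
  have h : (2 : ZMod 2) = 0 := by decide
  rw [← two_smul (ZMod 2) x, h, zero_smul]

theorem eq_of_add_eq_zero2 {M : Type} [AddCommGroup M] [Module (ZMod 2) M] {x y : M}
    (h : x + y = 0) : x = y := by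
  rw [add_eq_zero_iff_eq_neg] at h
  rw [h, two_eq_zero']

theorem kerp (p : S → B) (T : Equiv.Perm S)
    (hp : ∀ s s', p s = p s' → ∃ k : ℤ, s' = (T ^ k) s) (x : S →₀ ZMod 2)
    (hx : Finsupp.mapDomain p x = 0) : ∃ y : S →₀ ZMod 2, x = y + Finsupp.mapDomain T y := by
  classical
  let I : Submodule (ZMod 2) (S →₀ ZMod 2) :=
    LinearMap.range (LinearMap.id + Finsupp.lmapDomain (ZMod 2) (ZMod 2) T)
  have h1 : ∀ s, Finsupp.single s (1 : ZMod 2) + Finsupp.single (T s) 1 ∈ I := fun s =>
    ⟨Finsupp.single s 1, by simp⟩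
  have h2 : ∀ (n : ℕ) s, Finsupp.single s (1 : ZMod 2) + Finsupp.single ((T ^ n) s) 1 ∈ I := by
    intro n
    induction n with
    | zero => intro s; simp [add_self2]
    | succ n ih =>
      intro s
      have := I.add_mem (ih s) (h1 ((T ^ n) s))
      rw [pow_succ', Equiv.Perm.mul_apply]
      have e : Finsupp.single s (1 : ZMod 2) + Finsupp.single (T ((T ^ n) s)) 1 =
          (Finsupp.single s (1 : ZMod 2) + Finsupp.single ((T ^ n) s) 1) +
          (Finsupp.single ((T ^ n) s) 1 + Finsupp.single (T ((T ^ n) s)) 1) := by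
        rw [add_assoc, ← add_assoc (Finsupp.single ((T ^ n) s) 1), add_self2, zero_add]
      rw [e]
      exact this
  have h3 : ∀ s s', p s = p s' → Finsupp.single s (1 : ZMod 2) + Finsupp.single s' 1 ∈ I := by
    intro s s' h
    obtain ⟨k, rfl⟩ := hp s s' h
    obtain ⟨n, rfl | rfl⟩ := k.eq_nat_or_neg
    · simpa using h2 n s
    · have := h2 n ((T ^ (-(n : ℤ))) s)
      rw [add_comm, ← zpow_natCast, ← Equiv.Perm.mul_apply, ← zpow_add] at this
      simpa using this
  rcases isEmpty_or_nonempty S with hS | hS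
  · exact ⟨0, by ext s; exact hS.elim s⟩
  have h4 : ∀ y : S →₀ ZMod 2, y + Finsupp.mapDomain (fun s => Function.invFun p (p s)) y ∈ I := by
    intro y
    induction y using Finsupp.induction_linear with
    | zero => simp
    | add y z hy hz =>
      rw [Finsupp.mapDomain_add, add_add_add_comm]
      exact I.add_mem hy hz
    | single s a =>
      rw [Finsupp.mapDomain_single]
      have ha : a = 0 ∨ a = 1 := by revert a; decide
      rcases ha with rfl | rfl
      · simp
      · exact h3 _ _ (Function.invFun_eq (f := p) ⟨s, rfl⟩).symm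
  have h5 := h4 x
  have h6 : Finsupp.mapDomain (fun s => Function.invFun p (p s)) x = 0 := by
    have : (fun s => Function.invFun p (p s)) = Function.invFun p ∘ p := rfl
    rw [this, Finsupp.mapDomain_comp, hx, Finsupp.mapDomain_zero]
  rw [h6, add_zero] at h5
  obtain ⟨y, hy⟩ := h5
  exact ⟨y, hy.symm⟩

theorem one_add_inj (T : Equiv.Perm S) (hT : ∀ (n : ℕ) s, 0 < n → (T ^ n) s ≠ s)
    (x : S →₀ ZMod 2) (hx : x + Finsupp.mapDomain T x = 0) : x = 0 := by
  classical
  have h1 : Finsupp.mapDomain T x = x := (eq_of_add_eq_zero2 hx).symm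
  by_contra h0
  obtain ⟨s, hs⟩ := Finsupp.ne_iff.1 h0
  have h2 : ∀ t, x (T t) = x t := by
    intro t
    conv_lhs => rw [← h1]
    exact Finsupp.mapDomain_apply T.injective x t
  have h3 : ∀ n : ℕ, (T ^ n) s ∈ x.support := by
    intro n
    rw [Finsupp.mem_support_iff]
    induction n with
    | zero => simpa using hs
    | succ n ih => rwa [pow_succ', Equiv.Perm.mul_apply, h2]
  have h4 : Function.Injective (fun n : ℕ => (⟨(T ^ n) s, h3 n⟩ : x.support)) := by
    have key : ∀ m n : ℕ, m < n → (T ^ m) s ≠ (T ^ n) s := by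
      intro m n hmn he
      apply hT (n - m) s (by omega)
      have : (T ^ m) ((T ^ (n - m)) s) = (T ^ m) s := by
        rw [← Equiv.Perm.mul_apply, ← pow_add, Nat.add_sub_cancel' hmn.le, he]
      exact (T ^ m).injective this
    intro m n he
    have he' : (T ^ m) s = (T ^ n) s := congrArg Subtype.val he
    rcases lt_trichotomy m n with h | h | h
    · exact absurd he' (key m n h)
    · exact h
    · exact absurd he'.symm (key n m h)
  exact not_injective_infinite_finite _ h4

/-- the augmentation -/
def aug : (S →₀ ZMod 2) →ₗ[ZMod 2] ZMod 2 := Finsupp.lsum (ZMod 2) (fun _ => LinearMap.id)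

theorem aug_single (s : S) (a : ZMod 2) : aug (Finsupp.single s a) = a := by
  simp [aug]

theorem aug_mapDomain (p : S → B) (x : S →₀ ZMod 2) : aug (Finsupp.mapDomain p x) = aug x := by
  induction x using Finsupp.induction_linear with
  | zero => simp
  | add y z hy hz => rw [Finsupp.mapDomain_add, map_add, map_add, hy, hz]
  | single s a => rw [Finsupp.mapDomain_single, aug_single, aug_single]

theorem aug_invol (a : S → S) (ha : ∀ s, a (a s) = s) (hf : ∀ s, a s ≠ s)
    (x : S →₀ ZMod 2) (hx : x + Finsupp.mapDomain a x = 0) : aug x = 0 := by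
  classical
  have h1 : Finsupp.mapDomain a x = x := (eq_of_add_eq_zero2 hx).symm
  have hinj : Function.Injective a := fun s t h => by rw [← ha s, h, ha]
  have h2 : ∀ t, x (a t) = x t := by
    intro t
    conv_lhs => rw [← h1]
    exact Finsupp.mapDomain_apply hinj x t
  have h3 : aug x = ∑ s ∈ x.support, x s := by
    simp [aug, Finsupp.sum]
  rw [h3]
  refine Finset.sum_involution (fun s _ => a s) ?_ ?_ ?_ ?_
  · intro s _
    rw [h2]
    exact add_self2 _
  · intro s _ _
    exact hf s
  · intro s hs
    rw [Finsupp.mem_support_iff] at hs ⊢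
    rwa [h2]
  · intro s _
    exact ha s

end finsupp

section chains

variable {X Y Z : Type} [TopologicalSpace X] [TopologicalSpace Y] [TopologicalSpace Z]

theorem bd_bd {n : ℕ} (c : Ch (n + 2) X) : bd (bd c) = 0 := by
  have h := congrArg (fun f => f.hom (toM (n + 2) X c)) ((SC X).d_comp_d (n + 2) (n + 1) n)
  have h2 := congrArg (ofM n X).hom h
  simp only [ModuleCat.hom_comp, LinearMap.comp_apply] at h2
  rw [ofM_d, ofM_d, ofM_toM] at h2
  rw [h2]
  exact map_zero _

theorem bd_push {n : ℕ} (g : C(X, Y)) (c : Ch (n + 1) X) : bd (push g c) = push g (bd c) := by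
  induction c using Finsupp.induction_linear with
  | zero => simp
  | add y z hy hz => rw [map_add, map_add, hy, hz, map_add, map_add]
  | single s a =>
    rw [push_single, bd_single, bd_single, map_sum]
    refine Finset.sum_congr rfl fun i _ => ?_
    rw [push_single]
    rfl

theorem push_push {n : ℕ} (g : C(Y, Z)) (f : C(X, Y)) (c : Ch n X) :
    push g (push f c) = push (g.comp f) c := by
  induction c using Finsupp.induction_linear with
  | zero => simp
  | add y z hy hz => rw [map_add, map_add, hy, hz, map_add]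
  | single s a =>
    rw [push_single, push_single, push_single]
    rfl

theorem push_id {n : ℕ} (c : Ch n X) : push (ContinuousMap.id X) c = c := by
  induction c using Finsupp.induction_linear with
  | zero => simp
  | add y z hy hz => rw [map_add, hy, hz]
  | single s a =>
    rw [push_single]
    rfl

theorem push_surj {n : ℕ} (g : C(X, Y)) (hg : ∀ s : Sp n Y, ∃ s' : Sp n X, g.comp s' = s)
    (c : Ch n Y) : ∃ c' : Ch n X, push g c' = c := by
  induction c using Finsupp.induction_linear with
  | zero => exact ⟨0, by simp⟩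
  | add y z hy hz =>
    obtain ⟨y', hy'⟩ := hy
    obtain ⟨z', hz'⟩ := hz
    exact ⟨y' + z', by rw [map_add, hy', hz']⟩
  | single s a =>
    obtain ⟨s', hs'⟩ := hg s
    exact ⟨Finsupp.single s' a, by rw [push_single, hs']⟩

theorem aug_push {n : ℕ} (g : C(X, Y)) (c : Ch n X) : aug (push g c) = aug c :=
  aug_mapDomain _ _

theorem aug_bd (c : Ch 1 X) : aug (bd c) = 0 := by
  induction c using Finsupp.induction_linear with
  | zero => simp
  | add y z hy hz => rw [map_add, map_add, hy, hz, add_zero]
  | single s a =>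
    rw [bd_single, map_sum, Fin.sum_univ_two, aug_single, aug_single]
    exact add_self2 _

/-- a path as a singular simplex -/
def pathSimplex {x y : X} (γ : Path x y) : Sp 1 X where
  toFun v := γ.extend (v.1 1)
  continuous_toFun := γ.continuous_extend.comp ((continuous_apply 1).comp continuous_subtype_val)

/-- a point as a singular simplex -/
def ptSimplex (x : X) : Sp 0 X := ContinuousMap.const _ x

theorem sp_zero_eq (s : Sp 0 X) : s = ptSimplex (s default) := by
  ext v
  simp only [ptSimplex, ContinuousMap.const_apply]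
  congr 1
  exact Subsingleton.elim _ _

theorem bd_pathSimplex {x y : X} (γ : Path x y) :
    bd (Finsupp.single (pathSimplex γ) 1) =
      Finsupp.single (ptSimplex x) 1 + Finsupp.single (ptSimplex y) 1 := by
  rw [bd_single, Fin.sum_univ_two, add_comm]
  congr 2
  · rw [sp_zero_eq (face 1 (pathSimplex γ))]
    congr 1
    have h : stdSimplex.map (S := ℝ) (SimplexCategory.δ (n := 0) 1).toOrderHom default =
        stdSimplex.vertex 0 := by
      rw [Subsingleton.elim (default : stdSimplex ℝ (Fin (0 + 1))) (stdSimplex.vertex 0),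
        stdSimplex.map_vertex]
      rfl
    change γ.extend ((stdSimplex.map (S := ℝ) (SimplexCategory.δ (n := 0) 1).toOrderHom
      default).1 1) = x
    rw [h]
    simp
  · rw [sp_zero_eq (face 0 (pathSimplex γ))]
    congr 1
    have h : stdSimplex.map (S := ℝ) (SimplexCategory.δ (n := 0) 0).toOrderHom default =
        stdSimplex.vertex 1 := by
      rw [Subsingleton.elim (default : stdSimplex ℝ (Fin (0 + 1))) (stdSimplex.vertex 0),
        stdSimplex.map_vertex]
      rfl
    change γ.extend ((stdSimplex.map (S := ℝ) (SimplexCategory.δ (n := 0) 0).toOrderHom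
      default).1 1) = y
    rw [h]
    simp

theorem exists_bd_of_aug [PathConnectedSpace X] (c : Ch 0 X) (hc : aug c = 0) :
    ∃ e : Ch 1 X, bd e = c := by
  obtain ⟨x0⟩ : Nonempty X := inferInstance
  have h : ∀ c : Ch 0 X, ∃ e : Ch 1 X, bd e = c + Finsupp.single (ptSimplex x0) (aug c) := by
    intro c
    induction c using Finsupp.induction_linear with
    | zero => exact ⟨0, by simp⟩
    | add y z hy hz =>
      obtain ⟨e, he⟩ := hy
      obtain ⟨f, hf⟩ := hz
      exact ⟨e + f, by rw [map_add, he, hf, map_add, Finsupp.single_add]; abel⟩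
    | single s a =>
      rw [sp_zero_eq s, aug_single]
      have ha : a = 0 ∨ a = 1 := by revert a; decide
      rcases ha with rfl | rfl
      · exact ⟨0, by simp⟩
      · exact ⟨Finsupp.single (pathSimplex (PathConnectedSpace.somePath _ x0)) 1,
          bd_pathSimplex _⟩
  obtain ⟨e, he⟩ := h c
  exact ⟨e, by rw [he, hc, Finsupp.single_zero, add_zero]⟩

end chains

section main

variable {X Y E W : Type} [TopologicalSpace X] [TopologicalSpace Y] [TopologicalSpace E]
  [TopologicalSpace W]

/-- The action of a homeomorphism on simplices. -/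
def actS (n : ℕ) (T : E ≃ₜ E) : Equiv.Perm (Sp n E) where
  toFun s := (T : C(E, E)).comp s
  invFun s := (T.symm : C(E, E)).comp s
  left_inv s := by ext v; simp
  right_inv s := by ext v; simp

theorem push_act {n : ℕ} (T : E ≃ₜ E) (c : Ch n E) :
    Finsupp.mapDomain (actS n T) c = push (T : C(E, E)) c := rfl

theorem isCyc_push {n : ℕ} (g : C(X, Y)) {c : Ch n X} (hc : IsCyc c) : IsCyc (push g c) := by
  cases n with
  | zero => trivial
  | succ n =>
    change bd (push g c) = 0
    rw [bd_push]
    rw [show bd c = 0 from hc, map_zero]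

theorem hmap_injective_of_covers (ι : C(X, Y)) [ContractibleSpace E] (p : C(E, X)) (T : E ≃ₜ E)
    (pT : ∀ x, p (T x) = p x)
    (plift : ∀ (n : ℕ) (s : Sp n X), ∃ s' : Sp n E, p.comp s' = s)
    (porb : ∀ (n : ℕ) (s s' : Sp n E), p.comp s = p.comp s' → ∃ k : ℤ, s' = (actS n T ^ k) s)
    (pfree : ∀ (n : ℕ) (s : Sp n E) (m : ℕ), 0 < m → (actS n T ^ m) s ≠ s)
    (a : W ≃ₜ W) (a2 : ∀ w, a (a w) = w) (a0 : ∀ w, a w ≠ w) (r : C(W, Y))
    (rlift : ∀ (n : ℕ) (s : Sp n Y), ∃ s' : Sp n W, r.comp s' = s)
    (ra : ∀ w, r (a w) = r w)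
    (rorb : ∀ (n : ℕ) (s s' : Sp n W), r.comp s = r.comp s' → s' = s ∨ s' = (a : C(W, W)).comp s)
    (m : C(E, W)) (rm : r.comp m = ι.comp p) (mT : m.comp (T : C(E, E)) = (a : C(W, W)).comp m)
    (k : ℕ) : Function.Injective (hmap k ι).hom := by
  have hpT : p.comp (T : C(E, E)) = p := by ext x; exact pT x
  have hra : r.comp (a : C(W, W)) = r := by ext x; exact ra x
  have hE : ∀ j : ℕ, j ≠ 0 → ∀ c : Ch j E, IsCyc c → ∃ e : Ch (j + 1) E, bd e = c := fun j hj =>
    (hom2_zero_iff j).1 (fun x => hom2_contractible j hj x)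
  have hker : ∀ n (c : Ch n E), push p c = 0 → ∃ b : Ch n E, c = b + push (T : C(E, E)) b :=
    fun n c hc => kerp (fun s : Sp n E => p.comp s) (actS n T) (porb n) c hc
  have hinj : ∀ n (c : Ch n E), c + push (T : C(E, E)) c = 0 → c = 0 :=
    fun n c hc => one_add_inj (actS n T) (fun m s hm => pfree n s m hm) c hc
  have hkerr : ∀ n (c : Ch n W), push r c = 0 → ∃ b : Ch n W, c = b + push (a : C(W, W)) b :=
    fun n c hc => kerp (fun s : Sp n W => r.comp s) (actS n a) (fun s s' h => by
      rcases rorb n s s' h with h | h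
      · exact ⟨0, by rw [h]; rfl⟩
      · exact ⟨1, by rw [h]; rfl⟩) c hc
  have pathX : PathConnectedSpace X := by
    have hs : Function.Surjective p := by
      intro x
      obtain ⟨s', hs'⟩ := plift 0 (ptSimplex x)
      refine ⟨s' default, ?_⟩
      have := congrArg (fun s : Sp 0 X => s default) hs'
      exact this
    exact hs.pathConnectedSpace p.continuous
  -- the common end of the argument
  have fin : ∀ (j : ℕ) (c : Ch (j + 1) X) (c' : Ch (j + 1) E) (b : Ch j E) (e : Ch (j + 1) E),
      push p c' = c → bd c' = b + push (T : C(E, E)) b → bd e = b →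
      ∃ g : Ch (j + 2) X, bd g = c := by
    intro j c c' b e hc hb he
    have h1 : bd (c' + (e + push (T : C(E, E)) e)) = 0 := by
      rw [map_add, map_add, bd_push, he, hb, add_self2]
    obtain ⟨g, hg⟩ := hE (j + 1) (Nat.succ_ne_zero _) _ h1
    refine ⟨push p g, ?_⟩
    rw [bd_push, hg, map_add, map_add, push_push, hpT, add_self2, add_zero, hc]
  rw [hmap_injective_iff]
  match k with
  | 0 =>
    rintro c - ⟨e, he⟩
    apply exists_bd_of_aug
    rw [← aug_push ι, ← he, aug_bd]
  | 1 =>
    rintro c hc ⟨e0, he0⟩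
    obtain ⟨c', hc'⟩ := push_surj p (plift 1) c
    have h1 : push p (bd c') = 0 := by
      rw [← bd_push, hc']
      exact hc
    obtain ⟨b, hb⟩ := hker 0 _ h1
    obtain ⟨e', he'⟩ := push_surj r (rlift 2) e0
    have h2 : push r (push m c' + bd e') = 0 := by
      rw [map_add, push_push, rm, ← push_push, hc', ← bd_push, he', he0, add_self2]
    obtain ⟨g, hg⟩ := hkerr 1 _ h2
    have h3 : (push m b + bd g) + push (a : C(W, W)) (push m b + bd g) = 0 := by
      have h4 := congrArg bd hg
      rw [map_add, bd_bd, add_zero, bd_push, hb, map_add, map_add, push_push, mT, bd_push,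
        ← push_push] at h4
      rw [map_add, add_add_add_comm, h4, add_self2]
    have h5 : aug (push m b + bd g) = 0 :=
      aug_invol (fun s : Sp 0 W => (a : C(W, W)).comp s)
        (fun s => by ext v; exact a2 _)
        (fun s h => a0 (s default) (congrArg (fun t : Sp 0 W => t default) h)) _ h3
    rw [map_add, aug_bd, add_zero, aug_push] at h5
    obtain ⟨e, he⟩ := exists_bd_of_aug b h5
    exact fin 0 c c' b e hc' hb he
  | j + 2 =>
    rintro c hc -
    obtain ⟨c', hc'⟩ := push_surj p (plift (j + 2)) c
    have h1 : push p (bd c') = 0 := by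
      rw [← bd_push, hc']
      exact hc
    obtain ⟨b, hb⟩ := hker (j + 1) _ h1
    have h2 : bd b = 0 := by
      apply hinj
      rw [← bd_push, ← map_add, ← hb, bd_bd]
    obtain ⟨e, he⟩ := hE (j + 1) (Nat.succ_ne_zero _) b h2
    exact fin (j + 1) c c' b e hc' hb he

end main

end Pbb5b69
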