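import Pool.Agent.Lib.P26f563.Equi

/-!
# The cross product of singular chains mod 2
-/

open Finsupp

namespace STop

/-- Induction on chains. -/
theorem chain_induction {α : Type*} {P : (α →₀ F2) → Prop} (x : α →₀ F2) (h0 : P 0)
    (hadd : ∀ x y, P x → P y → P (x + y)) (h1 : ∀ a, P (single a 1)) : P x := by
  refine Finsupp.induction_linear x h0 hadd ?_
  intro a b
  have hb : b = 0 ∨ b = 1 := by revert b; decide
  rcases hb with rfl | rfl
  · rw [single_zero]; exact h0
  · exact h1 a

/-- Induction on chains with support condition. -/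
theorem supp_ind {α : Type*} {Q : α → Prop} {P : (α →₀ F2) → Prop} {x : α →₀ F2}
    (hx : x ∈ supp Q) (h0 : P 0)
    (hadd : ∀ x y, P x → P y → P (x + y)) (h1 : ∀ a, Q a → P (single a 1)) : P x := by
  rw [mem_supp] at hx
  have hs : x = ∑ a ∈ x.support, x a • single a (1 : F2) := by
    conv_lhs => rw [← Finsupp.sum_single x]
    simp [Finsupp.sum]
  rw [hs]
  have : ∀ s : Finset α, s ⊆ x.support → P (∑ a ∈ s, x a • single a (1 : F2)) := by
    classical
    intro s
    induction s using Finset.induction_on with
    | empty => intro _; simpa using h0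
    | insert a s ha ih =>
      intro hsub
      rw [Finset.sum_insert ha]
      apply hadd _ _ _ (ih fun b hb => hsub (Finset.mem_insert_of_mem hb))
      have hb : ∀ b : F2, b = 0 ∨ b = 1 := by decide
      rcases hb (x a) with h | h
      · rw [h, zero_smul]; exact h0
      · rw [h, one_smul]; exact h1 a (hx a (hsub (Finset.mem_insert_self _ _)))
  exact this _ subset_rfl

section lists

variable {S T S' T' : Type*}

/-- The coefficient of the empty list. -/
noncomputable def nl : LC T →ₗ[F2] F2 := lin fun l => if l.length = 0 then 1 else 0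

theorem nl_single (l : List T) : nl (single l 1) = if l.length = 0 then 1 else 0 := lin_single _ _

@[simp] theorem nl_cone (a : T) (x : LC T) : nl (cone a x) = 0 := by
  have : (nl ∘ₗ cone a : LC T →ₗ[F2] F2) = 0 := by
    apply lin_ext; intro l
    simp [nl_single]
  exact congrArg (fun g => g x) this

theorem nl_mapL (f : T → T') (x : LC T) : nl (mapL f x) = nl x := by
  have : (nl ∘ₗ mapL f : LC T →ₗ[F2] F2) = nl := by
    apply lin_ext; intro l
    simp [nl_single]
  exact congrArg (fun g => g x) this

/-- Cross product of two lists: the sum of all lattice paths. -/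
noncomputable def cr1 : List S → List T → LC (S × T)
  | [], _ => 0
  | (_ :: _), [] => 0
  | (a :: l), (b :: m) => cone (a, b) (cr1 l (b :: m) + cr1 (a :: l) m +
      (if l.length + m.length = 0 then single [] 1 else 0))
termination_by l m => l.length + m.length

theorem cr1_nil_left (m : List T) : cr1 ([] : List S) m = 0 := by
  rw [cr1]

theorem cr1_nil_right (l : List S) : cr1 l ([] : List T) = 0 := by
  cases l with
  | nil => rw [cr1]
  | cons a l => rw [cr1]

theorem cr1_cons (a : S) (l : List S) (b : T) (m : List T) : cr1 (a :: l) (b :: m) =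
    cone (a, b) (cr1 l (b :: m) + cr1 (a :: l) m +
      (if l.length + m.length = 0 then single [] 1 else 0)) := by
  rw [cr1]

/-- Cross product of list chains. -/
noncomputable def cr : LC S →ₗ[F2] LC T →ₗ[F2] LC (S × T) := lin fun l => lin fun m => cr1 l m

@[simp] theorem cr_single (l : List S) (m : List T) :
    cr (single l 1) (single m 1) = cr1 l m := by
  rw [cr, lin_single, lin_single]

theorem cr_nil_left (y : LC T) : cr (single ([] : List S) 1) y = 0 := by
  refine chain_induction (P := fun y => cr (single ([] : List S) 1) y = 0) y (by simp) ?_ ?_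
  · intro x y hx hy
    rw [map_add, hx, hy, add_zero]
  · intro q
    rw [cr_single, cr1_nil_left]

theorem cr_nil_right (x : LC S) : cr x (single ([] : List T) 1) = 0 := by
  refine chain_induction (P := fun x => cr x (single ([] : List T) 1) = 0) x (by simp) ?_ ?_
  · intro x y hx hy
    rw [map_add, LinearMap.add_apply, hx, hy, add_zero]
  · intro q
    rw [cr_single, cr1_nil_right]

theorem cr_cone_cone (a : S) (x : LC S) (b : T) (y : LC T) :
    cr (cone a x) (cone b y) = cone (a, b) (cr x (cone b y) + cr (cone a x) y +
      (nl x * nl y) • single [] 1) := by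
  refine chain_induction (P := fun x => cr (cone a x) (cone b y) = cone (a, b) (cr x (cone b y) +
    cr (cone a x) y + (nl x * nl y) • single [] 1)) x (by simp) ?_ ?_
  · intro x x' h h'
    simp only [map_add, LinearMap.add_apply, h, h', add_mul, add_smul]
    abel
  intro l
  refine chain_induction (P := fun y => cr (cone a (single l 1)) (cone b y) = cone (a, b)
    (cr (single l 1) (cone b y) +
    cr (cone a (single l 1)) y + (nl (single l 1) * nl y) • single [] 1)) y (by simp) ?_ ?_
  · intro x x' h h'
    simp only [map_add, LinearMap.add_apply, h, h', mul_add, add_smul]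
    abel
  intro m
  rw [cone_single, cone_single, cr_single, cr1_cons, cr_single, cr_single, nl_single, nl_single]
  congr 2
  by_cases h1 : l.length = 0 <;> by_cases h2 : m.length = 0 <;> simp [h1, h2]

theorem nl_bd1 (l : List T) : nl (bd1 l) = if l.length = 1 then 1 else 0 := by
  cases l with
  | nil => simp
  | cons a l => simp [nl_single]

/-- The Leibniz rule. -/
theorem bd_cr1 (l : List S) (m : List T) : bd (cr1 l m) = cr (bd1 l) (single m 1) +
    cr (single l 1) (bd1 m) + (nl (bd1 l) * nl (bd1 m)) • single [] 1 := by
  induction hn : l.length + m.length using Nat.strong_induction_on generalizing l m with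
  | _ n ih =>
  cases l with
  | nil => simp [cr1_nil_left, cr_nil_left]
  | cons a l =>
  cases m with
  | nil =>
    simp only [cr1_nil_right, map_zero, bd1_nil, mul_zero, zero_smul, add_zero, cr_nil_right]
  | cons b m =>
  have ih1 := ih (l.length + (b :: m).length) (by rw [← hn]; simp only [List.length_cons]; omega)
    l (b :: m) rfl
  have ih2 := ih ((a :: l).length + m.length) (by rw [← hn]; simp only [List.length_cons]; omega)
    (a :: l) m rfl
  have hE : bd (if l.length + m.length = 0 then single [] (1 : F2) else 0 : LC (S × T)) = 0 := by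
    split_ifs <;> simp
  have hE2 : (if l.length + m.length = 0 then single [] (1 : F2) else 0 : LC (S × T)) =
      (nl (bd1 (a :: l)) * nl (bd1 (b :: m))) • single [] 1 := by
    rw [nl_bd1, nl_bd1, List.length_cons, List.length_cons]
    by_cases h1 : l.length = 0 <;> by_cases h2 : m.length = 0 <;> simp [h1, h2]
  rw [cr1_cons, bd_cone, map_add bd, map_add bd, ih1, ih2, hE, hE2]
  have e1 : nl (bd1 (b :: m)) = nl (single m 1) := by
    rw [bd1_cons, map_add, nl_cone, add_zero]
  have e2 : nl (bd1 (a :: l)) = nl (single l 1) := by
    rw [bd1_cons, map_add, nl_cone, add_zero]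
  rw [e1, e2]
  have h1 : cr (bd1 (a :: l)) (single (b :: m) 1) = cr1 l (b :: m) +
      cone (a, b) (cr (bd1 l) (single (b :: m) 1) + cr (cone a (bd1 l)) (single m 1) +
        (nl (bd1 l) * nl (single m 1)) • single [] 1) := by
    rw [bd1_cons, map_add, LinearMap.add_apply, cr_single]
    congr 1
    rw [← cone_single, cr_cone_cone]
  have h2 : cr (single (a :: l) 1) (bd1 (b :: m)) = cr1 (a :: l) m +
      cone (a, b) (cr (single l 1) (cone b (bd1 m)) + cr (single (a :: l) 1) (bd1 m) +
        (nl (single l 1) * nl (bd1 m)) • single [] 1) := by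
    rw [bd1_cons, map_add, cr_single]
    congr 1
    rw [← cone_single, cr_cone_cone]
  rw [h1, h2]
  have h3 : cr (bd1 (a :: l)) (single m 1) = cr1 l m + cr (cone a (bd1 l)) (single m 1) := by
    rw [bd1_cons, map_add, LinearMap.add_apply, cr_single]
  have h4 : cr (single l 1) (bd1 (b :: m)) = cr1 l m + cr (single l 1) (cone b (bd1 m)) := by
    rw [bd1_cons, map_add, cr_single]
  rw [h3, h4]
  simp only [map_add]
  generalize cone (a, b) (cr1 l m) = A
  have hA := add_self_eq_zero' A
  generalize cone (a, b) (cr (bd1 l) (single (b :: m) 1)) = A1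
  generalize cone (a, b) (cr (single l 1) (cone b (bd1 m))) = A2
  generalize cone (a, b) (cr (cone a (bd1 l)) (single m 1)) = A3
  generalize cone (a, b) (cr (single (a :: l) 1) (bd1 m)) = A4
  generalize cone (a, b) ((nl (bd1 l) * nl (single m 1)) • single [] 1) = A5
  generalize cone (a, b) ((nl (single l 1) * nl (bd1 m)) • single [] 1) = A6
  rw [map_zero, add_zero]
  generalize cr1 l (b :: m) = B1
  generalize cr1 (a :: l) m = B2
  generalize (nl (single l (1 : F2)) * nl (single m (1 : F2))) • single [] (1 : F2) = B3
  calc _ = B1 + (A1 + A3 + A5) + (B2 + (A2 + A4 + A6)) + B3 + (A + A) := by abel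
    _ = _ := by rw [hA, add_zero]

theorem bd_cr (x : LC S) (y : LC T) : bd (cr x y) = cr (bd x) y + cr x (bd y) +
    (nl (bd x) * nl (bd y)) • single [] 1 := by
  refine chain_induction (P := fun x => bd (cr x y) = cr (bd x) y + cr x (bd y) +
    (nl (bd x) * nl (bd y)) • single [] 1) x (by simp) ?_ ?_
  · intro x x' h h'
    simp only [map_add, LinearMap.add_apply, h, h', add_mul, add_smul]
    abel
  intro l
  refine chain_induction (P := fun y => bd (cr (single l 1) y) = cr (bd (single l 1)) y +
    cr (single l 1) (bd y) +
    (nl (bd (single l 1)) * nl (bd y)) • single [] 1) y (by simp) ?_ ?_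
  · intro x x' h h'
    simp only [map_add, h, h', mul_add, add_smul]
    abel
  intro m
  rw [cr_single, bd_single, bd_single, bd_cr1]

theorem cr_nat (f : S → S') (g : T → T') (x : LC S) (y : LC T) :
    cr (mapL f x) (mapL g y) = mapL (Prod.map f g) (cr x y) := by
  refine chain_induction (P := fun x => cr (mapL f x) (mapL g y) = mapL (Prod.map f g) (cr x y)) x
    (by simp) ?_ ?_
  · intro x x' h h'
    simp only [map_add, LinearMap.add_apply, h, h']
  intro l
  refine chain_induction (P := fun y => cr (mapL f (single l 1)) (mapL g y) =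
    mapL (Prod.map f g) (cr (single l 1) y)) y (by simp) ?_ ?_
  · intro x x' h h'
    simp only [map_add, h, h']
  intro m
  rw [mapL_single, mapL_single, cr_single, cr_single]
  induction hn : l.length + m.length using Nat.strong_induction_on generalizing l m with
  | _ n ih =>
  cases l with
  | nil => simp [cr1_nil_left]
  | cons a l =>
  cases m with
  | nil => simp [cr1_nil_right]
  | cons b m =>
  have ih1 := ih (l.length + (b :: m).length) (by rw [← hn]; simp only [List.length_cons]; omega)
    l (b :: m) rfl
  have ih2 := ih ((a :: l).length + m.length) (by rw [← hn]; simp only [List.length_cons]; omega)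
    (a :: l) m rfl
  rw [List.map_cons] at ih1 ih2
  rw [List.map_cons, List.map_cons, cr1_cons, cr1_cons, ih1, ih2, mapL_cone]
  simp only [map_add, List.length_map]
  congr 2
  split_ifs <;> simp

theorem cr1_len (l : List S) (m : List T) :
    cr1 l m ∈ supp fun q : List (S × T) => q.length + 1 = l.length + m.length := by
  induction hn : l.length + m.length using Nat.strong_induction_on generalizing l m with
  | _ n ih =>
  cases l with
  | nil => rw [cr1_nil_left]; exact Submodule.zero_mem _
  | cons a l =>
  cases m with
  | nil => rw [cr1_nil_right]; exact Submodule.zero_mem _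
  | cons b m =>
  have ih1 := ih (l.length + (b :: m).length) (by rw [← hn]; simp only [List.length_cons]; omega)
    l (b :: m) rfl
  have ih2 := ih ((a :: l).length + m.length) (by rw [← hn]; simp only [List.length_cons]; omega)
    (a :: l) m rfl
  rw [cr1_cons]
  simp only [List.length_cons] at ih1 ih2 hn
  have key : cr1 l (b :: m) + cr1 (a :: l) m +
      (if l.length + m.length = 0 then single [] 1 else 0) ∈
      supp fun q : List (S × T) => q.length + 2 = n := by
    apply Submodule.add_mem
    · apply Submodule.add_mem
      · refine supp_mono ?_ ih1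
        intro q hq; omega
      · refine supp_mono ?_ ih2
        intro q hq; omega
    · split_ifs with h
      · apply single_mem_supp (P := fun q : List (S × T) => q.length + 2 = n)
        simp only [List.length_nil]; omega
      · exact Submodule.zero_mem _
  refine supp_induction _ (cone (a, b)) ?_ key
  intro q hq
  rw [cone_single]
  apply single_mem_supp (P := fun q : List (S × T) => q.length + 1 = n)
  simp only [List.length_cons]; omega

/-- Entries of the lists in a cross product. -/
theorem cr1_mem (l : List S) (m : List T) :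
    cr1 l m ∈ supp fun q : List (S × T) => ∀ v ∈ q, v.1 ∈ l ∧ v.2 ∈ m := by
  induction hn : l.length + m.length using Nat.strong_induction_on generalizing l m with
  | _ n ih =>
  cases l with
  | nil => rw [cr1_nil_left]; exact Submodule.zero_mem _
  | cons a l =>
  cases m with
  | nil => rw [cr1_nil_right]; exact Submodule.zero_mem _
  | cons b m =>
  have ih1 := ih (l.length + (b :: m).length) (by rw [← hn]; simp only [List.length_cons]; omega)
    l (b :: m) rfl
  have ih2 := ih ((a :: l).length + m.length) (by rw [← hn]; simp only [List.length_cons]; omega)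
    (a :: l) m rfl
  rw [cr1_cons]
  have key : cr1 l (b :: m) + cr1 (a :: l) m +
      (if l.length + m.length = 0 then single [] 1 else 0) ∈
      supp fun q : List (S × T) => ∀ v ∈ q, v.1 ∈ a :: l ∧ v.2 ∈ b :: m := by
    apply Submodule.add_mem
    · apply Submodule.add_mem
      · refine supp_mono ?_ ih1
        intro q hq v hv
        exact ⟨List.mem_cons_of_mem _ (hq v hv).1, (hq v hv).2⟩
      · refine supp_mono ?_ ih2
        intro q hq v hv
        exact ⟨(hq v hv).1, List.mem_cons_of_mem _ (hq v hv).2⟩
    · split_ifs with h
      · apply single_mem_supp (P := fun q : List (S × T) => ∀ v ∈ q, v.1 ∈ a :: l ∧ v.2 ∈ b :: m)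
        simp
      · exact Submodule.zero_mem _
  refine supp_induction _ (cone (a, b)) ?_ key
  intro q hq
  rw [cone_single]
  apply single_mem_supp (P := fun q : List (S × T) => ∀ v ∈ q, v.1 ∈ a :: l ∧ v.2 ∈ b :: m)
  intro v hv
  rcases List.mem_cons.1 hv with h | h
  · rw [h]; exact ⟨List.mem_cons_self, List.mem_cons_self⟩
  · exact hq v h

end lists

section sing

variable {X Y Z : Type*} [TopologicalSpace X] [TopologicalSpace Y] [TopologicalSpace Z]

/-- Cross product of singular chains. -/
noncomputable def crS : SC X →ₗ[F2] SC Y →ₗ[F2] SC (X × Y) :=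
  lin fun σ => lin fun τ => realL2 σ τ (cr (univ σ.nv) (univ τ.nv))

theorem crS_single (σ : Sing X) (τ : Sing Y) :
    crS (single σ 1) (single τ 1) = realL2 σ τ (cr (univ σ.nv) (univ τ.nv)) := by
  rw [crS, lin_single, lin_single]

theorem crS_realL (σ : Sing X) (τ : Sing Y) (x : LC (Fin σ.nv)) (y : LC (Fin τ.nv)) :
    crS (realL σ x) (realL τ y) = realL2 σ τ (cr x y) := by
  refine chain_induction (P := fun x => crS (realL σ x) (realL τ y) = realL2 σ τ (cr x y)) x
    (by simp) ?_ ?_
  · intro x x' h h'
    simp only [map_add, LinearMap.add_apply, h, h']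
  intro l
  refine chain_induction (P := fun y => crS (realL σ (single l 1)) (realL τ y) =
    realL2 σ τ (cr (single l 1) y)) y (by simp) ?_ ?_
  · intro x x' h h'
    simp only [map_add, h, h']
  intro m
  rw [realL_single, realL_single, crS_single, realL2_sub, ← cr_nat]
  congr 2
  · exact congrArg cr (mapL_get_univ l)
  · exact mapL_get_univ m

theorem crS_push {X' Y' : Type*} [TopologicalSpace X'] [TopologicalSpace Y']
    (f : C(X, X')) (g : C(Y, Y')) (x : SC X) (y : SC Y) :
    push (f.prodMap g) (crS x y) = crS (push f x) (push g y) := by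
  refine chain_induction (P := fun x => push (f.prodMap g) (crS x y) =
    crS (push f x) (push g y)) x (by simp) ?_ ?_
  · intro x x' h h'
    simp only [map_add, LinearMap.add_apply, h, h']
  intro σ
  refine chain_induction (P := fun y => push (f.prodMap g) (crS (single σ 1) y) =
    crS (push f (single σ 1)) (push g y)) y (by simp) ?_ ?_
  · intro x x' h h'
    simp only [map_add, h, h']
  intro τ
  rw [crS_single, push_single, push_single, crS_single, push_realL2]

theorem crS_mem_CIn {A : Set X} {B : Set Y} {x : SC X} (hx : x ∈ CIn A) {y : SC Y}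
    (hy : y ∈ CIn B) : crS x y ∈ CIn (A ×ˢ B) := by
  refine supp_ind (P := fun x => crS x y ∈ CIn (A ×ˢ B)) hx (by simp) ?_ ?_
  · intro x x' h h'
    rw [map_add, LinearMap.add_apply]
    exact Submodule.add_mem _ h h'
  intro σ hσ
  refine supp_ind (P := fun y => crS (single σ 1) y ∈ CIn (A ×ˢ B)) hy (by simp) ?_ ?_
  · intro x x' h h'
    rw [map_add]
    exact Submodule.add_mem _ h h'
  intro τ hτ
  rw [crS_single]
  have hx : cr (univ σ.nv) (univ τ.nv) ∈ supp (fun _ : List (Fin σ.nv × Fin τ.nv) => True) := by
    rw [mem_supp]; intros; trivial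
  refine supp_induction (CIn _) (realL2 σ τ) ?_ hx
  intro l _
  rw [realL2_single]
  apply single_mem_CIn
  intro t
  exact ⟨hσ _, hτ _⟩

theorem crS_mem_Deg {m k j : ℕ} (h : j + 1 = m + k) {x : SC X} (hx : x ∈ Deg X m) {y : SC Y}
    (hy : y ∈ Deg Y k) : crS x y ∈ Deg (X × Y) j := by
  refine supp_ind (P := fun x => crS x y ∈ Deg (X × Y) j) hx (by simp) ?_ ?_
  · intro x x' h h'
    rw [map_add, LinearMap.add_apply]
    exact Submodule.add_mem _ h h'
  intro σ hσ
  refine supp_ind (P := fun y => crS (single σ 1) y ∈ Deg (X × Y) j) hy (by simp) ?_ ?_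
  · intro x x' h h'
    rw [map_add]
    exact Submodule.add_mem _ h h'
  intro τ hτ
  rw [crS_single, univ, univ, cr_single]
  refine supp_induction (Deg _ _) (realL2 σ τ) ?_ (cr1_len _ _)
  intro l hl
  rw [realL2_single]
  rw [List.length_finRange, List.length_finRange] at hl
  apply single_mem_supp (P := fun τ : Sing (X × Y) => τ.nv = j)
  change l.length = j
  omega

theorem crS_Deg_zero_left {x : SC X} (hx : x ∈ Deg X 0) (y : SC Y) : crS x y = 0 := by
  refine supp_ind (P := fun x => crS x y = 0) hx (by simp) ?_ ?_
  · intro x x' h h'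
    rw [map_add, LinearMap.add_apply, h, h', add_zero]
  intro σ hσ
  refine chain_induction (P := fun y => crS (single σ 1) y = 0) y (by simp) ?_ ?_
  · intro x x' h h'
    rw [map_add, h, h', add_zero]
  intro τ
  rw [crS_single, univ, univ, cr_single]
  have : List.finRange σ.nv = [] := by
    apply List.length_eq_zero_iff.1
    simp [hσ]
  rw [this, cr1_nil_left, map_zero]

theorem crS_Deg_zero_right (x : SC X) {y : SC Y} (hy : y ∈ Deg Y 0) : crS x y = 0 := by
  refine chain_induction (P := fun x => crS x y = 0) x (by simp) ?_ ?_
  · intro x x' h h'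
    rw [map_add, LinearMap.add_apply, h, h', add_zero]
  intro σ
  refine supp_ind (P := fun y => crS (single σ 1) y = 0) hy (by simp) ?_ ?_
  · intro x x' h h'
    rw [map_add, h, h', add_zero]
  intro τ hτ
  rw [crS_single, univ, univ, cr_single]
  have : List.finRange τ.nv = [] := by
    apply List.length_eq_zero_iff.1
    simp [hτ]
  rw [this, cr1_nil_right, map_zero]

/-- The Leibniz rule up to empty simplices. -/
theorem bdS_crS (x : SC X) (y : SC Y) :
    bdS (crS x y) + crS (bdS x) y + crS x (bdS y) ∈ Deg (X × Y) 0 := by
  refine chain_induction (P := fun x => bdS (crS x y) + crS (bdS x) y + crS x (bdS y) ∈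
    Deg (X × Y) 0) x (by simp) ?_ ?_
  · intro x x' h h'
    have := Submodule.add_mem _ h h'
    simp only [map_add, LinearMap.add_apply]
    convert this using 1
    abel
  intro σ
  refine chain_induction (P := fun y => bdS (crS (single σ 1) y) + crS (bdS (single σ 1)) y +
    crS (single σ 1) (bdS y) ∈ Deg (X × Y) 0) y (by simp) ?_ ?_
  · intro x x' h h'
    have := Submodule.add_mem _ h h'
    simp only [map_add]
    convert this using 1
    abel
  intro τ
  have h1 : crS (bdS (single σ 1)) (single τ 1) =
      realL2 σ τ (cr (bd (univ σ.nv)) (univ τ.nv)) := by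
    rw [bdS_single, ← crS_realL, realL_univ]
  have h2 : crS (single σ 1) (bdS (single τ 1)) =
      realL2 σ τ (cr (univ σ.nv) (bd (univ τ.nv))) := by
    rw [bdS_single, ← crS_realL, realL_univ]
  rw [crS_single, bdS_realL2, h1, h2, bd_cr, ← map_add, ← map_add]
  have h3 : ∀ (A B : LC (Fin σ.nv × Fin τ.nv)) (c : F2),
      A + B + c • single [] 1 + A + B = c • single [] 1 := by
    intro A B c
    have hA := add_self_eq_zero' A
    have hB := add_self_eq_zero' B
    calc _ = (A + A) + (B + B) + c • single [] 1 := by abel
      _ = _ := by rw [hA, hB]; simp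
  rw [h3, map_smul, realL2_single]
  apply Submodule.smul_mem
  exact single_mem_supp (P := fun τ : Sing (X × Y) => τ.nv = 0) rfl

end sing

end STop
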