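import Pool.Agent.Lib.Pbb5b69.Plane

/-!
# Half spaces of quadratic forms in the real projective plane
-/

noncomputable section

namespace Pbb5b69

open Metric unitInterval CategoryTheory

section general

variable {X : Type} [TopologicalSpace X]

theorem hmap_injective_of_retract {S : Type} [TopologicalSpace S] (k : ℕ) (i : C(S, X))
    (g : C(X, S)) (h : g.comp i = ContinuousMap.id S) : Function.Injective (hmap k i).hom := by
  have h1 : hmap k i ≫ hmap k g = 𝟙 _ := by
    rw [← hmap_comp, h, hmap_id]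
  intro x y hxy
  have h2 : ∀ z, (hmap k g).hom ((hmap k i).hom z) = z := fun z =>
    congrArg (fun f => f.hom z) h1
  rw [← h2 x, hxy, h2]

theorem inj_univ (k : ℕ) : Function.Injective (hmap k (inclC (Set.univ : Set X))).hom :=
  hmap_injective_of_retract k _ ⟨fun x => ⟨x, trivial⟩, by fun_prop⟩ (by ext x : 1; rfl)

theorem inj_subsingleton (k : ℕ) {S : Set X} (hS : S.Subsingleton) :
    Function.Injective (hmap k (inclC S)).hom := by
  rcases S.eq_empty_or_nonempty with h | ⟨x, hx⟩
  · rw [hmap_injective_iff]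
    rintro c - -
    refine ⟨0, ?_⟩
    rw [map_zero]
    have : IsEmpty (Sp k S) :=
      ⟨fun s => Set.eq_empty_iff_forall_notMem.1 h _ (s (stdSimplex.vertex 0)).2⟩
    exact (Subsingleton.elim c 0).symm
  · refine hmap_injective_of_retract k _ (ContinuousMap.const X ⟨x, hx⟩) ?_
    ext y : 1
    exact Subtype.ext (hS hx y.2)

theorem inj_deform (k : ℕ) {S T : Set X} (hTS : T ⊆ S) (r : C(S, T))
    (hr : ((⟨fun x => ⟨x.1, hTS x.2⟩, by fun_prop⟩ : C(T, S)).comp r).Homotopic
      (ContinuousMap.id S))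
    (hT : Function.Injective (hmap k (inclC T)).hom) :
    Function.Injective (hmap k (inclC S)).hom := by
  set j : C(T, S) := ⟨fun x => ⟨x.1, hTS x.2⟩, by fun_prop⟩ with hj
  have h1 : hmap k r ≫ hmap k j = 𝟙 _ := by
    rw [← hmap_comp, hmap_homotopic k hr, hmap_id]
  have h2 : ∀ z, (hmap k j).hom ((hmap k r).hom z) = z := fun z =>
    congrArg (fun f => f.hom z) h1
  have h3 : (inclC S).comp j = inclC T := rfl
  have h4 : ∀ z, (hmap k (inclC S)).hom ((hmap k j).hom z) = (hmap k (inclC T)).hom z := by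
    intro z
    rw [← h3, hmap_comp]
    rfl
  rw [injective_iff_map_eq_zero]
  intro x hx
  rw [← h2 x, h4] at hx
  rw [← h2 x, (injective_iff_map_eq_zero _).1 hT _ hx, map_zero]

end general

section quad

variable (b : OrthonormalBasis (Fin 3) ℝ E3) (lam : Fin 3 → ℝ)

/-- a diagonal map -/
def mw (w : Fin 3 → ℝ) (x : E3) : E3 := ∑ t, (w t * inner ℝ (b t) x) • b t

theorem inner_mw (w : Fin 3 → ℝ) (x : E3) (i : Fin 3) :
    inner ℝ (b i) (mw b w x) = w i * inner ℝ (b i) x := by
  rw [mw, inner_sum]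
  simp only [inner_smul_right]
  rw [Finset.sum_eq_single i]
  · rw [real_inner_self_eq_norm_sq, b.orthonormal.1 i]; ring
  · intro t _ ht
    rw [b.orthonormal.2 (Ne.symm ht), mul_zero]
  · simp

theorem mw_one (x : E3) : mw b (fun _ => 1) x = x := by
  rw [mw]
  simp only [one_mul]
  exact b.sum_repr' x

/-- the quadratic form with eigenvectors `b` and eigenvalues `lam` -/
def qf (x : E3) : ℝ := ∑ i, lam i * inner ℝ (b i) x ^ 2

theorem qf_smul (a : ℝ) (x : E3) : qf b lam (a • x) = a ^ 2 * qf b lam x := by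
  rw [qf, qf, Finset.mul_sum]
  refine Finset.sum_congr rfl fun i _ => ?_
  rw [inner_smul_right]
  ring

theorem qf_neg (x : E3) : qf b lam (-x) = qf b lam x := by
  rw [qf, qf]
  refine Finset.sum_congr rfl fun i _ => ?_
  rw [inner_neg_right]
  ring

/-- the action of a diagonal map on matrices -/
def conj (w : Fin 3 → ℝ) (A : Mat) : Mat := fun i j =>
  ∑ k, ∑ l, (∑ t, w t * b t i * b t k) * A k l * (∑ t, w t * b t j * b t l)

theorem mw_apply (w : Fin 3 → ℝ) (x : E3) (i : Fin 3) :
    mw b w x i = ∑ k, (∑ t, w t * b t i * b t k) * x k := by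
  rw [mw]
  simp only [Fin.sum_univ_three, PiLp.add_apply, PiLp.smul_apply, smul_eq_mul, PiLp.inner_apply,
    RCLike.inner_apply, conj_trivial]
  ring

theorem conj_ver (w : Fin 3 → ℝ) (x : E3) : conj b w (ver x) = ver (mw b w x) := by
  ext i j
  simp only [conj, ver, mw_apply]
  rw [Finset.sum_mul_sum]
  refine Finset.sum_congr rfl fun k _ => Finset.sum_congr rfl fun l _ => ?_
  ring

/-- the trace -/
def tr (A : Mat) : ℝ := ∑ i, A i i

theorem tr_ver (x : E3) : tr (ver x) = ‖x‖ ^ 2 := by
  rw [norm_sq_eq]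
  simp only [tr, ver, Fin.sum_univ_three]
  ring

/-- normalisation -/
def nrm (A : Mat) : Mat := fun i j => A i j / tr A

theorem nrm_ver (x : E3) : nrm (ver x) = ver (‖x‖⁻¹ • x) := by
  ext i j
  simp only [nrm, tr_ver, ver, PiLp.smul_apply, smul_eq_mul]
  ring

/-- the preimage of a half space -/
def Sset : Set PP := {A | ∃ x : E3, ‖x‖ = 1 ∧ ver x = A.1 ∧ 0 ≤ qf b lam x}

/-- the weights -/
def wt (s : ℝ) (i : Fin 3) : ℝ := open Classical in if 0 ≤ lam i then 1 else s

/-- the projective subspace on which the form is not negative -/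
def Tset : Set PP := {A | ∃ x : E3, ‖x‖ = 1 ∧ ver x = A.1 ∧ ∀ i, lam i < 0 → inner ℝ (b i) x = 0}

theorem mw_ne_zero {x : E3} (hx : ‖x‖ = 1) (hq : 0 ≤ qf b lam x) (s : ℝ) :
    mw b (wt lam s) x ≠ 0 := by
  intro h
  have h1 : ∀ i, 0 ≤ lam i → inner ℝ (b i) x = 0 := by
    intro i hi
    have := inner_mw b (wt lam s) x i
    rw [h, inner_zero_right, wt, if_pos hi, one_mul] at this
    exact this.symm
  have h2 : ∀ i, inner ℝ (b i) x = 0 := by
    by_contra hc
    push Not at hc
    obtain ⟨i, hi⟩ := hc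
    have h3 : qf b lam x < 0 := by
      rw [qf]
      refine Finset.sum_neg' (fun j _ => ?_) ⟨i, Finset.mem_univ i, ?_⟩
      · by_cases hj : 0 ≤ lam j
        · rw [h1 j hj]; simp
        · push Not at hj
          exact mul_nonpos_of_nonpos_of_nonneg hj.le (sq_nonneg _)
      · have hj : lam i < 0 := by
          by_contra hn
          push Not at hn
          exact hi (h1 i hn)
        exact mul_neg_of_neg_of_pos hj (by positivity)
    linarith
  have h3 : x = 0 := by
    rw [← b.sum_repr' x]
    simp [h2]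
  rw [h3, norm_zero] at hx
  exact zero_ne_one hx

theorem qf_mw_le {x : E3} {s : ℝ} (hs0 : 0 ≤ s) (hs1 : s ≤ 1) :
    qf b lam x ≤ qf b lam (mw b (wt lam s) x) := by
  rw [qf, qf]
  refine Finset.sum_le_sum fun i _ => ?_
  rw [inner_mw, wt]
  split_ifs with h
  · rw [one_mul]
  · push Not at h
    have h1 : s ^ 2 ≤ 1 := by nlinarith
    have h2 : 0 ≤ inner ℝ (b i) x ^ 2 := sq_nonneg _
    have h3 : (s * inner ℝ (b i) x) ^ 2 ≤ inner ℝ (b i) x ^ 2 := by
      rw [mul_pow]; nlinarith
    nlinarith

theorem unit_normalize {y : E3} (hy : y ≠ 0) : ‖‖y‖⁻¹ • y‖ = 1 := by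
  rw [norm_smul, norm_inv, norm_norm, inv_mul_cancel₀ (norm_ne_zero_iff.2 hy)]

/-- the deformation -/
def defo : C(I × Sset b lam, Sset b lam) where
  toFun q := ⟨⟨nrm (conj b (wt lam q.1) q.2.1.1), by
      obtain ⟨x, hx, hA, hq⟩ := q.2.2
      refine ⟨‖mw b (wt lam q.1) x‖⁻¹ • mw b (wt lam q.1) x,
        unit_normalize (mw_ne_zero b lam hx hq _), ?_⟩
      rw [← hA, conj_ver, nrm_ver]⟩, by
      obtain ⟨x, hx, hA, hq⟩ := q.2.2
      refine ⟨‖mw b (wt lam q.1) x‖⁻¹ • mw b (wt lam q.1) x,
        unit_normalize (mw_ne_zero b lam hx hq _), ?_, ?_⟩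
      · change _ = nrm (conj b (wt lam q.1) q.2.1.1)
        rw [← hA, conj_ver, nrm_ver]
      · rw [qf_smul]
        exact mul_nonneg (sq_nonneg _) (hq.trans (qf_mw_le b lam q.1.2.1 q.1.2.2))⟩
  continuous_toFun := by
    refine Continuous.subtype_mk (Continuous.subtype_mk ?_ _) _
    have hA : Continuous fun q : I × Sset b lam => q.2.1.1 :=
      continuous_PPval.comp (continuous_subtype_val.comp continuous_snd)
    have hA' : ∀ k l, Continuous fun q : I × Sset b lam => q.2.1.1 k l := fun k l =>
      (continuous_apply l).comp ((continuous_apply k).comp hA)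
    have hw : ∀ t, Continuous fun q : I × Sset b lam => wt lam (q.1 : ℝ) t := by
      intro t
      unfold wt
      split_ifs
      · exact continuous_const
      · exact continuous_subtype_val.comp continuous_fst
    have hc : ∀ i j, Continuous fun q : I × Sset b lam => conj b (wt lam q.1) q.2.1.1 i j := by
      intro i j
      unfold conj
      refine continuous_finsetSum _ fun k _ => continuous_finsetSum _ fun l _ => ?_
      refine Continuous.mul (Continuous.mul ?_ (hA' k l)) ?_
      · exact continuous_finsetSum _ fun t _ => ((hw t).mul continuous_const).mul continuous_const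
      · exact continuous_finsetSum _ fun t _ => ((hw t).mul continuous_const).mul continuous_const
    refine continuous_pi fun i => continuous_pi fun j => ?_
    unfold nrm
    refine Continuous.div (hc i j) ?_ ?_
    · unfold tr
      exact continuous_finsetSum _ fun k _ => hc k k
    · intro q
      obtain ⟨x, hx, hA, hq⟩ := q.2.2
      rw [← hA, conj_ver, tr_ver]
      exact pow_ne_zero _ (norm_ne_zero_iff.2 (mw_ne_zero b lam hx hq _))

theorem Tset_subset : Tset b lam ⊆ Sset b lam := by
  rintro A ⟨x, hx, hA, h⟩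
  refine ⟨x, hx, hA, ?_⟩
  rw [qf]
  refine Finset.sum_nonneg fun i _ => ?_
  by_cases hi : lam i < 0
  · rw [h i hi]; simp
  · push Not at hi
    exact mul_nonneg hi (sq_nonneg _)

/-- the retraction -/
def retr : C(Sset b lam, Tset b lam) where
  toFun A := ⟨(defo b lam (0, A)).1, by
    obtain ⟨x, hx, hA, hq⟩ := A.2
    refine ⟨‖mw b (wt lam 0) x‖⁻¹ • mw b (wt lam 0) x,
        unit_normalize (mw_ne_zero b lam hx hq _), ?_, ?_⟩
    · change _ = nrm (conj b (wt lam (0 : I)) A.1.1)
      rw [← hA, conj_ver, nrm_ver]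
      rfl
    · intro i hi
      rw [inner_smul_right, inner_mw, wt, if_neg (not_le.2 hi)]
      ring⟩
  continuous_toFun := by
    refine Continuous.subtype_mk ?_ _
    exact continuous_subtype_val.comp ((defo b lam).continuous.comp (by fun_prop))

theorem defo_one (A : Sset b lam) : defo b lam (1, A) = A := by
  apply Subtype.ext
  apply Subtype.ext
  change nrm (conj b (wt lam (1 : I)) A.1.1) = A.1.1
  obtain ⟨x, hx, hA, hq⟩ := A.2
  have : wt lam ((1 : I) : ℝ) = fun _ => 1 := by
    ext i
    simp [wt]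
  rw [← hA, conj_ver, this, mw_one, nrm_ver, hx, inv_one, one_smul]

theorem Sset_injective_of_Tset (k : ℕ) (h : Function.Injective (hmap k (inclC (Tset b lam))).hom) :
    Function.Injective (hmap k (inclC (Sset b lam))).hom := by
  refine inj_deform k (Tset_subset b lam) (retr b lam) ?_ h
  exact ⟨{ toContinuousMap := defo b lam
           map_zero_left := fun A => rfl
           map_one_left := fun A => defo_one b lam A }⟩

theorem exists_angle {a c : ℝ} (h : a ^ 2 + c ^ 2 = 1) :
    ∃ θ : ℝ, Real.cos θ = a ∧ Real.sin θ = c := by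
  have hn : ‖(⟨a, c⟩ : ℂ)‖ = 1 := by
    rw [Complex.norm_def, Complex.normSq_mk, ← Real.sqrt_one]
    congr 1
    linarith
  have h0 : (⟨a, c⟩ : ℂ) ≠ 0 := by
    intro h0
    rw [h0, norm_zero] at hn
    exact zero_ne_one hn
  refine ⟨Complex.arg ⟨a, c⟩, ?_, ?_⟩
  · rw [Complex.cos_arg h0, hn]; simp
  · rw [Complex.sin_arg, hn]; simp

theorem basis_norm (i : Fin 3) : ‖b i‖ = 1 := b.orthonormal.1 i

theorem basis_inner {i j : Fin 3} (h : i ≠ j) : inner ℝ (b i) (b j) = 0 := b.orthonormal.2 h

theorem Tset_eq_line {i j : Fin 3} (hij : i ≠ j) (h : ∀ k, 0 ≤ lam k ↔ k = i ∨ k = j) :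
    Tset b lam = line (b i) (b j) := by
  have hlt : ∀ k, k ≠ i → k ≠ j → lam k < 0 := by
    intro k h1 h2
    by_contra hc
    push Not at hc
    rcases (h k).1 hc with h3 | h3
    · exact h1 h3
    · exact h2 h3
  ext A
  constructor
  · rintro ⟨x, hx, hA, h0⟩
    have hsum : x = inner ℝ (b i) x • b i + inner ℝ (b j) x • b j := by
      conv_lhs => rw [← b.sum_repr' x]
      rw [← Finset.sum_subset (Finset.subset_univ ({i, j} : Finset (Fin 3)))]
      · rw [Finset.sum_pair hij]
      · intro k _ hk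
        simp only [Finset.mem_insert, Finset.mem_singleton, not_or] at hk
        rw [h0 k (hlt k hk.1 hk.2), zero_smul]
    have hn : inner ℝ (b i) x ^ 2 + inner ℝ (b j) x ^ 2 = 1 := by
      have h1 := b.sum_sq_norm_inner_right x
      rw [hx, ← Finset.sum_subset (Finset.subset_univ ({i, j} : Finset (Fin 3)))] at h1
      · rw [Finset.sum_pair hij] at h1
        simpa [Real.norm_eq_abs, sq_abs] using h1
      · intro k _ hk
        simp only [Finset.mem_insert, Finset.mem_singleton, not_or] at hk
        rw [h0 k (hlt k hk.1 hk.2)]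
        simp
    obtain ⟨θ, h1, h2⟩ := exists_angle hn
    exact ⟨θ, by rw [← hA, gc, h1, h2, ← hsum]⟩
  · rintro ⟨θ, hθ⟩
    refine ⟨gc (b i) (b j) θ, norm_gc (basis_norm b i) (basis_norm b j) (basis_inner b hij) θ, hθ,
      fun k hk => ?_⟩
    have h1 : k ≠ i := fun h1 => absurd ((h k).2 (Or.inl h1)) (not_le.2 hk)
    have h2 : k ≠ j := fun h1 => absurd ((h k).2 (Or.inr h1)) (not_le.2 hk)
    rw [gc, inner_add_right, inner_smul_right, inner_smul_right, basis_inner b h1,
      basis_inner b h2]
    simp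

/-- **Tightness of the Veronese surface.** -/
theorem Sset_injective (k : ℕ) : Function.Injective (hmap k (inclC (Sset b lam))).hom := by
  by_cases h3 : ∀ i, 0 ≤ lam i
  · have : Sset b lam = Set.univ := by
      refine Set.eq_univ_of_forall ?_
      rintro ⟨A, x, hx, hA⟩
      exact ⟨x, hx, hA, Finset.sum_nonneg fun i _ => mul_nonneg (h3 i) (sq_nonneg _)⟩
    rw [this]
    exact inj_univ k
  push Not at h3
  obtain ⟨i0, hi0⟩ := h3
  apply Sset_injective_of_Tset
  by_cases h2 : ∃ i j, i ≠ j ∧ 0 ≤ lam i ∧ 0 ≤ lam j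
  · obtain ⟨i, j, hij, hi, hj⟩ := h2
    have h : ∀ k, 0 ≤ lam k ↔ k = i ∨ k = j := by
      intro k
      constructor
      · intro hk
        by_contra hc
        push Not at hc
        have h4 : i0 ≠ i := fun h => absurd hi (by rw [← h]; exact not_le.2 hi0)
        have h5 : i0 ≠ j := fun h => absurd hj (by rw [← h]; exact not_le.2 hi0)
        have h6 : i0 ≠ k := fun h => absurd hk (by rw [← h]; exact not_le.2 hi0)
        obtain ⟨h7, h8⟩ := hc
        revert h4 h5 h6 h7 h8 hij
        clear * -
        revert i0 i j k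
        decide
      · rintro (rfl | rfl)
        · exact hi
        · exact hj
    rw [Tset_eq_line b lam hij h]
    exact line_hmap_injective (basis_norm b i) (basis_norm b j) (basis_inner b hij) k
  · apply inj_subsingleton
    push Not at h2
    rintro ⟨A, hA'⟩ ⟨x, hx, hA, h⟩ ⟨B, hB'⟩ ⟨y, hy, hB, h'⟩
    apply Subtype.ext
    change A = B
    rw [← show ver x = A from hA, ← show ver y = B from hB]
    by_cases h1 : ∃ i, 0 ≤ lam i
    · obtain ⟨i, hi⟩ := h1
      have hlt : ∀ j, j ≠ i → lam j < 0 := fun j hj => h2 i j (Ne.symm hj) hi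
      have hx' : ∀ (x : E3), (∀ i, lam i < 0 → inner ℝ (b i) x = 0) →
          x = inner ℝ (b i) x • b i := by
        intro x h
        conv_lhs => rw [← b.sum_repr' x]
        rw [Finset.sum_eq_single i]
        · intro j _ hj
          rw [h j (hlt j hj), zero_smul]
        · simp
      have e1 := hx' x h
      have e2 := hx' y h'
      have n1 : (inner ℝ (b i) x : ℝ) ^ 2 = 1 := by
        have := congrArg (fun v => ‖v‖ ^ 2) e1
        simp only [norm_smul, hx, basis_norm, mul_one, Real.norm_eq_abs, sq_abs] at this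
        linarith
      have n2 : (inner ℝ (b i) y : ℝ) ^ 2 = 1 := by
        have := congrArg (fun v => ‖v‖ ^ 2) e2
        simp only [norm_smul, hy, basis_norm, mul_one, Real.norm_eq_abs, sq_abs] at this
        linarith
      rw [e1, e2, ver_smul, ver_smul, n1, n2]
    · push Not at h1
      exfalso
      have h3 : x = 0 := by
        rw [← b.sum_repr' x]
        simp [fun i => h i (h1 i)]
      rw [h3, norm_zero] at hx
      exact zero_ne_one hx

end quad

end Pbb5b69
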