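import Pool.Agent.Lib.Pbb5b69.Thom3

/-!
# Duality on a manifold mod 2
-/

open Finsupp

namespace STop

section pointcross

variable {P : Type*} [TopologicalSpace P]

theorem cr1_point {S T : Type*} (a : S) (m : List T) (hm : m ≠ []) :
    cr1 [a] m = single (m.map fun b => (a, b)) 1 := by
  induction m with
  | nil => exact absurd rfl hm
  | cons b m ih =>
    rw [cr1_cons, cr1_nil_left, zero_add]
    by_cases h : m = []
    · subst h
      rw [cr1_nil_right]
      simp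
    · rw [ih h, if_neg (by
        have := List.length_pos_iff.2 h
        simp only [List.length_nil]
        omega), add_zero, cone_single]
      rfl

theorem sub2_point (p : P) (τ : Sing P) (l : List (Fin τ.nv)) :
    (cstS p 1).sub2 τ (l.map fun b => ((0 : Fin 1), b)) = (τ.sub l).push (fib p) := by
  have h1 : (τ.sub l).push (fib p) = ⟨l.length,
      ((cstS p 1).map.comp (Dmap (fun _ : Fin l.length => (0 : Fin 1)))).prodMk
        (τ.map.comp (Dmap l.get))⟩ := rfl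
  rw [h1]
  unfold Sing.sub2
  apply Sing.mk_congr2 _ _ _ _ _ _ (by simp)
  · intro i; simp
  · intro i; simp

/-- Cross product with a point. -/
theorem crS_point (p : P) (y : SC P) :
    crS (single (cstS p 1) 1) y + push (fib p) y ∈ Deg (P × P) 0 := by
  refine chain_induction (P := fun y => crS (single (cstS p 1) 1) y + push (fib p) y ∈
    Deg (P × P) 0) y (by simp) ?_ ?_
  · intro x y hx hy
    have := Submodule.add_mem _ hx hy
    rw [map_add, map_add]
    convert this using 1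
    abel
  · intro τ
    rw [push_single]
    by_cases h : τ.nv = 0
    · have h0 : (single τ 1 : SC P) ∈ Deg P 0 := single_mem_supp (P := fun σ : Sing P => σ.nv = 0) h
      rw [crS_Deg_zero_right _ h0, zero_add]
      exact single_mem_supp (P := fun σ : Sing (P × P) => σ.nv = 0) h
    · have h1 : crS (single (cstS p 1) (1 : F2)) (single τ 1) = single (τ.push (fib p)) 1 := by
        rw [crS_single]
        have h2 : cr (univ (cstS p 1).nv) (univ τ.nv) =
            single ((List.finRange τ.nv).map fun b => ((0 : Fin 1), b)) 1 := by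
          rw [univ, univ, cr_single]
          have h3 : List.finRange (cstS p 1).nv = [(0 : Fin 1)] := rfl
          rw [h3]
          apply cr1_point
          intro h4
          apply h
          have := congrArg List.length h4
          simpa using this
        rw [h2, realL2_single, sub2_point, Sing.sub_finRange]
      rw [h1, add_self_eq_zero']
      exact Submodule.zero_mem _

end pointcross

section dual

variable {P : Type*} [TopologicalSpace P]

/-- The duality map. -/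
noncomputable def DD (θ : SC (P × P) →ₗ[F2] F2) : SC P →ₗ[F2] Module.Dual F2 (SC P) :=
  crS.compr₂ θ

theorem DD_apply (θ : SC (P × P) →ₗ[F2] F2) (a b : SC P) : DD θ a b = θ (crS a b) := rfl

variable {m : ℕ} {θ : SC (P × P) →ₗ[F2] F2}

theorem DD_bdS (hθ : ThomF P m θ) (hm : m ≠ 0) (a : SC P) : DD θ (bdS a) = del (DD θ a) := by
  apply LinearMap.ext
  intro b
  rw [DD_apply, del_apply, DD_apply]
  have h1 := hθ.deg 0 (Ne.symm hm) _ (bdS_crS a b)
  rw [map_add, map_add, hθ.bd, zero_add] at h1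
  exact eq_of_add_eq_zero h1

theorem DD_Deg_zero {a : SC P} (ha : a ∈ Deg P 0) : DD θ a = 0 := by
  apply LinearMap.ext
  intro b
  rw [DD_apply, crS_Deg_zero_left ha, map_zero]
  rfl

theorem DD_disj (hθ : ThomF P m θ) {A B : Set P} (hAB : Disjoint A B) {a b : SC P}
    (ha : a ∈ CIn A) (hb : b ∈ CIn B) : DD θ a b = 0 := by
  rw [DD_apply]
  apply hθ.off
  refine CIn_mono ?_ (crS_mem_CIn ha hb)
  rintro ⟨x, y⟩ ⟨hx, hy⟩ h
  have h' : x = y := h
  rw [h'] at hx
  exact (Set.disjoint_left.1 hAB hx) hy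

/-- Cochains with compact support in `U`. -/
def Cc (U : Set P) : Submodule F2 (Module.Dual F2 (SC P)) where
  carrier := {φ | ∃ K, IsCompact K ∧ K ⊆ U ∧ ∀ x ∈ CIn Kᶜ, φ x = 0}
  add_mem' := by
    rintro φ ψ ⟨K, hK, hKU, h⟩ ⟨L, hL, hLU, h'⟩
    refine ⟨K ∪ L, hK.union hL, Set.union_subset hKU hLU, fun x hx => ?_⟩
    rw [LinearMap.add_apply, h x (CIn_mono (Set.compl_subset_compl.2 Set.subset_union_left) hx),
      h' x (CIn_mono (Set.compl_subset_compl.2 Set.subset_union_right) hx), add_zero]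
  zero_mem' := ⟨∅, isCompact_empty, Set.empty_subset _, fun _ _ => rfl⟩
  smul_mem' := by
    rintro c φ ⟨K, hK, hKU, h⟩
    refine ⟨K, hK, hKU, fun x hx => ?_⟩
    rw [LinearMap.smul_apply, h x hx, smul_zero]

theorem mem_Cc {U : Set P} {φ : Module.Dual F2 (SC P)} :
    φ ∈ Cc U ↔ ∃ K, IsCompact K ∧ K ⊆ U ∧ ∀ x ∈ CIn Kᶜ, φ x = 0 := Iff.rfl

theorem Cc_mono {U V : Set P} (h : U ⊆ V) : Cc U ≤ Cc V := by
  rintro φ ⟨K, hK, hKU, h'⟩
  exact ⟨K, hK, hKU.trans h, h'⟩

theorem del_mem_Cc {U : Set P} {φ : Module.Dual F2 (SC P)} (h : φ ∈ Cc U) : del φ ∈ Cc U := by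
  obtain ⟨K, hK, hKU, h'⟩ := h
  exact ⟨K, hK, hKU, fun x hx => h' _ (bdS_mem_CIn hx)⟩

theorem DD_mem_Cc (hθ : ThomF P m θ) {U : Set P} {a : SC P} (ha : a ∈ CIn U) : DD θ a ∈ Cc U := by
  obtain ⟨K, hK, hKU, h⟩ := exists_compact ha
  exact ⟨K, hK, hKU, fun x hx => DD_disj hθ disjoint_compl_right h hx⟩

/-- The duality map is a quasi-isomorphism over `U`. -/
def Acyc (θ : SC (P × P) →ₗ[F2] F2) (U : Set P) : Prop :=
  ∀ a ∈ CIn U, ∀ φ ∈ Cc U, bdS a ∈ Deg P 0 → DD θ a = del φ →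
    ∃ a' ∈ CIn U, ∃ φ' ∈ Cc U, a + bdS a' ∈ Deg P 0 ∧ φ = DD θ a' + del φ'

theorem acyc_empty : Acyc θ (∅ : Set P) := by
  intro a ha φ hφ _ _
  refine ⟨0, Submodule.zero_mem _, 0, Submodule.zero_mem _, ?_, ?_⟩
  · rw [map_zero, add_zero]
    rwa [CIn_empty] at ha
  · rw [map_zero, map_zero, add_zero]
    obtain ⟨K, _, hKU, h⟩ := hφ
    have hK : K = ∅ := Set.subset_empty_iff.1 hKU
    subst hK
    apply LinearMap.ext
    intro x
    rw [h x (by rw [Set.compl_empty]; exact CIn_univ x)]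
    rfl

theorem acyc_directed {𝒟 : Set (Set P)} (hne : 𝒟.Nonempty)
    (hd : DirectedOn (· ⊆ ·) 𝒟) (ho : ∀ U ∈ 𝒟, IsOpen U) (hQ : ∀ U ∈ 𝒟, Acyc θ U) :
    Acyc θ (⋃₀ 𝒟) := by
  intro a ha φ hφ hb hD
  obtain ⟨D1, hD1, ha1⟩ := dir_chain hne hd ho ha
  obtain ⟨K, hK, hKU, h⟩ := hφ
  have : Nonempty 𝒟 := hne.to_subtype
  obtain ⟨D2, hD2⟩ := hK.elim_directed_cover (fun D : 𝒟 => (D : Set P))
    (fun D => ho D D.2) (by rw [← Set.sUnion_eq_iUnion]; exact hKU) (by
      rintro ⟨D, hD⟩ ⟨D', hD'⟩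
      obtain ⟨D'', hD'', h1, h2⟩ := hd D hD D' hD'
      exact ⟨⟨D'', hD''⟩, h1, h2⟩)
  obtain ⟨D3, hD3, h13, h23⟩ := hd D1 hD1 D2 D2.2
  obtain ⟨a', ha', φ', hφ', h1, h2⟩ := hQ D3 hD3 a (CIn_mono h13 ha1) φ
    ⟨K, hK, hD2.trans h23, h⟩ hb hD
  exact ⟨a', CIn_mono (Set.subset_sUnion_of_mem hD3) ha', φ',
    Cc_mono (Set.subset_sUnion_of_mem hD3) hφ', h1, h2⟩

/-- Restriction of a functional to the simplices with a property. -/
theorem func_split (φ : Module.Dual F2 (SC P)) (Q : Sing P → Prop) :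
    ∃ φ1 : Module.Dual F2 (SC P), (∀ σ, Q σ → φ1 (single σ 1) = 0) ∧
      ∀ σ, ¬ Q σ → φ1 (single σ 1) = φ (single σ 1) := by
  classical
  refine ⟨lin fun σ => if Q σ then 0 else φ (single σ 1), ?_, ?_⟩
  · intro σ h
    rw [lin_single, if_pos h]
  · intro σ h
    rw [lin_single, if_neg h]

theorem Cc_split [T2Space P] {U V : Set P} (hU : IsOpen U) (hV : IsOpen V)
    {φ : Module.Dual F2 (SC P)} (h : φ ∈ Cc (U ∪ V)) :
    ∃ φ1 ∈ Cc U, ∃ φ2 ∈ Cc V, φ = φ1 + φ2 := by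
  obtain ⟨K, hK, hKU, h⟩ := h
  obtain ⟨K1, K2, hK1, hK2, hK1U, hK2V, rfl⟩ := hK.binary_compact_cover hU hV hKU
  obtain ⟨φ1, h1, h2⟩ := func_split φ (fun σ => σ.In K1ᶜ)
  refine ⟨φ1, ⟨K1, hK1, hK1U, ?_⟩, φ + φ1, ⟨K2, hK2, hK2V, ?_⟩, ?_⟩
  · intro x hx
    refine supp_ext φ1 0 ?_ hx
    intro σ hσ
    exact h1 σ hσ
  · intro x hx
    refine supp_ext (φ + φ1) 0 ?_ hx
    intro σ hσ
    rw [LinearMap.add_apply]
    by_cases h3 : σ.In K1ᶜ
    · rw [h1 σ h3, add_zero]
      apply h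
      apply single_mem_CIn
      intro t ht
      rcases ht with ht | ht
      · exact h3 t ht
      · exact hσ t ht
    · rw [h2 σ h3, F2.add_self]
      rfl
  · rw [add_comm φ, ← add_assoc, add_self_eq_zero', zero_add]

/-- The smallness step for cochains. -/
theorem cochain_step {A B : Set P} (hA : IsOpen A) (hB : IsOpen B)
    {χ : Module.Dual F2 (SC P)} (h1 : ∀ x ∈ CIn A, χ x = 0) (h2 : ∀ x ∈ CIn B, χ x = 0)
    (h3 : ∀ x ∈ CIn (A ∪ B), del χ x = 0) :
    ∃ ψ : Module.Dual F2 (SC P), (∀ x ∈ CIn A, ψ x = 0) ∧ (∀ x ∈ CIn B, ψ x = 0) ∧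
      ∀ x ∈ CIn (A ∪ B), (χ + del ψ) x = 0 := by
  have hN : ∀ x ∈ CIn A ⊔ CIn B, χ x = 0 := by
    intro x hx
    obtain ⟨y, hy, z, hz, rfl⟩ := Submodule.mem_sup.1 hx
    rw [map_add, h1 y hy, h2 z hz, add_zero]
  obtain ⟨ψ, hψ1, hψ2⟩ := exists_functional (W := ↥(CIn (A ∪ B))) (CIn A ⊔ CIn B)
    (bdS ∘ₗ (CIn (A ∪ B)).subtype) (χ ∘ₗ (CIn (A ∪ B)).subtype) (by
      rintro ⟨w, hw⟩ hb
      change bdS w ∈ _ at hb
      change χ w = 0
      obtain ⟨e, he, hs⟩ := small_two hA hB le_rfl hw hb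
      have h4 := hN _ hs
      rw [map_add] at h4
      have h5 := h3 e he
      rw [del_apply] at h5
      rw [h5, add_zero] at h4
      exact h4)
  refine ⟨ψ, fun x hx => hψ1 x (Submodule.mem_sup_left hx),
    fun x hx => hψ1 x (Submodule.mem_sup_right hx), fun x hx => ?_⟩
  have h4 := hψ2 ⟨x, hx⟩
  change ψ (bdS x) = χ x at h4
  rw [LinearMap.add_apply, del_apply, h4, F2.add_self]

theorem acyc_union [T2Space P] (hθ : ThomF P m θ) (hm : m ≠ 0) {U V : Set P} (hU : IsOpen U)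
    (hV : IsOpen V) (qU : Acyc θ U) (qV : Acyc θ V) (qUV : Acyc θ (U ∩ V)) :
    Acyc θ (U ∪ V) := by
  intro a ha φ hφ hb hD
  obtain ⟨e, he, hs⟩ := small_two hU hV le_rfl ha
    (Submodule.mem_sup_left (Deg_zero_le_CIn U hb))
  obtain ⟨a1, ha1, a2, ha2, h12⟩ := Submodule.mem_sup.1 hs
  obtain ⟨φ1, hφ1, φ2, hφ2, hφ12⟩ := Cc_split hU hV (Submodule.add_mem _ hφ (DD_mem_Cc hθ he))
  have hsum : DD θ a1 + DD θ a2 = del φ1 + del φ2 := by
    rw [← map_add, ← map_add, h12, ← hφ12, map_add, map_add, hD, DD_bdS hθ hm]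
  obtain ⟨χ, hχ⟩ : ∃ χ, χ = DD θ a1 + del φ1 := ⟨_, rfl⟩
  have hχ2 : χ = DD θ a2 + del φ2 := by
    rw [hχ]
    apply eq_of_add_eq_zero
    have h3 := add_self_eq_zero' (DD θ a1 + DD θ a2)
    calc DD θ a1 + del φ1 + (DD θ a2 + del φ2) =
        (DD θ a1 + DD θ a2) + (del φ1 + del φ2) := by abel
      _ = 0 := by rw [← hsum, h3]
  have hχU : χ ∈ Cc U := by
    rw [hχ]; exact Submodule.add_mem _ (DD_mem_Cc hθ ha1) (del_mem_Cc hφ1)
  have hχV : χ ∈ Cc V := by
    rw [hχ2]; exact Submodule.add_mem _ (DD_mem_Cc hθ ha2) (del_mem_Cc hφ2)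
  have hbs : bdS a = bdS a1 + bdS a2 := by
    have h3 := congrArg bdS h12
    rw [map_add, map_add, bdS_bdS, add_zero] at h3
    exact h3.symm
  obtain ⟨c, hc⟩ : ∃ c, c = bdS a1 := ⟨_, rfl⟩
  have hc2 : c = bdS a2 + bdS a := by
    rw [hc, hbs, add_comm (bdS a1), ← add_assoc, add_self_eq_zero', zero_add]
  have hcUV : c ∈ CIn (U ∩ V) := by
    apply CIn_inter
    · rw [hc]; exact bdS_mem_CIn ha1
    · rw [hc2]; exact Submodule.add_mem _ (bdS_mem_CIn ha2) (Deg_zero_le_CIn _ hb)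
  have hδχ : del χ = DD θ c := by
    rw [hχ, map_add, del_del, add_zero, hc, DD_bdS hθ hm]
  obtain ⟨L1, hL1, hL1U, hL1v⟩ := hχU
  obtain ⟨L2, hL2, hL2V, hL2v⟩ := hχV
  obtain ⟨L3, hL3, hL3s, hcL3⟩ := exists_compact hcUV
  have hA : IsOpen (L1 ∪ L3)ᶜ := (hL1.union hL3).isClosed.isOpen_compl
  have hB : IsOpen (L2 ∪ L3)ᶜ := (hL2.union hL3).isClosed.isOpen_compl
  obtain ⟨ψ, hψA, hψB, hψ⟩ := cochain_step hA hB (χ := χ)
    (fun x hx => hL1v x (CIn_mono (Set.compl_subset_compl.2 Set.subset_union_left) hx))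
    (fun x hx => hL2v x (CIn_mono (Set.compl_subset_compl.2 Set.subset_union_left) hx))
    (fun x hx => by
      rw [hδχ]
      apply DD_disj hθ disjoint_compl_right hcL3 (CIn_mono ?_ hx)
      rintro y (hy | hy) h3
      · exact hy (Or.inr h3)
      · exact hy (Or.inr h3))
  have hψU : ψ ∈ Cc U := ⟨L1 ∪ L3, hL1.union hL3,
    Set.union_subset hL1U (hL3s.trans Set.inter_subset_left), hψA⟩
  have hψV : ψ ∈ Cc V := ⟨L2 ∪ L3, hL2.union hL3,
    Set.union_subset hL2V (hL3s.trans Set.inter_subset_right), hψB⟩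
  have hχ' : χ + del ψ ∈ Cc (U ∩ V) := by
    refine ⟨(L1 ∪ L3) ∩ (L2 ∪ L3), (hL1.union hL3).inter (hL2.union hL3), ?_, ?_⟩
    · rintro y ⟨hy1 | hy1, hy2⟩
      · rcases hy2 with hy2 | hy2
        · exact ⟨hL1U hy1, hL2V hy2⟩
        · exact hL3s hy2
      · exact hL3s hy1
    · intro x hx
      apply hψ
      rwa [Set.compl_inter] at hx
  obtain ⟨e', he', ω, hω, h4, h5⟩ := qUV c hcUV (χ + del ψ) hχ' (by
    rw [hc, bdS_bdS]; exact Submodule.zero_mem _) (by
    rw [map_add, del_del, add_zero, hδχ])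
  have he'U := CIn_mono Set.inter_subset_left he'
  have he'V := CIn_mono Set.inter_subset_right he'
  have hωU := Cc_mono Set.inter_subset_left hω
  have hωV := Cc_mono Set.inter_subset_right hω
  have hDe' : DD θ e' = χ + del ψ + del ω := by
    rw [h5, add_assoc, add_self_eq_zero', add_zero]
  obtain ⟨a1', ha1', φ1', hφ1', h6, h7⟩ := qU (a1 + e') (Submodule.add_mem _ ha1 he'U)
    (ψ + φ1 + ω) (Submodule.add_mem _ (Submodule.add_mem _ hψU hφ1) hωU) (by
      rw [map_add, ← hc]; exact h4) (by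
      rw [map_add, hDe', map_add, map_add]
      have e1 : DD θ a1 = χ + del φ1 := by
        rw [hχ, add_assoc, add_self_eq_zero', add_zero]
      rw [e1]
      have e2 := add_self_eq_zero' χ
      calc χ + del φ1 + (χ + del ψ + del ω) = (χ + χ) + (del ψ + del φ1 + del ω) := by abel
        _ = _ := by rw [e2, zero_add])
  obtain ⟨a2', ha2', φ2', hφ2', h8, h9⟩ := qV (a2 + e') (Submodule.add_mem _ ha2 he'V)
    (ψ + φ2 + ω) (Submodule.add_mem _ (Submodule.add_mem _ hψV hφ2) hωV) (by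
      have e1 : bdS (a2 + e') = (c + bdS e') + bdS a := by
        rw [map_add, hc2]
        have e2 := add_self_eq_zero' (bdS a)
        calc bdS a2 + bdS e' = bdS a2 + bdS e' + (bdS a + bdS a) := by rw [e2, add_zero]
          _ = _ := by abel
      rw [e1]
      exact Submodule.add_mem _ h4 hb) (by
      rw [map_add, hDe', map_add, map_add]
      have e1 : DD θ a2 = χ + del φ2 := by
        rw [hχ2, add_assoc, add_self_eq_zero', add_zero]
      rw [e1]
      have e2 := add_self_eq_zero' χ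
      calc χ + del φ2 + (χ + del ψ + del ω) = (χ + χ) + (del ψ + del φ2 + del ω) := by abel
        _ = _ := by rw [e2, zero_add])
  refine ⟨e + (a1' + a2'), Submodule.add_mem _ he (Submodule.add_mem _
    (CIn_mono Set.subset_union_left ha1') (CIn_mono Set.subset_union_right ha2')),
    φ1' + φ2', Submodule.add_mem _ (Cc_mono Set.subset_union_left hφ1')
      (Cc_mono Set.subset_union_right hφ2'), ?_, ?_⟩
  · have e1 : a + bdS (e + (a1' + a2')) = (a1 + e' + bdS a1') + (a2 + e' + bdS a2') := by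
      rw [map_add, map_add]
      have e2 := add_self_eq_zero' e'
      have e3 : a + bdS e = a1 + a2 := h12.symm
      calc a + (bdS e + (bdS a1' + bdS a2')) = (a + bdS e) + (bdS a1' + bdS a2') := by abel
        _ = (a1 + a2) + (bdS a1' + bdS a2') + (e' + e') := by rw [e3, e2, add_zero]
        _ = _ := by abel
    rw [e1]
    exact Submodule.add_mem _ h6 h8
  · have e1 : φ = (ψ + φ1 + ω) + (ψ + φ2 + ω) + DD θ e := by
      have e2 := add_self_eq_zero' ψ
      have e3 := add_self_eq_zero' ω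
      have e4 := add_self_eq_zero' (DD θ e)
      have e5 : (ψ + φ1 + ω) + (ψ + φ2 + ω) = φ1 + φ2 := by
        calc _ = (φ1 + φ2) + (ψ + ψ) + (ω + ω) := by abel
          _ = _ := by rw [e2, e3, add_zero, add_zero]
      rw [e5, ← hφ12, add_assoc, e4, add_zero]
    rw [e1, h7, h9]
    simp only [map_add]
    abel

end dual

end STop
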