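import Pool.Agent.Lib.P26f563.Equi

/-!
# Interfaces for the tightness argument (MP_bb5b69_gt)

All chains are the augmented singular chains mod 2 of `Pool.Agent.Lib.P26f563`:
`SC X` (all dimensions together), `Deg X m` = chains of simplices with `m` vertices (so dimension
`m - 1`; `Deg X 0` is spanned by the empty simplex), `CIn A` = chains in the subset `A`.
-/

open Finsupp

namespace STop

/-- The homological facts about the manifold (dimension `2 d`) used in the tightness argument;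
`g` is a cycle representing the generator of `H_d`. -/
structure Facts (P : Type) [TopologicalSpace P] (d : ℕ) (g : SC P) : Prop where
  dpos : 1 ≤ d
  /-- reduced `H_0` vanishes -/
  conn : ∀ z ∈ Deg P 1, bdS z = 0 → ∃ c, bdS c = z
  /-- `H_k = 0` for `0 < k < 2 d`, `k ≠ d` -/
  low : ∀ k, 1 ≤ k → k ≠ d → k < 2 * d → ∀ z ∈ Deg P (k + 1), bdS z = 0 → ∃ c, bdS c = z
  g_deg : g ∈ Deg P (d + 1)
  g_cyc : bdS g = 0
  g_ne : ∀ c, bdS c ≠ g
  g_gen : ∀ z ∈ Deg P (d + 1), bdS z = 0 → (∃ c, bdS c = z) ∨ (∃ c, bdS c = z + g)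
  /-- top dimensional cycles in a proper closed subset bound -/
  top : ∀ A : Set P, IsClosed A → A ≠ Set.univ → ∀ z ∈ CIn A, z ∈ Deg P (2 * d + 1) →
    bdS z = 0 → ∃ c, bdS c = z
  /-- no homology of open subsets above the dimension -/
  high : ∀ U : Set P, IsOpen U → ∀ k, 2 * d < k → ∀ z ∈ CIn U, z ∈ Deg P (k + 1) →
    bdS z = 0 → ∃ c ∈ CIn U, bdS c = z
  /-- two disjoint closed sets cannot both carry a nonzero class of dimension `d` -/
  disj : ∀ A B : Set P, IsClosed A → IsClosed B → Disjoint A B → ∀ z ∈ CIn A, ∀ w ∈ CIn B,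
    z ∈ Deg P (d + 1) → w ∈ Deg P (d + 1) → bdS z = 0 → bdS w = 0 →
    (∃ c, bdS c = z) ∨ (∃ c, bdS c = w)

/-- Tightness, in terms of chains: a cycle of a nonempty closed half-space preimage which bounds
bounds in the preimage. -/
def TightC {P E : Type} [TopologicalSpace P] [NormedAddCommGroup E] [InnerProductSpace ℝ E]
    (f : P → E) : Prop :=
  ∀ (v : E) (c : ℝ), v ≠ 0 → {x | c ≤ inner ℝ v (f x)}.Nonempty →
    ∀ z ∈ CIn {x | c ≤ inner ℝ v (f x)}, (∃ e, bdS e = z) →
      ∃ e ∈ CIn {x | c ≤ inner ℝ v (f x)}, bdS e = z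

/-- The face of a set in a direction. -/
def FaceOf {E : Type} [NormedAddCommGroup E] [InnerProductSpace ℝ E] (C : Set E) (v : E) : Set E :=
  {y | y ∈ C ∧ ∀ z ∈ C, inner ℝ v z ≤ inner ℝ v y}

/-- Interface of module Generic: after a small generic translation, finitely many simplices with
at most `j` vertices miss the set of directions whose face has dimension at least `j`. -/
def GenericStatement : Prop :=
  ∀ (E : Type) [NormedAddCommGroup E] [InnerProductSpace ℝ E] [FiniteDimensional ℝ E]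
    (C : Set E) (_ : Convex ℝ C) (j : ℕ) (_ : 1 ≤ j) (S : Finset (List E))
    (_ : ∀ l ∈ S, l.length ≤ j) (ε : ℝ) (_ : 0 < ε),
    ∃ t : E, ‖t‖ < ε ∧ ∀ l ∈ S, ∀ x ∈ convexHull ℝ {y | y ∈ l},
      Module.finrank ℝ (vectorSpan ℝ (FaceOf C (x + t))) < j

/-- Interface of module Fund: small fundamental cycles around the origin (the bound `R` does not
depend on the mesh `ρ`). -/
def FundStatement : Prop :=
  ∀ (E : Type) [NormedAddCommGroup E] [InnerProductSpace ℝ E] [FiniteDimensional ℝ E]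
    (_ : 1 ≤ Module.finrank ℝ E), ∃ R : ℝ, 1 ≤ R ∧ ∀ ρ : ℝ, 0 < ρ →
    ∃ L : LC E, bd L = 0 ∧
      (∀ l ∈ L.support, l.length = Module.finrank ℝ E ∧ Mesh ρ l ∧ ∀ v ∈ l, 1 ≤ ‖v‖ ∧ ‖v‖ ≤ R) ∧
      ¬ ∃ c ∈ CIn ({0}ᶜ : Set E), bdS c = affL L

end STop
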