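import Pool.Agent.Lib.Pbb5b69.Dual
import Pool.Agent.Lib.Pbb5b69.Facts

/-!
# Duality on a manifold mod 2: base case and conclusion
-/

open Finsupp

namespace STop

section prelim

variable {E : Type} [NormedAddCommGroup E] [NormedSpace ℝ E] [FiniteDimensional ℝ E]

theorem exists_compact_convex {V K : Set E} (hV : IsOpen V) (hVc : Convex ℝ V) (hK : IsCompact K)
    (hKV : K ⊆ V) {x0 : E} (hx0 : x0 ∈ V) :
    ∃ C, IsCompact C ∧ Convex ℝ C ∧ K ⊆ C ∧ C ⊆ V ∧ x0 ∈ C := by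
  classical
  have hK' : IsCompact (insert x0 K) := hK.insert x0
  have hK'V : insert x0 K ⊆ V := Set.insert_subset hx0 hKV
  have h1 : ∀ x : V, ∃ F : Finset E, (↑F : Set E) ⊆ V ∧ (x : E) ∈ interior (convexHull ℝ (F : Set E)) := by
    intro x
    obtain ⟨b, hb1, hb2⟩ := exists_mem_interior_convexHull_affineBasis (hV.mem_nhds x.2)
    refine ⟨Finset.univ.image b, ?_, ?_⟩
    · intro y hy
      rw [Finset.coe_image, Finset.coe_univ, Set.image_univ] at hy
      exact hb2 (subset_convexHull ℝ _ hy)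
    · rw [Finset.coe_image, Finset.coe_univ, Set.image_univ]
      exact hb1
  choose F hFV hF using h1
  obtain ⟨t, ht⟩ := hK'.elim_finite_subcover (fun x : V => interior (convexHull ℝ (F x : Set E)))
    (fun _ => isOpen_interior) (by
      intro y hy
      exact Set.mem_iUnion.2 ⟨⟨y, hK'V hy⟩, hF ⟨y, hK'V hy⟩⟩)
  let G : Finset E := t.biUnion F
  have hG : ∀ x ∈ t, convexHull ℝ (F x : Set E) ⊆ convexHull ℝ (G : Set E) := by
    intro x hx
    apply convexHull_mono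
    intro y hy
    exact Finset.mem_coe.2 (Finset.mem_biUnion.2 ⟨x, hx, hy⟩)
  have hsub : insert x0 K ⊆ convexHull ℝ (G : Set E) := by
    intro y hy
    obtain ⟨x, hx⟩ := Set.mem_iUnion.1 (ht hy)
    obtain ⟨hxt, hyx⟩ := Set.mem_iUnion.1 hx
    exact hG x hxt (interior_subset hyx)
  refine ⟨convexHull ℝ (G : Set E), G.finite_toSet.isCompact_convexHull ℝ,
    convex_convexHull ℝ _, (Set.subset_insert _ _).trans hsub, ?_, hsub (Set.mem_insert _ _)⟩
  apply convexHull_min _ hVc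
  intro y hy
  obtain ⟨x, _, hyx⟩ := Finset.mem_biUnion.1 (Finset.mem_coe.1 hy)
  exact hFV x hyx

theorem Deg_zero_span {X : Type*} [TopologicalSpace X] (p : X) {x : SC X} (hx : x ∈ Deg X 0) :
    ∃ l : F2, x = l • single (cstS p 0) 1 := by
  refine supp_ind (P := fun x => ∃ l : F2, x = l • single (cstS p 0) 1) hx ⟨0, by simp⟩ ?_ ?_
  · rintro x y ⟨l, rfl⟩ ⟨k, rfl⟩
    exact ⟨l + k, (add_smul _ _ _).symm⟩
  · intro σ hσ
    exact ⟨1, by rw [one_smul, eq_emp p hσ]⟩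

theorem bdS_point {X : Type*} [TopologicalSpace X] (p : X) :
    bdS (single (cstS p 1) 1) = single (cstS p 0) (1 : F2) := by
  rw [bdS_cstS]
  simp

variable {P : Type*} [TopologicalSpace P]

theorem acyclic_chart {φ : E → P} (hφ : Topology.IsOpenEmbedding φ) {V : Set E} (hV : Convex ℝ V)
    (hne : V.Nonempty) (z : SC P) (hz : z ∈ CIn (φ '' V)) (hb : bdS z = 0) :
    ∃ e ∈ CIn (φ '' V), bdS e = z := by
  obtain ⟨Φ, hΦ⟩ : ∃ Φ : C(E, P), Φ = ⟨φ, hφ.continuous⟩ := ⟨_, rfl⟩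
  have hemb : Topology.IsEmbedding Φ := by rw [hΦ]; exact hφ.isEmbedding
  have himg : φ '' V = Φ '' V := by rw [hΦ]; rfl
  rw [himg] at hz ⊢
  obtain ⟨z', hz', rfl⟩ := exists_lift hemb hz
  rw [← push_bdS] at hb
  have hb' : bdS z' = 0 := push_inj hemb.injective (by rw [hb, map_zero])
  obtain ⟨e, he, rfl⟩ := acyclic_convex hV hne z' hz' hb'
  exact ⟨push Φ e, push_mem_CIn Φ (fun a ha => Set.mem_image_of_mem Φ ha) he, (push_bdS _ _).symm⟩

end prelim

section base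

variable {E : Type} [NormedAddCommGroup E] [NormedSpace ℝ E] [FiniteDimensional ℝ E]
  {P : Type*} [TopologicalSpace P] [T2Space P] {θ : SC (P × P) →ₗ[F2] F2}

theorem acyc_base (hθ : ThomF P (Module.finrank ℝ E + 1) θ) {φ : E → P}
    (hφ : Topology.IsOpenEmbedding φ) {V : Set E} (hVo : IsOpen V) (hV : Convex ℝ V)
    (hne : V.Nonempty) : Acyc θ (φ '' V) := by
  intro a ha ψ hψ hb hD
  have hm : Module.finrank ℝ E + 1 ≠ 0 := by omega
  obtain ⟨x0, hx0⟩ := hne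
  have hp0 : φ x0 ∈ φ '' V := ⟨x0, hx0, rfl⟩
  obtain ⟨p, hp⟩ : ∃ p : SC P, p = single (cstS (φ x0) 1) 1 := ⟨_, rfl⟩
  have hpm : ∀ A : Set P, φ x0 ∈ A → p ∈ CIn A := by
    intro A hA
    rw [hp]
    exact single_mem_CIn (cstS_In hA 1)
  have hbp : bdS p ∈ Deg P 0 := by
    rw [hp]; exact bdS_single_mem rfl
  obtain ⟨l, hl⟩ := Deg_zero_span (φ x0) hb
  have hcyc : bdS (a + l • p) = 0 := by
    rw [map_add, map_smul, hl, hp, bdS_point, add_self_eq_zero']
  obtain ⟨a', ha', hba'⟩ := acyclic_chart hφ hV ⟨x0, hx0⟩ (a + l • p)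
    (Submodule.add_mem _ ha (Submodule.smul_mem _ _ (hpm _ hp0))) hcyc
  obtain ⟨ψ1, hψ1⟩ : ∃ ψ1, ψ1 = ψ + DD θ a' := ⟨_, rfl⟩
  have hψ1m : ψ1 ∈ Cc (φ '' V) := by
    rw [hψ1]; exact Submodule.add_mem _ hψ (DD_mem_Cc hθ ha')
  have hδ : del ψ1 = l • DD θ p := by
    rw [hψ1, map_add, ← DD_bdS hθ hm, hba', ← hD, map_add, ← add_assoc, add_self_eq_zero',
      zero_add, map_smul]
  obtain ⟨K, hK, hKU, hKv⟩ := hψ1m
  -- a compact convex set
  have hK' : IsCompact (φ ⁻¹' K) := by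
    refine (hφ.isInducing.isCompact_preimage_iff ?_).2 hK
    exact hKU.trans (Set.image_subset_range _ _)
  have hK'V : φ ⁻¹' K ⊆ V := by
    intro x hx
    obtain ⟨y, hy, hxy⟩ := hKU hx
    rwa [← hφ.injective hxy]
  obtain ⟨C, hC, hCc, hKC, hCV, hx0C⟩ := exists_compact_convex hVo hV hK' hK'V hx0
  obtain ⟨w, hw1, hw2⟩ := exists_rgen_chart hφ hC hCc hx0C
  have hCU : φ '' C ⊆ φ '' V := Set.image_mono hCV
  have hKC' : K ⊆ φ '' C := by
    intro y hy
    obtain ⟨x, hx, rfl⟩ := hKU hy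
    exact ⟨x, hKC hy, rfl⟩
  have hψC : ∀ x ∈ CIn (φ '' C)ᶜ, ψ1 x = 0 := fun x hx =>
    hKv x (CIn_mono (Set.compl_subset_compl.2 hKC') hx)
  have hDp : DD θ p w = 1 := by
    have h1 := hθ.deg 0 (by omega) _ (crS_point (φ x0) w)
    rw [map_add, hθ.fib _ _ hw2] at h1
    rw [DD_apply, hp]
    exact eq_of_add_eq_zero h1
  have hDpC : ∀ x ∈ CIn (φ '' C)ᶜ, DD θ p x = 0 := by
    intro x hx
    apply DD_disj hθ (A := {φ x0}) (B := (φ '' C)ᶜ) _ (hpm _ rfl) hx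
    rw [Set.disjoint_left]
    intro y hy
    rw [Set.mem_singleton_iff.1 hy]
    intro h
    exact h ⟨x0, hx0C, rfl⟩
  have hDbp : DD θ (bdS p) = 0 := DD_Deg_zero hbp
  -- `l = 0`
  have hl0 : l = 0 := by
    have h1 : del ψ1 w = l := by
      rw [hδ, LinearMap.smul_apply, hDp, smul_eq_mul, mul_one]
    rw [del_apply, hψC _ hw1.bd] at h1
    exact h1.symm
  subst hl0
  rw [zero_smul, add_zero] at hba'
  rw [zero_smul] at hδ
  -- correct by the value on `w`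
  obtain ⟨ψ2, hψ2⟩ : ∃ ψ2, ψ2 = ψ1 + ψ1 w • DD θ p := ⟨_, rfl⟩
  have hψ2C : ∀ x ∈ CIn (φ '' C)ᶜ, ψ2 x = 0 := by
    intro x hx
    rw [hψ2, LinearMap.add_apply, LinearMap.smul_apply, hψC x hx, hDpC x hx, smul_zero, add_zero]
  have hδ2 : del ψ2 = 0 := by
    rw [hψ2, map_add, map_smul, hδ, ← DD_bdS hθ hm, hDbp, smul_zero, add_zero]
  have hψ2w : ψ2 w = 0 := by
    rw [hψ2, LinearMap.add_apply, LinearMap.smul_apply, hDp, smul_eq_mul, mul_one, F2.add_self]
  obtain ⟨ω, hω1, hω2⟩ := exists_functional (CIn (φ '' C)ᶜ) bdS ψ2 (by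
    intro z hz
    obtain ⟨k, e, _, he⟩ := hw1.gen z (CIn_univ z) hz
    have h1 := hψ2C _ he
    rw [map_add, map_add, map_smul, hψ2w, smul_zero, add_zero] at h1
    have h2 : ψ2 (bdS e) = 0 := by
      rw [← del_apply, hδ2]; rfl
    rw [h2, add_zero] at h1
    exact h1)
  have hωδ : del ω = ψ2 := by
    apply LinearMap.ext
    intro x
    rw [del_apply, hω2]
  refine ⟨a' + ψ1 w • p, Submodule.add_mem _ ha' (Submodule.smul_mem _ _ (hpm _ hp0)), ω,
    ⟨φ '' C, hC.image hφ.continuous, hCU, hω1⟩, ?_, ?_⟩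
  · rw [map_add, hba', ← add_assoc, add_self_eq_zero', zero_add, map_smul]
    exact Submodule.smul_mem _ _ hbp
  · rw [hωδ, hψ2, hψ1, map_add, map_smul]
    have e1 := add_self_eq_zero' (DD θ a')
    have e2 := add_self_eq_zero' ((ψ + DD θ a') w • DD θ p)
    calc ψ = ψ + (DD θ a' + DD θ a') + ((ψ + DD θ a') w • DD θ p +
          (ψ + DD θ a') w • DD θ p) := by rw [e1, e2, add_zero, add_zero]
      _ = _ := by abel

/-- **Duality** for all open subsets. -/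
theorem duality (hθ : ThomF P (Module.finrank ℝ E + 1) θ)
    (hch : ∀ p : P, ∃ φ : E → P, Topology.IsOpenEmbedding φ ∧ p ∈ Set.range φ)
    (U : Set P) (hU : IsOpen U) : Acyc θ U :=
  open_induction hch (Acyc θ) acyc_empty
    (fun φ hφ V hVo hV hne => acyc_base hθ hφ hVo hV hne)
    (fun U V hU hV qU qV qUV => acyc_union hθ (by omega) hU hV qU qV qUV)
    (fun 𝒟 hne hd ho hQ => acyc_directed hne hd ho hQ) U hU

end base

end STop
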