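import Pool.Agent.Lib.Pbb5b69.Dual2
import Pool.Agent.Lib.Pbb5b69.ConeDefs

/-!
# The homological facts on a closed manifold from its homology up to the middle dimension
-/

open Finsupp

namespace STop

section conseq

variable {P : Type*} [TopologicalSpace P] {m : ℕ} {θ : SC (P × P) →ₗ[F2] F2}

/-- Value of the duality map on homogeneous chains. -/
theorem DD_deg (hθ : ThomF P m θ) {i j : ℕ} (hij : i + j ≠ m + 1) {z b : SC P}
    (hz : z ∈ Deg P i) (hb : b ∈ Deg P j) : DD θ z b = 0 := by
  rw [DD_apply]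
  rcases Nat.eq_zero_or_pos i with h0 | h0
  · subst h0
    rw [crS_Deg_zero_left hz, map_zero]
  · exact hθ.deg (i + j - 1) (by omega) _ (crS_mem_Deg (by omega) hz hb)

theorem DD_prv (hθ : ThomF P m θ) {i j : ℕ} (hij : i + j = m + 1) {z : SC P}
    (hz : z ∈ Deg P i) (b : SC P) : DD θ z b = DD θ z (prv j b) := by
  apply apply_eq_prv
  intro k hk x
  exact DD_deg hθ (by omega) hz (prv_mem k x)

theorem DD_eq_zero (hθ : ThomF P m θ) {i : ℕ} (hi : m < i) {z : SC P}
    (hz : z ∈ Deg P i) : DD θ z = 0 := by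
  apply eq_zero_of_prv
  intro k x
  rcases Nat.eq_zero_or_pos k with h0 | h0
  · subst h0
    rw [DD_apply, crS_Deg_zero_right _ (prv_mem 0 x), map_zero]
  · exact DD_deg hθ (by omega) hz (prv_mem k x)

theorem bounds_of_Deg {U : Set P} {i : ℕ} (hi : i ≠ 0) {z a' : SC P} (hz : z ∈ Deg P i)
    (ha' : a' ∈ CIn U) (h : z + bdS a' ∈ Deg P 0) : ∃ c ∈ CIn U, bdS c = z := by
  refine ⟨prv (i + 1) a', mem_CIn_of_prv ha' _, ?_⟩
  have h1 := prv_of_mem_ne h (Ne.symm hi)
  rw [map_add, prv_of_mem hz, ← bdS_prv] at h1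
  exact (eq_of_add_eq_zero h1).symm

/-- Vanishing of the duality map on all cycles implies bounding. -/
theorem bounds_of_DD [CompactSpace P] (hac : Acyc θ (Set.univ : Set P)) {i : ℕ} (hi : i ≠ 0)
    {z : SC P} (hz : z ∈ Deg P i) (hb : bdS z = 0)
    (h : ∀ b, bdS b ∈ Deg P 0 → DD θ z b = 0) : ∃ c, bdS c = z := by
  obtain ⟨φ, hφ1, hφ⟩ := exists_functional (Deg P 0) bdS (DD θ z) h
  have hDφ : DD θ z = del φ := by
    apply LinearMap.ext
    intro x
    rw [del_apply, hφ]
  obtain ⟨a', ha', _, _, h1, _⟩ := hac z (CIn_univ z) φ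
    ⟨Set.univ, isCompact_univ, subset_rfl, fun x hx => by
      rw [Set.compl_univ, CIn_empty] at hx
      exact hφ1 x hx⟩ (by rw [hb]; exact Submodule.zero_mem _) hDφ
  obtain ⟨c, _, hc⟩ := bounds_of_Deg hi hz ha' h1
  exact ⟨c, hc⟩

end conseq

section facts

variable {P : Type} [TopologicalSpace P]

/-- A homeomorphism from an open subset gives an open embedding. -/
theorem chart_of_homeo {E : Type} [TopologicalSpace E] {P : Type*} [TopologicalSpace P] {U : Set P}
    (hU : IsOpen U) (e : U ≃ₜ E) : ∃ φ : E → P, Topology.IsOpenEmbedding φ ∧ Set.range φ = U := by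
  refine ⟨Subtype.val ∘ e.symm, hU.isOpenEmbedding_subtypeVal.comp e.symm.isOpenEmbedding, ?_⟩
  rw [Set.range_comp, e.symm.surjective.range_eq, Set.image_univ, Subtype.range_coe]

/-- The facts from the homology in degrees at most `d`. -/
theorem facts_of_low [CompactSpace P] [T2Space P] {d : ℕ} (hd : 1 ≤ d)
    (hch : ∀ p : P, ∃ φ : EuclideanSpace ℝ (Fin (2 * d)) → P,
      Topology.IsOpenEmbedding φ ∧ p ∈ Set.range φ)
    (hlow : ∀ k < d, ∀ z ∈ Deg P (k + 1), bdS z = 0 → ∃ c, bdS c = z) {g : SC P}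
    (hg1 : g ∈ Deg P (d + 1)) (hg2 : bdS g = 0) (hg3 : ∀ c, bdS c ≠ g)
    (hg4 : ∀ z ∈ Deg P (d + 1), bdS z = 0 → (∃ c, bdS c = z) ∨ (∃ c, bdS c = z + g)) :
    Facts P d g := by
  obtain ⟨θ, hθ⟩ := exists_thomF (EuclideanSpace ℝ (Fin (2 * d))) P hch
  have hdual := duality hθ hch
  have hfr : Module.finrank ℝ (EuclideanSpace ℝ (Fin (2 * d))) = 2 * d := by simp
  rw [hfr] at hθ
  have huniv := hdual Set.univ isOpen_univ
  have hD : ∀ a, DD θ (bdS a) = del (DD θ a) := DD_bdS hθ (by omega)
  refine ⟨hd, ?_, ?_, hg1, hg2, hg3, hg4, ?_, ?_, ?_⟩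
  · intro z hz hb
    exact hlow 0 (by omega) z hz hb
  · intro k hk1 hkd hk2 z hz hb
    rcases lt_or_gt_of_ne hkd with h | h
    · exact hlow k h z hz hb
    · -- Poincare duality
      apply bounds_of_DD huniv (i := k + 1) (by omega) hz hb
      intro b hbb
      obtain ⟨j, hj⟩ : ∃ j, 2 * d = k + j := ⟨2 * d - k, by omega⟩
      rw [DD_prv hθ (i := k + 1) (j := j + 1) (by omega) hz]
      have h1 : bdS (prv (j + 1) b) = 0 := by
        rw [bdS_prv]
        exact prv_of_mem_ne hbb (by omega)
      obtain ⟨c, hc⟩ := hlow j (by omega) _ (prv_mem _ _) h1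
      rw [← hc, ← del_apply, ← hD, hb, map_zero]
      rfl
  · -- top dimensional cycles in a proper closed subset
    intro A hA hne z hzA hz hb
    obtain ⟨q, hq⟩ : ∃ q, q ∉ A := by
      by_contra h
      push Not at h
      exact hne (Set.eq_univ_of_forall h)
    have hval : ∀ p : P, DD θ z (single (cstS p 1) 1) = 0 := by
      intro p
      have h1 : DD θ z (single (cstS q 1) 1) = 0 := by
        apply DD_disj hθ (A := A) (B := {q}) _ hzA (single_mem_CIn (cstS_In rfl 1))
        rw [Set.disjoint_singleton_right]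
        exact hq
      have hpd : ∀ p : P, (single (cstS p 1) 1 : SC P) ∈ Deg P 1 := fun p =>
        single_mem_supp (P := fun σ : Sing P => σ.nv = 1) rfl
      have h2 : bdS (single (cstS p 1) 1 + single (cstS q 1) (1 : F2)) = 0 := by
        rw [map_add, bdS_point, bdS_point, eq_emp q (σ := cstS p 0) rfl, add_self_eq_zero']
      obtain ⟨c, hc⟩ := hlow 0 (by omega) _ (Submodule.add_mem _ (hpd p) (hpd q)) h2
      have h3 : DD θ z (single (cstS p 1) 1 + single (cstS q 1) 1) = 0 := by
        rw [← hc, ← del_apply, ← hD, hb, map_zero]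
        rfl
      rw [map_add, h1, add_zero] at h3
      exact h3
    apply bounds_of_DD huniv (i := 2 * d + 1) (by omega) hz hb
    intro b _
    rw [DD_prv hθ (i := 2 * d + 1) (j := 1) (by omega) hz]
    refine supp_ext (DD θ z) 0 ?_ (prv_mem 1 b)
    intro σ hσ
    -- a one-vertex simplex is constant
    have hσ' : σ.nv = 1 := hσ
    obtain ⟨n, s⟩ := σ
    simp only at hσ'
    subst hσ'
    have h4 : (⟨1, s⟩ : Sing P) = cstS (s (stdSimplex.vertex 0)) 1 := by
      unfold cstS
      congr 1
      ext t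
      change s t = s (stdSimplex.vertex 0)
      congr 1
      have : Subsingleton (Dl 1) := by
        constructor
        intro x y
        ext i
        have hx := x.2.2
        have hy := y.2.2
        rw [Fin.sum_univ_one] at hx hy
        rw [Subsingleton.elim i 0]
        exact hx.trans hy.symm
      exact Subsingleton.elim _ _
    rw [h4, hval]
    rfl
  · intro U hU k hk z hzU hz hb
    obtain ⟨a', ha', _, _, h1, _⟩ := hdual U hU z hzU 0 (Submodule.zero_mem _)
      (by rw [hb]; exact Submodule.zero_mem _) (by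
        rw [DD_eq_zero hθ (by omega) hz, map_zero])
    exact bounds_of_Deg (by omega) hz ha' h1
  · intro A B hA hB hAB z hzA w hwB hz hw hbz hbw
    by_contra hcon
    push Not at hcon
    obtain ⟨hz', hw'⟩ := hcon
    obtain ⟨c, hc⟩ : ∃ c, bdS c = z + g := by
      rcases hg4 z hz hbz with ⟨c, hc⟩ | h
      · exact absurd hc (hz' c)
      · exact h
    obtain ⟨c', hc'⟩ : ∃ c, bdS c = w + g := by
      rcases hg4 w hw hbw with ⟨c, hc⟩ | h
      · exact absurd hc (hw' c)
      · exact h
    have e1 : z = g + bdS c := by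
      rw [hc, add_comm z, ← add_assoc, add_self_eq_zero', zero_add]
    have e2 : w = g + bdS c' := by
      rw [hc', add_comm w, ← add_assoc, add_self_eq_zero', zero_add]
    have hgg : DD θ g g = 0 := by
      have h1 : DD θ z w = 0 := DD_disj hθ hAB hzA hwB
      have h2 : DD θ z w = DD θ g w := by
        rw [e1, map_add, LinearMap.add_apply, hD, del_apply, hbw, map_zero, add_zero]
      have h3 : DD θ g w = DD θ g g := by
        rw [e2, map_add, ← del_apply, ← hD, hg2, map_zero]
        exact add_zero _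
      rw [← h3, ← h2, h1]
    obtain ⟨e, he⟩ := bounds_of_DD huniv (i := d + 1) (by omega) hg1 hg2 (by
      intro b hbb
      rw [DD_prv hθ (i := d + 1) (j := d + 1) (by omega) hg1]
      have h1 : bdS (prv (d + 1) b) = 0 := by
        rw [bdS_prv]
        exact prv_of_mem_ne hbb (by omega)
      rcases hg4 _ (prv_mem _ _) h1 with ⟨c, hc⟩ | ⟨c, hc⟩
      · rw [← hc, ← del_apply, ← hD, hg2, map_zero]
        rfl
      · have h4 : prv (d + 1) b = g + bdS c := by
          rw [hc, add_comm (prv _ _), ← add_assoc, add_self_eq_zero', zero_add]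
        rw [h4, map_add, hgg, zero_add, ← del_apply, ← hD, hg2, map_zero]
        rfl)
    exact hg3 e he

end facts

end STop
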