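import Pool.Agent.Lib.Pbb5b69.Susp
import Pool.Agent.Lib.Pbb5b69.Facts

/-!
# The fundamental cycle around the origin
-/

open Finsupp

namespace STop

/-- The end heights of the cylinder. -/
noncomputable def hgt (j : Fin 2) : ℝ := if j = 0 then -1 else 1

theorem prism1_mem {T : Type*} (l : List T) :
    prism1 l ∈ supp fun q : List (T × Fin 2) => ∀ v ∈ q, v.1 ∈ l := by
  induction l with
  | nil => exact Submodule.zero_mem _
  | cons a l ih =>
    rw [prism1_cons]
    apply Submodule.add_mem
    · rw [cone_single]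
      apply single_mem_supp (P := fun q : List (T × Fin 2) => ∀ v ∈ q, v.1 ∈ a :: l)
      intro v hv
      rcases List.mem_cons.1 hv with h | h
      · rw [h]; exact List.mem_cons_self
      · obtain ⟨b, hb, rfl⟩ := List.mem_map.1 h
        exact hb
    · refine supp_induction _ (cone (a, 0)) ?_ ih
      intro q hq
      rw [cone_single]
      apply single_mem_supp (P := fun q : List (T × Fin 2) => ∀ v ∈ q, v.1 ∈ a :: l)
      intro v hv
      rcases List.mem_cons.1 hv with h | h
      · rw [h]; exact List.mem_cons_self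
      · exact List.mem_cons_of_mem _ (hq v h)

section cyl

variable {E : Type} [NormedAddCommGroup E] [NormedSpace ℝ E]

/-- The cylinder on list chains. -/
noncomputable def cylL : LC E →ₗ[F2] LC (E × ℝ) := mapL (fun q => (q.1, hgt q.2)) ∘ₗ prism

theorem tauI_Dmap {k : ℕ} (g : Fin k → Fin 2) (t : Dl k) :
    2 * ((tauI.map (Dmap g t) : unitInterval) : ℝ) - 1 = ∑ i, t i * hgt (g i) := by
  have h1 : ((tauI.map (Dmap g t) : unitInterval) : ℝ) = (Dmap g t) 1 := rfl
  rw [h1, Dmap_eq_mix, mix_apply]
  have h2 : ∑ i, t i = 1 := t.2.2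
  calc 2 * ∑ i, t i * (stdSimplex.vertex (g i) : Dl 2) 1 - 1 =
      2 * ∑ i, t i * (stdSimplex.vertex (g i) : Dl 2) 1 - ∑ i, t i := by rw [h2]
    _ = ∑ i, t i * (2 * (stdSimplex.vertex (g i) : Dl 2) 1 - 1) := by
        rw [Finset.mul_sum, ← Finset.sum_sub_distrib]
        apply Finset.sum_congr rfl
        intro i _; ring
    _ = _ := by
        apply Finset.sum_congr rfl
        intro i _
        congr 1
        unfold hgt
        rcases (show g i = 0 ∨ g i = 1 by omega) with h | h
        · rw [h]
          simp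
        · rw [h]
          simp
          norm_num

theorem homS_cyl_affL (x : LC E) : homS (cylMap E) (affL x) = affL (cylL x) := by
  have : homS (cylMap E) ∘ₗ affL = affL ∘ₗ cylL := by
    apply lin_ext; intro l
    rw [LinearMap.comp_apply, LinearMap.comp_apply, affL_single]
    change push (cylMap E) (prismS _) = affL (mapL _ (prism _))
    rw [prismS_single, prism_single]
    have key : ∀ z : LC (Fin (aff l).nv × Fin 2), push (cylMap E) (realL2 (aff l) tauI z) =
        affL (mapL (fun q => (l.get q.1, hgt q.2)) z) := by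
      intro z
      have : push (cylMap E) ∘ₗ realL2 (aff l) tauI =
          (affL ∘ₗ mapL (fun q => (l.get q.1, hgt q.2)) :
            LC (Fin (aff l).nv × Fin 2) →ₗ[F2] SC (E × ℝ)) := by
        apply lin_ext; intro r
        rw [LinearMap.comp_apply, LinearMap.comp_apply, realL2_single, push_single, mapL_single,
          affL_single]
        congr 1
        have h1 : ((aff l).sub2 tauI r).push (cylMap E) = ⟨r.length, (ContinuousMap.id _).comp
            ⟨fun t => cc t (fun i => (l.get (r.get i).1, hgt (r.get i).2)),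
              CC.continuous_cc _⟩⟩ := by
          unfold Sing.push Sing.sub2
          congr 1
          ext t : 1
          change ((cc (Dmap (fun i => (r.get i).1) t) l.get : E),
            2 * ((tauI.map (Dmap (fun i => (r.get i).2) t) : unitInterval) : ℝ) - 1) =
              (∑ i, t i • ((l.get (r.get i).1, hgt (r.get i).2) : E × ℝ))
          rw [tauI_Dmap, cc_Dmap]
          ext
          · simp only [Prod.fst_sum, Prod.smul_fst]
            rfl
          · simp only [Prod.snd_sum, Prod.smul_snd, smul_eq_mul]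
        have h2 : aff (r.map fun q => (l.get q.1, hgt q.2)) =
            ⟨(r.map fun q => (l.get q.1, hgt q.2)).length, (ContinuousMap.id _).comp
            ⟨fun t => cc t (r.map fun q => (l.get q.1, hgt q.2)).get,
              CC.continuous_cc _⟩⟩ := rfl
        rw [h1, h2]
        apply aff_congr _ _ _ (by simp)
        intro i
        simp
      exact congrArg (fun g => g z) this
    rw [key, ← prism_single, univ]
    have h3 : (mapL (fun q : Fin l.length × Fin 2 => (l.get q.1, hgt q.2)) :
        LC (Fin l.length × Fin 2) →ₗ[F2] LC (E × ℝ)) =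
        mapL (fun q : E × Fin 2 => (q.1, hgt q.2)) ∘ₗ mapL (Prod.map l.get id) := by
      apply lin_ext; intro q
      rw [LinearMap.comp_apply, mapL_single, mapL_single, mapL_single, List.map_map]
      rfl
    rw [h3, LinearMap.comp_apply, ← prism_nat]
    congr 3
    rw [mapL_single, List.map_get_finRange]
  exact congrArg (fun g => g x) this

theorem bd_cylL (x : LC E) : bd (cylL x) = cylL (bd x) +
    (mapL (fun v => (v, (-1 : ℝ))) x + mapL (fun v => (v, (1 : ℝ))) x) := by
  have h := congrArg (mapL (fun q : E × Fin 2 => (q.1, hgt q.2))) (bd_prism x)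
  rw [map_add, map_add, mapL_bd, mapL_mapL, mapL_mapL] at h
  have h0 : ((fun q : E × Fin 2 => (q.1, hgt q.2)) ∘ fun b => (b, (0 : Fin 2))) =
      fun v => (v, (-1 : ℝ)) := by
    funext v
    simp [hgt]
  have h1 : ((fun q : E × Fin 2 => (q.1, hgt q.2)) ∘ fun b => (b, (1 : Fin 2))) =
      fun v => (v, (1 : ℝ)) := by
    funext v
    simp [hgt]
  rw [h0, h1] at h
  change bd (mapL _ (prism x)) = mapL _ (prism (bd x)) + _
  rw [← h, add_comm (bd _), ← add_assoc, add_self_eq_zero', zero_add]

theorem cylL_len {n : ℕ} {x : LC E} (h : x ∈ supp fun l : List E => l.length = n) :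
    cylL x ∈ supp fun l : List (E × ℝ) => l.length = n + 1 := by
  refine supp_induction _ cylL ?_ h
  intro l hl
  change mapL _ (prism (single l 1)) ∈ _
  rw [prism_single]
  refine supp_induction _ (mapL _) ?_ (prism1_len l)
  intro q hq
  rw [mapL_single]
  apply single_mem_supp (P := fun l : List (E × ℝ) => l.length = n + 1)
  rw [List.length_map, hq, hl]

end cyl

/-- All vertices are in an open half space. -/
def HalfP {E : Type} [NormedAddCommGroup E] [NormedSpace ℝ E] (l : List E) : Prop :=
  ∃ φ : E →ₗ[ℝ] ℝ, ∀ v ∈ l, 0 < φ v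

theorem isAff_linear {E F : Type} [NormedAddCommGroup E] [NormedSpace ℝ E]
    [NormedAddCommGroup F] [NormedSpace ℝ F] (φ : E →ₗ[ℝ] F) : IsAff (φ : E → F) := by
  intro k t p
  change φ (∑ i, t i • p i) = ∑ i, t i • φ (p i)
  rw [map_sum]
  simp only [map_smul]

theorem oneS_Deg_zero {X : Type*} [TopologicalSpace X] {x : SC X} (h : x ∈ Deg X 0) :
    oneS x = 0 := by
  refine supp_ext oneS 0 ?_ h
  intro σ hσ
  rw [oneS_single, if_neg (by rw [hσ]; norm_num)]
  rfl

theorem oneS_bdS {X : Type*} [TopologicalSpace X] (x : SC X) : oneS (bdS x) = 0 := by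
  rw [← del_apply, del_oneS]; rfl

/-- A point generates its own homology. -/
theorem rgen_point {X : Type*} [TopologicalSpace X] [Subsingleton X] (p : X) :
    RGen Set.univ (∅ : Set X) 1 (single (cstS p 1) 1) where
  mem := CIn_univ _
  deg := single_mem_supp (P := fun σ : Sing X => σ.nv = 1) rfl
  bd := by
    rw [CIn_empty]
    exact bdS_single_mem rfl
  gen := by
    intro z _ hb
    have hz : z ∈ CIn ({p} : Set X) :=
      CIn_mono (fun x _ => Subsingleton.elim x p) (CIn_univ z)
    have h1 := ctr_homotopy p hz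
    rw [CIn_empty] at hb ⊢
    have h2 : ∀ x ∈ Deg X 0, ∃ l : F2, ctr p x = l • single (cstS p 1) 1 := by
      intro x hx
      refine supp_ind (P := fun x => ∃ l : F2, ctr p x = l • single (cstS p 1) 1) hx
        ⟨0, by simp⟩ ?_ ?_
      · rintro x y ⟨l, hl⟩ ⟨k, hk⟩
        exact ⟨l + k, by rw [map_add, hl, hk, add_smul]⟩
      · intro σ hσ
        refine ⟨1, ?_⟩
        have hσ' : σ.nv = 0 := hσ
        rw [ctr_single, one_smul, hσ']
    obtain ⟨l, hl⟩ := h2 _ hb
    refine ⟨l, ctr p z, CIn_univ _, ?_⟩
    rw [← hl]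
    have h3 : z + ctr p (bdS z) + bdS (ctr p z) = 0 := by
      rw [add_assoc, add_comm (ctr p _), h1, add_self_eq_zero']
    rw [h3]
    exact Submodule.zero_mem _
  ne := by
    intro e _ he
    rw [CIn_empty] at he
    have h1 := oneS_Deg_zero he
    rw [map_add, oneS_bdS, add_zero, oneS_single, if_pos rfl] at h1
    exact absurd h1 (by decide)

theorem W_step {E' E : Type} [NormedAddCommGroup E'] [NormedSpace ℝ E'] [FiniteDimensional ℝ E']
    [NormedAddCommGroup E] [NormedSpace ℝ E] [FiniteDimensional ℝ E] {n : ℕ}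
    (hE' : Module.finrank ℝ E' = n) (hE : Module.finrank ℝ E = n + 1) {W : LC E'}
    (hW1 : W ∈ supp fun l : List E' => l.length = n + 1) (hW2 : bd W ∈ supp (HalfP (E := E')))
    (hW3 : RGen Set.univ ({0}ᶜ : Set E') (n + 1) (affL W)) :
    ∃ W : LC E, (W ∈ supp fun l : List E => l.length = n + 1 + 1) ∧
      bd W ∈ supp (HalfP (E := E)) ∧ RGen Set.univ ({0}ᶜ : Set E) (n + 1 + 1) (affL W) := by
  let ψ : (E' × ℝ) ≃L[ℝ] E := ContinuousLinearEquiv.ofFinrankEq (by
    rw [Module.finrank_prod, hE, hE']; simp)
  have haff : IsAff (ψ : E' × ℝ → E) := isAff_linear (ψ : E' × ℝ →ₗ[ℝ] E)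
  refine ⟨mapL ψ (cylL W), ?_, ?_, ?_⟩
  · refine supp_induction _ (mapL _) ?_ (cylL_len hW1)
    intro q hq
    rw [mapL_single]
    apply single_mem_supp (P := fun l : List E => l.length = n + 1 + 1)
    rw [List.length_map, hq]
  · rw [← mapL_bd, bd_cylL]
    have h1 : ∀ q : List (E' × ℝ), HalfP q → HalfP (q.map ψ) := by
      rintro q ⟨φ, hφ⟩
      refine ⟨φ ∘ₗ (ψ.symm : E →ₗ[ℝ] E' × ℝ), ?_⟩
      intro v hv
      obtain ⟨u, hu, rfl⟩ := List.mem_map.1 hv
      simpa using hφ u hu
    have h2 : cylL (bd W) + (mapL (fun v => (v, (-1 : ℝ))) W + mapL (fun v => (v, (1 : ℝ))) W) ∈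
        supp (HalfP (E := E' × ℝ)) := by
      refine Submodule.add_mem _ ?_ (Submodule.add_mem _ ?_ ?_)
      · refine supp_induction _ cylL ?_ hW2
        rintro l ⟨φ, hφ⟩
        change mapL _ (prism (single l 1)) ∈ _
        rw [prism_single]
        refine supp_induction _ (mapL _) ?_ (prism1_mem l)
        intro q hq
        rw [mapL_single]
        apply single_mem_supp (P := HalfP)
        refine ⟨φ ∘ₗ LinearMap.fst ℝ E' ℝ, ?_⟩
        intro v hv
        obtain ⟨u, hu, rfl⟩ := List.mem_map.1 hv
        exact hφ _ (hq u hu)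
      · refine supp_induction _ (mapL _) ?_ hW1
        intro q hq
        rw [mapL_single]
        apply single_mem_supp (P := HalfP)
        refine ⟨-LinearMap.snd ℝ E' ℝ, ?_⟩
        intro v hv
        obtain ⟨u, hu, rfl⟩ := List.mem_map.1 hv
        simp
      · refine supp_induction _ (mapL _) ?_ hW1
        intro q hq
        rw [mapL_single]
        apply single_mem_supp (P := HalfP)
        refine ⟨LinearMap.snd ℝ E' ℝ, ?_⟩
        intro v hv
        obtain ⟨u, hu, rfl⟩ := List.mem_map.1 hv
        simp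
    refine supp_induction _ (mapL _) ?_ h2
    intro q hq
    rw [mapL_single]
    exact single_mem_supp (P := HalfP) (h1 q hq)
  · have h1 := susp isOpen_compl_singleton hW3
    rw [homS_cyl_affL] at h1
    have h2 : (sN ({0}ᶜ : Set E')) = ({0}ᶜ : Set (E' × ℝ)) := by
      ext q
      rw [Set.mem_compl_iff, Set.mem_singleton_iff, Prod.ext_iff]
      change (q.1 ∈ ({0}ᶜ : Set E') ∨ q.2 ≠ 0) ↔ _
      rw [Set.mem_compl_iff, Set.mem_singleton_iff]
      change _ ↔ ¬ (q.1 = 0 ∧ q.2 = 0)
      tauto
    rw [h2] at h1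
    let φ : C(E' × ℝ, E) := ⟨ψ, ψ.continuous⟩
    have hφ : Topology.IsEmbedding φ := ψ.toHomeomorph.isEmbedding
    have h3 := RGen.push hφ h1
    have h4 : φ '' Set.univ = Set.univ := by
      rw [Set.image_univ]
      exact ψ.surjective.range_eq
    have h5 : φ '' ({0}ᶜ : Set (E' × ℝ)) = ({0}ᶜ : Set E) := by
      have h6 : (φ : E' × ℝ → E) = ψ := rfl
      rw [h6, Set.image_compl_eq ψ.bijective]
      congr 1
      rw [Set.image_singleton]
      congr 1
      exact map_zero ψ
    rw [h4, h5, push_affL φ haff] at h3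
    exact h3

theorem exists_W (n : ℕ) : ∀ (E : Type) [NormedAddCommGroup E] [NormedSpace ℝ E]
    [FiniteDimensional ℝ E], Module.finrank ℝ E = n →
    ∃ W : LC E, (W ∈ supp fun l : List E => l.length = n + 1) ∧
      bd W ∈ supp (HalfP (E := E)) ∧ RGen Set.univ ({0}ᶜ : Set E) (n + 1) (affL W) := by
  induction n with
  | zero =>
    intro E _ _ _ hE
    have hsub : Subsingleton E := Module.finrank_zero_iff.1 hE
    have h0 : ({0}ᶜ : Set E) = ∅ := by
      ext x
      simp [Subsingleton.elim x 0]
    refine ⟨single [0] 1, single_mem_supp (P := fun l : List E => l.length = 0 + 1) rfl, ?_, ?_⟩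
    · rw [bd_single, bd1_cons, bd1_nil, map_zero, add_zero]
      apply single_mem_supp (P := HalfP)
      exact ⟨0, by simp⟩
    · rw [h0, affL_single]
      have h1 : aff [(0 : E)] = cstS 0 1 := by
        have : (aff [(0 : E)]).In {0} := fun t => Subsingleton.elim _ _
        exact eq_cstS this
      rw [h1]
      exact rgen_point 0
  | succ n ih =>
    intro E _ _ _ hE
    obtain ⟨W, hW1, hW2, hW3⟩ := ih (EuclideanSpace ℝ (Fin n)) (by simp)
    exact W_step (by simp) hE hW1 hW2 hW3

end STop
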