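import Pool.Agent.Lib.Pbb5b69.Cover

/-!
# Lifting simplices through coverings
-/

noncomputable section

namespace Pbb5b69

open unitInterval

variable {E X : Type} [TopologicalSpace E] [TopologicalSpace X]

/-- straight line contraction of a simplex -/
def simplexContr (n : ℕ) : C(I × stdSimplex ℝ (Fin (n + 1)), stdSimplex ℝ (Fin (n + 1))) where
  toFun q := ⟨(1 - (q.1 : ℝ)) • (stdSimplex.vertex (S := ℝ) (0 : Fin (n + 1))).1 + (q.1 : ℝ) • q.2.1,
    convex_stdSimplex ℝ _ (stdSimplex.vertex (S := ℝ) (0 : Fin (n + 1))).2 q.2.2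
      (sub_nonneg.2 q.1.2.2) q.1.2.1 (by ring)⟩
  continuous_toFun := by
    refine Continuous.subtype_mk ?_ _
    fun_prop

theorem lift_simplex (p : C(E, X)) (cov : IsCoveringMap p) (hs : Function.Surjective p)
    (n : ℕ) (s : Sp n X) : ∃ s' : Sp n E, p.comp s' = s := by
  obtain ⟨e0, he0⟩ := hs (s (stdSimplex.vertex (S := ℝ) (0 : Fin (n + 1))))
  let H : C(I × stdSimplex ℝ (Fin (n + 1)), X) := s.comp (simplexContr n)
  have H0 : ∀ a, H (0, a) = p (ContinuousMap.const (stdSimplex ℝ (Fin (n + 1))) e0 a) := by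
    intro a
    rw [ContinuousMap.const_apply, he0]
    change s _ = s _
    congr 1
    ext i
    simp [simplexContr]
  refine ⟨(cov.liftHomotopy H _ H0).comp ⟨fun a => (1, a), by fun_prop⟩, ?_⟩
  ext a
  have h := congrFun (cov.liftHomotopy_lifts H _ H0) (1, a)
  simp only [Function.comp_apply] at h
  change p _ = s a
  refine Eq.trans h ?_
  change s _ = s _
  congr 1
  ext i
  simp [simplexContr]

theorem lift_unique (p : C(E, X)) (cov : IsCoveringMap p) {n : ℕ} {s s' : Sp n E}
    (h : p.comp s = p.comp s') (v : stdSimplex ℝ (Fin (n + 1))) (hv : s v = s' v) : s = s' := by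
  have := cov.eq_of_comp_eq s.continuous s'.continuous
    (funext fun x => congrArg (fun t : Sp n X => t x) h) v hv
  exact ContinuousMap.ext fun x => congrFun this x

end Pbb5b69
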