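import Pool.Agent.Lib.Pbb5b69.Fund2

/-!
# Local homology of manifolds mod 2
-/

open Finsupp

namespace STop

section compact

variable {X : Type*} [TopologicalSpace X]

theorem exists_compact {U : Set X} {x : SC X} (h : x ∈ CIn U) :
    ∃ K, IsCompact K ∧ K ⊆ U ∧ x ∈ CIn K := by
  refine supp_ind (P := fun x => ∃ K, IsCompact K ∧ K ⊆ U ∧ x ∈ CIn K) h
    ⟨∅, isCompact_empty, Set.empty_subset _, Submodule.zero_mem _⟩ ?_ ?_
  · rintro x y ⟨K, hK, hKU, hx⟩ ⟨L, hL, hLU, hy⟩
    exact ⟨K ∪ L, hK.union hL, Set.union_subset hKU hLU,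
      Submodule.add_mem _ (CIn_mono Set.subset_union_left hx)
        (CIn_mono Set.subset_union_right hy)⟩
  · intro σ hσ
    refine ⟨Set.range σ.map, isCompact_range σ.map.continuous, ?_, ?_⟩
    · rintro _ ⟨t, rfl⟩
      exact hσ t
    · exact single_mem_CIn fun t => ⟨t, rfl⟩

end compact

section local_

variable {E : Type} [NormedAddCommGroup E] [NormedSpace ℝ E] [FiniteDimensional ℝ E]

/-- The generator at the origin. -/
theorem exists_rgen_zero (E : Type) [NormedAddCommGroup E] [NormedSpace ℝ E]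
    [FiniteDimensional ℝ E] : ∃ w : SC E,
    RGen Set.univ ({0}ᶜ : Set E) (Module.finrank ℝ E + 1) w := by
  obtain ⟨W, _, _, h⟩ := exists_W (Module.finrank ℝ E) E rfl
  exact ⟨_, h⟩

/-- The affine homeomorphism `y ↦ x + s y`. -/
noncomputable def ahom (x : E) (s : ℝ) (hs : s ≠ 0) : E ≃ₜ E :=
  (Homeomorph.smulOfNeZero s hs).trans (Homeomorph.addLeft x)

theorem ahom_apply (x : E) (s : ℝ) (hs : s ≠ 0) (y : E) : ahom x s hs y = x + s • y := rfl

theorem RGen.homeo {X Y : Type*} [TopologicalSpace X] [TopologicalSpace Y] (e : X ≃ₜ Y)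
    {Z : Set X} {m : ℕ} {w : SC X} (h : RGen Set.univ Z m w) :
    RGen Set.univ (e '' Z) m (STop.push ⟨e, e.continuous⟩ w) := by
  have h1 := RGen.push (φ := ⟨e, e.continuous⟩) e.isEmbedding h
  have h2 : (⟨e, e.continuous⟩ : C(X, Y)) '' Set.univ = Set.univ := by
    rw [Set.image_univ]
    exact e.surjective.range_eq
  rw [h2] at h1
  exact h1

/-- Generators for the complement of a compact convex set. -/
theorem exists_rgen_compl {K : Set E} (hK : IsCompact K) (hKc : Convex ℝ K) {x : E}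
    (hx : x ∈ K) : ∃ w : SC E, RGen Set.univ Kᶜ (Module.finrank ℝ E + 1) w ∧
      RGen Set.univ ({x}ᶜ : Set E) (Module.finrank ℝ E + 1) w := by
  obtain ⟨w0, hw0⟩ := exists_rgen_zero E
  obtain ⟨K0, hK0, hK0s, hbK0⟩ := exists_compact hw0.bd
  have h0 : (0 : E) ∈ K0ᶜ := fun h => hK0s h rfl
  obtain ⟨δ, hδ, hball⟩ := Metric.mem_nhds_iff.1 (hK0.isClosed.isOpen_compl.mem_nhds h0)
  obtain ⟨r, hr⟩ := hK.isBounded.subset_closedBall x
  set s : ℝ := (|r| + 1) / δ with hs
  have hspos : 0 < s := by positivity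
  have h1 := RGen.homeo (ahom x s hspos.ne') hw0
  obtain ⟨w, hw⟩ : ∃ w, w = STop.push (⟨ahom x s hspos.ne', (ahom x s hspos.ne').continuous⟩ :
    C(E, E)) w0 := ⟨_, rfl⟩
  have himg : (ahom x s hspos.ne') '' ({0}ᶜ : Set E) = {x}ᶜ := by
    rw [Set.image_compl_eq (ahom x s hspos.ne').bijective, Set.image_singleton, ahom_apply,
      smul_zero, add_zero]
  rw [himg, ← hw] at h1
  have hbw : bdS w ∈ CIn Kᶜ := by
    rw [hw, ← push_bdS]
    apply push_mem_CIn (A := K0) (B := Kᶜ) _ _ hbK0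
    intro a ha haK
    have h2 : x + s • a ∈ K := haK
    have h3 := hr h2
    rw [Metric.mem_closedBall, dist_eq_norm, add_sub_cancel_left, norm_smul, Real.norm_eq_abs,
      abs_of_pos hspos] at h3
    have h4 : δ ≤ ‖a‖ := by
      by_contra hlt
      exact hball (mem_ball_zero_iff.2 (not_le.1 hlt)) ha
    have h5 : |r| + 1 ≤ s * ‖a‖ := by
      calc |r| + 1 = s * δ := by rw [hs]; field_simp
        _ ≤ s * ‖a‖ := mul_le_mul_of_nonneg_left h4 hspos.le
    linarith [le_abs_self r]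
  refine ⟨w, ⟨CIn_univ _, h1.deg, hbw, ?_, ?_⟩, h1⟩
  · intro z _ hb
    have hKx : Kᶜ ⊆ ({x}ᶜ : Set E) := by
      intro y hy hyx
      rw [Set.mem_singleton_iff.1 hyx] at hy
      exact hy hx
    obtain ⟨l, e, _, hq⟩ := h1.gen z (CIn_univ _) (CIn_mono hKx hb)
    obtain ⟨q, hqd⟩ : ∃ q, q = z + l • w + bdS e := ⟨_, rfl⟩
    rw [← hqd] at hq
    have hbq : bdS q ∈ CIn Kᶜ := by
      rw [hqd, map_add, map_add, bdS_bdS, add_zero, map_smul]
      exact Submodule.add_mem _ hb (Submodule.smul_mem _ _ hbw)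
    -- radial push
    have hne : ∀ y : ({x}ᶜ : Set E), ‖(y : E) - x‖ ≠ 0 := by
      intro y h
      apply y.2
      rw [norm_eq_zero, sub_eq_zero] at h
      exact h
    let H : C(({x}ᶜ : Set E) × unitInterval, E) :=
      ⟨fun p => (p.1 : E) + ((p.2 : ℝ) * (|r| + 1) * ‖(p.1 : E) - x‖⁻¹) • ((p.1 : E) - x), by
        refine Continuous.add (by fun_prop) (Continuous.smul ?_ (by fun_prop))
        refine Continuous.mul (by fun_prop) ?_
        exact Continuous.inv₀ (by fun_prop) (fun p => hne p.1)⟩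
    obtain ⟨q', hq'⟩ : ∃ q', q' = resS ({x}ᶜ : Set E) q := ⟨_, rfl⟩
    have hH := bdS_homS H q'
    have hH0 : H.comp (endMap _ 0) = incl ({x}ᶜ : Set E) := by
      ext y
      change (y : E) + ((((0 : unitInterval) : ℝ)) * (|r| + 1) * ‖(y : E) - x‖⁻¹) • ((y : E) - x) =
        (y : E)
      simp
    rw [hH0, hq', push_resS hq, ← hq'] at hH
    have hp1 : push (H.comp (endMap _ 1)) q' ∈ CIn Kᶜ := by
      apply push_mem_CIn (A := Set.univ) (B := Kᶜ) _ _ (CIn_univ q')
      intro y _ hyK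
      have h2 : (y : E) + ((((1 : unitInterval) : ℝ)) * (|r| + 1) * ‖(y : E) - x‖⁻¹) •
        ((y : E) - x) ∈ K := hyK
      have h3 := hr h2
      have hny := hne y
      have hny' : 0 < ‖(y : E) - x‖ := lt_of_le_of_ne (norm_nonneg _) (Ne.symm hny)
      have h4 : (y : E) + ((((1 : unitInterval) : ℝ)) * (|r| + 1) * ‖(y : E) - x‖⁻¹) •
        ((y : E) - x) - x = (1 + (|r| + 1) * ‖(y : E) - x‖⁻¹) • ((y : E) - x) := by
        rw [add_smul, one_smul, Set.Icc.coe_one, one_mul]
        abel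
      rw [Metric.mem_closedBall, dist_eq_norm, h4, norm_smul, Real.norm_eq_abs,
        abs_of_pos (by positivity), add_mul, mul_assoc, inv_mul_cancel₀ hny, one_mul, mul_one] at h3
      linarith [le_abs_self r]
    have hp2 : homS H (bdS q') ∈ CIn Kᶜ := by
      have hbq' : bdS q' ∈ CIn ((incl ({x}ᶜ : Set E)) ⁻¹' Kᶜ) := by
        rw [hq', bdS_resS hq]
        exact resS_mem_CIn hbq
      apply homS_mem_CIn (A := (incl ({x}ᶜ : Set E)) ⁻¹' Kᶜ) (B := Kᶜ) H _ hbq'
      intro y hy t hyK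
      apply hy
      change (y : E) ∈ K
      have hny := hne y
      have hny' : 0 < ‖(y : E) - x‖ := lt_of_le_of_ne (norm_nonneg _) (Ne.symm hny)
      set c : ℝ := (t : ℝ) * (|r| + 1) * ‖(y : E) - x‖⁻¹ with hc
      have hc0 : 0 ≤ c := by
        have := t.2.1
        positivity
      have h2 : (y : E) + c • ((y : E) - x) ∈ K := hyK
      -- `y` is between `x` and the image
      have h3 : (y : E) = (1 + c)⁻¹ • ((y : E) + c • ((y : E) - x)) + (c * (1 + c)⁻¹) • x := by
        have hcp : (1 + c) ≠ 0 := by positivity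
        have : (1 + c)⁻¹ • ((y : E) + c • ((y : E) - x)) + (c * (1 + c)⁻¹) • x =
          ((1 + c)⁻¹ * (1 + c)) • (y : E) := by
          module
        rw [this, inv_mul_cancel₀ hcp, one_smul]
      rw [h3]
      refine hKc h2 hx (by positivity) (by positivity) ?_
      field_simp
    refine ⟨l, e + homS H q', CIn_univ _, ?_⟩
    have h5 : z + l • w + bdS (e + homS H q') = push (H.comp (endMap _ 1)) q' +
        homS H (bdS q') := by
      have h6 : bdS (homS H q') = q + push (H.comp (endMap _ 1)) q' + homS H (bdS q') := by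
        rw [← hH, add_assoc, add_self_eq_zero', add_zero]
      rw [map_add, h6, ← add_assoc, ← hqd]
      have h7 := add_self_eq_zero' q
      generalize push (H.comp (endMap _ 1)) q' = A
      generalize homS H (bdS q') = B
      calc q + (q + A + B) = (q + q) + (A + B) := by abel
        _ = _ := by rw [h7, zero_add]
    rw [h5]
    exact Submodule.add_mem _ hp1 hp2
  · intro e he h2
    apply h1.ne e he
    apply CIn_mono _ h2
    intro y hy hyx
    rw [Set.mem_singleton_iff.1 hyx] at hy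
    exact hy hx

/-- Transport of generators by a chart. -/
theorem RGen.chart {P : Type*} [TopologicalSpace P] [T2Space P] {φ : E → P}
    (hφ : Topology.IsOpenEmbedding φ) {L : Set E} (hL : IsCompact L) {m : ℕ} {w : SC E}
    (h : RGen Set.univ Lᶜ m w) :
    RGen Set.univ (φ '' L)ᶜ m (STop.push (⟨φ, hφ.continuous⟩ : C(E, P)) w) := by
  have h1 := RGen.push (φ := (⟨φ, hφ.continuous⟩ : C(E, P))) hφ.isEmbedding h
  have e1 : (⟨φ, hφ.continuous⟩ : C(E, P)) '' Set.univ = Set.range φ := Set.image_univ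
  have e2 : (⟨φ, hφ.continuous⟩ : C(E, P)) '' Lᶜ = Set.range φ ∩ (φ '' L)ᶜ := by
    ext y
    constructor
    · rintro ⟨a, ha, rfl⟩
      refine ⟨⟨a, rfl⟩, ?_⟩
      rintro ⟨b, hb, hab⟩
      have : b = a := hφ.injective hab
      rw [this] at hb
      exact ha hb
    · rintro ⟨⟨a, rfl⟩, ha⟩
      exact ⟨a, fun haL => ha ⟨a, haL, rfl⟩, rfl⟩
  rw [e1, e2] at h1
  refine RGen.excision hφ.isOpen_range ?_ ?_ h1
  · exact (hL.image hφ.continuous).isClosed.isOpen_compl
  · ext y
    simp only [Set.mem_union, Set.mem_range, Set.mem_compl_iff, Set.mem_univ, iff_true]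
    by_cases h : y ∈ φ '' L
    · obtain ⟨a, _, ha⟩ := h
      exact Or.inl ⟨a, ha⟩
    · exact Or.inr h

/-- Generators in a manifold for the complement of a compact convex set in a chart. -/
theorem exists_rgen_chart {P : Type*} [TopologicalSpace P] [T2Space P] {φ : E → P}
    (hφ : Topology.IsOpenEmbedding φ) {K : Set E} (hK : IsCompact K) (hKc : Convex ℝ K) {x : E}
    (hx : x ∈ K) : ∃ w : SC P, RGen Set.univ (φ '' K)ᶜ (Module.finrank ℝ E + 1) w ∧
      RGen Set.univ ({φ x}ᶜ : Set P) (Module.finrank ℝ E + 1) w := by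
  obtain ⟨w, hw1, hw2⟩ := exists_rgen_compl hK hKc hx
  refine ⟨_, RGen.chart hφ hK hw1, ?_⟩
  have := RGen.chart hφ (L := {x}) isCompact_singleton hw2
  rwa [Set.image_singleton] at this

end local_

end STop
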