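import Mathlib

/-!
# Mayer-Vietoris induction over open sets
-/

namespace STop

variable {P : Type*} [TopologicalSpace P]

/-- Induction over unions of members of a family closed under intersection. -/
theorem basis_induction (B : Set (Set P)) (hBo : ∀ V ∈ B, IsOpen V)
    (hBi : ∀ V ∈ B, ∀ W ∈ B, V ∩ W ∈ B) (Q : Set P → Prop) (h0 : Q ∅) (hB : ∀ V ∈ B, Q V)
    (hMV : ∀ U V, IsOpen U → IsOpen V → Q U → Q V → Q (U ∩ V) → Q (U ∪ V))
    (hdir : ∀ (𝒟 : Set (Set P)), 𝒟.Nonempty → DirectedOn (· ⊆ ·) 𝒟 → (∀ U ∈ 𝒟, IsOpen U) →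
      (∀ U ∈ 𝒟, Q U) → Q (⋃₀ 𝒟)) (S : Set (Set P)) (hS : S ⊆ B) : Q (⋃₀ S) := by
  classical
  -- finite unions
  have hfin : ∀ (m : ℕ) (l : List (Set P)), l.length = m → (∀ V ∈ l, V ∈ B) →
      Q (⋃₀ {V | V ∈ l}) := by
    intro m
    induction m with
    | zero =>
      intro l hl _
      rw [List.length_eq_zero_iff] at hl
      subst hl
      simpa using h0
    | succ m ih =>
      intro l hl hlB
      cases l with
      | nil => simp at hl
      | cons V l =>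
        have hl' : l.length = m := by simpa using hl
        have e1 : ⋃₀ {W | W ∈ V :: l} = V ∪ ⋃₀ {W | W ∈ l} := by
          ext x
          simp
        rw [e1]
        have hopen : ∀ l' : List (Set P), (∀ V ∈ l', V ∈ B) → IsOpen (⋃₀ {W | W ∈ l'}) :=
          fun l' h => isOpen_sUnion fun W hW => hBo W (h W hW)
        have hV := hlB V List.mem_cons_self
        have hl2 : ∀ W ∈ l, W ∈ B := fun W hW => hlB W (List.mem_cons_of_mem _ hW)
        refine hMV _ _ (hBo V hV) (hopen l hl2) (hB V hV) (ih l hl' hl2) ?_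
        have e2 : V ∩ ⋃₀ {W | W ∈ l} = ⋃₀ {W | W ∈ l.map fun W => V ∩ W} := by
          ext x
          simp only [Set.mem_inter_iff, Set.mem_sUnion, Set.mem_setOf_eq, List.mem_map]
          constructor
          · rintro ⟨hx, W, hW, hxW⟩
            exact ⟨V ∩ W, ⟨W, hW, rfl⟩, hx, hxW⟩
          · rintro ⟨_, ⟨W, hW, rfl⟩, hx, hxW⟩
            exact ⟨hx, W, hW, hxW⟩
        rw [e2]
        apply ih _ (by simpa using hl')
        intro W hW
        obtain ⟨W', hW', rfl⟩ := List.mem_map.1 hW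
        exact hBi V hV W' (hl2 W' hW')
  -- directed union of finite unions
  have e : ⋃₀ S = ⋃₀ {U | ∃ l : List (Set P), (∀ V ∈ l, V ∈ S) ∧ U = ⋃₀ {V | V ∈ l}} := by
    ext x
    simp only [Set.mem_sUnion, Set.mem_setOf_eq]
    constructor
    · rintro ⟨V, hV, hx⟩
      exact ⟨V, ⟨[V], by simpa using hV, by simp⟩, hx⟩
    · rintro ⟨U, ⟨l, hl, rfl⟩, hx⟩
      obtain ⟨V, hV, hxV⟩ := hx
      exact ⟨V, hl V hV, hxV⟩
  rw [e]
  apply hdir
  · exact ⟨∅, [], by simp, by simp⟩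
  · rintro U ⟨l, hl, rfl⟩ U' ⟨l', hl', rfl⟩
    refine ⟨⋃₀ {V | V ∈ l ++ l'}, ⟨l ++ l', ?_, rfl⟩, ?_, ?_⟩
    · intro V hV
      rcases List.mem_append.1 hV with h | h
      · exact hl V h
      · exact hl' V h
    · apply Set.sUnion_subset_sUnion
      intro V hV
      exact List.mem_append.2 (Or.inl hV)
    · apply Set.sUnion_subset_sUnion
      intro V hV
      exact List.mem_append.2 (Or.inr hV)
  · rintro U ⟨l, hl, rfl⟩
    exact isOpen_sUnion fun W hW => hBo W (hS (hl W hW))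
  · rintro U ⟨l, hl, rfl⟩
    exact hfin _ l rfl fun V hV => hS (hl V hV)

variable {E : Type*} [NormedAddCommGroup E] [NormedSpace ℝ E]

/-- Mayer-Vietoris induction over the open subsets of a locally Euclidean space. -/
theorem open_induction (hch : ∀ p : P, ∃ φ : E → P, Topology.IsOpenEmbedding φ ∧ p ∈ Set.range φ)
    (Q : Set P → Prop) (h0 : Q ∅)
    (hB : ∀ φ : E → P, Topology.IsOpenEmbedding φ → ∀ V : Set E, IsOpen V → Convex ℝ V →
      V.Nonempty → Q (φ '' V))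
    (hMV : ∀ U V, IsOpen U → IsOpen V → Q U → Q V → Q (U ∩ V) → Q (U ∪ V))
    (hdir : ∀ (𝒟 : Set (Set P)), 𝒟.Nonempty → DirectedOn (· ⊆ ·) 𝒟 → (∀ U ∈ 𝒟, IsOpen U) →
      (∀ U ∈ 𝒟, Q U) → Q (⋃₀ 𝒟)) (U : Set P) (hU : IsOpen U) : Q U := by
  have step1 : ∀ φ : E → P, Topology.IsOpenEmbedding φ → ∀ O : Set P, IsOpen O →
      O ⊆ Set.range φ → Q O := by
    intro φ hφ O hO hOr
    have e : O = ⋃₀ {W | ∃ V : Set E, IsOpen V ∧ Convex ℝ V ∧ φ '' V ⊆ O ∧ W = φ '' V} := by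
      ext x
      simp only [Set.mem_sUnion, Set.mem_setOf_eq]
      constructor
      · intro hx
        obtain ⟨y, rfl⟩ := hOr hx
        have h1 : φ ⁻¹' O ∈ nhds y := (hO.preimage hφ.continuous).mem_nhds hx
        obtain ⟨r, hr, hball⟩ := Metric.mem_nhds_iff.1 h1
        refine ⟨φ '' Metric.ball y r, ⟨Metric.ball y r, Metric.isOpen_ball, convex_ball y r,
          ?_, rfl⟩, ⟨y, Metric.mem_ball_self hr, rfl⟩⟩
        rintro _ ⟨z, hz, rfl⟩
        exact hball hz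
      · rintro ⟨W, ⟨V, _, _, hVO, rfl⟩, hx⟩
        exact hVO hx
    rw [e]
    refine basis_induction {W | ∃ V : Set E, IsOpen V ∧ Convex ℝ V ∧ W = φ '' V} ?_ ?_ Q h0 ?_
      hMV hdir _ ?_
    · rintro W ⟨V, hV, _, rfl⟩
      exact hφ.isOpenMap V hV
    · rintro W ⟨V, hV, hVc, rfl⟩ W' ⟨V', hV', hVc', rfl⟩
      exact ⟨V ∩ V', hV.inter hV', hVc.inter hVc', (Set.image_inter hφ.injective).symm⟩
    · rintro W ⟨V, hV, hVc, rfl⟩
      rcases V.eq_empty_or_nonempty with h | h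
      · rw [h, Set.image_empty]; exact h0
      · exact hB φ hφ V hV hVc h
    · rintro W ⟨V, hV, hVc, _, rfl⟩
      exact ⟨V, hV, hVc, rfl⟩
  have e : U = ⋃₀ {W | IsOpen W ∧ W ⊆ U ∧ ∃ φ : E → P, Topology.IsOpenEmbedding φ ∧
      W ⊆ Set.range φ} := by
    ext x
    simp only [Set.mem_sUnion, Set.mem_setOf_eq]
    constructor
    · intro hx
      obtain ⟨φ, hφ, hxφ⟩ := hch x
      exact ⟨U ∩ Set.range φ, ⟨hU.inter hφ.isOpen_range, Set.inter_subset_left, φ, hφ,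
        Set.inter_subset_right⟩, hx, hxφ⟩
    · rintro ⟨W, ⟨_, hWU, _⟩, hx⟩
      exact hWU hx
  rw [e]
  refine basis_induction {W | IsOpen W ∧ ∃ φ : E → P, Topology.IsOpenEmbedding φ ∧
    W ⊆ Set.range φ} ?_ ?_ Q h0 ?_ hMV hdir _ ?_
  · rintro W ⟨hW, _⟩
    exact hW
  · rintro W ⟨hW, φ, hφ, hWφ⟩ W' ⟨hW', _⟩
    exact ⟨hW.inter hW', φ, hφ, Set.inter_subset_left.trans hWφ⟩
  · rintro W ⟨hW, φ, hφ, hWφ⟩
    exact step1 φ hφ W hW hWφ
  · rintro W ⟨hW, _, h⟩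
    exact ⟨hW, h⟩

end STop
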