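import Pool.Agent.Lib.Pbb5b69.Lift
import Pool.Agent.Lib.Pbb5b69.Bridge

/-!
# The real projective plane as a Veronese surface, its double covering, and its lines
-/

noncomputable section

namespace Pbb5b69

open Metric

/-- Euclidean 3-space -/
abbrev E3 : Type := EuclideanSpace ℝ (Fin 3)

/-- the 2-sphere -/
abbrev S2 : Type := sphere (0 : E3) 1

/-- 3 by 3 matrices -/
abbrev Mat : Type := Fin 3 → Fin 3 → ℝ

/-- the Veronese map -/
def ver (x : E3) : Mat := fun i j => x i * x j

theorem continuous_ver : Continuous ver := by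
  unfold ver
  fun_prop

theorem ver_smul (a : ℝ) (x : E3) : ver (a • x) = fun i j => a ^ 2 * ver x i j := by
  ext i j
  simp [ver]
  ring

theorem ver_neg (x : E3) : ver (-x) = ver x := by
  ext i j
  simp [ver]

/-- the real projective plane -/
def PP : Type := {A : Mat // ∃ x : E3, ‖x‖ = 1 ∧ ver x = A}

instance : TopologicalSpace PP := inferInstanceAs (TopologicalSpace {A : Mat // ∃ x : E3, ‖x‖ = 1 ∧ ver x = A})
instance : T2Space PP := inferInstanceAs (T2Space {A : Mat // ∃ x : E3, ‖x‖ = 1 ∧ ver x = A})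

theorem continuous_PPval : Continuous (Subtype.val : PP → Mat) := continuous_subtype_val

/-- the double covering -/
def rr : C(S2, PP) where
  toFun x := ⟨ver x.1, x.1, by simp, rfl⟩
  continuous_toFun := (continuous_ver.comp continuous_subtype_val).subtype_mk _

theorem rr_surjective : Function.Surjective rr := by
  rintro ⟨A, x, hx, rfl⟩
  exact ⟨⟨x, by simpa using hx⟩, rfl⟩

instance : CompactSpace PP := by
  have : CompactSpace S2 := isCompact_iff_compactSpace.1 (isCompact_sphere _ _)
  exact rr_surjective.compactSpace rr.continuous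

theorem norm_sq_eq (x : E3) : ‖x‖ ^ 2 = x 0 ^ 2 + x 1 ^ 2 + x 2 ^ 2 := by
  rw [EuclideanSpace.norm_sq_eq, Fin.sum_univ_three]
  simp

theorem ver_eq_iff {x y : E3} (hx : x ≠ 0) : ver x = ver y ↔ y = x ∨ y = -x := by
  constructor
  · intro h
    have h1 : ∃ k, x k ≠ 0 := by
      by_contra hc
      push Not at hc
      exact hx (by ext k; simpa using hc k)
    obtain ⟨k, hk⟩ := h1
    have h2 : ∀ j, x k * x j = y k * y j := fun j => congrFun (congrFun h k) j
    have h3 : y k = x k ∨ y k = -x k := by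
      have := h2 k
      have h4 : (y k - x k) * (y k + x k) = 0 := by ring_nf; linarith
      rcases mul_eq_zero.1 h4 with h5 | h5
      · left; linarith
      · right; linarith
    rcases h3 with h3 | h3
    · left
      ext j
      have := h2 j
      rw [h3] at this
      exact (mul_left_cancel₀ hk this).symm
    · right
      ext j
      have := h2 j
      rw [h3] at this
      have h6 : x k * x j = x k * (-y j) := by rw [this]; ring
      have h7 := mul_left_cancel₀ hk h6
      simp [h7]
  · rintro (h | h)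
    · rw [h]
    · rw [h, ver_neg]

theorem S2_ne_zero (x : S2) : x.1 ≠ 0 := by
  intro h
  have := x.2
  rw [h] at this
  simp at this

theorem rr_eq_iff (x y : S2) : rr x = rr y ↔ y = x ∨ y = -x := by
  have : rr x = rr y ↔ ver x.1 = ver y.1 := Subtype.ext_iff
  rw [this, ver_eq_iff (S2_ne_zero x)]
  constructor
  · rintro (h | h)
    · left; exact Subtype.ext h
    · right; exact Subtype.ext h
  · rintro (h | h)
    · left; rw [h]
    · right; rw [h]; rfl

/-- the antipodal map -/
def anti : S2 ≃ₜ S2 where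
  toFun x := -x
  invFun x := -x
  left_inv x := neg_neg x
  right_inv x := neg_neg x
  continuous_toFun := continuous_neg
  continuous_invFun := continuous_neg

theorem rr_isQuotientMap : Topology.IsQuotientMap rr := by
  have : CompactSpace S2 := isCompact_iff_compactSpace.1 (isCompact_sphere _ _)
  exact (rr.continuous.isClosedMap).isQuotientMap rr.continuous rr_surjective

/-- the action of the group of order two -/
@[reducible] def actZ : MulAction ℤˣ S2 where
  smul u x := if u = 1 then x else -x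
  one_smul x := by
    change (if (1 : ℤˣ) = 1 then x else -x) = x
    simp
  mul_smul u v x := by
    change (if u * v = 1 then x else -x) =
      if u = 1 then (if v = 1 then x else -x) else -(if v = 1 then x else -x)
    rcases Int.units_eq_one_or u with rfl | rfl <;> rcases Int.units_eq_one_or v with rfl | rfl <;>
      simp

theorem rr_isCoveringMap : IsCoveringMap rr := by
  let _ := actZ
  have hs : ∀ (u : ℤˣ) (x : S2), u • x = if u = 1 then x else -x := fun _ _ => rfl
  have h1 : ContinuousConstSMul ℤˣ S2 := ⟨fun u => by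
    rcases Int.units_eq_one_or u with rfl | rfl
    · simp only [hs]
      exact continuous_id
    · simp only [hs]
      exact continuous_neg⟩
  have h2 : IsCancelSMul ℤˣ S2 := by
    rw [isCancelSMul_iff_eq_one_of_smul_eq]
    intro u x h
    rcases Int.units_eq_one_or u with rfl | rfl
    · rfl
    · exfalso
      rw [hs] at h
      have h3 : (-x.1 : E3) = x.1 := congrArg Subtype.val (by simpa using h)
      exact S2_ne_zero x (by
        have h4 : (2 : ℝ) • x.1 = 0 := by
          rw [two_smul]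
          nth_rw 1 [← h3]
          simp
        simpa using h4)
  have := rr_isQuotientMap.isQuotientCoveringMap_of_properlyDiscontinuousSMul (G := ℤˣ)
    (fun {x y} => by
      rw [rr_eq_iff, MulAction.mem_orbit_iff]
      constructor
      · rintro (h | h)
        · exact ⟨1, by rw [h]; simp⟩
        · exact ⟨-1, by rw [hs, h]; simp⟩
      · rintro ⟨u, hu⟩
        rw [hs] at hu
        split_ifs at hu with h3
        · left; exact hu
        · right; rw [← hu, neg_neg])
  exact this.isCoveringMap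


theorem rr_lift (n : ℕ) (s : Sp n PP) : ∃ s' : Sp n S2, rr.comp s' = s :=
  lift_simplex rr rr_isCoveringMap rr_surjective n s

theorem rr_orb (n : ℕ) (s s' : Sp n S2) (h : rr.comp s = rr.comp s') :
    s' = s ∨ s' = (anti : C(S2, S2)).comp s := by
  have v0 : stdSimplex ℝ (Fin (n + 1)) := stdSimplex.vertex 0
  have h1 : rr (s v0) = rr (s' v0) := congrArg (fun t : Sp n PP => t v0) h
  rw [rr_eq_iff] at h1
  rcases h1 with h1 | h1
  · left
    exact lift_unique rr rr_isCoveringMap h.symm v0 h1
  · right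
    refine lift_unique rr rr_isCoveringMap ?_ v0 h1
    rw [← h]
    ext v : 1
    exact (rr_eq_iff _ _).2 (Or.inr rfl)

section circle

variable {b c : E3}

/-- the great circle through `b` and `c` -/
def gc (b c : E3) (θ : ℝ) : E3 := Real.cos θ • b + Real.sin θ • c

theorem continuous_gc : Continuous (gc b c) := by
  unfold gc
  fun_prop

theorem norm_gc (hb : ‖b‖ = 1) (hc : ‖c‖ = 1) (hbc : inner ℝ b c = 0) (θ : ℝ) :
    ‖gc b c θ‖ = 1 := by
  have h : ‖gc b c θ‖ ^ 2 = 1 := by
    rw [gc, @norm_add_sq_real, norm_smul, norm_smul, hb, hc, inner_smul_left, inner_smul_right,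
      hbc]
    simp [Real.norm_eq_abs, sq_abs]
  nlinarith [norm_nonneg (gc b c θ)]

theorem gc_add_pi (θ : ℝ) : gc b c (θ + Real.pi) = -gc b c θ := by
  simp [gc]
  abel

theorem inner_gc_left (hb : ‖b‖ = 1) (hbc : inner ℝ b c = 0) (θ : ℝ) :
    inner ℝ b (gc b c θ) = Real.cos θ := by
  rw [gc, inner_add_right, inner_smul_right, inner_smul_right, hbc, real_inner_self_eq_norm_sq, hb]
  simp

theorem inner_gc_right (hc : ‖c‖ = 1) (hbc : inner ℝ b c = 0) (θ : ℝ) :
    inner ℝ c (gc b c θ) = Real.sin θ := by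
  rw [gc, inner_add_right, inner_smul_right, inner_smul_right, real_inner_comm, hbc,
    real_inner_self_eq_norm_sq, hc]
  simp

theorem gc_int (k : ℤ) (θ : ℝ) : gc b c (θ + k * Real.pi) = gc b c θ ∨
    gc b c (θ + k * Real.pi) = -gc b c θ := by
  have h : ∀ n : ℕ, ∀ θ, gc b c (θ + n * Real.pi) = gc b c θ ∨
      gc b c (θ + n * Real.pi) = -gc b c θ := by
    intro n
    induction n with
    | zero => intro θ; left; simp
    | succ n ih =>
      intro θ
      have : θ + ((n + 1 : ℕ) : ℝ) * Real.pi = (θ + n * Real.pi) + Real.pi := by push_cast; ring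
      rw [this, gc_add_pi]
      rcases ih θ with h | h
      · right; rw [h]
      · left; rw [h, neg_neg]
  obtain ⟨n, rfl | rfl⟩ := k.eq_nat_or_neg
  · exact h n θ
  · have h1 := h n (θ + ((-(n : ℤ) : ℤ) : ℝ) * Real.pi)
    have h2 : θ + ((-(n : ℤ) : ℤ) : ℝ) * Real.pi + n * Real.pi = θ := by push_cast; ring
    rw [h2] at h1
    rcases h1 with h1 | h1
    · left; rw [← h1]
    · right; rw [h1, neg_neg]

theorem ver_gc_eq_iff (hb : ‖b‖ = 1) (hc : ‖c‖ = 1) (hbc : inner ℝ b c = 0) (θ φ : ℝ) :
    ver (gc b c θ) = ver (gc b c φ) ↔ ∃ k : ℤ, φ = θ + k * Real.pi := by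
  have h0 : gc b c θ ≠ 0 := by
    intro h
    have := norm_gc hb hc hbc θ
    rw [h, norm_zero] at this
    exact zero_ne_one this
  rw [ver_eq_iff h0]
  constructor
  · intro h
    have h3 : Real.sin (φ - θ) = 0 := by
      rw [Real.sin_sub]
      rcases h with h | h
      · have h1 := congrArg (fun x => inner ℝ b x) h
        have h2 := congrArg (fun x => inner ℝ c x) h
        simp only [inner_gc_left hb hbc, inner_gc_right hc hbc] at h1 h2
        rw [h1, h2]; ring
      · have h1 := congrArg (fun x => inner ℝ b x) h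
        have h2 := congrArg (fun x => inner ℝ c x) h
        simp only [inner_neg_right, inner_gc_left hb hbc, inner_gc_right hc hbc] at h1 h2
        rw [h1, h2]; ring
    obtain ⟨k, hk⟩ := Real.sin_eq_zero_iff.1 h3
    exact ⟨k, by linarith⟩
  · rintro ⟨k, rfl⟩
    exact gc_int k θ

/-- the projective line through `b` and `c` -/
def line (b c : E3) : Set PP := {A | ∃ θ : ℝ, ver (gc b c θ) = A.1}

/-- the covering of a line -/
def pl (hb : ‖b‖ = 1) (hc : ‖c‖ = 1) (hbc : inner ℝ b c = 0) : C(ℝ, line b c) where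
  toFun θ := ⟨⟨ver (gc b c θ), gc b c θ, norm_gc hb hc hbc θ, rfl⟩, θ, rfl⟩
  continuous_toFun :=
    ((continuous_ver.comp continuous_gc).subtype_mk _).subtype_mk _

theorem pl_eq_iff (hb : ‖b‖ = 1) (hc : ‖c‖ = 1) (hbc : inner ℝ b c = 0) (θ φ : ℝ) :
    pl hb hc hbc θ = pl hb hc hbc φ ↔ ∃ k : ℤ, φ = θ + k * Real.pi := by
  rw [← ver_gc_eq_iff hb hc hbc]
  exact Subtype.ext_iff.trans Subtype.ext_iff

theorem pl_surjective (hb : ‖b‖ = 1) (hc : ‖c‖ = 1) (hbc : inner ℝ b c = 0) :
    Function.Surjective (pl hb hc hbc) := by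
  rintro ⟨⟨A, hA⟩, θ, hθ⟩
  exact ⟨θ, Subtype.ext (Subtype.ext hθ)⟩

theorem pl_isQuotientMap (hb : ‖b‖ = 1) (hc : ‖c‖ = 1) (hbc : inner ℝ b c = 0) :
    Topology.IsQuotientMap (pl hb hc hbc) := by
  have hf : Continuous (Subtype.val : Set.Icc (0 : ℝ) Real.pi → ℝ) := continuous_subtype_val
  have hcont : Continuous ((pl hb hc hbc) ∘ (Subtype.val : Set.Icc (0 : ℝ) Real.pi → ℝ)) :=
    (pl hb hc hbc).continuous.comp hf
  refine Topology.IsQuotientMap.of_comp hf (pl hb hc hbc).continuous ?_
  refine hcont.isClosedMap.isQuotientMap hcont ?_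
  intro x
  obtain ⟨θ, rfl⟩ := pl_surjective hb hc hbc x
  have h1 := toIcoMod_mem_Ico Real.pi_pos 0 θ
  rw [zero_add] at h1
  refine ⟨⟨toIcoMod Real.pi_pos 0 θ, h1.1, h1.2.le⟩, ?_⟩
  change pl hb hc hbc _ = _
  rw [pl_eq_iff]
  refine ⟨toIcoDiv Real.pi_pos 0 θ, ?_⟩
  have h2 := toIcoMod_add_toIcoDiv_zsmul Real.pi_pos 0 θ
  rw [zsmul_eq_mul] at h2
  exact h2.symm

theorem pl_isCoveringMap (hb : ‖b‖ = 1) (hc : ‖c‖ = 1) (hbc : inner ℝ b c = 0) :
    IsCoveringMap (pl hb hc hbc) := by
  have := (pl_isQuotientMap hb hc hbc).isAddQuotientCoveringMap_of_addSubgroup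
    (AddSubgroup.zmultiples Real.pi)
    ⟨(inferInstance : DiscreteTopology (AddSubgroup.zmultiples Real.pi))⟩ (fun {θ φ} => by
      rw [pl_eq_iff, AddSubgroup.mem_zmultiples_iff]
      constructor
      · rintro ⟨k, hk⟩
        exact ⟨k, by rw [zsmul_eq_mul, hk]; ring⟩
      · rintro ⟨k, hk⟩
        exact ⟨k, by rw [zsmul_eq_mul] at hk; linarith⟩)
  exact this.isCoveringMap

/-- translation by pi -/
def trP : ℝ ≃ₜ ℝ := Homeomorph.addRight Real.pi

theorem actS_trP (n : ℕ) (s : Sp n ℝ) (k : ℤ) (v : stdSimplex ℝ (Fin (n + 1))) :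
    ((actS n trP ^ k) s) v = s v + k * Real.pi := by
  have h : ∀ (m : ℕ) (s : Sp n ℝ), ((actS n trP ^ m) s) v = s v + m * Real.pi := by
    intro m
    induction m with
    | zero => intro s; simp
    | succ m ih =>
      intro s
      rw [pow_succ', Equiv.Perm.mul_apply]
      change ((actS n trP ^ m) s) v + Real.pi = _
      rw [ih]
      push_cast
      ring
  obtain ⟨m, rfl | rfl⟩ := k.eq_nat_or_neg
  · rw [zpow_natCast]
    exact h m s
  · have h1 := h m ((actS n trP ^ (-(m : ℤ))) s)
    have h2 : (actS n trP ^ m) ((actS n trP ^ (-(m : ℤ))) s) = s := by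
      rw [← zpow_natCast, ← Equiv.Perm.mul_apply, ← zpow_add]
      simp
    rw [h2] at h1
    rw [h1]
    push_cast
    ring

/-- the great circle as a map to the sphere -/
def gcS (hb : ‖b‖ = 1) (hc : ‖c‖ = 1) (hbc : inner ℝ b c = 0) : C(ℝ, S2) where
  toFun θ := ⟨gc b c θ, mem_sphere_zero_iff_norm.2 (norm_gc hb hc hbc θ)⟩
  continuous_toFun := continuous_gc.subtype_mk _

theorem line_hmap_injective (hb : ‖b‖ = 1) (hc : ‖c‖ = 1) (hbc : inner ℝ b c = 0) (k : ℕ) :
    Function.Injective (hmap k (inclC (line b c))).hom := by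
  refine hmap_injective_of_covers (inclC (line b c)) (pl hb hc hbc) trP ?_ ?_ ?_ ?_ anti
    (fun w => neg_neg w) ?_ rr rr_lift ?_ rr_orb
    (gcS hb hc hbc) ?_ ?_ k
  · intro x
    rw [pl_eq_iff]
    refine ⟨-1, ?_⟩
    change x = x + Real.pi + _
    push_cast
    ring
  · exact lift_simplex _ (pl_isCoveringMap hb hc hbc) (pl_surjective hb hc hbc)
  · intro n s s' h
    have v0 : stdSimplex ℝ (Fin (n + 1)) := stdSimplex.vertex 0
    have h1 : pl hb hc hbc (s v0) = pl hb hc hbc (s' v0) :=
      congrArg (fun t : Sp n (line b c) => t v0) h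
    rw [pl_eq_iff] at h1
    obtain ⟨m, hm⟩ := h1
    refine ⟨m, lift_unique _ (pl_isCoveringMap hb hc hbc) ?_ v0 ?_⟩
    · rw [← h]
      ext v : 1
      change pl hb hc hbc (s v) = pl hb hc hbc _
      rw [pl_eq_iff]
      exact ⟨m, actS_trP n s m v⟩
    · rw [hm, actS_trP]
  · intro n s m hm h
    have v0 : stdSimplex ℝ (Fin (n + 1)) := stdSimplex.vertex 0
    have h1 := actS_trP n s m v0
    rw [zpow_natCast, h] at h1
    have h2 : (0 : ℝ) < (m : ℤ) * Real.pi := by
      have : (0 : ℝ) < (m : ℤ) := by exact_mod_cast hm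
      exact mul_pos this Real.pi_pos
    linarith
  · intro w h
    have h3 : (-w.1 : E3) = w.1 := congrArg Subtype.val h
    exact S2_ne_zero w (by
      have h4 : (2 : ℝ) • w.1 = 0 := by
        rw [two_smul]
        nth_rw 1 [← h3]
        simp
      simpa using h4)
  · intro w
    exact ((rr_eq_iff _ _).2 (Or.inr rfl)).symm
  · ext θ : 1
    rfl
  · ext θ : 1
    apply Subtype.ext
    exact gc_add_pi θ

end circle

end Pbb5b69
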