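import Pool.Agent.Lib.Pbb5b69.Cross
import Pool.Agent.Lib.P26f563.SphereChain

/-!
# Acyclicity of contractible sets, relative generators
-/

open Finsupp

namespace STop

/-- Splitting of chains along an alternative for simplices. -/
theorem supp_split {α : Type*} {P Q R : α → Prop} {x : α →₀ F2} (hx : x ∈ supp P)
    (h : ∀ a, P a → Q a ∨ R a) :
    ∃ y ∈ supp (fun a => P a ∧ Q a), ∃ z ∈ supp (fun a => P a ∧ R a), y + z = x := by
  refine supp_ind (P := fun x => ∃ y ∈ supp (fun a => P a ∧ Q a),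
    ∃ z ∈ supp (fun a => P a ∧ R a), y + z = x) hx ?_ ?_ ?_
  · exact ⟨0, Submodule.zero_mem _, 0, Submodule.zero_mem _, add_zero 0⟩
  · rintro x x' ⟨y, hy, z, hz, rfl⟩ ⟨y', hy', z', hz', rfl⟩
    exact ⟨y + y', Submodule.add_mem _ hy hy', z + z', Submodule.add_mem _ hz hz', by abel⟩
  · intro a ha
    rcases h a ha with h | h
    · exact ⟨single a 1, single_mem_supp (P := fun a => P a ∧ Q a) ⟨ha, h⟩, 0,
        Submodule.zero_mem _, add_zero _⟩
    · exact ⟨0, Submodule.zero_mem _, single a 1,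
        single_mem_supp (P := fun a => P a ∧ R a) ⟨ha, h⟩, zero_add _⟩

theorem mem_supp_and {α : Type*} {P Q : α → Prop} {x : α →₀ F2} (h : x ∈ supp P)
    (h' : x ∈ supp Q) : x ∈ supp fun a => P a ∧ Q a := by
  rw [mem_supp] at h h' ⊢
  exact fun a ha => ⟨h a ha, h' a ha⟩

section basic

variable {X Y : Type*} [TopologicalSpace X] [TopologicalSpace Y]

theorem CIn_inter {A B : Set X} {x : SC X} (h : x ∈ CIn A) (h' : x ∈ CIn B) :
    x ∈ CIn (A ∩ B) := by
  refine supp_mono ?_ (mem_supp_and h h')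
  rintro σ ⟨h1, h2⟩ t
  exact ⟨h1 t, h2 t⟩

theorem CIn_split {A B C : Set X} {x : SC X} (h : x ∈ CIn A) (h' : x ∈ CIn B ⊔ CIn C) :
    ∃ y ∈ CIn (A ∩ B), ∃ z ∈ CIn (A ∩ C), y + z = x := by
  have h2 : x ∈ supp fun σ : Sing X => σ.In B ∨ σ.In C := by
    obtain ⟨y, hy, z, hz, rfl⟩ := Submodule.mem_sup.1 h'
    exact Submodule.add_mem _ (supp_mono (fun _ h => Or.inl h) hy)
      (supp_mono (fun _ h => Or.inr h) hz)
  obtain ⟨y, hy, z, hz, e⟩ := supp_split (mem_supp_and h h2) (Q := fun σ => σ.In B)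
    (R := fun σ => σ.In C) (fun a ha => ha.2)
  refine ⟨y, supp_mono ?_ hy, z, supp_mono ?_ hz, e⟩
  · rintro σ ⟨⟨h1, _⟩, h2⟩ t
    exact ⟨h1 t, h2 t⟩
  · rintro σ ⟨⟨h1, _⟩, h2⟩ t
    exact ⟨h1 t, h2 t⟩

theorem CS_pair (A B : Set X) : CS {A, B} = CIn A ⊔ CIn B := by
  apply le_antisymm
  · intro x hx
    obtain ⟨y, hy, z, hz, e⟩ := supp_split hx (Q := fun σ => σ.In A)
      (R := fun σ => σ.In B) (by
        rintro σ ⟨U, hU, hs⟩
        rcases hU with rfl | rfl
        · exact Or.inl hs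
        · exact Or.inr hs)
    rw [← e]
    exact Submodule.add_mem_sup (supp_mono (fun _ h => h.2) hy) (supp_mono (fun _ h => h.2) hz)
  · exact sup_le (CIn_le_CS (by simp)) (CIn_le_CS (by simp))

theorem CS_triple (A B C : Set X) : CS {A, B, C} = CIn A ⊔ (CIn B ⊔ CIn C) := by
  apply le_antisymm
  · intro x hx
    obtain ⟨y, hy, z, hz, e⟩ := supp_split hx (Q := fun σ => σ.In A)
      (R := fun σ => Small {B, C} σ) (by
        rintro σ ⟨U, hU, hs⟩
        rcases hU with rfl | hU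
        · exact Or.inl hs
        · exact Or.inr ⟨U, hU, hs⟩)
    rw [← e, ← CS_pair]
    exact Submodule.add_mem_sup (supp_mono (fun _ h => h.2) hy) (supp_mono (fun _ h => h.2) hz)
  · exact sup_le (CIn_le_CS (by simp)) (sup_le (CIn_le_CS (by simp)) (CIn_le_CS (by simp)))

/-- Small chains for a cover by two open sets. -/
theorem small_two {A U V : Set X} (hU : IsOpen U) (hV : IsOpen V) (hA : A ⊆ U ∪ V) {c : SC X}
    (hc : c ∈ CIn A) (hb : bdS c ∈ CIn U ⊔ CIn V) :
    ∃ e ∈ CIn A, c + bdS e ∈ CIn U ⊔ CIn V := by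
  rw [← CS_pair] at hb ⊢
  apply small_chains A {U, V} (by simp) _ c hc hb
  intro x hx
  rcases hA hx with h | h
  · exact ⟨U, by simp, mem_nhdsWithin_of_mem_nhds (hU.mem_nhds h)⟩
  · exact ⟨V, by simp, mem_nhdsWithin_of_mem_nhds (hV.mem_nhds h)⟩

/-- Small chains for a cover by three open sets. -/
theorem small_three {A U V W : Set X} (hU : IsOpen U) (hV : IsOpen V) (hW : IsOpen W)
    (hA : A ⊆ U ∪ (V ∪ W)) {c : SC X}
    (hc : c ∈ CIn A) (hb : bdS c ∈ CIn U ⊔ (CIn V ⊔ CIn W)) :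
    ∃ e ∈ CIn A, c + bdS e ∈ CIn U ⊔ (CIn V ⊔ CIn W) := by
  rw [← CS_triple] at hb ⊢
  apply small_chains A {U, V, W} (by simp) _ c hc hb
  intro x hx
  rcases hA hx with h | h | h
  · exact ⟨U, by simp, mem_nhdsWithin_of_mem_nhds (hU.mem_nhds h)⟩
  · exact ⟨V, by simp, mem_nhdsWithin_of_mem_nhds (hV.mem_nhds h)⟩
  · exact ⟨W, by simp, mem_nhdsWithin_of_mem_nhds (hW.mem_nhds h)⟩

theorem mem_CIn_of_prv {A : Set X} {x : SC X} (h : x ∈ CIn A) (m : ℕ) : prv m x ∈ CIn A :=
  prv_mem_supp h m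

/-! ### Chains of a point -/

/-- The constant simplex. -/
@[reducible] noncomputable def cstS (p : X) (m : ℕ) : Sing X := ⟨m, ContinuousMap.const _ p⟩

theorem eq_cstS {p : X} {σ : Sing X} (h : σ.In {p}) : σ = cstS p σ.nv := by
  have : σ.map = ContinuousMap.const _ p := by
    ext t
    exact h t
  unfold cstS
  rw [← this]

theorem cstS_In {p : X} {A : Set X} (hp : p ∈ A) (m : ℕ) : (cstS p m).In A := fun _ => hp

theorem eq_emp (p : X) {σ : Sing X} (h : σ.nv = 0) : σ = cstS p 0 := by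
  have : σ.In {p} := by
    intro t
    exfalso
    rw [h] at t
    exact absurd t.2.2 (by simp)
  rw [eq_cstS this, h]

/-- The contraction of the chains of a point. -/
noncomputable def ctr (p : X) : SC X →ₗ[F2] SC X := lin fun σ => single (cstS p (σ.nv + 1)) 1

theorem ctr_single (p : X) (σ : Sing X) : ctr p (single σ 1) = single (cstS p (σ.nv + 1)) 1 :=
  lin_single _ _

theorem cstS_sub (p : X) (m : ℕ) (l : List (Fin (cstS p m).nv)) :
    (cstS p m).sub l = cstS p l.length := rfl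

theorem realL_cstS_cone (p : X) (m : ℕ) (a : Fin (cstS p m).nv) (x : LC (Fin (cstS p m).nv)) :
    realL (cstS p m) (cone a x) = ctr p (realL (cstS p m) x) := by
  have : realL (cstS p m) ∘ₗ cone a = ctr p ∘ₗ realL (cstS p m) := by
    apply lin_ext; intro q
    rw [LinearMap.comp_apply, LinearMap.comp_apply, cone_single, realL_single, realL_single,
      cstS_sub, cstS_sub, ctr_single]
    rfl
  exact congrArg (fun g => g x) this

theorem realL_cstS_bd1 (p : X) (m : ℕ) (l : List (Fin (cstS p m).nv)) :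
    realL (cstS p m) (bd1 l) = (l.length : F2) • single (cstS p (l.length - 1)) 1 := by
  induction l with
  | nil => simp
  | cons a l ih =>
    rw [bd1_cons, map_add, realL_single, realL_cstS_cone, ih, map_smul, cstS_sub, ctr_single]
    rcases Nat.eq_zero_or_pos l.length with h0 | h0
    · rw [h0]; simp [h0]
    · have h2 : l.length - 1 + 1 = l.length := by omega
      have h3 : (cstS p (l.length - 1)).nv + 1 = l.length := h2
      rw [h3, List.length_cons, Nat.add_sub_cancel]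
      push_cast
      rw [add_smul, one_smul, add_comm]

theorem bdS_cstS (p : X) (m : ℕ) :
    bdS (single (cstS p m) 1) = (m : F2) • single (cstS p (m - 1)) 1 := by
  rw [bdS_single, STop.univ, bd_single, realL_cstS_bd1, List.length_finRange]

theorem ctr_mem (p : X) {A : Set X} (hp : p ∈ A) (x : SC X) : ctr p x ∈ CIn A := by
  refine supp_induction (CIn A) (ctr p) ?_ (CIn_univ x)
  intro σ _
  rw [ctr_single]
  exact single_mem_CIn (cstS_In hp _)

theorem ctr_homotopy (p : X) {x : SC X} (hx : x ∈ CIn ({p} : Set X)) :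
    bdS (ctr p x) + ctr p (bdS x) = x := by
  refine supp_ind (P := fun x => bdS (ctr p x) + ctr p (bdS x) = x) hx (by simp) ?_ ?_
  · intro x y hx hy
    simp only [map_add]
    conv_rhs => rw [← hx, ← hy]
    abel
  · intro σ hσ
    obtain ⟨m, hm⟩ : ∃ m, σ = cstS p m := ⟨_, eq_cstS hσ⟩
    subst hm
    rw [ctr_single, bdS_cstS, bdS_cstS, map_smul, ctr_single]
    change ((m + 1 : ℕ) : F2) • single (cstS p (m + 1 - 1)) 1 +
      (m : F2) • single (cstS p (m - 1 + 1)) 1 = single (cstS p m) 1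
    rw [Nat.add_sub_cancel]
    rcases Nat.eq_zero_or_pos m with h0 | h0
    · subst h0; simp
    · have h2 : m - 1 + 1 = m := by omega
      rw [h2, ← add_smul]
      push_cast
      have : (m : F2) + 1 + m = 1 := by
        have := F2.add_self (m : F2)
        linear_combination this
      rw [this, one_smul]

end basic

section contract

variable {X : Type*} [TopologicalSpace X]

/-- Contractible sets are acyclic. -/
theorem acyclic_of_contract {A : Set X} (p : X) (hp : p ∈ A) (H : C(X × unitInterval, X))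
    (h0 : ∀ a, H (a, 0) = a) (h1 : ∀ a, H (a, 1) = p) (hA : ∀ a ∈ A, ∀ t, H (a, t) ∈ A)
    (z : SC X) (hz : z ∈ CIn A) (hb : bdS z = 0) : ∃ e ∈ CIn A, bdS e = z := by
  have e1 := bdS_homS H z
  rw [hb, map_zero, add_zero] at e1
  have e2 : push (H.comp (endMap X 0)) z = z := by
    have : H.comp (endMap X 0) = ContinuousMap.id X := by
      ext a; exact h0 a
    rw [this, push_id]
  rw [e2] at e1
  set z' := push (H.comp (endMap X 1)) z with hz'
  have h2 : z' ∈ CIn ({p} : Set X) := by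
    apply push_mem_CIn _ _ hz
    intro a _
    exact h1 a
  have h3 : bdS z' = 0 := by rw [hz', ← push_bdS, hb, map_zero]
  have h4 := ctr_homotopy p h2
  rw [h3, map_zero, add_zero] at h4
  refine ⟨homS H z + ctr p z', Submodule.add_mem _ (homS_mem_CIn H hA hz) (ctr_mem p hp _), ?_⟩
  rw [map_add, e1, h4, add_assoc, add_self_eq_zero', add_zero]

/-- Convex sets are acyclic. -/
theorem acyclic_convex {E : Type*} [AddCommGroup E] [Module ℝ E] [TopologicalSpace E]
    [ContinuousAdd E] [ContinuousSMul ℝ E] {A : Set E} (hA : Convex ℝ A) (hne : A.Nonempty)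
    (z : SC E) (hz : z ∈ CIn A) (hb : bdS z = 0) : ∃ e ∈ CIn A, bdS e = z := by
  obtain ⟨p, hp⟩ := hne
  let H : C(E × unitInterval, E) :=
    ⟨fun q => (1 - (q.2 : ℝ)) • q.1 + (q.2 : ℝ) • p, by fun_prop⟩
  refine acyclic_of_contract p hp H ?_ ?_ ?_ z hz hb
  · intro a
    change (1 - ((0 : unitInterval) : ℝ)) • a + ((0 : unitInterval) : ℝ) • p = a
    simp
  · intro a
    change (1 - ((1 : unitInterval) : ℝ)) • a + ((1 : unitInterval) : ℝ) • p = p
    simp
  · intro a ha t
    change (1 - (t : ℝ)) • a + (t : ℝ) • p ∈ A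
    exact hA ha hp (by linarith [t.2.2]) t.2.1 (by ring)

end contract

/-! ### Relative generators -/

section rgen

variable {X Y : Type*} [TopologicalSpace X] [TopologicalSpace Y]

/-- `w` generates the homology of the pair `(Z, Z')`, which is one-dimensional. -/
structure RGen (Z Z' : Set X) (m : ℕ) (w : SC X) : Prop where
  mem : w ∈ CIn Z
  deg : w ∈ Deg X m
  bd : bdS w ∈ CIn Z'
  gen : ∀ z ∈ CIn Z, bdS z ∈ CIn Z' → ∃ l : F2, ∃ e ∈ CIn Z, z + l • w + bdS e ∈ CIn Z'
  ne : ∀ e ∈ CIn Z, w + bdS e ∉ CIn Z'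

theorem F2.cases (l : F2) : l = 0 ∨ l = 1 := by revert l; decide

theorem RGen.gen_deg {Z Z' : Set X} {m : ℕ} {w : SC X} (h : RGen Z Z' m w) {k : ℕ} (hk : k ≠ m)
    {z : SC X} (hz : z ∈ CIn Z) (hd : z ∈ Deg X k) (hb : bdS z ∈ CIn Z') :
    ∃ e ∈ CIn Z, e ∈ Deg X (k + 1) ∧ z + bdS e ∈ CIn Z' := by
  obtain ⟨l, e, he, h1⟩ := h.gen z hz hb
  refine ⟨prv (k + 1) e, mem_CIn_of_prv he _, prv_mem _ _, ?_⟩
  have h2 := mem_CIn_of_prv h1 k
  rw [map_add, map_add, map_smul, prv_of_mem hd, prv_of_mem_ne h.deg (Ne.symm hk), smul_zero,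
    add_zero] at h2
  rw [bdS_prv]
  exact h2

/-- Homogeneous version. -/
theorem RGen.gen_deg' {Z Z' : Set X} {m : ℕ} {w : SC X} (h : RGen Z Z' m w)
    {z : SC X} (hz : z ∈ CIn Z) (hd : z ∈ Deg X m) (hb : bdS z ∈ CIn Z') :
    ∃ l : F2, ∃ e ∈ CIn Z, e ∈ Deg X (m + 1) ∧ z + l • w + bdS e ∈ CIn Z' := by
  obtain ⟨l, e, he, h1⟩ := h.gen z hz hb
  refine ⟨l, prv (m + 1) e, mem_CIn_of_prv he _, prv_mem _ _, ?_⟩
  have h2 := mem_CIn_of_prv h1 m
  rw [map_add, map_add, map_smul, prv_of_mem hd, prv_of_mem h.deg] at h2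
  rw [bdS_prv]
  exact h2

theorem RGen.unique {Z Z' : Set X} {m m' : ℕ} {w w' : SC X} (h : RGen Z Z' m w)
    (h' : RGen Z Z' m' w') : ∃ e ∈ CIn Z, w + w' + bdS e ∈ CIn Z' := by
  obtain ⟨l, e, he, h1⟩ := h.gen w' h'.mem h'.bd
  rcases F2.cases l with rfl | rfl
  · rw [zero_smul, add_zero] at h1
    exact absurd h1 (h'.ne e he)
  · rw [one_smul, add_comm w' w] at h1
    exact ⟨e, he, h1⟩

/-- Lifting chains along an embedding. -/
theorem exists_lift {φ : C(X, Y)} (hφ : Topology.IsEmbedding φ) {A : Set X} {z : SC Y}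
    (hz : z ∈ CIn (φ '' A)) : ∃ z' ∈ CIn A, push φ z' = z := by
  refine supp_ind (P := fun z => ∃ z' ∈ CIn A, push φ z' = z) hz
    ⟨0, Submodule.zero_mem _, map_zero _⟩ ?_ ?_
  · rintro x y ⟨x', hx, rfl⟩ ⟨y', hy, rfl⟩
    exact ⟨x' + y', Submodule.add_mem _ hx hy, map_add _ _ _⟩
  · intro σ hσ
    choose f hf hfe using hσ
    have hcont : Continuous f := by
      rw [hφ.continuous_iff]
      have : φ ∘ f = σ.map := funext hfe
      rw [this]
      exact σ.map.continuous
    refine ⟨single ⟨σ.nv, ⟨f, hcont⟩⟩ 1, single_mem_CIn hf, ?_⟩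
    rw [push_single]
    congr 1
    obtain ⟨n, s⟩ := σ
    unfold Sing.push
    congr 1
    ext t
    exact hfe t

theorem push_inj {φ : C(X, Y)} (hφ : Function.Injective φ) : Function.Injective (push φ) := by
  have h1 : (push φ : SC X →ₗ[F2] SC Y) = Finsupp.lmapDomain F2 F2 (fun σ => σ.push φ) := by
    apply lin_ext; intro σ
    rw [push_single, Finsupp.lmapDomain_apply, Finsupp.mapDomain_single]
  rw [h1]
  apply Finsupp.mapDomain_injective
  intro σ τ h
  obtain ⟨n, s⟩ := σ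
  obtain ⟨m, t⟩ := τ
  unfold Sing.push at h
  simp only [Sing.mk.injEq] at h
  obtain ⟨rfl, h⟩ := h
  have h2 := eq_of_heq h
  congr 1
  ext x
  exact hφ (congrArg (fun g => g x) h2)

theorem mem_CIn_of_push {φ : C(X, Y)} (hφ : Topology.IsEmbedding φ) {A : Set X} {z : SC X}
    (hz : push φ z ∈ CIn (φ '' A)) : z ∈ CIn A := by
  obtain ⟨z', hz', h⟩ := exists_lift hφ hz
  rwa [← push_inj hφ.injective h]

/-- Transport of generators along an embedding. -/
theorem RGen.push {φ : C(X, Y)} (hφ : Topology.IsEmbedding φ) {Z Z' : Set X} {m : ℕ} {w : SC X}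
    (h : RGen Z Z' m w) : RGen (φ '' Z) (φ '' Z') m (STop.push φ w) where
  mem := push_mem_CIn φ (fun a ha => Set.mem_image_of_mem φ ha) h.mem
  deg := push_mem_Deg φ h.deg
  bd := by
    rw [← push_bdS]
    exact push_mem_CIn φ (fun a ha => Set.mem_image_of_mem φ ha) h.bd
  gen := by
    intro z hz hb
    obtain ⟨z', hz', rfl⟩ := exists_lift hφ hz
    rw [← push_bdS] at hb
    obtain ⟨l, e, he, h1⟩ := h.gen z' hz' (mem_CIn_of_push hφ hb)
    refine ⟨l, STop.push φ e, push_mem_CIn φ (fun a ha => Set.mem_image_of_mem φ ha) he, ?_⟩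
    rw [← push_bdS, ← map_smul, ← map_add, ← map_add]
    exact push_mem_CIn φ (fun a ha => Set.mem_image_of_mem φ ha) h1
  ne := by
    intro e he h1
    obtain ⟨e', he', rfl⟩ := exists_lift hφ he
    rw [← push_bdS, ← map_add] at h1
    exact h.ne e' he' (mem_CIn_of_push hφ h1)

/-- Excision. -/
theorem RGen.excision {W Z' : Set X} (hW : IsOpen W) (hZ : IsOpen Z') (hun : W ∪ Z' = Set.univ)
    {m : ℕ} {w : SC X} (h : RGen W (W ∩ Z') m w) : RGen Set.univ Z' m w where
  mem := CIn_univ _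
  deg := h.deg
  bd := CIn_mono Set.inter_subset_right h.bd
  gen := by
    intro z _ hb
    obtain ⟨e, _, he⟩ := small_two hW hZ hun.ge (CIn_univ z) (Submodule.mem_sup_right hb)
    obtain ⟨z1, hz1, z2, hz2, h12⟩ := Submodule.mem_sup.1 he
    have hb1 : bdS z1 ∈ CIn (W ∩ Z') := by
      apply CIn_inter (bdS_mem_CIn hz1)
      have : bdS z1 = bdS z + bdS z2 := by
        have h3 := congrArg bdS h12
        rw [map_add, map_add, bdS_bdS, add_zero] at h3
        rw [← h3, add_assoc, add_self_eq_zero', add_zero]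
      rw [this]
      exact Submodule.add_mem _ hb (bdS_mem_CIn hz2)
    obtain ⟨l, e1, he1, h4⟩ := h.gen z1 hz1 hb1
    refine ⟨l, e + e1, CIn_univ _, ?_⟩
    have : z + l • w + bdS (e + e1) = (z1 + l • w + bdS e1) + z2 := by
      rw [map_add]
      have : z + bdS e = z1 + z2 := h12.symm
      calc z + l • w + (bdS e + bdS e1) = (z + bdS e) + l • w + bdS e1 := by abel
        _ = _ := by rw [this]; abel
    rw [this]
    exact Submodule.add_mem _ (CIn_mono Set.inter_subset_right h4) hz2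
  ne := by
    intro e _ h1
    -- `e` has small boundary
    have hb : bdS e ∈ CIn W ⊔ CIn Z' := by
      have : bdS e = w + (w + bdS e) := by rw [← add_assoc, add_self_eq_zero', zero_add]
      rw [this]
      exact Submodule.add_mem_sup h.mem h1
    obtain ⟨e', _, he⟩ := small_two hW hZ hun.ge (CIn_univ e) hb
    obtain ⟨e1, he1, e2, he2, h12⟩ := Submodule.mem_sup.1 he
    apply h.ne e1 he1
    apply CIn_inter (Submodule.add_mem _ h.mem (bdS_mem_CIn he1))
    have h3 := congrArg bdS h12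
    rw [map_add, map_add, bdS_bdS, add_zero] at h3
    have : w + bdS e1 = (w + bdS e) + bdS e2 := by
      rw [← h3, add_assoc, add_assoc, add_self_eq_zero', add_zero]
    rw [this]
    exact Submodule.add_mem _ h1 (bdS_mem_CIn he2)

end rgen

end STop
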