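import Pool.Agent.Lib.Pbb5b69.Thom2

/-!
# Relative Mayer-Vietoris induction for a pair with point classes
-/

open Finsupp

namespace STop

theorem oneF {M : Type*} [AddCommGroup M] [Module F2 M] {a b : M}
    (h : (1 : F2) • a = (1 : F2) • b) : a = b := by simpa using h

section relm

variable {X : Type*} [TopologicalSpace X]

/-- Relative boundaries of the pair `(A, O)`. -/
noncomputable def MR (O A : Set X) : Submodule F2 (SC X) := CIn O ⊔ Submodule.map bdS (CIn A)

theorem mem_MR {O A : Set X} {z : SC X} :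
    z ∈ MR O A ↔ ∃ e ∈ CIn A, z + bdS e ∈ CIn O := by
  unfold MR
  rw [Submodule.mem_sup]
  constructor
  · rintro ⟨a, ha, b, hb, rfl⟩
    obtain ⟨e, he, rfl⟩ := hb
    refine ⟨e, he, ?_⟩
    rw [add_assoc, add_self_eq_zero', add_zero]
    exact ha
  · rintro ⟨e, he, h⟩
    refine ⟨_, h, bdS e, ⟨e, he, rfl⟩, ?_⟩
    rw [add_assoc, add_self_eq_zero', add_zero]

theorem MR_O {O A : Set X} {z : SC X} (h : z ∈ CIn O) : z ∈ MR O A :=
  Submodule.mem_sup_left h

theorem MR_bd {O A : Set X} {e : SC X} (h : e ∈ CIn A) : bdS e ∈ MR O A :=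
  Submodule.mem_sup_right ⟨e, h, rfl⟩

theorem MR_mono {O A A' : Set X} (h : A ⊆ A') : MR O A ≤ MR O A' := by
  apply sup_le_sup le_rfl
  apply Submodule.map_mono
  exact CIn_mono h

theorem prv_MR {O A : Set X} {z : SC X} (h : z ∈ MR O A) (k : ℕ) : prv k z ∈ MR O A := by
  rw [mem_MR] at h ⊢
  obtain ⟨e, he, h1⟩ := h
  refine ⟨prv (k + 1) e, mem_CIn_of_prv he _, ?_⟩
  rw [bdS_prv, ← map_add]
  exact mem_CIn_of_prv h1 k

/-- Splitting of a relative cycle. -/
theorem mr_split {O A1 A2 : Set X} (h1 : IsOpen A1) (h2 : IsOpen A2)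
    (hO2 : O ⊆ A2) {j : ℕ}
    (h12 : ∀ x ∈ CIn (A1 ∩ A2), x ∈ Deg X j → bdS x ∈ CIn O → x ∈ MR O (A1 ∩ A2))
    (z : SC X) (hz : z ∈ CIn (A1 ∪ A2))
    (hd : z ∈ Deg X (j + 1)) (hb : bdS z ∈ CIn O) :
    ∃ z1 ∈ CIn A1, z1 ∈ Deg X (j + 1) ∧ bdS z1 ∈ CIn O ∧
    ∃ z2 ∈ CIn A2, z2 ∈ Deg X (j + 1) ∧ bdS z2 ∈ CIn O ∧
      z + z1 + z2 ∈ MR O (A1 ∪ A2) := by
  obtain ⟨e, he, hs⟩ := small_two h1 h2 subset_rfl hz
    (Submodule.mem_sup_right (CIn_mono hO2 hb))
  obtain ⟨a1, ha1, a2, ha2, h120⟩ := Submodule.mem_sup.1 hs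
  obtain ⟨z1, hz1⟩ : ∃ z1, z1 = prv (j + 1) a1 := ⟨_, rfl⟩
  obtain ⟨z2, hz2⟩ : ∃ z2, z2 = prv (j + 1) a2 := ⟨_, rfl⟩
  have hz1m : z1 ∈ CIn A1 := by rw [hz1]; exact mem_CIn_of_prv ha1 _
  have hz2m : z2 ∈ CIn A2 := by rw [hz2]; exact mem_CIn_of_prv ha2 _
  have hz1d : z1 ∈ Deg X (j + 1) := by rw [hz1]; exact prv_mem _ _
  have hz2d : z2 ∈ Deg X (j + 1) := by rw [hz2]; exact prv_mem _ _
  have hsum : z + bdS (prv (j + 2) e) = z1 + z2 := by
    have h3 := congrArg (prv (j + 1)) h120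
    rw [map_add, map_add, prv_of_mem hd, ← bdS_prv, ← hz1, ← hz2] at h3
    exact h3.symm
  have hbsum : bdS z = bdS z1 + bdS z2 := by
    have h3 := congrArg bdS hsum
    rwa [map_add, map_add, bdS_bdS, add_zero] at h3
  have hx : bdS z1 ∈ CIn A2 := by
    have : bdS z1 = bdS z2 + bdS z := by linear_combination (norm := (refine oneF ?_; match_scalars <;> first | decide | (ring_nf; decide))) hbsum
    rw [this]
    exact Submodule.add_mem _ (bdS_mem_CIn hz2m) (CIn_mono hO2 hb)
  have h4 := h12 (bdS z1) (CIn_inter (bdS_mem_CIn hz1m) hx) (bdS_mem_Deg hz1d)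
    (by rw [bdS_bdS]; exact Submodule.zero_mem _)
  rw [mem_MR] at h4
  obtain ⟨e4, he4, h5⟩ := h4
  obtain ⟨e3, he3⟩ : ∃ e3, e3 = prv (j + 1) e4 := ⟨_, rfl⟩
  have he3m : e3 ∈ CIn (A1 ∩ A2) := by
    rw [he3]; exact mem_CIn_of_prv he4 _
  have he3d : e3 ∈ Deg X (j + 1) := by rw [he3]; exact prv_mem _ _
  have h6 : bdS z1 + bdS e3 ∈ CIn O := by
    have := mem_CIn_of_prv h5 j
    rwa [map_add, prv_of_mem (bdS_mem_Deg hz1d), ← bdS_prv, ← he3] at this
  refine ⟨z1 + e3, Submodule.add_mem _ hz1m (CIn_mono Set.inter_subset_left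
    he3m), Submodule.add_mem _ hz1d he3d, ?_, z2 + e3, Submodule.add_mem _ hz2m
    (CIn_mono Set.inter_subset_right he3m),
    Submodule.add_mem _ hz2d he3d, ?_, ?_⟩
  · rw [map_add]; exact h6
  · rw [map_add]
    have : bdS z2 + bdS e3 = (bdS z1 + bdS e3) + bdS z := by linear_combination (norm := (refine oneF ?_; match_scalars <;> first | decide | (ring_nf; decide))) (-1 : ℤ) • hbsum
    rw [this]
    exact Submodule.add_mem _ h6 hb
  · have h9 : z + (z1 + e3) + (z2 + e3) = bdS (prv (j + 2) e) := by linear_combination (norm := (refine oneF ?_; match_scalars <;> first | decide | (ring_nf; decide))) hsum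
    rw [h9]
    exact MR_bd (mem_CIn_of_prv he _)

end relm

/-! ### Point classes -/

section pts

variable {X T : Type*} [TopologicalSpace X]

/-- The sum of the classes of finitely many points. -/
noncomputable def Fn (nu : T → SC X) : (T →₀ F2) →ₗ[F2] SC X := lin fun p => nu p

theorem Fn_single (nu : T → SC X) (p : T) : Fn nu (single p 1) = nu p := lin_single _ _

/-- The parity of a finite set of points. -/
noncomputable def par2 : (T →₀ F2) →ₗ[F2] F2 := lin fun _ => 1

theorem par2_single (p : T) : par2 (single p (1 : F2)) = 1 := lin_single _ _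

/-- The induction hypothesis. -/
structure QR (m : ℕ) (nu : T → SC X) (O A : Set X) (V : Set T) : Prop where
  low : ∀ k < m, ∀ z ∈ CIn A, z ∈ Deg X k → bdS z ∈ CIn O → z ∈ MR O A
  top : ∀ z ∈ CIn A, z ∈ Deg X m →
    bdS z ∈ CIn O → ∃ s ∈ supp (fun p => p ∈ V), z + Fn nu s ∈ MR O A
  par : ∀ s ∈ supp (fun p => p ∈ V), Fn nu s ∈ MR O A → par2 s = 0

variable {m : ℕ} {nu : T → SC X}

theorem Fn_mem {A : Set X} {V : Set T} (h : ∀ p ∈ V, nu p ∈ CIn A) {s : T →₀ F2}
    (hs : s ∈ supp (fun p => p ∈ V)) : Fn nu s ∈ CIn A := by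
  refine supp_induction _ (Fn nu) ?_ hs
  intro p hp
  rw [Fn_single]
  exact h p hp

theorem Fn_deg (h : ∀ p, nu p ∈ Deg X m) (s : T →₀ F2) : Fn nu s ∈ Deg X m := by
  refine chain_induction (P := fun s => Fn nu s ∈ Deg X m) s (by simp) ?_ ?_
  · intro x y hx hy
    rw [map_add]
    exact Submodule.add_mem _ hx hy
  · intro p
    rw [Fn_single]
    exact h p

theorem Fn_bd {O : Set X} (h : ∀ p, bdS (nu p) ∈ CIn O) (s : T →₀ F2) :
    bdS (Fn nu s) ∈ CIn O := by
  refine chain_induction (P := fun s => bdS (Fn nu s) ∈ CIn O) s (by simp) ?_ ?_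
  · intro x y hx hy
    rw [map_add, map_add]
    exact Submodule.add_mem _ hx hy
  · intro p
    rw [Fn_single]
    exact h p

theorem QR_union (hm : 1 ≤ m) {O A1 A2 : Set X} {V1 V2 : Set T} (h1 : IsOpen A1) (h2 : IsOpen A2)
    (hO2 : O ⊆ A2) (hd : ∀ p, nu p ∈ Deg X m) (hb : ∀ p, bdS (nu p) ∈ CIn O)
    (hn1 : ∀ p ∈ V1, nu p ∈ CIn A1) (hn2 : ∀ p ∈ V2, nu p ∈ CIn A2)
    (q1 : QR m nu O A1 V1) (q2 : QR m nu O A2 V2) (q12 : QR m nu O (A1 ∩ A2) (V1 ∩ V2)) :
    QR m nu O (A1 ∪ A2) (V1 ∪ V2) where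
  low := by
    intro k hk z hz hd hb
    cases k with
    | zero => exact MR_O (Deg_zero_le_CIn _ hd)
    | succ j =>
      obtain ⟨z1, hz1, hd1, hb1, z2, hz2, hd2, hb2, hM⟩ := mr_split h1 h2 hO2
        (fun x hx hxd hxb => q12.low j (by omega) x hx hxd hxb) z hz hd hb
      have e1 := MR_mono (Set.subset_union_left (t := A2)) (q1.low _ hk z1 hz1 hd1 hb1)
      have e2 := MR_mono (Set.subset_union_right (s := A1)) (q2.low _ hk z2 hz2 hd2 hb2)
      have := Submodule.add_mem _ (Submodule.add_mem _ hM e1) e2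
      have e3 : z + z1 + z2 + z1 + z2 = z := by (refine oneF ?_; match_scalars <;> first | decide | (ring_nf; decide))
      rwa [e3] at this
  top := by
    intro z hz hd hb
    obtain ⟨j, rfl⟩ : ∃ j, m = j + 1 := ⟨m - 1, by omega⟩
    obtain ⟨z1, hz1, hd1, hb1, z2, hz2, hd2, hb2, hM⟩ := mr_split h1 h2 hO2
      (fun x hx hxd hxb => q12.low j (by omega) x hx hxd hxb) z hz hd hb
    obtain ⟨s1, hs1, e1⟩ := q1.top z1 hz1 hd1 hb1
    obtain ⟨s2, hs2, e2⟩ := q2.top z2 hz2 hd2 hb2
    refine ⟨s1 + s2, Submodule.add_mem _ (supp_mono (fun a ha => Or.inl ha) hs1)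
      (supp_mono (fun a ha => Or.inr ha) hs2), ?_⟩
    have := Submodule.add_mem _ (Submodule.add_mem _ hM
      (MR_mono (Set.subset_union_left (t := A2)) e1))
      (MR_mono (Set.subset_union_right (s := A1)) e2)
    have e3 : z + z1 + z2 + (z1 + Fn nu s1) + (z2 + Fn nu s2) = z + Fn nu (s1 + s2) := by
      rw [map_add]
      (refine oneF ?_; match_scalars <;> first | decide | (ring_nf; decide))
    rwa [e3] at this
  par := by
    intro s hs hM
    rw [mem_MR] at hM
    obtain ⟨e, he, hq⟩ := hM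
    obtain ⟨s1, hs1, s2, hs2, hs12⟩ := supp_split hs (Q := fun p => p ∈ V1) (R := fun p => p ∈ V2)
      (fun p hp => hp)
    have hs1' : s1 ∈ supp (fun p => p ∈ V1) := supp_mono (fun a ha => ha.2) hs1
    have hs2' : s2 ∈ supp (fun p => p ∈ V2) := supp_mono (fun a ha => ha.2) hs2
    obtain ⟨q, hqd⟩ : ∃ q, q = Fn nu s + bdS e := ⟨_, rfl⟩
    rw [← hqd] at hq
    have hbe : bdS e = Fn nu s1 + (Fn nu s2 + q) := by
      rw [hqd, ← hs12, map_add]
      (refine oneF ?_; match_scalars <;> first | decide | (ring_nf; decide))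
    obtain ⟨e', he', hs'⟩ := small_two h1 h2 subset_rfl he (by
        rw [hbe]
        exact Submodule.add_mem_sup (Fn_mem hn1 hs1')
          (Submodule.add_mem _ (Fn_mem hn2 hs2') (CIn_mono hO2 hq)))
    obtain ⟨a1, ha1, a2, ha2, h120⟩ := Submodule.mem_sup.1 hs'
    have hbe2 : bdS e = bdS a1 + bdS a2 := by
      have h3 := congrArg bdS h120
      rw [map_add, map_add, bdS_bdS, add_zero] at h3
      exact h3.symm
    -- the common part
    obtain ⟨x, hx⟩ : ∃ x, x = Fn nu s1 + bdS a1 := ⟨_, rfl⟩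
    have hx1 : x ∈ CIn A1 := by
      rw [hx]; exact Submodule.add_mem _ (Fn_mem hn1 hs1') (bdS_mem_CIn ha1)
    have hx2 : x = (Fn nu s2 + bdS a2) + q := by
      rw [hx]
      linear_combination (norm := (refine oneF ?_; match_scalars <;> first | decide | (ring_nf; decide))) hbe - hbe2
    have hx3 : x ∈ CIn A2 := by
      rw [hx2]
      exact Submodule.add_mem _ (Submodule.add_mem _ (Fn_mem hn2 hs2') (bdS_mem_CIn ha2))
        (CIn_mono hO2 hq)
    have hx12 : x ∈ CIn (A1 ∩ A2) := CIn_inter hx1 hx3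
    have hpx1 : prv m x = Fn nu s1 + bdS (prv (m + 1) a1) := by
      rw [hx, map_add, prv_of_mem (Fn_deg hd s1), bdS_prv]
    have hpx2 : prv m x = Fn nu s2 + bdS (prv (m + 1) a2) + prv m q := by
      rw [hx2, map_add, map_add, prv_of_mem (Fn_deg hd s2), ← bdS_prv]
    have hbb : bdS (prv m x) ∈ CIn O := by
      rw [hpx1, map_add, bdS_bdS, add_zero]
      exact Fn_bd hb s1
    obtain ⟨t, ht, htM⟩ := q12.top (prv m x) (mem_CIn_of_prv hx12 _) (prv_mem _ _) hbb
    have p1 : par2 (s1 + t) = 0 := by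
      apply q1.par _ (Submodule.add_mem _ hs1' (supp_mono (fun a ha => ha.1) ht))
      have : Fn nu (s1 + t) = (prv m x + Fn nu t) + bdS (prv (m + 1) a1) := by
        rw [map_add]
        linear_combination (norm := (refine oneF ?_; match_scalars <;> first | decide | (ring_nf; decide))) hpx1
      rw [this]
      exact Submodule.add_mem _ (MR_mono Set.inter_subset_left htM) (MR_bd (mem_CIn_of_prv ha1 _))
    have p2 : par2 (s2 + t) = 0 := by
      apply q2.par _ (Submodule.add_mem _ hs2' (supp_mono (fun a ha => ha.2) ht))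
      have : Fn nu (s2 + t) = (prv m x + Fn nu t) + bdS (prv (m + 1) a2) + prv m q := by
        rw [map_add]
        linear_combination (norm := (refine oneF ?_; match_scalars <;> first | decide | (ring_nf; decide))) hpx2
      rw [this]
      exact Submodule.add_mem _ (Submodule.add_mem _ (MR_mono Set.inter_subset_right htM)
        (MR_bd (mem_CIn_of_prv ha2 _))) (MR_O (mem_CIn_of_prv hq _))
    rw [map_add] at p1 p2
    rw [← hs12, map_add]
    have e1 := F2.add_self (par2 t)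
    linear_combination p1 + p2 - e1

/-- Directed unions. -/
theorem QR_directed {ι : Type*} [Nonempty ι] {O : Set X} {A : ι → Set X} {V : ι → Set T}
    (hA : ∀ i, IsOpen (A i)) (hdir : ∀ i j, ∃ k, A i ⊆ A k ∧ A j ⊆ A k ∧ V i ⊆ V k ∧ V j ⊆ V k)
    (q : ∀ i, QR m nu O (A i) (V i)) : QR m nu O (⋃ i, A i) (⋃ i, V i) := by
  have key : ∀ x ∈ CIn (⋃ i, A i), ∃ i, x ∈ CIn (A i) := by
    intro x hx
    obtain ⟨K, hK, hKU, hxK⟩ := exists_compact hx
    obtain ⟨i, hi⟩ := hK.elim_directed_cover A hA hKU (fun i j => by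
      obtain ⟨k, h1, h2, _⟩ := hdir i j
      exact ⟨k, h1, h2⟩)
    exact ⟨i, CIn_mono hi hxK⟩
  have key2 : ∀ s ∈ supp (fun p => p ∈ ⋃ i, V i), ∃ i, s ∈ supp (fun p => p ∈ V i) := by
    intro s hs
    refine supp_ind (P := fun s => ∃ i, s ∈ supp (fun p => p ∈ V i)) hs ?_ ?_ ?_
    · exact ⟨Classical.arbitrary ι, Submodule.zero_mem _⟩
    · rintro x y ⟨i, hi⟩ ⟨j, hj⟩
      obtain ⟨k, _, _, h1, h2⟩ := hdir i j
      exact ⟨k, Submodule.add_mem _ (supp_mono h1 hi) (supp_mono h2 hj)⟩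
    · intro p hp
      obtain ⟨i, hi⟩ := Set.mem_iUnion.1 hp
      exact ⟨i, single_mem_supp (P := fun p => p ∈ V i) hi⟩
  refine ⟨?_, ?_, ?_⟩
  · intro k hk z hz hd hb
    obtain ⟨i, hi⟩ := key z hz
    exact MR_mono (Set.subset_iUnion A i) ((q i).low k hk z hi hd hb)
  · intro z hz hd hb
    obtain ⟨i, hi⟩ := key z hz
    obtain ⟨s, hs, h⟩ := (q i).top z hi hd hb
    exact ⟨s, supp_mono (Set.subset_iUnion V i) hs, MR_mono (Set.subset_iUnion A i) h⟩
  · intro s hs hM
    obtain ⟨i, hi⟩ := key2 s hs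
    obtain ⟨e, he, hq⟩ := mem_MR.1 hM
    obtain ⟨j, hj⟩ := key e he
    obtain ⟨k, h1, h2, h3, h4⟩ := hdir i j
    exact (q k).par s (supp_mono h3 hi) (mem_MR.2 ⟨e, CIn_mono h2 hj, hq⟩)

/-- The base case: a pair with a generator. -/
theorem QR_base {O A : Set X} {V : Set T} {w : SC X} (hw : RGen A O m w)
    (hV : V.Nonempty) (hnu : ∀ p ∈ V, nu p + w ∈ MR O A) : QR m nu O A V := by
  have hF : ∀ s ∈ supp (fun p => p ∈ V), Fn nu s + par2 s • w ∈ MR O A := by
    intro s hs
    refine supp_ind (P := fun s => Fn nu s + par2 s • w ∈ MR O A) hs ?_ ?_ ?_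
    · simp
    · intro x y hx hy
      have := Submodule.add_mem _ hx hy
      rw [map_add, map_add, add_smul]
      convert this using 1
      abel
    · intro p hp
      rw [Fn_single, par2_single, one_smul]
      exact hnu p hp
  refine ⟨?_, ?_, ?_⟩
  · intro k hk z hz hd hb
    obtain ⟨e, he, _, h⟩ := hw.gen_deg (by omega) hz hd hb
    exact mem_MR.2 ⟨e, he, h⟩
  · intro z hz hd hb
    obtain ⟨l, e, he, _, h⟩ := hw.gen_deg' hz hd hb
    obtain ⟨p, hp⟩ := hV
    refine ⟨l • single p 1, Submodule.smul_mem _ _ (single_mem_supp (P := fun p => p ∈ V) hp), ?_⟩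
    have h1 : z + l • w ∈ MR O A := mem_MR.2 ⟨e, he, h⟩
    have h2 := Submodule.smul_mem _ l (hnu p hp)
    have := Submodule.add_mem _ h1 h2
    rw [map_smul, Fn_single]
    rw [smul_add] at this
    have e3 : z + l • w + (l • nu p + l • w) = z + l • nu p := by
      have := add_self_eq_zero' (l • w)
      linear_combination (norm := abel) this
    rwa [e3] at this
  · intro s hs hM
    have h1 := Submodule.add_mem _ hM (hF s hs)
    have e3 : Fn nu s + (Fn nu s + par2 s • w) = par2 s • w := by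
      have := add_self_eq_zero' (Fn nu s)
      linear_combination (norm := abel) this
    rw [e3] at h1
    rcases F2.cases (par2 s) with h | h
    · exact h
    · exfalso
      rw [h, one_smul] at h1
      obtain ⟨e, he, h2⟩ := mem_MR.1 h1
      exact hw.ne e he h2

theorem QR_empty {O : Set X} : QR m nu O O (∅ : Set T) := by
  refine ⟨?_, ?_, ?_⟩
  · intro k hk z hz hd hb
    exact MR_O hz
  · intro z hz hd hb
    exact ⟨0, Submodule.zero_mem _, by rw [map_zero, add_zero]; exact MR_O hz⟩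
  · intro s hs _
    have : s = 0 := by
      rw [mem_supp] at hs
      ext p
      by_contra h
      exact hs p (by rw [Finsupp.mem_support_iff]; exact h)
    rw [this, map_zero]

end pts

/-! ### Excision -/

section exc

variable {X : Type*} [TopologicalSpace X]

/-- Excision. -/
theorem RGen.excision' {W Z' : Set X} (hW : IsOpen W) (hZ : IsOpen Z')
    {m : ℕ} {w : SC X} (h : RGen W (W ∩ Z') m w) : RGen (W ∪ Z') Z' m w where
  mem := CIn_mono Set.subset_union_left h.mem
  deg := h.deg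
  bd := CIn_mono Set.inter_subset_right h.bd
  gen := by
    intro z hz hb
    obtain ⟨e, he0, he⟩ := small_two hW hZ subset_rfl hz (Submodule.mem_sup_right hb)
    obtain ⟨z1, hz1, z2, hz2, h12⟩ := Submodule.mem_sup.1 he
    have hb1 : bdS z1 ∈ CIn (W ∩ Z') := by
      apply CIn_inter (bdS_mem_CIn hz1)
      have : bdS z1 = bdS z + bdS z2 := by
        have h3 := congrArg bdS h12
        rw [map_add, map_add, bdS_bdS, add_zero] at h3
        linear_combination (norm := (refine oneF ?_; match_scalars <;> first | decide | (ring_nf; decide))) h3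
      rw [this]
      exact Submodule.add_mem _ hb (bdS_mem_CIn hz2)
    obtain ⟨l, e1, he1, h4⟩ := h.gen z1 hz1 hb1
    refine ⟨l, e + e1, Submodule.add_mem _ he0 (CIn_mono Set.subset_union_left he1), ?_⟩
    have : z + l • w + bdS (e + e1) = (z1 + l • w + bdS e1) + z2 := by
      rw [map_add]
      linear_combination (norm := abel) -h12
    rw [this]
    exact Submodule.add_mem _ (CIn_mono Set.inter_subset_right h4) hz2
  ne := by
    intro e hee h1
    -- `e` has small boundary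
    have hb : bdS e ∈ CIn W ⊔ CIn Z' := by
      have : bdS e = w + (w + bdS e) := by (refine oneF ?_; match_scalars <;> first | decide | (ring_nf; decide))
      rw [this]
      exact Submodule.add_mem_sup h.mem h1
    obtain ⟨e', _, he⟩ := small_two hW hZ subset_rfl hee hb
    obtain ⟨e1, he1, e2, he2, h12⟩ := Submodule.mem_sup.1 he
    apply h.ne e1 he1
    apply CIn_inter (Submodule.add_mem _ h.mem (bdS_mem_CIn he1))
    have h3 := congrArg bdS h12
    rw [map_add, map_add, bdS_bdS, add_zero] at h3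
    have : w + bdS e1 = (w + bdS e) + bdS e2 := by linear_combination (norm := (refine oneF ?_; match_scalars <;> first | decide | (ring_nf; decide))) h3
    rw [this]
    exact Submodule.add_mem _ h1 (bdS_mem_CIn he2)

end exc

end STop
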