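import Pool.Agent.Lib.Pbb5b69.Rel

/-!
# Suspension of relative generators
-/

open Finsupp

namespace STop

section susp

variable {X : Type*} [TopologicalSpace X]

/-- The cylinder `(x, s) ↦ (x, 2 s - 1)`. -/
noncomputable def cylMap (X : Type*) [TopologicalSpace X] : C(X × unitInterval, X × ℝ) :=
  ⟨fun q => (q.1, 2 * (q.2 : ℝ) - 1), by fun_prop⟩

/-- The slice at height `c`. -/
def slc (X : Type*) [TopologicalSpace X] (c : ℝ) : C(X, X × ℝ) := ⟨fun x => (x, c), by fun_prop⟩

/-- The projection. -/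
def prX (X : Type*) [TopologicalSpace X] : C(X × ℝ, X) := ⟨Prod.fst, by fun_prop⟩

theorem cyl_zero : (cylMap X).comp (endMap X 0) = slc X (-1) := by
  ext x
  · rfl
  · change 2 * ((0 : unitInterval) : ℝ) - 1 = -1
    simp

theorem cyl_one : (cylMap X).comp (endMap X 1) = slc X 1 := by
  ext x
  · rfl
  · change 2 * ((1 : unitInterval) : ℝ) - 1 = 1
    norm_num

theorem bdS_cyl (w : SC X) : bdS (homS (cylMap X) w) + homS (cylMap X) (bdS w) =
    push (slc X (-1)) w + push (slc X 1) w := by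
  rw [bdS_homS, cyl_zero, cyl_one]

/-- Contraction towards the lower slice. -/
noncomputable def homG (X : Type*) [TopologicalSpace X] : C((X × ℝ) × unitInterval, X × ℝ) :=
  ⟨fun q => (q.1.1, (1 - (q.2 : ℝ)) * q.1.2 - q.2), by fun_prop⟩

/-- Push upwards. -/
noncomputable def homK (X : Type*) [TopologicalSpace X] : C((X × ℝ) × unitInterval, X × ℝ) :=
  ⟨fun q => (q.1.1, (1 - (q.2 : ℝ)) * q.1.2 + q.2 * Real.exp q.1.2), by fun_prop⟩

theorem homG_zero : (homG X).comp (endMap _ 0) = ContinuousMap.id _ := by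
  ext q
  · rfl
  · change (1 - ((0 : unitInterval) : ℝ)) * q.2 - ((0 : unitInterval) : ℝ) = q.2
    simp

theorem homG_one : (homG X).comp (endMap _ 1) = (slc X (-1)).comp (prX X) := by
  ext q
  · rfl
  · change (1 - ((1 : unitInterval) : ℝ)) * q.2 - ((1 : unitInterval) : ℝ) = -1
    simp

theorem homK_zero : (homK X).comp (endMap _ 0) = ContinuousMap.id _ := by
  ext q
  · rfl
  · change (1 - ((0 : unitInterval) : ℝ)) * q.2 + ((0 : unitInterval) : ℝ) * Real.exp q.2 = q.2
    simp

theorem homK_one (q : X × ℝ) : ((homK X).comp (endMap _ 1)) q = (q.1, Real.exp q.2) := by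
  change (q.1, (1 - ((1 : unitInterval) : ℝ)) * q.2 + ((1 : unitInterval) : ℝ) * Real.exp q.2) = _
  simp

/-- Points over `Y` or off the zero slice. -/
def sN (Y : Set X) : Set (X × ℝ) := {q | q.1 ∈ Y ∨ q.2 ≠ 0}
/-- Points over `Y` or above the zero slice. -/
def sP (Y : Set X) : Set (X × ℝ) := {q | q.1 ∈ Y ∨ 0 < q.2}
/-- Points over `Y` or below the zero slice. -/
def sM (Y : Set X) : Set (X × ℝ) := {q | q.1 ∈ Y ∨ q.2 < 0}
/-- Points over `Y`. -/
def s0 (Y : Set X) : Set (X × ℝ) := {q | q.1 ∈ Y}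

variable {Y : Set X}

theorem isOpen_sP (hY : IsOpen Y) : IsOpen (sP Y) :=
  (hY.preimage continuous_fst).union (isOpen_lt continuous_const continuous_snd)
theorem isOpen_sM (hY : IsOpen Y) : IsOpen (sM Y) :=
  (hY.preimage continuous_fst).union (isOpen_lt continuous_snd continuous_const)

theorem sN_sub : sN Y ⊆ sP Y ∪ sM Y := by
  rintro q (hq | hq)
  · exact Or.inl (Or.inl hq)
  · rcases lt_or_gt_of_ne hq with h | h
    · exact Or.inr (Or.inr h)
    · exact Or.inl (Or.inr h)

theorem sP_inter_sM : sP Y ∩ sM Y ⊆ s0 Y := by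
  rintro q ⟨hq1 | hq1, hq2 | hq2⟩
  · exact hq1
  · exact hq1
  · exact hq2
  · exact absurd hq1 (not_lt.2 hq2.le)

theorem sP_sub : sP Y ⊆ sN Y := by
  rintro q (hq | hq)
  · exact Or.inl hq
  · exact Or.inr hq.ne'

theorem sM_sub : sM Y ⊆ sN Y := by
  rintro q (hq | hq)
  · exact Or.inl hq
  · exact Or.inr hq.ne

theorem s0_sub_sP : s0 Y ⊆ sP Y := fun _ hq => Or.inl hq
theorem s0_sub_sM : s0 Y ⊆ sM Y := fun _ hq => Or.inl hq

theorem push_low (Y : Set X) (x : SC X) : push (slc X (-1)) x ∈ CIn (sM Y) := by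
  apply push_mem_CIn (A := Set.univ) (B := sM Y) _ _ (CIn_univ x)
  intro a _
  exact Or.inr (show (-1 : ℝ) < 0 by norm_num)

theorem push_up (Y : Set X) (x : SC X) : push (slc X 1) x ∈ CIn (sP Y) := by
  apply push_mem_CIn (A := Set.univ) (B := sP Y) _ _ (CIn_univ x)
  intro a _
  exact Or.inr (show (0 : ℝ) < 1 by norm_num)

theorem push_slc (c : ℝ) {x : SC X} (hx : x ∈ CIn Y) : push (slc X c) x ∈ CIn (s0 Y) := by
  apply push_mem_CIn (A := Y) (B := s0 Y) _ _ hx
  intro a ha
  exact ha

theorem push_prX {x : SC (X × ℝ)} (hx : x ∈ CIn (s0 Y)) : push (prX X) x ∈ CIn Y := by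
  apply push_mem_CIn (A := s0 Y) (B := Y) _ _ hx
  intro a ha
  exact ha

theorem homS_cyl_mem {x : SC X} (hx : x ∈ CIn Y) : homS (cylMap X) x ∈ CIn (s0 Y) := by
  apply homS_mem_CIn (A := Y) (B := s0 Y) _ _ hx
  intro a ha t
  exact ha

theorem homG_mem_sM {x : SC (X × ℝ)} (hx : x ∈ CIn (sM Y)) : homS (homG X) x ∈ CIn (sM Y) := by
  apply homS_mem_CIn (A := sM Y) (B := sM Y) _ _ hx
  rintro a (ha | ha) t
  · exact Or.inl ha
  · refine Or.inr ?_
    change (1 - (t : ℝ)) * a.2 - t < 0
    have h1 := t.2.1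
    have h2 := t.2.2
    rcases h2.eq_or_lt with h3 | h3
    · rw [h3]; norm_num
    · nlinarith

theorem homG_mem_s0 {x : SC (X × ℝ)} (hx : x ∈ CIn (s0 Y)) : homS (homG X) x ∈ CIn (s0 Y) := by
  apply homS_mem_CIn (A := s0 Y) (B := s0 Y) _ _ hx
  intro a ha t
  exact ha

theorem homK_mem_sP {x : SC (X × ℝ)} (hx : x ∈ CIn (sP Y)) : homS (homK X) x ∈ CIn (sP Y) := by
  apply homS_mem_CIn (A := sP Y) (B := sP Y) _ _ hx
  rintro a (ha | ha) t
  · exact Or.inl ha
  · refine Or.inr ?_
    change 0 < (1 - (t : ℝ)) * a.2 + t * Real.exp a.2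
    have h1 := t.2.1
    have h2 := t.2.2
    have h3 := Real.exp_pos a.2
    rcases h1.eq_or_lt with h4 | h4
    · rw [← h4]; simpa using ha
    · have : 0 ≤ (1 - (t : ℝ)) * a.2 := mul_nonneg (by linarith) ha.le
      have : 0 < (t : ℝ) * Real.exp a.2 := mul_pos h4 h3
      linarith

theorem push_homK_one (x : SC (X × ℝ)) :
    push ((homK X).comp (endMap _ 1)) x ∈ CIn (sP Y) := by
  apply push_mem_CIn (A := Set.univ) (B := sP Y) _ _ (CIn_univ x)
  intro a _
  rw [homK_one]
  exact Or.inr (Real.exp_pos _)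

theorem bdS_cyl' (w : SC X) : bdS (homS (cylMap X) w) = homS (cylMap X) (bdS w) +
    (push (slc X (-1)) w + push (slc X 1) w) := by
  rw [← bdS_cyl, add_comm (bdS _), ← add_assoc, add_self_eq_zero', zero_add]

theorem susp_gen (hY : IsOpen Y) {m : ℕ} {w : SC X} (h : RGen Set.univ Y m w)
    (z : SC (X × ℝ)) (hb : bdS z ∈ CIn (sN Y)) :
    ∃ l : F2, ∃ e ∈ CIn (Set.univ : Set (X × ℝ)),
      z + l • homS (cylMap X) w + bdS e ∈ CIn (sN Y) := by
  obtain ⟨e', he', hs⟩ := small_two (isOpen_sP hY) (isOpen_sM hY) sN_sub hb (by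
    rw [bdS_bdS]; exact Submodule.zero_mem _)
  obtain ⟨yp, hyp, ym, hym, hpm'⟩ := Submodule.mem_sup.1 hs
  have hbeq : bdS yp = bdS ym := by
    have h3 := congrArg bdS hpm'
    rw [map_add, map_add, bdS_bdS, bdS_bdS, add_zero] at h3
    exact eq_of_add_eq_zero h3
  have hbm : bdS ym ∈ CIn (s0 Y) := by
    refine CIn_mono sP_inter_sM (CIn_inter ?_ (bdS_mem_CIn hym))
    rw [← hbeq]; exact bdS_mem_CIn hyp
  obtain ⟨l, e0, _, h4⟩ := h.gen (push (prX X) ym) (CIn_univ _) (by
    rw [← push_bdS]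
    exact push_prX hbm)
  obtain ⟨e1, he1⟩ : ∃ e1, e1 = homS (homG X) ym + push (slc X (-1)) e0 := ⟨_, rfl⟩
  have he1m : e1 ∈ CIn (sM Y) := by
    rw [he1]
    exact Submodule.add_mem _ (homG_mem_sM hym) (push_low Y _)
  have hG := bdS_homS (homG X) ym
  rw [homG_zero, homG_one, push_id, ← push_push] at hG
  have h5 : ym + l • push (slc X (-1)) w + bdS e1 ∈ CIn (s0 Y) := by
    have : ym + l • push (slc X (-1)) w + bdS e1 =
        push (slc X (-1)) (push (prX X) ym + l • w + bdS e0) + homS (homG X) (bdS ym) := by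
      rw [he1, map_add, map_add, map_add, map_smul, push_bdS]
      have : bdS (homS (homG X) ym) = ym + push (slc X (-1)) (push (prX X) ym) +
          homS (homG X) (bdS ym) := by
        rw [← hG, add_assoc, add_self_eq_zero', add_zero]
      rw [this]
      have h6 := add_self_eq_zero' ym
      generalize homS (homG X) (bdS ym) = A
      generalize push (slc X (-1)) (push (prX X) ym) = B
      generalize l • push (slc X (-1)) w = C
      generalize bdS (push (slc X (-1)) e0) = D
      calc ym + C + (ym + B + A + D) = (ym + ym) + (B + C + D + A) := by abel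
        _ = _ := by rw [h6, zero_add]
    rw [this]
    exact Submodule.add_mem _ (push_slc _ h4) (homG_mem_s0 hbm)
  obtain ⟨z', hz'⟩ : ∃ z', z' = z + e' + l • homS (cylMap X) w + e1 := ⟨_, rfl⟩
  have hbz' : bdS z' ∈ CIn (sP Y) := by
    have : bdS z' = yp + (ym + l • push (slc X (-1)) w + bdS e1) + l • push (slc X 1) w +
        l • homS (cylMap X) (bdS w) := by
      have e2 : bdS z + bdS e' = yp + ym := hpm'.symm
      rw [hz', map_add, map_add, map_add, map_smul, bdS_cyl', e2, smul_add, smul_add]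
      abel
    rw [this]
    exact Submodule.add_mem _ (Submodule.add_mem _ (Submodule.add_mem _ hyp
      (CIn_mono s0_sub_sP h5)) (Submodule.smul_mem _ _ (push_up Y w)))
      (Submodule.smul_mem _ _ (CIn_mono s0_sub_sP (homS_cyl_mem h.bd)))
  have hK := bdS_homS (homK X) z'
  rw [homK_zero, push_id] at hK
  refine ⟨l, homS (homK X) z', CIn_univ _, ?_⟩
  have h8 : z + l • homS (cylMap X) w + bdS (homS (homK X) z') =
      push ((homK X).comp (endMap _ 1)) z' + homS (homK X) (bdS z') + e' + e1 := by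
    have h9 : bdS (homS (homK X) z') = z' + push ((homK X).comp (endMap _ 1)) z' +
        homS (homK X) (bdS z') := by
      rw [← hK, add_assoc, add_self_eq_zero', add_zero]
    rw [h9]
    have hz2 : z + l • homS (cylMap X) w = z' + e' + e1 := by
      rw [hz']
      have h10 := add_self_eq_zero' e'
      have h11 := add_self_eq_zero' e1
      calc z + l • homS (cylMap X) w = z + l • homS (cylMap X) w + (e' + e') + (e1 + e1) := by
            rw [h10, h11, add_zero, add_zero]
        _ = _ := by abel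
    rw [hz2]
    have h12 := add_self_eq_zero' z'
    generalize push ((homK X).comp (endMap _ 1)) z' = A
    generalize homS (homK X) (bdS z') = B
    calc z' + e' + e1 + (z' + A + B) = (z' + z') + (A + B + e' + e1) := by abel
      _ = _ := by rw [h12, zero_add]
  rw [h8]
  refine Submodule.add_mem _ (Submodule.add_mem _ (Submodule.add_mem _ ?_ ?_) he')
    (CIn_mono sM_sub he1m)
  · exact CIn_mono sP_sub (push_homK_one z')
  · exact CIn_mono sP_sub (homK_mem_sP hbz')

theorem susp_ne (hY : IsOpen Y) {m : ℕ} {w : SC X} (h : RGen Set.univ Y m w)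
    (e : SC (X × ℝ)) (hq : homS (cylMap X) w + bdS e ∈ CIn (sN Y)) : False := by
  obtain ⟨q, hqd⟩ : ∃ q, q = homS (cylMap X) w + bdS e := ⟨_, rfl⟩
  rw [← hqd] at hq
  have hbq : bdS q = homS (cylMap X) (bdS w) +
      (push (slc X (-1)) w + push (slc X 1) w) := by
    rw [hqd, map_add, bdS_bdS, add_zero, bdS_cyl']
  obtain ⟨e', he', hs⟩ := small_two (isOpen_sP hY) (isOpen_sM hY) sN_sub hq (by
    rw [hbq]
    refine Submodule.add_mem _ (Submodule.mem_sup_left
      (CIn_mono s0_sub_sP (homS_cyl_mem h.bd))) ?_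
    exact Submodule.add_mem _ (Submodule.mem_sup_right (push_low Y w))
      (Submodule.mem_sup_left (push_up Y w)))
  obtain ⟨qp, hqp, qm, hqm, hpm'⟩ := Submodule.mem_sup.1 hs
  have h8 : bdS qp + bdS qm = homS (cylMap X) (bdS w) +
      (push (slc X (-1)) w + push (slc X 1) w) := by
    rw [← hbq, ← map_add, hpm', map_add, bdS_bdS, add_zero]
  have h9 : push (slc X (-1)) w + bdS qm = bdS qp + push (slc X 1) w +
      homS (cylMap X) (bdS w) := by
    have h10 := add_self_eq_zero' (bdS qp)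
    have h11 := add_self_eq_zero' (push (slc X (-1)) w)
    calc push (slc X (-1)) w + bdS qm = push (slc X (-1)) w + (bdS qp + bdS qm) + bdS qp := by
          rw [add_comm (bdS qp) (bdS qm), add_assoc, add_assoc (bdS qm), h10, add_zero]
      _ = (push (slc X (-1)) w + push (slc X (-1)) w) + (bdS qp + push (slc X 1) w +
          homS (cylMap X) (bdS w)) := by rw [h8]; abel
      _ = _ := by rw [h11, zero_add]
  have h12 : push (slc X (-1)) w + bdS qm ∈ CIn (s0 Y) := by
    refine CIn_mono sP_inter_sM (CIn_inter ?_ (Submodule.add_mem _ (push_low Y w)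
      (bdS_mem_CIn hqm)))
    rw [h9]
    exact Submodule.add_mem _ (Submodule.add_mem _ (bdS_mem_CIn hqp) (push_up Y w))
      (CIn_mono s0_sub_sP (homS_cyl_mem h.bd))
  have h13 := push_prX h12
  rw [map_add, push_push, push_bdS] at h13
  have h14 : (prX X).comp (slc X (-1)) = ContinuousMap.id X := by ext x; rfl
  rw [h14, push_id] at h13
  exact h.ne _ (CIn_univ _) h13

/-- **Suspension of relative generators.** -/
theorem susp (hY : IsOpen Y) {m : ℕ} {w : SC X} (h : RGen Set.univ Y m w) :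
    RGen Set.univ (sN Y) (m + 1) (homS (cylMap X) w) where
  mem := CIn_univ _
  deg := by
    refine supp_induction (Deg _ _) (homS (cylMap X)) ?_ h.deg
    intro σ hσ
    have := homS_deg (cylMap X) σ
    rwa [hσ] at this
  bd := by
    rw [bdS_cyl']
    exact Submodule.add_mem _ (CIn_mono (s0_sub_sP.trans sP_sub) (homS_cyl_mem h.bd))
      (Submodule.add_mem _ (CIn_mono sM_sub (push_low Y w)) (CIn_mono sP_sub (push_up Y w)))
  gen := fun z _ hb => susp_gen hY h z hb
  ne := fun e _ hq => susp_ne hY h e hq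

end susp

end STop
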