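import Pool.Agent.Lib.Pbb5b69.RelMV
import Pool.Agent.Lib.Pbb5b69.ConeDefs

/-!
# Low-dimensional homology of manifolds like projective planes
-/

open Finsupp

namespace STop

section induction

variable {P : Type*} [TopologicalSpace P]
variable {E : Type*} [NormedAddCommGroup E] [NormedSpace ℝ E]

/-- Mayer-Vietoris induction over the open subsets of a locally Euclidean space, with a
restricted class of charts. -/
theorem open_induction' (G : (E → P) → Prop)
    (hch : ∀ p : P, ∃ φ : E → P, G φ ∧ Topology.IsOpenEmbedding φ ∧ p ∈ Set.range φ)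
    (Q : Set P → Prop) (h0 : Q ∅)
    (hB : ∀ φ : E → P, G φ → Topology.IsOpenEmbedding φ → ∀ V : Set E, IsOpen V → Convex ℝ V →
      V.Nonempty → Q (φ '' V))
    (hMV : ∀ U V, IsOpen U → IsOpen V → Q U → Q V → Q (U ∩ V) → Q (U ∪ V))
    (hdir : ∀ (𝒟 : Set (Set P)), 𝒟.Nonempty → DirectedOn (· ⊆ ·) 𝒟 → (∀ U ∈ 𝒟, IsOpen U) →
      (∀ U ∈ 𝒟, Q U) → Q (⋃₀ 𝒟)) (U : Set P) (hU : IsOpen U) : Q U := by
  have step1 : ∀ φ : E → P, G φ → Topology.IsOpenEmbedding φ → ∀ O : Set P, IsOpen O →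
      O ⊆ Set.range φ → Q O := by
    intro φ hG hφ O hO hOr
    have e : O = ⋃₀ {W | ∃ V : Set E, IsOpen V ∧ Convex ℝ V ∧ φ '' V ⊆ O ∧ W = φ '' V} := by
      ext x
      simp only [Set.mem_sUnion, Set.mem_ofPred_eq]
      constructor
      · intro hx
        obtain ⟨y, rfl⟩ := hOr hx
        have h1 : φ ⁻¹' O ∈ nhds y := (hO.preimage hφ.continuous).mem_nhds hx
        obtain ⟨r, hr, hball⟩ := Metric.mem_nhds_iff.1 h1
        refine ⟨φ '' Metric.ball y r, ⟨Metric.ball y r, Metric.isOpen_ball, convex_ball y r,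
          ?_, rfl⟩, ⟨y, Metric.mem_ball_self hr, rfl⟩⟩
        rintro _ ⟨z, hz, rfl⟩
        exact hball hz
      · rintro ⟨W, ⟨V, _, _, hVO, rfl⟩, hx⟩
        exact hVO hx
    rw [e]
    refine basis_induction {W | ∃ V : Set E, IsOpen V ∧ Convex ℝ V ∧ W = φ '' V} ?_ ?_ Q h0 ?_
      hMV hdir _ ?_
    · rintro W ⟨V, hV, _, rfl⟩
      exact hφ.isOpenMap V hV
    · rintro W ⟨V, hV, hVc, rfl⟩ W' ⟨V', hV', hVc', rfl⟩
      exact ⟨V ∩ V', hV.inter hV', hVc.inter hVc', (Set.image_inter hφ.injective).symm⟩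
    · rintro W ⟨V, hV, hVc, rfl⟩
      rcases V.eq_empty_or_nonempty with h | h
      · rw [h, Set.image_empty]; exact h0
      · exact hB φ hG hφ V hV hVc h
    · rintro W ⟨V, hV, hVc, _, rfl⟩
      exact ⟨V, hV, hVc, rfl⟩
  have e : U = ⋃₀ {W | IsOpen W ∧ W ⊆ U ∧ ∃ φ : E → P, G φ ∧ Topology.IsOpenEmbedding φ ∧
      W ⊆ Set.range φ} := by
    ext x
    simp only [Set.mem_sUnion, Set.mem_ofPred_eq]
    constructor
    · intro hx
      obtain ⟨φ, hG, hφ, hxφ⟩ := hch x
      exact ⟨U ∩ Set.range φ, ⟨hU.inter hφ.isOpen_range, Set.inter_subset_left, φ, hG, hφ,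
        Set.inter_subset_right⟩, hx, hxφ⟩
    · rintro ⟨W, ⟨_, hWU, _⟩, hx⟩
      exact hWU hx
  rw [e]
  refine basis_induction {W | IsOpen W ∧ ∃ φ : E → P, G φ ∧ Topology.IsOpenEmbedding φ ∧
    W ⊆ Set.range φ} ?_ ?_ Q h0 ?_ hMV hdir _ ?_
  · rintro W ⟨hW, _⟩
    exact hW
  · rintro W ⟨hW, φ, hG, hφ, hWφ⟩ W' ⟨hW', _⟩
    exact ⟨hW.inter hW', φ, hG, hφ, Set.inter_subset_left.trans hWφ⟩
  · rintro W ⟨hW, φ, hG, hφ, hWφ⟩
    exact step1 φ hG hφ W hW hWφ
  · rintro W ⟨hW, _, h⟩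
    exact ⟨hW, h⟩

end induction

section product

variable {E F : Type} [NormedAddCommGroup E] [NormedSpace ℝ E] [NormedAddCommGroup F]
  [NormedSpace ℝ F]

/-- The fibre inclusion `y ↦ (x, y)`. -/
def fibE (x : E) : C(F, E × F) := ⟨fun y => (x, y), by fun_prop⟩

/-- The homotopy `((x, y), t) ↦ (x + t (x0 - x), y)`. -/
noncomputable def homE (x0 : E) : C((E × F) × unitInterval, E × F) :=
  ⟨fun q => (q.1.1 + (q.2 : ℝ) • (x0 - q.1.1), q.1.2), by fun_prop⟩

/-- The projection on the fibre. -/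
def prE : C(E × F, F) := ⟨Prod.snd, continuous_snd⟩

omit [NormedSpace ℝ F] in
theorem homE_zero (x0 : E) : (homE (F := F) x0).comp (endMap _ 0) = ContinuousMap.id _ := by
  ext q
  · change q.1 + ((0 : unitInterval) : ℝ) • (x0 - q.1) = q.1
    simp
  · rfl

omit [NormedSpace ℝ F] in
theorem homE_one (x0 : E) : (homE (F := F) x0).comp (endMap _ 1) = (fibE x0).comp prE := by
  ext q
  · change q.1 + ((1 : unitInterval) : ℝ) • (x0 - q.1) = x0
    simp
  · rfl

omit [NormedSpace ℝ F] in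
theorem homE_mem {V : Set E} (hV : Convex ℝ V) {x0 : E} (hx0 : x0 ∈ V) {B : Set F}
    {z : SC (E × F)} (hz : z ∈ CIn (V ×ˢ B)) : homS (homE x0) z ∈ CIn (V ×ˢ B) := by
  apply homS_mem_CIn (A := V ×ˢ B) (B := V ×ˢ B) _ _ hz
  rintro ⟨x, y⟩ ⟨hx, hy⟩ t
  refine ⟨?_, hy⟩
  change x + (t : ℝ) • (x0 - x) ∈ V
  have : x + (t : ℝ) • (x0 - x) = (1 - (t : ℝ)) • x + (t : ℝ) • x0 := by module
  rw [this]
  exact hV hx hx0 (by linarith [t.2.2]) t.2.1 (by ring)

omit [NormedSpace ℝ F] in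
/-- The fibre class generates the pair `V × (F, F \ 0)`. -/
theorem rgen_prod {w : SC F} {m : ℕ} (hw : RGen Set.univ ({0}ᶜ : Set F) m w) {V : Set E}
    (hV : Convex ℝ V) {x0 : E} (hx0 : x0 ∈ V) :
    RGen (V ×ˢ (Set.univ : Set F)) (V ×ˢ ({0}ᶜ : Set F)) m (push (fibE x0) w) where
  mem := push_mem_CIn (A := Set.univ) (B := V ×ˢ (Set.univ : Set F)) _
    (fun a _ => ⟨hx0, trivial⟩) (CIn_univ w)
  deg := push_mem_Deg _ hw.deg
  bd := by
    rw [← push_bdS]
    exact push_mem_CIn (A := ({0}ᶜ : Set F)) (B := V ×ˢ ({0}ᶜ : Set F)) _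
      (fun a ha => ⟨hx0, ha⟩) hw.bd
  gen := by
    intro z hz hb
    have hH := bdS_homS (homE x0) z
    rw [homE_zero, homE_one, push_id, ← push_push] at hH
    obtain ⟨l, e0, _, h4⟩ := hw.gen (push prE z) (CIn_univ _) (by
      rw [← push_bdS]
      exact push_mem_CIn (A := V ×ˢ ({0}ᶜ : Set F)) _ (fun a ha => ha.2) hb)
    refine ⟨l, homS (homE x0) z + push (fibE x0) e0, Submodule.add_mem _ (homE_mem hV hx0 hz) ?_,
      ?_⟩
    · exact push_mem_CIn (A := Set.univ) (B := V ×ˢ (Set.univ : Set F)) _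
        (fun a _ => ⟨hx0, trivial⟩) (CIn_univ e0)
    · have h6 : z + l • push (fibE x0) w + bdS (homS (homE x0) z + push (fibE x0) e0) =
          push (fibE x0) (push prE z + l • w + bdS e0) + homS (homE x0) (bdS z) := by
        rw [map_add, map_add, map_add, map_smul, push_bdS]
        have e1 := add_self_eq_zero' z
        have e2 := add_self_eq_zero' (homS (homE x0) (bdS z))
        linear_combination (norm := abel) hH + e1 - e2
      rw [h6]
      refine Submodule.add_mem _ ?_ (homE_mem hV hx0 hb)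
      exact push_mem_CIn (A := ({0}ᶜ : Set F)) (B := V ×ˢ ({0}ᶜ : Set F)) _
        (fun a ha => ⟨hx0, ha⟩) h4
  ne := by
    intro e _ h1
    apply hw.ne (push prE e) (CIn_univ _)
    have h2 := push_mem_CIn (A := V ×ˢ ({0}ᶜ : Set F)) (B := ({0}ᶜ : Set F)) prE
      (fun a ha => ha.2) h1
    rw [map_add, push_push, push_bdS] at h2
    have e3 : prE.comp (fibE x0) = ContinuousMap.id F := by
      ext y
      rfl
    rwa [e3, push_id] at h2

end product

/-! ### Flat charts -/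

section flat

variable {E F : Type} [NormedAddCommGroup E] [NormedSpace ℝ E] [NormedAddCommGroup F]
  {P : Type} [TopologicalSpace P]

/-- A flat chart: an open embedding taking exactly `E × 0` to `S`. -/
structure Flat (S : Set P) (Φ : E × F → P) : Prop where
  emb : Topology.IsOpenEmbedding Φ
  mem : ∀ q, Φ q ∈ S ↔ q.2 = 0

variable {S : Set P} {Φ : E × F → P}

/-- The chart of `S`. -/
def Flat.chart (h : Flat S Φ) (x : E) : S := ⟨Φ (x, 0), (h.mem _).2 rfl⟩

omit [NormedSpace ℝ E] in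
theorem Flat.chart_emb (h : Flat S Φ) : Topology.IsOpenEmbedding h.chart := by
  apply Topology.IsOpenEmbedding.of_continuous_injective_isOpenMap
  · exact Continuous.subtype_mk (h.emb.continuous.comp (by fun_prop)) _
  · intro x y hxy
    have h1 : Φ (x, 0) = Φ (y, 0) := congrArg Subtype.val hxy
    exact congrArg Prod.fst (h.emb.injective h1)
  · intro V hV
    have : h.chart '' V = Subtype.val ⁻¹' (Φ '' (V ×ˢ Set.univ)) := by
      ext y
      constructor
      · rintro ⟨x, hx, rfl⟩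
        exact ⟨(x, 0), ⟨hx, trivial⟩, rfl⟩
      · rintro ⟨⟨x, y'⟩, ⟨hx, _⟩, hq⟩
        have h0 : y' = 0 := (h.mem (x, y')).1 (by rw [hq]; exact y.2)
        subst h0
        exact ⟨x, hx, Subtype.ext hq⟩
    rw [this]
    exact (h.emb.isOpenMap _ (hV.prod isOpen_univ)).preimage continuous_subtype_val

/-- The complement of `S` together with the points of `V`. -/
def AA (S : Set P) (V : Set S) : Set P := Sᶜ ∪ Subtype.val '' V

omit [TopologicalSpace P] in
theorem AA_empty (S : Set P) : AA S ∅ = Sᶜ := by simp [AA]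

omit [TopologicalSpace P] in
theorem AA_univ (S : Set P) : AA S Set.univ = Set.univ := by
  simp [AA]

omit [TopologicalSpace P] in
theorem sub_AA (S : Set P) (V : Set S) : Sᶜ ⊆ AA S V := Set.subset_union_left

omit [TopologicalSpace P] in
theorem AA_mono {V V' : Set S} (h : V ⊆ V') : AA S V ⊆ AA S V' :=
  Set.union_subset_union_right _ (Set.image_mono h)

omit [TopologicalSpace P] in
theorem AA_union (V V' : Set S) : AA S (V ∪ V') = AA S V ∪ AA S V' := by
  unfold AA
  rw [Set.image_union]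
  ext x
  simp only [Set.mem_union]
  tauto

omit [TopologicalSpace P] in
theorem AA_inter (V V' : Set S) : AA S (V ∩ V') = AA S V ∩ AA S V' := by
  unfold AA
  rw [Set.image_inter Subtype.val_injective]
  ext x
  simp only [Set.mem_union, Set.mem_inter_iff]
  tauto

theorem isOpen_AA (hS : IsClosed S) {V : Set S} (hV : IsOpen V) : IsOpen (AA S V) := by
  have : AA S V = (Subtype.val '' (Vᶜ : Set S))ᶜ := by
    ext x
    unfold AA
    simp only [Set.mem_union, Set.mem_compl_iff, Set.mem_image, Subtype.exists, exists_and_right,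
      exists_eq_right, not_exists]
    constructor
    · rintro (h | ⟨h, hV⟩)
      · exact fun h' => absurd h' h
      · intro _ h2
        exact h2 hV
    · intro h
      by_cases hx : x ∈ S
      · right
        refine ⟨hx, ?_⟩
        by_contra h2
        exact h hx h2
      · exact Or.inl hx
  rw [this]
  exact (hS.isClosedEmbedding_subtypeVal.isClosedMap _ hV.isClosed_compl).isOpen_compl

omit [TopologicalSpace P] in
theorem AA_sUnion (𝒟 : Set (Set S)) (h : 𝒟.Nonempty) : AA S (⋃₀ 𝒟) = ⋃ U : 𝒟, AA S U.1 := by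
  obtain ⟨U0, hU0⟩ := h
  ext x
  simp only [AA, Set.mem_union, Set.mem_image, Set.mem_sUnion, Set.mem_iUnion]
  constructor
  · rintro (h | ⟨y, ⟨U, hU, hy⟩, rfl⟩)
    · exact ⟨⟨U0, hU0⟩, Or.inl h⟩
    · exact ⟨⟨U, hU⟩, Or.inr ⟨y, hy, rfl⟩⟩
  · rintro ⟨U, h | ⟨y, hy, rfl⟩⟩
    · exact Or.inl h
    · exact Or.inr ⟨y, ⟨U.1, U.2, hy⟩, rfl⟩

/-- The chart as a continuous map. -/
def Flat.cm (h : Flat S Φ) : C(E × F, P) := ⟨Φ, h.emb.continuous⟩

/-- The fibre class. -/
noncomputable def Flat.fc (h : Flat S Φ) (w : SC F) (x : E) : SC P := push h.cm (push (fibE x) w)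

omit [NormedSpace ℝ E] in
theorem Flat.image_compl (h : Flat S Φ) (V : Set E) :
    h.cm '' (V ×ˢ ({0}ᶜ : Set F)) = (h.cm '' (V ×ˢ (Set.univ : Set F))) ∩ Sᶜ := by
  ext y
  constructor
  · rintro ⟨⟨x, y'⟩, ⟨hx, hy⟩, rfl⟩
    exact ⟨⟨(x, y'), ⟨hx, trivial⟩, rfl⟩, fun hS => hy ((h.mem _).1 hS)⟩
  · rintro ⟨⟨⟨x, y'⟩, ⟨hx, _⟩, rfl⟩, hS⟩
    exact ⟨(x, y'), ⟨hx, fun h0 => hS ((h.mem _).2 h0)⟩, rfl⟩

omit [NormedSpace ℝ E] in
theorem Flat.image_AA (h : Flat S Φ) (V : Set E) :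
    AA S (h.chart '' V) = (h.cm '' (V ×ˢ (Set.univ : Set F))) ∪ Sᶜ := by
  ext y
  constructor
  · rintro (hy | ⟨_, ⟨x, hx, rfl⟩, rfl⟩)
    · exact Or.inr hy
    · exact Or.inl ⟨(x, 0), ⟨hx, trivial⟩, rfl⟩
  · rintro (⟨⟨x, y'⟩, ⟨hx, _⟩, rfl⟩ | hy)
    · by_cases h0 : y' = 0
      · subst h0
        exact Or.inr ⟨h.chart x, ⟨x, hx, rfl⟩, rfl⟩
      · exact Or.inl fun hS => h0 ((h.mem _).1 hS)
    · exact Or.inl hy

/-- The fibre class generates the pair. -/
theorem Flat.rgen (h : Flat S Φ) (hS : IsClosed S) {w : SC F} {m : ℕ}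
    (hw : RGen Set.univ ({0}ᶜ : Set F) m w) {V : Set E} (hVo : IsOpen V) (hV : Convex ℝ V) {x0 : E}
    (hx0 : x0 ∈ V) : RGen (AA S (h.chart '' V)) Sᶜ m (h.fc w x0) := by
  have h1 := RGen.push (φ := h.cm) h.emb.isEmbedding (rgen_prod hw hV hx0)
  rw [h.image_compl] at h1
  rw [h.image_AA]
  exact RGen.excision' (h.emb.isOpenMap _ (hVo.prod isOpen_univ)) hS.isOpen_compl h1

/-- Independence of the chart. -/
theorem Flat.indep {Φ' : E × F → P} (h : Flat S Φ) (h' : Flat S Φ') (hS : IsClosed S) {w : SC F}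
    {m : ℕ} (hw : RGen Set.univ ({0}ᶜ : Set F) m w) {V : Set E} (hVo : IsOpen V)
    (hV : Convex ℝ V) {x x0 x' : E} (hx : x ∈ V) (hx0 : x0 ∈ V) (hxx : h.chart x = h'.chart x') :
    h'.fc w x' + h.fc w x0 ∈ MR Sᶜ (AA S (h.chart '' V)) := by
  -- shrink the second chart
  have o1 : IsOpen (h'.chart ⁻¹' (h.chart '' V)) :=
    (h.chart_emb.isOpenMap V hVo).preimage h'.chart_emb.continuous
  obtain ⟨r', hr', hb'⟩ := Metric.isOpen_iff.1 o1 x' ⟨x, hx, hxx⟩
  have o2 : IsOpen (h.chart ⁻¹' (h'.chart '' Metric.ball x' r')) :=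
    (h'.chart_emb.isOpenMap _ Metric.isOpen_ball).preimage h.chart_emb.continuous
  obtain ⟨r, hr, hb⟩ := Metric.isOpen_iff.1 o2 x ⟨x', Metric.mem_ball_self hr', hxx.symm⟩
  have g1 := h.rgen hS hw hVo hV hx
  have g2 := h'.rgen hS hw Metric.isOpen_ball (convex_ball x' r') (Metric.mem_ball_self hr')
  have g3 := h.rgen hS hw Metric.isOpen_ball (convex_ball x r) (Metric.mem_ball_self hr)
  have s32 : AA S (h.chart '' Metric.ball x r) ⊆ AA S (h'.chart '' Metric.ball x' r') := by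
    apply AA_mono
    rintro _ ⟨y, hy, rfl⟩
    exact hb hy
  have s21 : AA S (h'.chart '' Metric.ball x' r') ⊆ AA S (h.chart '' V) := by
    apply AA_mono
    rintro _ ⟨y, hy, rfl⟩
    exact hb' hy
  obtain ⟨l, e, he, h4⟩ := g2.gen (h.fc w x) (CIn_mono s32 g3.mem) g3.bd
  have h5 : h'.fc w x' + h.fc w x ∈ MR Sᶜ (AA S (h.chart '' V)) := by
    rcases F2.cases l with rfl | rfl
    · rw [zero_smul, add_zero] at h4
      exact absurd h4 (g1.ne e (CIn_mono s21 he))
    · rw [one_smul, add_comm (h.fc w x)] at h4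
      exact mem_MR.2 ⟨e, CIn_mono s21 he, h4⟩
  have g0 := h.rgen hS hw hVo hV hx0
  obtain ⟨e6, he6, h6⟩ := g1.unique g0
  have h7 : h.fc w x + h.fc w x0 ∈ MR Sᶜ (AA S (h.chart '' V)) := mem_MR.2 ⟨e6, he6, h6⟩
  have h8 := Submodule.add_mem _ h5 h7
  have e9 : h'.fc w x' + h.fc w x + (h.fc w x + h.fc w x0) = h'.fc w x' + h.fc w x0 := by
    have := add_self_eq_zero' (h.fc w x)
    linear_combination (norm := abel) this
  rwa [e9] at h8

theorem tame_rel (hS : IsClosed S) [ConnectedSpace S]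
    (hflat : ∀ p : S, ∃ (Φ : E × F → P) (h : Flat S Φ), p ∈ Set.range h.chart)
    {w : SC F} {m : ℕ} (hm : 1 ≤ m)
    (hw : RGen Set.univ ({0}ᶜ : Set F) m w) :
    ∃ ν ∈ Deg P m, bdS ν ∈ CIn Sᶜ ∧ ν ∉ MR Sᶜ (Set.univ : Set P) ∧
      (∀ k < m, ∀ z ∈ Deg P k, bdS z ∈ CIn Sᶜ → z ∈ MR Sᶜ (Set.univ : Set P)) ∧
      (∀ z ∈ Deg P m, bdS z ∈ CIn Sᶜ → z ∈ MR Sᶜ (Set.univ : Set P) ∨
        z + ν ∈ MR Sᶜ (Set.univ : Set P)) := by
  choose PH hPH hx using hflat
  choose xx hxx using hx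
  -- the classes of the points
  obtain ⟨nu, hnu⟩ : ∃ nu : S → SC P, ∀ p, nu p = (hPH p).fc w (xx p) := ⟨_, fun _ => rfl⟩
  have hg : ∀ p (V : Set S), IsOpen V → p ∈ V → ∃ V' ⊆ V, p ∈ V' ∧ RGen (AA S V') Sᶜ m (nu p) := by
    intro p V hV hp
    have o1 : IsOpen ((hPH p).chart ⁻¹' V) := hV.preimage (hPH p).chart_emb.continuous
    obtain ⟨r', hr', hb'⟩ := Metric.isOpen_iff.1 o1 (xx p) (by
      change (hPH p).chart (xx p) ∈ V
      rw [hxx]; exact hp)
    refine ⟨(hPH p).chart '' Metric.ball (xx p) r', ?_, ⟨xx p, Metric.mem_ball_self hr', hxx p⟩, ?_⟩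
    · rintro _ ⟨y, hy, rfl⟩
      exact hb' hy
    · rw [hnu]
      exact (hPH p).rgen hS hw Metric.isOpen_ball (convex_ball _ r') (Metric.mem_ball_self hr')
  have hdeg : ∀ p, nu p ∈ Deg P m := by
    intro p
    obtain ⟨_, _, _, h⟩ := hg p Set.univ isOpen_univ trivial
    exact h.deg
  have hbd : ∀ p, bdS (nu p) ∈ CIn Sᶜ := by
    intro p
    obtain ⟨_, _, _, h⟩ := hg p Set.univ isOpen_univ trivial
    exact h.bd
  have hmem : ∀ V : Set S, IsOpen V → ∀ p ∈ V, nu p ∈ CIn (AA S V) := by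
    intro V hV p hp
    obtain ⟨V', hV', _, h⟩ := hg p V hV hp
    exact CIn_mono (AA_mono hV') h.mem
  have hloc : ∀ (Φ : E × F → P) (h : Flat S Φ) (V : Set E), IsOpen V → Convex ℝ V → ∀ x0 ∈ V,
      ∀ p ∈ h.chart '' V, nu p + h.fc w x0 ∈ MR Sᶜ (AA S (h.chart '' V)) := by
    intro Φ h V hVo hV x0 hx0 p hp
    obtain ⟨x, hx, rfl⟩ := hp
    rw [hnu]
    exact h.indep (hPH _) hS hw hVo hV hx hx0 (hxx _).symm
  have hQ : QR m nu Sᶜ (AA S Set.univ) Set.univ := by
    refine open_induction' (E := E) (fun φ => ∃ (Φ : E × F → P) (h : Flat S Φ), φ = h.chart) ?_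
      (fun V => QR m nu Sᶜ (AA S V) V) ?_ ?_ ?_ ?_ Set.univ isOpen_univ
    · intro p
      exact ⟨(hPH p).chart, ⟨PH p, hPH p, rfl⟩, (hPH p).chart_emb, ⟨xx p, hxx p⟩⟩
    · rw [AA_empty]
      exact QR_empty
    · rintro _ ⟨Φ, h, rfl⟩ _ V hVo hV ⟨x0, hx0⟩
      exact QR_base (h.rgen hS hw hVo hV hx0) ⟨h.chart x0, x0, hx0, rfl⟩
        (hloc Φ h V hVo hV x0 hx0)
    · intro U V hU hV qU qV qUV
      rw [AA_union]
      rw [AA_inter] at qUV
      exact QR_union hm (isOpen_AA hS hU) (isOpen_AA hS hV) (sub_AA S V) hdeg hbd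
        (hmem U hU) (hmem V hV) qU qV qUV
    · intro 𝒟 hne hdir hop hq
      rw [AA_sUnion 𝒟 hne, Set.sUnion_eq_iUnion]
      have : Nonempty 𝒟 := hne.to_subtype
      refine QR_directed (fun U => isOpen_AA hS (hop U.1 U.2)) ?_ (fun U => hq U.1 U.2)
      rintro ⟨U, hU⟩ ⟨V, hV⟩
      obtain ⟨W, hW, h1, h2⟩ := hdir U hU V hV
      exact ⟨⟨W, hW⟩, AA_mono h1, AA_mono h2, h1, h2⟩
  rw [AA_univ] at hQ
  -- connectedness
  obtain ⟨p0⟩ : Nonempty S := inferInstance
  have hconn : ∀ p, nu p + nu p0 ∈ MR Sᶜ (Set.univ : Set P) := by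
    have hsub : ∀ (A : Set P), MR Sᶜ A ≤ MR Sᶜ (Set.univ : Set P) := fun A =>
      MR_mono (Set.subset_univ A)
    have hpair : ∀ (p : S), ∃ V : Set S, IsOpen V ∧ p ∈ V ∧ ∀ q ∈ V, nu q + nu p ∈
        MR Sᶜ (Set.univ : Set P) := by
      intro p
      refine ⟨(hPH p).chart '' Metric.ball (xx p) 1, (hPH p).chart_emb.isOpenMap _
        Metric.isOpen_ball, ⟨xx p, Metric.mem_ball_self one_pos, hxx p⟩, ?_⟩
      intro q hq
      have := hloc _ (hPH p) (Metric.ball (xx p) 1) Metric.isOpen_ball (convex_ball _ _) (xx p)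
        (Metric.mem_ball_self one_pos) q hq
      rw [← hnu] at this
      exact hsub _ this
    have hcl : IsClopen {p : S | nu p + nu p0 ∈ MR Sᶜ (Set.univ : Set P)} := by
      constructor
      · rw [← isOpen_compl_iff, isOpen_iff_mem_nhds]
        intro p hp
        obtain ⟨V, hV, hpV, h⟩ := hpair p
        refine Filter.mem_of_superset (hV.mem_nhds hpV) ?_
        intro q hq hqm
        apply hp
        have h1 := Submodule.add_mem _ (h q hq) (show nu q + nu p0 ∈ _ from hqm)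
        have e9 : nu q + nu p + (nu q + nu p0) = nu p + nu p0 := by
          have := add_self_eq_zero' (nu q)
          linear_combination (norm := abel) this
        rw [e9] at h1
        exact h1
      · rw [isOpen_iff_mem_nhds]
        intro p hp
        obtain ⟨V, hV, hpV, h⟩ := hpair p
        refine Filter.mem_of_superset (hV.mem_nhds hpV) ?_
        intro q hq
        have h1 := Submodule.add_mem _ (h q hq) (show nu p + nu p0 ∈ _ from hp)
        have e9 : nu q + nu p + (nu p + nu p0) = nu q + nu p0 := by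
          have := add_self_eq_zero' (nu p)
          linear_combination (norm := abel) this
        rw [e9] at h1
        exact h1
    have huniv := hcl.eq_univ ⟨p0, by
      change nu p0 + nu p0 ∈ MR Sᶜ (Set.univ : Set P)
      rw [add_self_eq_zero']
      exact Submodule.zero_mem _⟩
    intro p
    have : p ∈ {p : S | nu p + nu p0 ∈ MR Sᶜ (Set.univ : Set P)} := by rw [huniv]; trivial
    exact this
  have hF : ∀ s : S →₀ F2, Fn nu s + par2 s • nu p0 ∈ MR Sᶜ (Set.univ : Set P) := by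
    intro s
    refine chain_induction (P := fun s => Fn nu s + par2 s • nu p0 ∈
      MR Sᶜ (Set.univ : Set P)) s ?_ ?_ ?_
    · simp
    · intro x y hx hy
      have := Submodule.add_mem _ hx hy
      rw [map_add, map_add, add_smul]
      convert this using 1
      abel
    · intro p
      rw [Fn_single, par2_single, one_smul]
      exact hconn p
  refine ⟨nu p0, hdeg p0, hbd p0, ?_, ?_, ?_⟩
  · intro h
    have := hQ.par (single p0 1) (by rw [mem_supp]; intros; trivial) (by rwa [Fn_single])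
    rw [par2_single] at this
    exact one_ne_zero this
  · intro k hk z hz hb
    exact hQ.low k hk z (CIn_univ _) hz hb
  · intro z hz hb
    obtain ⟨s, _, h⟩ := hQ.top z (CIn_univ _) hz hb
    have h1 := Submodule.add_mem _ h (hF s)
    have e9 : z + Fn nu s + (Fn nu s + par2 s • nu p0) = z + par2 s • nu p0 := by
      have := add_self_eq_zero' (Fn nu s)
      linear_combination (norm := abel) this
    rw [e9] at h1
    rcases F2.cases (par2 s) with h2 | h2
    · rw [h2, zero_smul, add_zero] at h1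
      exact Or.inl h1
    · rw [h2, one_smul] at h1
      exact Or.inr h1

end flat

/-! ### Manifolds like projective planes -/

section like

/-- The product decomposition of `ℝ^(2d)`. -/
noncomputable def spl (d : ℕ) : (Fin d → ℝ) × (Fin d → ℝ) ≃ₜ EuclideanSpace ℝ (Fin (2 * d)) where
  toFun q := WithLp.toLp 2 fun i => if h : (i : ℕ) < d then q.1 ⟨i, h⟩ else
    q.2 ⟨(i : ℕ) - d, by have := i.2; omega⟩
  invFun y := (fun i => y ⟨(i : ℕ), by have := i.2; omega⟩,
    fun i => y ⟨(i : ℕ) + d, by have := i.2; omega⟩)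
  left_inv q := by
    ext i
    · simp
    · simp
  right_inv y := by
    ext i
    by_cases h : (i : ℕ) < d
    · simp [h]
    · simp only [h, dite_false]
      exact congrArg (fun j => y j) (Fin.ext (by
        change (i : ℕ) - d + d = (i : ℕ)
        omega))
  continuous_toFun := by
    refine (PiLp.continuous_toLp 2 _).comp ?_
    refine continuous_pi fun i => ?_
    by_cases h : (i : ℕ) < d
    · simp only [h, dite_true]
      fun_prop
    · simp only [h, dite_false]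
      fun_prop
  continuous_invFun := by
    refine Continuous.prodMk ?_ ?_
    · fun_prop
    · fun_prop

theorem spl_zero (d : ℕ) (q : (Fin d → ℝ) × (Fin d → ℝ)) :
    (∀ i : Fin (2 * d), d ≤ (i : ℕ) → spl d q i = 0) ↔ q.2 = 0 := by
  constructor
  · intro h
    ext i
    have := h ⟨(i : ℕ) + d, by have := i.2; omega⟩ (by simp)
    simpa [spl] using this
  · intro h i hi
    have h2 : ¬ ((i : ℕ) < d) := by omega
    simp [spl, h2, h]

/-- A set homeomorphic to a Euclidean space is acyclic. -/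
theorem acyclic_of_homeo {P : Type*} [TopologicalSpace P] {O : Set P} {E : Type*}
    [NormedAddCommGroup E] [NormedSpace ℝ E] (e : O ≃ₜ E) (z : SC P) (hz : z ∈ CIn O)
    (hb : bdS z = 0) : ∃ c ∈ CIn O, bdS c = z := by
  obtain ⟨y, hy⟩ : ∃ y, y = push (⟨e, e.continuous⟩ : C(O, E)) (resS O z) := ⟨_, rfl⟩
  obtain ⟨c, _, hc⟩ := acyclic_convex (E := E) convex_univ Set.univ_nonempty y (CIn_univ _) (by
    rw [hy, ← push_bdS, bdS_resS hz, hb, map_zero, map_zero])
  refine ⟨push (incl O) (push (⟨e.symm, e.symm.continuous⟩ : C(E, O)) c), ?_, ?_⟩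
  · exact push_mem_CIn (A := Set.univ) _ (fun a _ => a.2) (CIn_univ _)
  · rw [← push_bdS, ← push_bdS, hc, hy]
    have : (⟨e.symm, e.symm.continuous⟩ : C(E, O)).comp (⟨e, e.continuous⟩ : C(O, E)) =
        ContinuousMap.id O := by
      ext x
      simp
    rw [push_push (⟨e, e.continuous⟩ : C(O, E)), this, push_id, push_resS hz]

theorem like_low {d : ℕ} {P : Type} [TopologicalSpace P]
    (h : TightPP.IsLikeProjectivePlane d P) :
    (∀ k < d, ∀ z ∈ Deg P (k + 1), bdS z = 0 → ∃ c, bdS c = z) ∧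
    ∃ g ∈ Deg P (d + 1), bdS g = 0 ∧ (∀ c, bdS c ≠ g) ∧
      ∀ z ∈ Deg P (d + 1), bdS z = 0 → (∃ c, bdS c = z) ∨ (∃ c, bdS c = z + g) := by
  have hcomp := h.compact
  have hT2 := h.hausdorff
  have hpos := h.pos
  obtain ⟨S, hS, ⟨eO⟩⟩ := h.sphere
  obtain ⟨eS⟩ := hS.homeo
  have hSc : CompactSpace S := eS.symm.compactSpace
  have hScl : IsClosed S := (isCompact_iff_compactSpace.2 hSc).isClosed
  have hconn : ConnectedSpace S := by
    have h1 : IsConnected (Metric.sphere (0 : EuclideanSpace ℝ (Fin (d + 1))) 1) := by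
      apply isConnected_sphere _ _ zero_le_one
      rw [← Module.finrank_eq_rank, finrank_euclideanSpace_fin]
      exact_mod_cast (by omega : 1 < d + 1)
    have h2 : ConnectedSpace (Metric.sphere (0 : EuclideanSpace ℝ (Fin (d + 1))) 1) :=
      isConnected_iff_connectedSpace.1 h1
    exact eS.symm.surjective.connectedSpace eS.symm.continuous
  obtain ⟨w, hw⟩ := exists_rgen_zero (Fin d → ℝ)
  rw [Module.finrank_fin_fun] at hw
  obtain ⟨ν, hνd, hνb, hνn, hlow, htop⟩ := tame_rel (E := Fin d → ℝ) (F := Fin d → ℝ) hScl (by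
    intro p
    obtain ⟨U, e, hU, hpU, he⟩ := hS.flat p.1 p.2
    have hΦ : Flat S (fun q : (Fin d → ℝ) × (Fin d → ℝ) => ((e.symm (spl d q) : U) : P)) := by
      refine ⟨?_, ?_⟩
      · exact hU.isOpenEmbedding_subtypeVal.comp
          (e.symm.isOpenEmbedding.comp (spl d).isOpenEmbedding)
      · intro q
        rw [he, e.apply_symm_apply]
        exact spl_zero d q
    refine ⟨_, hΦ, ((spl d).symm (e ⟨p.1, hpU⟩)).1, ?_⟩
    have h1 := (he ⟨p.1, hpU⟩).1 p.2
    have h2 : ((spl d).symm (e ⟨p.1, hpU⟩)).2 = 0 := by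
      rw [← spl_zero, (spl d).apply_symm_apply]
      exact h1
    apply Subtype.ext
    change ((e.symm (spl d (((spl d).symm (e ⟨p.1, hpU⟩)).1, 0)) : U) : P) = p.1
    have h3 : (((spl d).symm (e ⟨p.1, hpU⟩)).1, (0 : Fin d → ℝ)) =
      (spl d).symm (e ⟨p.1, hpU⟩) := Prod.ext rfl h2.symm
    rw [h3, (spl d).apply_symm_apply, e.symm_apply_apply]) (Nat.succ_pos d) hw
  have hacyc : ∀ z ∈ CIn Sᶜ, bdS z = 0 → ∃ c, bdS c = z := by
    intro z hz hb
    obtain ⟨c, _, hc⟩ := acyclic_of_homeo eO z hz hb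
    exact ⟨c, hc⟩
  -- a relative boundary which is a cycle is a boundary
  have hMR : ∀ z, bdS z = 0 → z ∈ MR Sᶜ (Set.univ : Set P) → ∃ c, bdS c = z := by
    intro z hz h
    obtain ⟨e, _, he⟩ := mem_MR.1 h
    obtain ⟨c, hc⟩ := hacyc _ he (by rw [map_add, hz, bdS_bdS, add_zero])
    exact ⟨c + e, by rw [map_add, hc]; (refine oneF ?_; match_scalars <;> first | decide | (ring_nf; decide))⟩
  refine ⟨?_, ?_⟩
  · intro k hk z hz hb
    exact hMR z hb (hlow (k + 1) (by omega) z hz (by rw [hb]; exact Submodule.zero_mem _))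
  · obtain ⟨c, hcO, hc⟩ := acyclic_of_homeo eO (bdS ν) hνb (bdS_bdS ν)
    obtain ⟨c', hc'⟩ : ∃ c', c' = prv (d + 1) c := ⟨_, rfl⟩
    have hc'O : c' ∈ CIn Sᶜ := by rw [hc']; exact mem_CIn_of_prv hcO _
    have hc'b : bdS c' = bdS ν := by
      rw [hc', bdS_prv, hc, prv_of_mem (bdS_mem_Deg hνd)]
    have hgb : bdS (ν + c') = 0 := by rw [map_add, hc'b, add_self_eq_zero']
    refine ⟨ν + c', Submodule.add_mem _ hνd (by rw [hc']; exact prv_mem _ _), hgb, ?_, ?_⟩
    · intro b hb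
      apply hνn
      refine mem_MR.2 ⟨b, CIn_univ _, ?_⟩
      have : ν + bdS b = c' := by rw [hb]; (refine oneF ?_; match_scalars <;> first | decide | (ring_nf; decide))
      rw [this]
      exact hc'O
    · intro z hz hb
      rcases htop z hz (by rw [hb]; exact Submodule.zero_mem _) with h1 | h1
      · exact Or.inl (hMR z hb h1)
      · refine Or.inr (hMR _ (by rw [map_add, hb, hgb, add_zero]) ?_)
        have h2 := Submodule.add_mem _ h1 (MR_O (A := Set.univ) hc'O)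
        have h3 : z + ν + c' = z + (ν + c') := by abel
        rwa [h3] at h2

end like

end STop
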