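import Pool.Agent.Lib.Pbb5b69.Local
import Pool.Agent.Lib.Pbb5b69.OpenInd

/-!
# The mod 2 Thom class of the diagonal
-/

open Finsupp

namespace STop

section defs

variable (P : Type*) [TopologicalSpace P]

/-- The complement of the diagonal. -/
def off : Set (P × P) := {q | q.1 ≠ q.2}

theorem isOpen_off [T2Space P] : IsOpen (off P) := isOpen_ne_fun continuous_fst continuous_snd

variable {P}

/-- The fibre inclusion. -/
def fib (p : P) : C(P, P × P) := ⟨fun y => (p, y), by fun_prop⟩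

/-- Relative boundaries over `V`. -/
noncomputable def MM (V : Set P) : Submodule F2 (SC (P × P)) :=
  CIn (off P) ⊔ Submodule.map bdS (CIn (V ×ˢ (Set.univ : Set P)))

theorem mem_MM {V : Set P} {z : SC (P × P)} :
    z ∈ MM V ↔ ∃ e ∈ CIn (V ×ˢ (Set.univ : Set P)), z + bdS e ∈ CIn (off P) := by
  unfold MM
  rw [Submodule.mem_sup]
  constructor
  · rintro ⟨a, ha, b, hb, rfl⟩
    obtain ⟨e, he, rfl⟩ := hb
    refine ⟨e, he, ?_⟩
    rw [add_assoc, add_self_eq_zero', add_zero]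
    exact ha
  · rintro ⟨e, he, h⟩
    refine ⟨_, h, bdS e, ⟨e, he, rfl⟩, ?_⟩
    rw [add_assoc, add_self_eq_zero', add_zero]

theorem MM_off {V : Set P} {z : SC (P × P)} (h : z ∈ CIn (off P)) : z ∈ MM V :=
  Submodule.mem_sup_left h

theorem MM_bd {V : Set P} {e : SC (P × P)} (h : e ∈ CIn (V ×ˢ (Set.univ : Set P))) :
    bdS e ∈ MM V := Submodule.mem_sup_right ⟨e, h, rfl⟩

theorem MM_mono {V V' : Set P} (h : V ⊆ V') : MM V ≤ MM V' := by
  apply sup_le_sup le_rfl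
  apply Submodule.map_mono
  exact CIn_mono (Set.prod_mono h le_rfl)

theorem prv_MM {V : Set P} {z : SC (P × P)} (h : z ∈ MM V) (k : ℕ) : prv k z ∈ MM V := by
  rw [mem_MM] at h ⊢
  obtain ⟨e, he, h1⟩ := h
  refine ⟨prv (k + 1) e, mem_CIn_of_prv he _, ?_⟩
  rw [bdS_prv, ← map_add]
  exact mem_CIn_of_prv h1 k

theorem fib_MM {V : Set P} {p : P} (hp : p ∈ V) {x : SC P} (hx : ∃ e, x + bdS e ∈ CIn ({p}ᶜ : Set P)) :
    push (fib p) x ∈ MM V := by
  obtain ⟨e, he⟩ := hx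
  rw [mem_MM]
  refine ⟨push (fib p) e, ?_, ?_⟩
  · apply push_mem_CIn (A := Set.univ) (B := V ×ˢ (Set.univ : Set P)) _ _ (CIn_univ e)
    intro a _
    exact ⟨hp, trivial⟩
  · rw [← push_bdS, ← map_add]
    apply push_mem_CIn (A := ({p}ᶜ : Set P)) (B := off P) _ _ he
    intro a ha h
    exact ha h.symm

end defs

section base

variable {E : Type} [NormedAddCommGroup E] [NormedSpace ℝ E] [FiniteDimensional ℝ E]
  {P : Type*} [TopologicalSpace P] [T2Space P]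

/-- The translate of a chain. -/
noncomputable def trl (x : E) (w : SC E) : SC E := push ⟨fun y => x + y, by fun_prop⟩ w

theorem trl_rgen {w : SC E} {m : ℕ} (h : RGen Set.univ ({0}ᶜ : Set E) m w) (x : E) :
    RGen Set.univ ({x}ᶜ : Set E) m (trl x w) := by
  have h1 := RGen.homeo (Homeomorph.addLeft x) h
  have himg : (Homeomorph.addLeft x) '' ({0}ᶜ : Set E) = {x}ᶜ := by
    rw [Set.image_compl_eq (Homeomorph.addLeft x).bijective, Set.image_singleton]
    simp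
  rw [himg] at h1
  exact h1

/-- The model fibre class. -/
noncomputable def fcl {φ : E → P} (hφ : Topology.IsOpenEmbedding φ) (w : SC E) (x : E) :
    SC (P × P) := push (fib (φ x)) (push ⟨φ, hφ.continuous⟩ (trl x w))

theorem off_image {φ : E → P} (hφ : Topology.IsOpenEmbedding φ) (V : Set E) :
    ((⟨φ, hφ.continuous⟩ : C(E, P)).prodMap (⟨φ, hφ.continuous⟩ : C(E, P))) ''
      ((V ×ˢ (Set.univ : Set E)) ∩ off E) = ((φ '' V) ×ˢ Set.range φ) ∩ off P := by
  ext ⟨a, b⟩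
  constructor
  · rintro ⟨⟨x, y⟩, ⟨⟨hx, _⟩, hxy⟩, h⟩
    obtain ⟨rfl, rfl⟩ := Prod.ext_iff.1 h
    exact ⟨⟨⟨x, hx, rfl⟩, ⟨y, rfl⟩⟩, fun h => hxy (hφ.injective h)⟩
  · rintro ⟨⟨⟨x, hx, rfl⟩, ⟨y, rfl⟩⟩, hxy⟩
    exact ⟨(x, y), ⟨⟨hx, trivial⟩, fun h => hxy (by
      change φ x = φ y
      rw [show x = y from h])⟩, rfl⟩

theorem prod_image {φ : E → P} (hφ : Topology.IsOpenEmbedding φ) (V : Set E) :
    ((⟨φ, hφ.continuous⟩ : C(E, P)).prodMap (⟨φ, hφ.continuous⟩ : C(E, P))) ''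
      (V ×ˢ (Set.univ : Set E)) = (φ '' V) ×ˢ Set.range φ := by
  ext ⟨a, b⟩
  constructor
  · rintro ⟨⟨x, y⟩, ⟨hx, _⟩, h⟩
    obtain ⟨rfl, rfl⟩ := Prod.ext_iff.1 h
    exact ⟨⟨x, hx, rfl⟩, ⟨y, rfl⟩⟩
  · rintro ⟨⟨x, hx, rfl⟩, ⟨y, rfl⟩⟩
    exact ⟨(x, y), ⟨hx, trivial⟩, rfl⟩

theorem prodMap_emb {φ : E → P} (hφ : Topology.IsOpenEmbedding φ) : Topology.IsEmbedding
    ((⟨φ, hφ.continuous⟩ : C(E, P)).prodMap (⟨φ, hφ.continuous⟩ : C(E, P))) :=
  hφ.isEmbedding.prodMap hφ.isEmbedding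

/-- The contraction `((x, y), s) ↦ (x_s, y + x_s - x)`. -/
noncomputable def homD (x0 : E) : C((E × E) × unitInterval, E × E) :=
  ⟨fun q => (q.1.1 + (q.2 : ℝ) • (x0 - q.1.1), q.1.2 + (q.2 : ℝ) • (x0 - q.1.1)), by fun_prop⟩

/-- The difference map. -/
noncomputable def gD (x0 : E) : C(E × E, E) := ⟨fun q => q.2 + (x0 - q.1), by fun_prop⟩

theorem homD_zero (x0 : E) : (homD x0).comp (endMap _ 0) = ContinuousMap.id _ := by
  ext q
  · change q.1 + ((0 : unitInterval) : ℝ) • (x0 - q.1) = q.1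
    simp
  · change q.2 + ((0 : unitInterval) : ℝ) • (x0 - q.1) = q.2
    simp

theorem homD_one (x0 : E) : (homD x0).comp (endMap _ 1) = (fib x0).comp (gD x0) := by
  ext q
  · change q.1 + ((1 : unitInterval) : ℝ) • (x0 - q.1) = x0
    simp
  · change q.2 + ((1 : unitInterval) : ℝ) • (x0 - q.1) = q.2 + (x0 - q.1)
    simp

theorem homD_mem {V : Set E} (hV : Convex ℝ V) {x0 : E} (hx0 : x0 ∈ V) {z : SC (E × E)}
    (hz : z ∈ CIn (V ×ˢ (Set.univ : Set E))) :
    homS (homD x0) z ∈ CIn (V ×ˢ (Set.univ : Set E)) := by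
  apply homS_mem_CIn (A := V ×ˢ (Set.univ : Set E)) (B := V ×ˢ (Set.univ : Set E)) _ _ hz
  rintro ⟨x, y⟩ ⟨hx, _⟩ t
  refine ⟨?_, trivial⟩
  change x + (t : ℝ) • (x0 - x) ∈ V
  have : x + (t : ℝ) • (x0 - x) = (1 - (t : ℝ)) • x + (t : ℝ) • x0 := by module
  rw [this]
  exact hV hx hx0 (by linarith [t.2.2]) t.2.1 (by ring)

theorem homD_off {x0 : E} {z : SC (E × E)} (hz : z ∈ CIn (off E)) :
    homS (homD x0) z ∈ CIn (off E) := by
  apply homS_mem_CIn (A := off E) (B := off E) _ _ hz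
  rintro ⟨x, y⟩ hxy t h
  apply hxy
  have : x + (t : ℝ) • (x0 - x) = y + (t : ℝ) • (x0 - x) := h
  exact add_right_cancel this

theorem gD_off {x0 : E} {z : SC (E × E)} (hz : z ∈ CIn (off E)) :
    push (gD x0) z ∈ CIn ({x0}ᶜ : Set E) := by
  apply push_mem_CIn (A := off E) (B := ({x0}ᶜ : Set E)) _ _ hz
  rintro ⟨x, y⟩ hxy h
  apply hxy
  have h2 : y + (x0 - x) = x0 := h
  have : y = x := by
    have h3 : y - x = 0 := by
      have : y + (x0 - x) - x0 = y - x := by abel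
      rw [← this, h2, sub_self]
    exact sub_eq_zero.1 h3
  exact this.symm

variable {w : SC E} {m : ℕ}

/-- (B1) -/
theorem base_gen (hw : RGen Set.univ ({0}ᶜ : Set E) m w) {φ : E → P}
    (hφ : Topology.IsOpenEmbedding φ) {V : Set E} (hVo : IsOpen V) (hV : Convex ℝ V) {x0 : E}
    (hx0 : x0 ∈ V) (z : SC (P × P)) (hz : z ∈ CIn ((φ '' V) ×ˢ (Set.univ : Set P)))
    (hb : bdS z ∈ CIn (off P)) : ∃ l : F2, z + l • fcl hφ w x0 ∈ MM (φ '' V) := by
  obtain ⟨Φ, hΦ⟩ : ∃ Φ : C(E, P), Φ = ⟨φ, hφ.continuous⟩ := ⟨_, rfl⟩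
  have hVV : IsOpen ((φ '' V) ×ˢ Set.range φ) := (hφ.isOpenMap V hVo).prod hφ.isOpen_range
  obtain ⟨e, he, hs⟩ := small_two (A := (φ '' V) ×ˢ (Set.univ : Set P)) hVV (isOpen_off P) (by
    rintro ⟨a, b⟩ ⟨ha, _⟩
    by_cases h : b ∈ Set.range φ
    · exact Or.inl ⟨ha, h⟩
    · refine Or.inr fun hab => h ?_
      obtain ⟨x, _, hx⟩ := ha
      have : a = b := hab
      exact ⟨x, by rw [hx, this]⟩) hz (Submodule.mem_sup_right hb)
  obtain ⟨z1, hz1, z0, hz0, h10⟩ := Submodule.mem_sup.1 hs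
  have hbz1 : bdS z1 ∈ CIn (((φ '' V) ×ˢ Set.range φ) ∩ off P) := by
    refine CIn_inter (bdS_mem_CIn hz1) ?_
    have : bdS z1 = bdS z + bdS z0 := by
      have h3 := congrArg bdS h10
      rw [map_add, map_add, bdS_bdS, add_zero] at h3
      rw [← h3, add_assoc, add_self_eq_zero', add_zero]
    rw [this]
    exact Submodule.add_mem _ hb (bdS_mem_CIn hz0)
  rw [← prod_image hφ, ← hΦ] at hz1
  rw [← off_image hφ, ← hΦ] at hbz1
  have hemb : Topology.IsEmbedding (Φ.prodMap Φ) := by rw [hΦ]; exact prodMap_emb hφ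
  obtain ⟨z1', hz1', rfl⟩ := exists_lift hemb hz1
  rw [← push_bdS] at hbz1
  have hbz1' : bdS z1' ∈ CIn (off E) := CIn_mono Set.inter_subset_right (mem_CIn_of_push hemb hbz1)
  have hH := bdS_homS (homD x0) z1'
  rw [homD_zero, homD_one, push_id, ← push_push] at hH
  obtain ⟨l, e0, _, h4⟩ := (trl_rgen hw x0).gen (push (gD x0) z1') (CIn_univ _) (by
    rw [← push_bdS]; exact gD_off hbz1')
  obtain ⟨e1, he1⟩ : ∃ e1, e1 = homS (homD x0) z1' + push (fib x0) e0 := ⟨_, rfl⟩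
  have he1m : e1 ∈ CIn (V ×ˢ (Set.univ : Set E)) := by
    rw [he1]
    refine Submodule.add_mem _ (homD_mem hV hx0 hz1') ?_
    apply push_mem_CIn (A := Set.univ) (B := V ×ˢ (Set.univ : Set E)) _ _ (CIn_univ e0)
    intro a _
    exact ⟨hx0, trivial⟩
  have h5 : z1' + l • push (fib x0) (trl x0 w) + bdS e1 ∈ CIn (off E) := by
    have h6 : bdS (homS (homD x0) z1') = z1' + push (fib x0) (push (gD x0) z1') +
        homS (homD x0) (bdS z1') := by
      rw [← hH, add_assoc, add_self_eq_zero', add_zero]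
    have h7 : z1' + l • push (fib x0) (trl x0 w) + bdS e1 =
        push (fib x0) (push (gD x0) z1' + l • trl x0 w + bdS e0) + homS (homD x0) (bdS z1') := by
      rw [he1, map_add, h6, map_add, map_add, map_smul, push_bdS]
      have h8 := add_self_eq_zero' z1'
      generalize push (fib x0) (push (gD x0) z1') = A
      generalize homS (homD x0) (bdS z1') = B
      generalize l • push (fib x0) (trl x0 w) = C
      generalize bdS (push (fib x0) e0) = D
      calc z1' + C + (z1' + A + B + D) = (z1' + z1') + (A + C + D + B) := by abel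
        _ = _ := by rw [h8, zero_add]
    rw [h7]
    refine Submodule.add_mem _ ?_ (homD_off hbz1')
    apply push_mem_CIn (A := ({x0}ᶜ : Set E)) (B := off E) _ _ h4
    intro a ha h
    exact ha h.symm
  have h9 : push (Φ.prodMap Φ) z1' + l • fcl hφ w x0 + bdS (push (Φ.prodMap Φ) e1) ∈
      CIn (off P) := by
    have e2 : fcl hφ w x0 = push (Φ.prodMap Φ) (push (fib x0) (trl x0 w)) := by
      unfold fcl
      rw [push_push, push_push, hΦ]
      congr 2
    rw [e2, ← push_bdS, ← map_smul, ← map_add, ← map_add]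
    apply push_mem_CIn (A := off E) (B := off P) _ _ h5
    rintro ⟨x, y⟩ hxy h
    apply hxy
    have : Φ x = Φ y := h
    rw [hΦ] at this
    exact hφ.injective this
  refine ⟨l, ?_⟩
  have h10' : z = push (Φ.prodMap Φ) z1' + z0 + bdS e := by
    have h11 : z + bdS e = push (Φ.prodMap Φ) z1' + z0 := h10.symm
    rw [← h11, add_assoc, add_self_eq_zero', add_zero]
  have h12 : z + l • fcl hφ w x0 =
      (push (Φ.prodMap Φ) z1' + l • fcl hφ w x0) + z0 + bdS e := by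
    rw [h10']; abel
  rw [h12]
  refine Submodule.add_mem _ (Submodule.add_mem _ ?_ (MM_off hz0)) (MM_bd he)
  rw [mem_MM]
  refine ⟨push (Φ.prodMap Φ) e1, ?_, h9⟩
  apply push_mem_CIn (A := V ×ˢ (Set.univ : Set E)) (B := (φ '' V) ×ˢ (Set.univ : Set P)) _ _ he1m
  rintro ⟨x, y⟩ ⟨hx, _⟩
  refine ⟨⟨x, hx, ?_⟩, trivial⟩
  rw [hΦ]; rfl

/-- (B2) -/
theorem base_move (hw : RGen Set.univ ({0}ᶜ : Set E) m w) {φ : E → P}
    (hφ : Topology.IsOpenEmbedding φ) {V : Set E} (hV : Convex ℝ V) {x x0 : E}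
    (hx : x ∈ V) (hx0 : x0 ∈ V) : fcl hφ w x + fcl hφ w x0 ∈ MM (φ '' V) := by
  have hφc := hφ.continuous
  let K : C(E × unitInterval, P × P) :=
    ⟨fun q => (φ (x + (q.2 : ℝ) • (x0 - x)), φ (q.1 + (x + (q.2 : ℝ) • (x0 - x)))), by fun_prop⟩
  have h := bdS_homS K w
  have e0 : push (K.comp (endMap _ 0)) w = fcl hφ w x := by
    unfold fcl trl
    rw [push_push, push_push]
    congr 2
    ext y
    · change φ (x + ((0 : unitInterval) : ℝ) • (x0 - x)) = φ x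
      simp
    · change φ (y + (x + ((0 : unitInterval) : ℝ) • (x0 - x))) = φ (x + y)
      simp [add_comm]
  have e1 : push (K.comp (endMap _ 1)) w = fcl hφ w x0 := by
    unfold fcl trl
    rw [push_push, push_push]
    congr 2
    ext y
    · change φ (x + ((1 : unitInterval) : ℝ) • (x0 - x)) = φ x0
      simp
    · change φ (y + (x + ((1 : unitInterval) : ℝ) • (x0 - x))) = φ (x0 + y)
      simp [add_comm]
  rw [e0, e1] at h
  rw [← h]
  refine Submodule.add_mem _ (MM_bd ?_) (MM_off ?_)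
  · apply homS_mem_CIn (A := Set.univ) (B := (φ '' V) ×ˢ (Set.univ : Set P)) _ _ (CIn_univ w)
    intro a _ t
    refine ⟨⟨x + (t : ℝ) • (x0 - x), ?_, rfl⟩, trivial⟩
    have : x + (t : ℝ) • (x0 - x) = (1 - (t : ℝ)) • x + (t : ℝ) • x0 := by module
    rw [this]
    exact hV hx hx0 (by linarith [t.2.2]) t.2.1 (by ring)
  · apply homS_mem_CIn (A := ({0}ᶜ : Set E)) (B := off P) _ _ hw.bd
    intro a ha t h2
    apply ha
    have h3 : φ (x + (t : ℝ) • (x0 - x)) = φ (a + (x + (t : ℝ) • (x0 - x))) := h2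
    have h4 := hφ.injective h3
    rw [Set.mem_singleton_iff]
    exact (add_eq_right.1 h4.symm)

/-- (B3) -/
theorem base_ne (hw : RGen Set.univ ({0}ᶜ : Set E) m w) {φ : E → P}
    (hφ : Topology.IsOpenEmbedding φ) {V : Set E} (hVo : IsOpen V) {x0 : E}
    (hx0 : x0 ∈ V) : fcl hφ w x0 ∉ MM (φ '' V) := by
  intro hmem
  rw [mem_MM] at hmem
  obtain ⟨e, he, hq⟩ := hmem
  obtain ⟨Φ, hΦ⟩ : ∃ Φ : C(E, P), Φ = ⟨φ, hφ.continuous⟩ := ⟨_, rfl⟩
  have e2 : fcl hφ w x0 = push (Φ.prodMap Φ) (push (fib x0) (trl x0 w)) := by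
    unfold fcl
    rw [push_push, push_push, hΦ]
    congr 2
  have hVV : IsOpen ((φ '' V) ×ˢ Set.range φ) := (hφ.isOpenMap V hVo).prod hφ.isOpen_range
  have hF : push (fib x0) (trl x0 w) ∈ CIn (V ×ˢ (Set.univ : Set E)) := by
    apply push_mem_CIn (A := Set.univ) (B := V ×ˢ (Set.univ : Set E)) _ _ (CIn_univ _)
    intro a _
    exact ⟨hx0, trivial⟩
  have hF2 : fcl hφ w x0 ∈ CIn ((φ '' V) ×ˢ Set.range φ) := by
    rw [e2, ← prod_image hφ, ← hΦ]
    apply push_mem_CIn (A := V ×ˢ (Set.univ : Set E))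
      (B := (Φ.prodMap Φ) '' (V ×ˢ (Set.univ : Set E))) _ _ hF
    intro a ha
    exact ⟨a, ha, rfl⟩
  have hbe : bdS e = fcl hφ w x0 + (fcl hφ w x0 + bdS e) := by
    rw [← add_assoc, add_self_eq_zero', zero_add]
  obtain ⟨e', he', hs⟩ := small_two (A := (φ '' V) ×ˢ (Set.univ : Set P)) hVV (isOpen_off P) (by
    rintro ⟨a, b⟩ ⟨ha, _⟩
    by_cases h : b ∈ Set.range φ
    · exact Or.inl ⟨ha, h⟩
    · refine Or.inr fun hab => h ?_
      obtain ⟨x, _, hx⟩ := ha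
      have : a = b := hab
      exact ⟨x, by rw [hx, this]⟩) he (by
        rw [hbe]
        exact Submodule.add_mem_sup hF2 hq)
  obtain ⟨e1, he1, e0, he0, h10⟩ := Submodule.mem_sup.1 hs
  have h3 := congrArg bdS h10
  rw [map_add, map_add, bdS_bdS, add_zero] at h3
  have h4 : fcl hφ w x0 + bdS e1 ∈ CIn (((φ '' V) ×ˢ Set.range φ) ∩ off P) := by
    refine CIn_inter (Submodule.add_mem _ hF2 (bdS_mem_CIn he1)) ?_
    have : fcl hφ w x0 + bdS e1 = (fcl hφ w x0 + bdS e) + bdS e0 := by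
      rw [← h3, add_assoc, add_assoc, add_self_eq_zero', add_zero]
    rw [this]
    exact Submodule.add_mem _ hq (bdS_mem_CIn he0)
  rw [← prod_image hφ, ← hΦ] at he1
  rw [← off_image hφ, ← hΦ] at h4
  have hemb : Topology.IsEmbedding (Φ.prodMap Φ) := by rw [hΦ]; exact prodMap_emb hφ
  obtain ⟨e1', he1', rfl⟩ := exists_lift hemb he1
  rw [← push_bdS, e2, ← map_add] at h4
  have h5 : push (fib x0) (trl x0 w) + bdS e1' ∈ CIn (off E) :=
    CIn_mono Set.inter_subset_right (mem_CIn_of_push hemb h4)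
  have h6 := gD_off (x0 := x0) h5
  rw [map_add, push_push, push_bdS] at h6
  have e3 : (gD x0).comp (fib x0) = ContinuousMap.id E := by
    ext y
    change y + (x0 - x0) = y
    simp
  rw [e3, push_id] at h6
  exact (trl_rgen hw x0).ne _ (CIn_univ _) h6

end base

end STop
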