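import Pool.Agent.Lib.Pbb5b69.Thom

/-!
# Existence of the Thom functional
-/

open Finsupp

namespace STop

section mv

variable {P : Type*} [TopologicalSpace P]

/-- The fibre classes. -/
noncomputable def Fb (wP : P → SC P) : (P →₀ F2) →ₗ[F2] SC (P × P) :=
  lin fun p => push (fib p) (wP p)

/-- The parity of a finite set of points. -/
noncomputable def parity : (P →₀ F2) →ₗ[F2] F2 := lin fun _ => 1

theorem Fb_single (wP : P → SC P) (p : P) : Fb wP (single p 1) = push (fib p) (wP p) :=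
  lin_single _ _

theorem parity_single (p : P) : parity (single p (1 : F2)) = 1 := lin_single _ _

/-- The induction hypothesis for the Thom class. -/
structure QV (m : ℕ) (wP : P → SC P) (V : Set P) : Prop where
  low : ∀ k < m, ∀ z ∈ CIn (V ×ˢ (Set.univ : Set P)), z ∈ Deg (P × P) k →
    bdS z ∈ CIn (off P) → z ∈ MM V
  top : ∀ z ∈ CIn (V ×ˢ (Set.univ : Set P)), z ∈ Deg (P × P) m →
    bdS z ∈ CIn (off P) → ∃ s ∈ supp (fun p => p ∈ V), z + Fb wP s ∈ MM V
  par : ∀ s ∈ supp (fun p => p ∈ V), Fb wP s ∈ MM V → parity s = 0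

variable {m : ℕ} {wP : P → SC P} (hwP : ∀ p, RGen Set.univ ({p}ᶜ : Set P) m (wP p))

include hwP

theorem Fb_mem {V : Set P} {s : P →₀ F2} (hs : s ∈ supp (fun p => p ∈ V)) :
    Fb wP s ∈ CIn (V ×ˢ (Set.univ : Set P)) := by
  refine supp_induction _ (Fb wP) ?_ hs
  intro p hp
  rw [Fb_single]
  apply push_mem_CIn (A := Set.univ) (B := V ×ˢ (Set.univ : Set P)) _ _ (CIn_univ _)
  intro a _
  exact ⟨hp, trivial⟩

theorem Fb_deg (s : P →₀ F2) : Fb wP s ∈ Deg (P × P) m := by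
  refine chain_induction (P := fun s => Fb wP s ∈ Deg (P × P) m) s (by simp) ?_ ?_
  · intro x y hx hy
    rw [map_add]
    exact Submodule.add_mem _ hx hy
  · intro p
    rw [Fb_single]
    exact push_mem_Deg _ (hwP p).deg

theorem Fb_bd (s : P →₀ F2) : bdS (Fb wP s) ∈ CIn (off P) := by
  refine chain_induction (P := fun s => bdS (Fb wP s) ∈ CIn (off P)) s (by simp) ?_ ?_
  · intro x y hx hy
    rw [map_add, map_add]
    exact Submodule.add_mem _ hx hy
  · intro p
    rw [Fb_single, ← push_bdS]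
    apply push_mem_CIn (A := ({p}ᶜ : Set P)) (B := off P) _ _ (hwP p).bd
    intro a ha h
    exact ha h.symm

omit hwP in
theorem prod_inter (V1 V2 : Set P) : (V1 ×ˢ (Set.univ : Set P)) ∩ (V2 ×ˢ (Set.univ : Set P)) =
    (V1 ∩ V2) ×ˢ (Set.univ : Set P) := by
  ext ⟨a, b⟩
  simp

omit hwP in
theorem prod_cover (V1 V2 : Set P) : (V1 ∪ V2) ×ˢ (Set.univ : Set P) ⊆
    (V1 ×ˢ (Set.univ : Set P)) ∪ ((V2 ×ˢ (Set.univ : Set P)) ∪ off P) := by
  rintro ⟨a, b⟩ ⟨ha | ha, _⟩
  · exact Or.inl ⟨ha, trivial⟩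
  · exact Or.inr (Or.inl ⟨ha, trivial⟩)

omit hwP in
/-- Splitting of a relative cycle. -/
theorem mv_split [T2Space P] {V1 V2 : Set P} (h1 : IsOpen V1) (h2 : IsOpen V2) {j : ℕ}
    (h12 : ∀ x ∈ CIn ((V1 ∩ V2) ×ˢ (Set.univ : Set P)), x ∈ Deg (P × P) j →
      bdS x ∈ CIn (off P) → x ∈ MM (V1 ∩ V2))
    (z : SC (P × P)) (hz : z ∈ CIn ((V1 ∪ V2) ×ˢ (Set.univ : Set P)))
    (hd : z ∈ Deg (P × P) (j + 1)) (hb : bdS z ∈ CIn (off P)) :
    ∃ z1 ∈ CIn (V1 ×ˢ (Set.univ : Set P)), z1 ∈ Deg (P × P) (j + 1) ∧ bdS z1 ∈ CIn (off P) ∧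
    ∃ z2 ∈ CIn (V2 ×ˢ (Set.univ : Set P)), z2 ∈ Deg (P × P) (j + 1) ∧ bdS z2 ∈ CIn (off P) ∧
      z + z1 + z2 ∈ MM (V1 ∪ V2) := by
  obtain ⟨e, he, hs⟩ := small_three (h1.prod isOpen_univ) (h2.prod isOpen_univ) (isOpen_off P)
    (prod_cover V1 V2) hz (Submodule.mem_sup_right (Submodule.mem_sup_right hb))
  obtain ⟨a1, ha1, a20, ha20, h120⟩ := Submodule.mem_sup.1 hs
  obtain ⟨a2, ha2, a0, ha0, h20⟩ := Submodule.mem_sup.1 ha20
  -- homogeneous parts
  obtain ⟨z1, hz1⟩ : ∃ z1, z1 = prv (j + 1) a1 := ⟨_, rfl⟩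
  obtain ⟨z2, hz2⟩ : ∃ z2, z2 = prv (j + 1) a2 := ⟨_, rfl⟩
  obtain ⟨z0, hz0⟩ : ∃ z0, z0 = prv (j + 1) a0 := ⟨_, rfl⟩
  have hz1m : z1 ∈ CIn (V1 ×ˢ (Set.univ : Set P)) := by rw [hz1]; exact mem_CIn_of_prv ha1 _
  have hz2m : z2 ∈ CIn (V2 ×ˢ (Set.univ : Set P)) := by rw [hz2]; exact mem_CIn_of_prv ha2 _
  have hz0m : z0 ∈ CIn (off P) := by rw [hz0]; exact mem_CIn_of_prv ha0 _
  have hz1d : z1 ∈ Deg (P × P) (j + 1) := by rw [hz1]; exact prv_mem _ _
  have hz2d : z2 ∈ Deg (P × P) (j + 1) := by rw [hz2]; exact prv_mem _ _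
  have hsum : z + bdS (prv (j + 2) e) = z1 + z2 + z0 := by
    have h3 := congrArg (prv (j + 1)) h120
    rw [← h20] at h3
    rw [map_add, map_add, map_add, prv_of_mem hd, ← bdS_prv, ← hz1, ← hz2, ← hz0] at h3
    rw [← h3]; abel
  have hbsum : bdS z = bdS z1 + bdS z2 + bdS z0 := by
    have h3 := congrArg bdS hsum
    rw [map_add, map_add, map_add, bdS_bdS, add_zero] at h3
    exact h3
  have hx : bdS z1 ∈ CIn (V2 ×ˢ (Set.univ : Set P)) ⊔ CIn (off P) := by
    have : bdS z1 = bdS z2 + (bdS z0 + bdS z) := by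
      rw [hbsum]
      have e1 := add_self_eq_zero' (bdS z2)
      have e2 := add_self_eq_zero' (bdS z0)
      calc bdS z1 = bdS z1 + (bdS z2 + bdS z2) + (bdS z0 + bdS z0) := by
            rw [e1, e2, add_zero, add_zero]
        _ = _ := by abel
    rw [this]
    exact Submodule.add_mem_sup (bdS_mem_CIn hz2m) (Submodule.add_mem _ (bdS_mem_CIn hz0m) hb)
  obtain ⟨b12, hb12, b0, hb0, hb120⟩ := CIn_split (bdS_mem_CIn hz1m) hx
  rw [prod_inter] at hb12
  obtain ⟨x12, hx12⟩ : ∃ x12, x12 = prv j b12 := ⟨_, rfl⟩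
  obtain ⟨x0, hx0⟩ : ∃ x0, x0 = prv j b0 := ⟨_, rfl⟩
  have hx12m : x12 ∈ CIn ((V1 ∩ V2) ×ˢ (Set.univ : Set P)) := by
    rw [hx12]; exact mem_CIn_of_prv hb12 _
  have hx0m : x0 ∈ CIn (off P) := by
    rw [hx0]; exact CIn_mono Set.inter_subset_right (mem_CIn_of_prv hb0 _)
  have hxs : x12 + x0 = bdS z1 := by
    have h3 := congrArg (prv j) hb120
    rw [map_add, ← hx12, ← hx0, prv_of_mem (bdS_mem_Deg hz1d)] at h3
    exact h3
  have hbx : bdS x12 ∈ CIn (off P) := by
    have h3 := congrArg bdS hxs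
    rw [map_add, bdS_bdS] at h3
    rw [eq_of_add_eq_zero h3]
    exact bdS_mem_CIn hx0m
  have h4 := h12 x12 hx12m (by rw [hx12]; exact prv_mem _ _) hbx
  rw [mem_MM] at h4
  obtain ⟨e4, he4, h5⟩ := h4
  obtain ⟨e3, he3⟩ : ∃ e3, e3 = prv (j + 1) e4 := ⟨_, rfl⟩
  have he3m : e3 ∈ CIn ((V1 ∩ V2) ×ˢ (Set.univ : Set P)) := by
    rw [he3]; exact mem_CIn_of_prv he4 _
  have he3d : e3 ∈ Deg (P × P) (j + 1) := by rw [he3]; exact prv_mem _ _
  have h6 : x12 + bdS e3 ∈ CIn (off P) := by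
    have := mem_CIn_of_prv h5 j
    rw [map_add, ← bdS_prv, ← he3] at this
    rwa [hx12, prv_of_mem (prv_mem _ _), ← hx12] at this
  have h7 : bdS (z1 + e3) ∈ CIn (off P) := by
    rw [map_add, ← hxs]
    have : x12 + x0 + bdS e3 = (x12 + bdS e3) + x0 := by abel
    rw [this]
    exact Submodule.add_mem _ h6 hx0m
  have h8 : bdS (z2 + e3) ∈ CIn (off P) := by
    have : bdS (z2 + e3) = bdS (z1 + e3) + bdS z0 + bdS z := by
      rw [hbsum, map_add, map_add]
      have e1 := add_self_eq_zero' (bdS z1)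
      have e2 := add_self_eq_zero' (bdS z0)
      calc bdS z2 + bdS e3 = bdS z2 + bdS e3 + (bdS z1 + bdS z1) + (bdS z0 + bdS z0) := by
            rw [e1, e2, add_zero, add_zero]
        _ = _ := by abel
    rw [this]
    exact Submodule.add_mem _ (Submodule.add_mem _ h7 (bdS_mem_CIn hz0m)) hb
  refine ⟨z1 + e3, Submodule.add_mem _ hz1m (CIn_mono (Set.prod_mono Set.inter_subset_left le_rfl)
    he3m), Submodule.add_mem _ hz1d he3d, h7, z2 + e3, Submodule.add_mem _ hz2m
    (CIn_mono (Set.prod_mono Set.inter_subset_right le_rfl) he3m),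
    Submodule.add_mem _ hz2d he3d, h8, ?_⟩
  have h9 : z + (z1 + e3) + (z2 + e3) = z0 + bdS (prv (j + 2) e) := by
    have e1 := add_self_eq_zero' e3
    have e2 := add_self_eq_zero' (bdS (prv (j + 2) e))
    have e4 := add_self_eq_zero' z1
    have e5 := add_self_eq_zero' z2
    calc z + (z1 + e3) + (z2 + e3) = z + z1 + z2 + (e3 + e3) := by abel
      _ = z + z1 + z2 + (bdS (prv (j + 2) e) + bdS (prv (j + 2) e)) := by rw [e1, e2]
      _ = (z + bdS (prv (j + 2) e)) + z1 + z2 + bdS (prv (j + 2) e) := by abel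
      _ = z0 + bdS (prv (j + 2) e) + (z1 + z1) + (z2 + z2) := by rw [hsum]; abel
      _ = _ := by rw [e4, e5, add_zero, add_zero]
  rw [h9]
  exact Submodule.add_mem _ (MM_off hz0m) (MM_bd (mem_CIn_of_prv he _))

theorem QV_union [T2Space P] (hm : 1 ≤ m) {V1 V2 : Set P} (h1 : IsOpen V1) (h2 : IsOpen V2)
    (q1 : QV m wP V1) (q2 : QV m wP V2) (q12 : QV m wP (V1 ∩ V2)) : QV m wP (V1 ∪ V2) where
  low := by
    intro k hk z hz hd hb
    cases k with
    | zero => exact MM_off (Deg_zero_le_CIn _ hd)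
    | succ j =>
      obtain ⟨z1, hz1, hd1, hb1, z2, hz2, hd2, hb2, hM⟩ := mv_split h1 h2
        (fun x hx hxd hxb => q12.low j (by omega) x hx hxd hxb) z hz hd hb
      have e1 := MM_mono (Set.subset_union_left (t := V2)) (q1.low _ hk z1 hz1 hd1 hb1)
      have e2 := MM_mono (Set.subset_union_right (s := V1)) (q2.low _ hk z2 hz2 hd2 hb2)
      have := Submodule.add_mem _ (Submodule.add_mem _ hM e1) e2
      have e3 : z + z1 + z2 + z1 + z2 = z := by
        have e4 := add_self_eq_zero' z1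
        have e5 := add_self_eq_zero' z2
        calc z + z1 + z2 + z1 + z2 = z + (z1 + z1) + (z2 + z2) := by abel
          _ = _ := by rw [e4, e5, add_zero, add_zero]
      rwa [e3] at this
  top := by
    intro z hz hd hb
    obtain ⟨j, rfl⟩ : ∃ j, m = j + 1 := ⟨m - 1, by omega⟩
    obtain ⟨z1, hz1, hd1, hb1, z2, hz2, hd2, hb2, hM⟩ := mv_split h1 h2
      (fun x hx hxd hxb => q12.low j (by omega) x hx hxd hxb) z hz hd hb
    obtain ⟨s1, hs1, e1⟩ := q1.top z1 hz1 hd1 hb1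
    obtain ⟨s2, hs2, e2⟩ := q2.top z2 hz2 hd2 hb2
    refine ⟨s1 + s2, Submodule.add_mem _ (supp_mono (fun a ha => Or.inl ha) hs1)
      (supp_mono (fun a ha => Or.inr ha) hs2), ?_⟩
    have := Submodule.add_mem _ (Submodule.add_mem _ hM
      (MM_mono (Set.subset_union_left (t := V2)) e1))
      (MM_mono (Set.subset_union_right (s := V1)) e2)
    have e3 : z + z1 + z2 + (z1 + Fb wP s1) + (z2 + Fb wP s2) = z + Fb wP (s1 + s2) := by
      have e4 := add_self_eq_zero' z1
      have e5 := add_self_eq_zero' z2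
      rw [map_add]
      calc z + z1 + z2 + (z1 + Fb wP s1) + (z2 + Fb wP s2) =
          z + (Fb wP s1 + Fb wP s2) + (z1 + z1) + (z2 + z2) := by abel
        _ = _ := by rw [e4, e5, add_zero, add_zero]
    rwa [e3] at this
  par := by
    intro s hs hM
    rw [mem_MM] at hM
    obtain ⟨e, he, hq⟩ := hM
    obtain ⟨s1, hs1, s2, hs2, hs12⟩ := supp_split hs (Q := fun p => p ∈ V1) (R := fun p => p ∈ V2)
      (fun p hp => hp)
    have hs1' : s1 ∈ supp (fun p => p ∈ V1) := supp_mono (fun a ha => ha.2) hs1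
    have hs2' : s2 ∈ supp (fun p => p ∈ V2) := supp_mono (fun a ha => ha.2) hs2
    obtain ⟨q, hqd⟩ : ∃ q, q = Fb wP s + bdS e := ⟨_, rfl⟩
    rw [← hqd] at hq
    have hbe : bdS e = Fb wP s1 + (Fb wP s2 + q) := by
      rw [hqd, ← hs12, map_add]
      have e1 := add_self_eq_zero' (Fb wP s1)
      have e2 := add_self_eq_zero' (Fb wP s2)
      calc bdS e = bdS e + (Fb wP s1 + Fb wP s1) + (Fb wP s2 + Fb wP s2) := by
            rw [e1, e2, add_zero, add_zero]
        _ = _ := by abel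
    obtain ⟨e', he', hs'⟩ := small_three (h1.prod isOpen_univ) (h2.prod isOpen_univ)
      (isOpen_off P) (prod_cover V1 V2) he (by
        rw [hbe]
        exact Submodule.add_mem_sup (Fb_mem hwP hs1') (Submodule.add_mem_sup (Fb_mem hwP hs2') hq))
    obtain ⟨a1, ha1, a20, ha20, h120⟩ := Submodule.mem_sup.1 hs'
    obtain ⟨a2, ha2, a0, ha0, h20⟩ := Submodule.mem_sup.1 ha20
    have hbe2 : bdS e = bdS a1 + bdS a2 + bdS a0 := by
      have h3 := congrArg bdS h120
      rw [← h20, map_add, map_add, map_add, bdS_bdS, add_zero] at h3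
      rw [← h3]; abel
    -- the common part
    obtain ⟨x, hx⟩ : ∃ x, x = Fb wP s1 + bdS a1 := ⟨_, rfl⟩
    have hx1 : x ∈ CIn (V1 ×ˢ (Set.univ : Set P)) := by
      rw [hx]; exact Submodule.add_mem _ (Fb_mem hwP hs1') (bdS_mem_CIn ha1)
    have hx2 : x = (Fb wP s2 + bdS a2) + (bdS a0 + q) := by
      have e3 : bdS a1 + bdS a2 + bdS a0 = Fb wP s1 + (Fb wP s2 + q) := by rw [← hbe2, hbe]
      have e1 := add_self_eq_zero' (bdS a2)
      have e2 := add_self_eq_zero' (bdS a0)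
      have e4 := add_self_eq_zero' (Fb wP s1)
      calc x = Fb wP s1 + bdS a1 + (bdS a2 + bdS a2) + (bdS a0 + bdS a0) := by
            rw [hx, e1, e2, add_zero, add_zero]
        _ = Fb wP s1 + (bdS a1 + bdS a2 + bdS a0) + bdS a2 + bdS a0 := by abel
        _ = (Fb wP s1 + Fb wP s1) + ((Fb wP s2 + bdS a2) + (bdS a0 + q)) := by rw [e3]; abel
        _ = _ := by rw [e4, zero_add]
    have hx3 : x ∈ CIn (V2 ×ˢ (Set.univ : Set P)) ⊔ CIn (off P) := by
      rw [hx2]
      exact Submodule.add_mem_sup (Submodule.add_mem _ (Fb_mem hwP hs2') (bdS_mem_CIn ha2))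
        (Submodule.add_mem _ (bdS_mem_CIn ha0) hq)
    obtain ⟨b12, hb12, b0, hb0, hb120⟩ := CIn_split hx1 hx3
    rw [prod_inter] at hb12
    have hb0' : b0 ∈ CIn (off P) := CIn_mono Set.inter_subset_right hb0
    have hpx : prv m x = prv m b12 + prv m b0 := by rw [← hb120, map_add]
    have hpx1 : prv m x = Fb wP s1 + bdS (prv (m + 1) a1) := by
      rw [hx, map_add, prv_of_mem (Fb_deg hwP s1), bdS_prv]
    have hpx2 : prv m x = Fb wP s2 + bdS (prv (m + 1) a2) + prv m (bdS a0 + q) := by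
      rw [hx2, map_add, map_add, prv_of_mem (Fb_deg hwP s2), ← bdS_prv]
    have hbb : bdS (prv m b12) ∈ CIn (off P) := by
      have : bdS (prv m b12) = bdS (Fb wP s1) + bdS (prv m b0) := by
        have h3 := congrArg bdS (hpx.symm.trans hpx1)
        rw [map_add, map_add, bdS_bdS, add_zero] at h3
        rw [← h3, add_assoc, add_self_eq_zero', add_zero]
      rw [this]
      exact Submodule.add_mem _ (Fb_bd hwP s1) (bdS_mem_CIn (mem_CIn_of_prv hb0' _))
    obtain ⟨t, ht, htM⟩ := q12.top (prv m b12) (mem_CIn_of_prv hb12 _) (prv_mem _ _) hbb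
    have p1 : parity (s1 + t) = 0 := by
      apply q1.par _ (Submodule.add_mem _ hs1' (supp_mono (fun a ha => ha.1) ht))
      have : Fb wP (s1 + t) = (prv m b12 + Fb wP t) + prv m b0 + bdS (prv (m + 1) a1) := by
        rw [map_add]
        have e1 := add_self_eq_zero' (bdS (prv (m + 1) a1))
        have e2 : prv m b12 + prv m b0 = Fb wP s1 + bdS (prv (m + 1) a1) := by
          rw [← hpx, hpx1]
        calc Fb wP s1 + Fb wP t = (Fb wP s1 + bdS (prv (m + 1) a1)) + Fb wP t +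
              bdS (prv (m + 1) a1) := by
              rw [add_assoc, add_comm (Fb wP s1 + _), ← add_assoc]
              have : Fb wP t + bdS (prv (m + 1) a1) + Fb wP s1 + bdS (prv (m + 1) a1) =
                Fb wP s1 + Fb wP t + (bdS (prv (m + 1) a1) + bdS (prv (m + 1) a1)) := by abel
              rw [this, e1, add_zero]
          _ = _ := by rw [← e2]; abel
      rw [this]
      refine Submodule.add_mem _ (Submodule.add_mem _ (MM_mono Set.inter_subset_left htM)
        (MM_off (mem_CIn_of_prv hb0' _))) (MM_bd (mem_CIn_of_prv ha1 _))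
    have p2 : parity (s2 + t) = 0 := by
      apply q2.par _ (Submodule.add_mem _ hs2' (supp_mono (fun a ha => ha.2) ht))
      have : Fb wP (s2 + t) = (prv m b12 + Fb wP t) + prv m b0 + bdS (prv (m + 1) a2) +
          prv m (bdS a0 + q) := by
        rw [map_add]
        have e1 := add_self_eq_zero' (bdS (prv (m + 1) a2))
        have e3 := add_self_eq_zero' (prv m (bdS a0 + q))
        have e2 : prv m b12 + prv m b0 = Fb wP s2 + bdS (prv (m + 1) a2) +
            prv m (bdS a0 + q) := by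
          rw [← hpx, hpx2]
        calc Fb wP s2 + Fb wP t = Fb wP s2 + Fb wP t +
              (bdS (prv (m + 1) a2) + bdS (prv (m + 1) a2)) +
              (prv m (bdS a0 + q) + prv m (bdS a0 + q)) := by rw [e1, e3, add_zero, add_zero]
          _ = (Fb wP s2 + bdS (prv (m + 1) a2) + prv m (bdS a0 + q)) + Fb wP t +
              bdS (prv (m + 1) a2) + prv m (bdS a0 + q) := by abel
          _ = _ := by rw [← e2]; abel
      rw [this]
      refine Submodule.add_mem _ (Submodule.add_mem _ (Submodule.add_mem _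
        (MM_mono Set.inter_subset_right htM) (MM_off (mem_CIn_of_prv hb0' _)))
        (MM_bd (mem_CIn_of_prv ha2 _))) (MM_off (mem_CIn_of_prv (Submodule.add_mem _
          (bdS_mem_CIn ha0) hq) _))
    rw [map_add] at p1 p2
    rw [← hs12, map_add]
    have e1 := F2.add_self (parity t)
    linear_combination p1 + p2 - e1

end mv

end STop
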