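import Pool.Agent.Lib.Pbb5b69.Thom2

/-!
# Existence of the Thom functional: conclusion
-/

open Finsupp

namespace STop

section directed

variable {P : Type*} [TopologicalSpace P]

theorem dir_chain {X : Type*} [TopologicalSpace X] {𝒟 : Set (Set X)} (hne : 𝒟.Nonempty)
    (hd : DirectedOn (· ⊆ ·) 𝒟) (ho : ∀ U ∈ 𝒟, IsOpen U) {z : SC X}
    (hz : z ∈ CIn (⋃₀ 𝒟)) : ∃ D ∈ 𝒟, z ∈ CIn D := by
  obtain ⟨K, hK, hKs, hzK⟩ := exists_compact hz
  have : Nonempty 𝒟 := hne.to_subtype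
  obtain ⟨D, hD⟩ := hK.elim_directed_cover (fun D : 𝒟 => (D : Set X))
    (fun D => ho D D.2) (by rw [← Set.sUnion_eq_iUnion]; exact hKs) (by
      rintro ⟨D, hD⟩ ⟨D', hD'⟩
      obtain ⟨D'', hD'', h1, h2⟩ := hd D hD D' hD'
      exact ⟨⟨D'', hD''⟩, h1, h2⟩)
  exact ⟨D, D.2, CIn_mono hD hzK⟩

theorem dir_chain_prod {𝒟 : Set (Set P)} (hne : 𝒟.Nonempty)
    (hd : DirectedOn (· ⊆ ·) 𝒟) (ho : ∀ U ∈ 𝒟, IsOpen U) {z : SC (P × P)}
    (hz : z ∈ CIn ((⋃₀ 𝒟) ×ˢ (Set.univ : Set P))) :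
    ∃ D ∈ 𝒟, z ∈ CIn (D ×ˢ (Set.univ : Set P)) := by
  have h1 : (⋃₀ 𝒟) ×ˢ (Set.univ : Set P) = ⋃₀ ((fun D => D ×ˢ (Set.univ : Set P)) '' 𝒟) := by
    ext ⟨a, b⟩
    simp
  rw [h1] at hz
  obtain ⟨D', ⟨D, hD, rfl⟩, h2⟩ := dir_chain (hne.image _) (by
    rintro _ ⟨D, hD, rfl⟩ _ ⟨D', hD', rfl⟩
    obtain ⟨D'', hD'', h1, h2⟩ := hd D hD D' hD'
    exact ⟨_, ⟨D'', hD'', rfl⟩, Set.prod_mono h1 le_rfl, Set.prod_mono h2 le_rfl⟩) (by
    rintro _ ⟨D, hD, rfl⟩
    exact (ho D hD).prod isOpen_univ) hz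
  exact ⟨D, hD, h2⟩

theorem dir_supp {𝒟 : Set (Set P)} (hne : 𝒟.Nonempty)
    (hd : DirectedOn (· ⊆ ·) 𝒟) {s : P →₀ F2} (hs : s ∈ supp (fun p => p ∈ ⋃₀ 𝒟)) :
    ∃ D ∈ 𝒟, s ∈ supp (fun p => p ∈ D) := by
  refine supp_ind (P := fun s => ∃ D ∈ 𝒟, s ∈ supp (fun p => p ∈ D)) hs ?_ ?_ ?_
  · obtain ⟨D, hD⟩ := hne
    exact ⟨D, hD, Submodule.zero_mem _⟩
  · rintro x y ⟨D, hD, hx⟩ ⟨D', hD', hy⟩
    obtain ⟨D'', hD'', h1, h2⟩ := hd D hD D' hD'
    exact ⟨D'', hD'', Submodule.add_mem _ (supp_mono (fun a ha => h1 ha) hx)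
      (supp_mono (fun a ha => h2 ha) hy)⟩
  · rintro p ⟨D, hD, hp⟩
    exact ⟨D, hD, single_mem_supp (P := fun p => p ∈ D) hp⟩

variable {m : ℕ} {wP : P → SC P}

theorem QV_directed {𝒟 : Set (Set P)} (hne : 𝒟.Nonempty)
    (hd : DirectedOn (· ⊆ ·) 𝒟) (ho : ∀ U ∈ 𝒟, IsOpen U) (hQ : ∀ U ∈ 𝒟, QV m wP U) :
    QV m wP (⋃₀ 𝒟) where
  low := by
    intro k hk z hz hdz hb
    obtain ⟨D, hD, hzD⟩ := dir_chain_prod hne hd ho hz
    exact MM_mono (Set.subset_sUnion_of_mem hD) ((hQ D hD).low k hk z hzD hdz hb)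
  top := by
    intro z hz hdz hb
    obtain ⟨D, hD, hzD⟩ := dir_chain_prod hne hd ho hz
    obtain ⟨s, hs, h⟩ := (hQ D hD).top z hzD hdz hb
    exact ⟨s, supp_mono (fun a ha => ⟨D, hD, ha⟩) hs, MM_mono (Set.subset_sUnion_of_mem hD) h⟩
  par := by
    intro s hs hM
    rw [mem_MM] at hM
    obtain ⟨e, he, hq⟩ := hM
    obtain ⟨D, hD, heD⟩ := dir_chain_prod hne hd ho he
    obtain ⟨D', hD', hsD⟩ := dir_supp hne hd hs
    obtain ⟨D'', hD'', h1, h2⟩ := hd D hD D' hD'
    apply (hQ D'' hD'').par s (supp_mono (fun a ha => h2 ha) hsD)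
    rw [mem_MM]
    exact ⟨e, CIn_mono (Set.prod_mono h1 le_rfl) heD, hq⟩

theorem QV_empty : QV m wP ∅ where
  low := by
    intro k _ z hz _ _
    apply MM_off
    rw [Set.empty_prod, CIn_empty] at hz
    exact Deg_zero_le_CIn _ hz
  top := by
    intro z hz _ _
    refine ⟨0, Submodule.zero_mem _, ?_⟩
    rw [map_zero, add_zero]
    apply MM_off
    rw [Set.empty_prod, CIn_empty] at hz
    exact Deg_zero_le_CIn _ hz
  par := by
    intro s hs _
    refine supp_ind (P := fun s => parity s = 0) hs (map_zero _) ?_ ?_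
    · intro x y hx hy
      rw [map_add, hx, hy, add_zero]
    · intro p hp
      exact absurd hp (Set.notMem_empty p)

end directed

section base

variable {E : Type} [NormedAddCommGroup E] [NormedSpace ℝ E] [FiniteDimensional ℝ E]
  {P : Type*} [TopologicalSpace P] [T2Space P] {m : ℕ} {wP : P → SC P} {w : SC E}

/-- (B4) -/
theorem base_cmp (hwP : ∀ p, RGen Set.univ ({p}ᶜ : Set P) m (wP p))
    (hw : RGen Set.univ ({0}ᶜ : Set E) m w) {φ : E → P}
    (hφ : Topology.IsOpenEmbedding φ) {V : Set P} {x : E} (hx : φ x ∈ V) :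
    push (fib (φ x)) (wP (φ x)) + fcl hφ w x ∈ MM V := by
  have h1 := RGen.chart hφ (L := {x}) isCompact_singleton (trl_rgen hw x)
  rw [Set.image_singleton] at h1
  obtain ⟨e, _, he⟩ := (hwP (φ x)).unique h1
  unfold fcl
  rw [← map_add]
  exact fib_MM hx ⟨e, he⟩

theorem fcl_deg (hw : RGen Set.univ ({0}ᶜ : Set E) m w) {φ : E → P}
    (hφ : Topology.IsOpenEmbedding φ) (x : E) : fcl hφ w x ∈ Deg (P × P) m := by
  unfold fcl trl
  exact push_mem_Deg _ (push_mem_Deg _ (push_mem_Deg _ hw.deg))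

theorem QV_base (hwP : ∀ p, RGen Set.univ ({p}ᶜ : Set P) m (wP p))
    (hw : RGen Set.univ ({0}ᶜ : Set E) m w) {φ : E → P}
    (hφ : Topology.IsOpenEmbedding φ) {V : Set E} (hVo : IsOpen V) (hV : Convex ℝ V)
    (hne : V.Nonempty) : QV m wP (φ '' V) := by
  obtain ⟨x0, hx0⟩ := hne
  have hx0' : φ x0 ∈ φ '' V := ⟨x0, hx0, rfl⟩
  refine ⟨?_, ?_, ?_⟩
  · intro k hk z hz hd hb
    obtain ⟨l, hl⟩ := base_gen hw hφ hVo hV hx0 z hz hb
    have h := prv_MM hl k
    rw [map_add, map_smul, prv_of_mem hd, prv_of_mem_ne (fcl_deg hw hφ x0) (by omega), smul_zero,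
      add_zero] at h
    exact h
  · intro z hz hd hb
    obtain ⟨l, hl⟩ := base_gen hw hφ hVo hV hx0 z hz hb
    have h1 := base_cmp hwP hw hφ hx0'
    refine ⟨l • single (φ x0) 1, Submodule.smul_mem _ _
      (single_mem_supp (P := fun p => p ∈ φ '' V) hx0'), ?_⟩
    rw [map_smul, Fb_single]
    have h2 := Submodule.add_mem _ hl (Submodule.smul_mem _ l h1)
    have h3 : z + l • fcl hφ w x0 + l • (push (fib (φ x0)) (wP (φ x0)) + fcl hφ w x0) =
        z + l • push (fib (φ x0)) (wP (φ x0)) := by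
      have h4 := add_self_eq_zero' (l • fcl hφ w x0)
      rw [smul_add]
      calc _ = z + l • push (fib (φ x0)) (wP (φ x0)) + (l • fcl hφ w x0 + l • fcl hφ w x0) := by
            abel
        _ = _ := by rw [h4, add_zero]
    rwa [h3] at h2
  · intro s hs hM
    have key : Fb wP s + parity s • fcl hφ w x0 ∈ MM (φ '' V) := by
      refine supp_ind (P := fun s => Fb wP s + parity s • fcl hφ w x0 ∈ MM (φ '' V)) hs
        (by simp) ?_ ?_
      · intro x y hx hy
        rw [map_add, map_add, add_smul]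
        have := Submodule.add_mem _ hx hy
        have h5 : Fb wP x + parity x • fcl hφ w x0 + (Fb wP y + parity y • fcl hφ w x0) =
          Fb wP x + Fb wP y + (parity x • fcl hφ w x0 + parity y • fcl hφ w x0) := by abel
        rwa [h5] at this
      · rintro p ⟨x, hx, rfl⟩
        rw [Fb_single, parity_single, one_smul]
        have h1 := base_cmp hwP hw hφ (V := φ '' V) (x := x) ⟨x, hx, rfl⟩
        have h2 := base_move hw hφ hV hx hx0
        have h3 := Submodule.add_mem _ h1 h2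
        have h4 := add_self_eq_zero' (fcl hφ w x)
        have h5 : push (fib (φ x)) (wP (φ x)) + fcl hφ w x + (fcl hφ w x + fcl hφ w x0) =
            push (fib (φ x)) (wP (φ x)) + fcl hφ w x0 := by
          calc _ = push (fib (φ x)) (wP (φ x)) + fcl hφ w x0 + (fcl hφ w x + fcl hφ w x) := by abel
            _ = _ := by rw [h4, add_zero]
        rwa [h5] at h3
    have h6 := Submodule.add_mem _ key hM
    have h7 : Fb wP s + parity s • fcl hφ w x0 + Fb wP s = parity s • fcl hφ w x0 := by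
      have h4 := add_self_eq_zero' (Fb wP s)
      calc _ = parity s • fcl hφ w x0 + (Fb wP s + Fb wP s) := by abel
        _ = _ := by rw [h4, add_zero]
    rw [h7] at h6
    rcases F2.cases (parity s) with h | h
    · exact h
    · rw [h, one_smul] at h6
      exact absurd h6 (base_ne hw hφ hVo hx0)

end base

/-- A Thom functional of the diagonal; `m - 1` is the dimension. -/
structure ThomF (P : Type*) [TopologicalSpace P] (m : ℕ) (θ : SC (P × P) →ₗ[F2] F2) : Prop where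
  bd : ∀ x, θ (bdS x) = 0
  off : ∀ x ∈ CIn (off P), θ x = 0
  deg : ∀ k ≠ m, ∀ x ∈ Deg (P × P) k, θ x = 0
  fib : ∀ p w, RGen Set.univ ({p}ᶜ : Set P) m w → θ (push (fib p) w) = 1

/-- **Existence of the Thom functional** on a locally Euclidean Hausdorff space. -/
theorem exists_thomF (E : Type) [NormedAddCommGroup E] [NormedSpace ℝ E] [FiniteDimensional ℝ E]
    (P : Type*) [TopologicalSpace P] [T2Space P]
    (hch : ∀ p : P, ∃ φ : E → P, Topology.IsOpenEmbedding φ ∧ p ∈ Set.range φ) :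
    ∃ θ : SC (P × P) →ₗ[F2] F2, ThomF P (Module.finrank ℝ E + 1) θ := by
  obtain ⟨w, hw⟩ := exists_rgen_zero E
  have hex : ∀ p : P, ∃ w : SC P, RGen Set.univ ({p}ᶜ : Set P) (Module.finrank ℝ E + 1) w := by
    intro p
    obtain ⟨φ, hφ, x, rfl⟩ := hch p
    have h1 := RGen.chart hφ (L := {x}) isCompact_singleton (trl_rgen hw x)
    rw [Set.image_singleton] at h1
    exact ⟨_, h1⟩
  choose wP hwP using hex
  have hQ : QV (Module.finrank ℝ E + 1) wP (Set.univ : Set P) :=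
    open_induction hch (fun V => QV (Module.finrank ℝ E + 1) wP V) QV_empty
      (fun φ hφ V hVo hV hne => QV_base hwP hw hφ hVo hV hne)
      (fun U V hU hV qU qV qUV => QV_union hwP (by omega) hU hV qU qV qUV)
      (fun 𝒟 hne hd ho hQ => QV_directed hne hd ho hQ) _ isOpen_univ
  set m := Module.finrank ℝ E + 1 with hm
  obtain ⟨θ, hθ1, hθ2⟩ := exists_functional
    (MM (Set.univ : Set P) ⊔ supp (fun σ : Sing (P × P) => σ.nv ≠ m)) (Fb wP) parity (by
      intro s hs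
      obtain ⟨a, ha, b, hb, hab⟩ := Submodule.mem_sup.1 hs
      apply hQ.par s
      · rw [mem_supp]; intro a _; trivial
      · have h1 := congrArg (prv m) hab
        rw [map_add, prv_of_mem (Fb_deg hwP s)] at h1
        have h2 : prv m b = 0 := by
          refine supp_ext (prv m) 0 ?_ hb
          intro σ hσ
          exact prv_single_of_ne hσ
        rw [h2, add_zero] at h1
        rw [← h1]
        exact prv_MM ha m)
  refine ⟨θ, ⟨?_, ?_, ?_, ?_⟩⟩
  · intro x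
    exact hθ1 _ (Submodule.mem_sup_left (MM_bd (by rw [Set.univ_prod_univ]; exact CIn_univ x)))
  · intro x hx
    exact hθ1 _ (Submodule.mem_sup_left (MM_off hx))
  · intro k hk x hx
    apply hθ1 _ (Submodule.mem_sup_right (supp_mono ?_ hx))
    intro σ hσ
    rw [hσ]; exact hk
  · intro p w' hw'
    obtain ⟨e, _, he⟩ := (hwP p).unique hw'
    have h1 : push (fib p) (wP p + w') ∈ MM (Set.univ : Set P) :=
      fib_MM (V := Set.univ) (Set.mem_univ p) ⟨e, he⟩
    have h2 := hθ1 _ (Submodule.mem_sup_left h1)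
    have h3 := hθ2 (single p 1)
    rw [Fb_single, parity_single] at h3
    rw [map_add, map_add, h3] at h2
    have := F2.add_self (1 : F2)
    have h4 : θ (push (fib p) w') = 1 + (1 + θ (push (fib p) w')) := by
      rw [← add_assoc, this, zero_add]
    rw [h4, h2, add_zero]

end STop
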