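import Pool.Agent.Lib.Pbb5b69.Facts

/-!
# Module TightPart, first part: basic chain level tools

Empty simplex, acyclicity of convex sets, the carrier lemma.
-/

open Finsupp

namespace STop

namespace TP

section basic

variable {X Y : Type} [TopologicalSpace X] [TopologicalSpace Y]

instance : IsEmpty (Dl 0) := ⟨fun t => absurd t.2.2 (by simp)⟩

/-- The empty simplex. -/
@[reducible] def e0 (X : Type) [TopologicalSpace X] : Sing X :=
  ⟨0, ⟨fun t => isEmptyElim t, continuous_of_const fun t => isEmptyElim t⟩⟩

theorem eq_e0 {σ : Sing X} (h : σ.nv = 0) : σ = e0 X := by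
  obtain ⟨n, m⟩ := σ
  simp only at h
  subst h
  congr 1
  ext t
  exact isEmptyElim t

theorem e0_In (A : Set X) : (e0 X).In A := fun t => isEmptyElim t

theorem e0_mem (A : Set X) : (single (e0 X) 1 : SC X) ∈ CIn A := single_mem_CIn (e0_In A)

theorem e0_deg : (single (e0 X) 1 : SC X) ∈ Deg X 0 :=
  single_mem_supp (P := fun σ : Sing X => σ.nv = 0) rfl

theorem push_e0 (f : C(X, Y)) : push f (single (e0 X) 1) = single (e0 Y) 1 := by
  rw [push_single, eq_e0 (σ := (e0 X).push f) rfl]

/-- Constant simplices. -/
@[reducible] def cst (p : X) (n : ℕ) : Sing X := ⟨n, ContinuousMap.const _ p⟩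

theorem cst_In {A : Set X} {p : X} (hp : p ∈ A) (n : ℕ) : (cst p n).In A := fun _ => hp

/-- The cone with values in constant simplices. -/
noncomputable def cC (p : X) : SC X →ₗ[F2] SC X := lin fun σ => single (cst p (σ.nv + 1)) 1

theorem cC_single (p : X) (σ : Sing X) : cC p (single σ 1) = single (cst p (σ.nv + 1)) 1 :=
  lin_single _ _

theorem cC_mem {A : Set X} {p : X} (hp : p ∈ A) (x : SC X) : cC p x ∈ CIn A := by
  refine supp_induction (CIn A) (cC p) ?_ (CIn_univ x)
  intro σ _
  rw [cC_single]
  exact single_mem_CIn (cst_In hp _)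

/-- constant simplex of a list -/
noncomputable def phiC {T : Type} (p : X) : LC T →ₗ[F2] SC X :=
  lin fun l => single (cst p l.length) 1

theorem phiC_single {T : Type} (p : X) (l : List T) :
    phiC p (single l 1) = single (cst p l.length) 1 := lin_single _ _

theorem phiC_cone {T : Type} (p : X) (a : T) (x : LC T) :
    phiC p (cone a x) = cC p (phiC p x) := by
  have : (phiC p ∘ₗ cone a) = cC p ∘ₗ phiC p := by
    apply lin_ext; intro l
    rw [LinearMap.comp_apply, LinearMap.comp_apply, cone_single, phiC_single, phiC_single,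
      cC_single]
    rfl
  exact congrArg (fun g => g x) this

theorem phiC_bd1 {T : Type} (p : X) (l : List T) :
    phiC p (bd1 l) = ((l.length : ℕ) : F2) • single (cst p (l.length - 1)) 1 := by
  induction l with
  | nil => simp
  | cons a l ih =>
    rw [bd1_cons, map_add, phiC_cone, ih, map_smul, phiC_single, cC_single]
    cases l with
    | nil => simp
    | cons b l =>
      have : (cst p ((b :: l).length - 1)).nv + 1 = (b :: l).length := by simp
      rw [this]
      rw [← one_smul F2 (single (cst p (b :: l).length) (1 : F2)), smul_smul, ← add_smul]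
      congr 1
      simp only [List.length_cons]
      push_cast
      ring

theorem realL_cst (p : X) (n : ℕ) (x : LC (Fin n)) :
    realL (cst p n) x = phiC p x := by
  have : realL (cst p n) = phiC p := by
    apply lin_ext; intro l
    rw [realL_single, phiC_single]
    rfl
  exact congrArg (fun g => g x) this

theorem bdS_cst (p : X) (n : ℕ) : bdS (single (cst p n) 1) =
    ((n : ℕ) : F2) • single (cst p (n - 1)) 1 := by
  rw [bdS_single, realL_cst, univ, bd_single, phiC_bd1]
  simp

theorem bdS_cC (p : X) (x : SC X) :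
    bdS (cC p x) + cC p (bdS x) = push (ContinuousMap.const X p) x := by
  have : (bdS ∘ₗ cC p + cC p ∘ₗ bdS) = push (ContinuousMap.const X p) := by
    apply lin_ext; intro σ
    rw [LinearMap.add_apply, LinearMap.comp_apply, LinearMap.comp_apply, cC_single, bdS_cst,
      bdS_single, push_single]
    have h1 : ∀ y : LC (Fin σ.nv), cC p (realL σ y) = cC p (phiC p y) := by
      intro y
      have : cC p ∘ₗ realL σ = cC p ∘ₗ phiC p := by
        apply lin_ext; intro l
        rw [LinearMap.comp_apply, LinearMap.comp_apply, realL_single, phiC_single, cC_single,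
          cC_single]
      exact congrArg (fun g => g y) this
    rw [h1, univ, bd_single, phiC_bd1, map_smul, cC_single]
    have h2 : (σ.push (ContinuousMap.const X p)) = cst p σ.nv := rfl
    rw [h2]
    simp only [List.length_finRange]
    rcases Nat.eq_zero_or_pos σ.nv with h0 | h0
    · rw [h0]; simp
    · have h3 : (cst p (σ.nv - 1)).nv + 1 = σ.nv := by
        change σ.nv - 1 + 1 = σ.nv
        omega
      rw [h3]
      have h4 : σ.nv + 1 - 1 = σ.nv := by omega
      rw [h4, ← add_smul]
      have h5 : (((σ.nv + 1 : ℕ) : F2) + ((σ.nv : ℕ) : F2)) = 1 := by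
        push_cast
        have := F2.add_self ((σ.nv : ℕ) : F2)
        calc ((σ.nv : ℕ) : F2) + 1 + ((σ.nv : ℕ) : F2)
            = (((σ.nv : ℕ) : F2) + ((σ.nv : ℕ) : F2)) + 1 := by ring
          _ = 1 := by rw [this, zero_add]
      rw [h5, one_smul]
  exact congrArg (fun g => g x) this

/-- Bounding chains may be taken homogeneous. -/
theorem prv_CIn {A : Set X} {x : SC X} (h : x ∈ CIn A) (m : ℕ) : prv m x ∈ CIn A :=
  prv_mem_supp h m

theorem homog {A : Set X} {m : ℕ} {z c : SC X} (hz : z ∈ Deg X m) (hc : c ∈ CIn A)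
    (h : bdS c = z) : ∃ c' ∈ CIn A, c' ∈ Deg X (m + 1) ∧ bdS c' = z :=
  ⟨prv (m + 1) c, prv_CIn hc _, prv_mem _ _, by rw [bdS_prv, h, prv_of_mem hz]⟩

end basic

section convex

variable {V : Type} [NormedAddCommGroup V] [InnerProductSpace ℝ V]

/-- The straight line homotopy to a point. -/
noncomputable def lineH (p : V) : C(V × unitInterval, V) :=
  ⟨fun x => (1 - (x.2 : ℝ)) • x.1 + (x.2 : ℝ) • p, by fun_prop⟩

/-- Cycles of a convex set bound. -/
theorem convex_acyclic {B : Set V} (hB : Convex ℝ B) (hne : B.Nonempty) {z : SC V}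
    (hz : z ∈ CIn B) (hc : bdS z = 0) : ∃ c ∈ CIn B, bdS c = z := by
  obtain ⟨p, hp⟩ := hne
  refine ⟨homS (lineH p) z + cC p z, Submodule.add_mem _ ?_ (cC_mem hp z), ?_⟩
  · apply homS_mem_CIn (A := B) (lineH p) _ hz
    intro a ha t
    exact hB ha hp (by linarith [t.2.2]) t.2.1 (by ring)
  · have h1 := bdS_homS (lineH p) z
    have h2 := bdS_cC p z
    rw [hc, map_zero, add_zero] at h1 h2
    rw [map_add, h1, h2]
    have e1 : (lineH p).comp (endMap V 0) = ContinuousMap.id V := by
      ext x
      simp [lineH, endMap]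
    have e2 : (lineH p).comp (endMap V 1) = ContinuousMap.const V p := by
      ext x
      simp [lineH, endMap]
    rw [e1, e2, push_id, add_assoc, add_self_eq_zero', add_zero]

end convex

section carrier

variable {T X : Type} [TopologicalSpace X]

theorem mem_of_supp {α M : Type*} [AddCommGroup M] [Module F2 M] (S : Submodule F2 M)
    (f : (α →₀ F2) →ₗ[F2] M) {x : α →₀ F2} (h : ∀ a ∈ x.support, f (single a 1) ∈ S) :
    f x ∈ S :=
  supp_induction (P := fun a => a ∈ x.support) S f h (mem_supp.2 fun _ ha => ha)

theorem eq_of_supp {α M : Type*} [AddCommGroup M] [Module F2 M]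
    (f g : (α →₀ F2) →ₗ[F2] M) {x : α →₀ F2}
    (h : ∀ a ∈ x.support, f (single a 1) = g (single a 1)) : f x = g x :=
  supp_ext (P := fun a => a ∈ x.support) f g h (mem_supp.2 fun _ ha => ha)

theorem face_len {l q : List T} (hq : q ∈ (bd1 l).support) : q.length + 1 = l.length := by
  cases l with
  | nil => simp at hq
  | cons a l =>
    have := mem_supp.1 (bd1_len a l) q hq
    rw [this]; rfl

theorem face_mem {l q : List T} (hq : q ∈ (bd1 l).support) : ∀ v ∈ q, v ∈ l :=
  mem_supp.1 (bd1_mem l) q hq

theorem face_sublist {l q : List T} (hq : q ∈ (bd1 l).support) : q.Sublist l := by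
  have : bd1 l ∈ supp fun q : List T => q.Sublist l := by
    clear hq
    induction l with
    | nil => simp
    | cons a l ih =>
      rw [bd1_cons]
      apply Submodule.add_mem
      · exact single_mem_supp (P := fun q : List T => q.Sublist (a :: l))
          (List.sublist_cons_self a l)
      · refine supp_induction _ (cone a) ?_ ih
        intro q hq
        rw [cone_single]
        exact single_mem_supp (P := fun q : List T => q.Sublist (a :: l)) (hq.cons_cons a)
  exact mem_supp.1 this q hq

theorem bd_bd1 (l : List T) : bd (bd1 l) = 0 := by rw [← bd_single, bd_bd]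

/-- **The carrier lemma.** -/
theorem carrier (Good : List T → Prop)
    (hher : ∀ l, Good l → ∀ q ∈ (bd1 l).support, Good q)
    (K R : List T → Submodule F2 (SC X))
    (hK : ∀ l, Good l → ∀ q ∈ (bd1 l).support, K q ≤ K l)
    (hR : ∀ l, Good l → ∀ q ∈ (bd1 l).support, R q ≤ R l)
    (G : LC T →ₗ[F2] SC X) (s k : ℕ)
    (hG : ∀ l, Good l → G (single l 1) ∈ K l)
    (hGd : ∀ l, Good l → ∀ m, l.length + s = m + 1 → G (single l 1) ∈ Deg X m)
    (hGR : ∀ l, Good l → bdS (G (single l 1)) + G (bd1 l) ∈ R l)
    (H0 : LC T →ₗ[F2] SC X)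
    (h0 : ∀ l, Good l → l.length ≤ k → H0 (single l 1) ∈ K l ∧
      H0 (single l 1) ∈ Deg X (l.length + s) ∧
      G (single l 1) + bdS (H0 (single l 1)) + H0 (bd1 l) ∈ R l) (n : ℕ)
    (hac : ∀ l, Good l → k < l.length → l.length ≤ n → ∀ m, l.length + s = m + 1 →
      ∀ c ∈ K l, c ∈ Deg X m → bdS c ∈ R l → ∃ a ∈ K l, a ∈ Deg X (m + 1) ∧ c + bdS a ∈ R l) :
    ∃ H : LC T →ₗ[F2] SC X, (∀ l, l.length ≤ k → H (single l 1) = H0 (single l 1)) ∧
      ∀ l, Good l → l.length ≤ n → H (single l 1) ∈ K l ∧
        H (single l 1) ∈ Deg X (l.length + s) ∧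
        G (single l 1) + bdS (H (single l 1)) + H (bd1 l) ∈ R l := by
  classical
  induction n with
  | zero =>
    exact ⟨H0, fun _ _ => rfl, fun l hl hn => h0 l hl (by omega)⟩
  | succ n ih =>
    obtain ⟨H, hH1, hH2⟩ := ih (fun l hl hk hn => hac l hl hk (by omega))
    by_cases hnk : n + 1 ≤ k
    · exact ⟨H0, fun _ _ => rfl, fun l hl hn => h0 l hl (by omega)⟩
    push Not at hnk
    -- the choice on lists of length n + 1
    have key : ∀ l, Good l → l.length = n + 1 → ∃ a ∈ K l, a ∈ Deg X (l.length + s) ∧
        G (single l 1) + bdS a + H (bd1 l) ∈ R l := by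
      intro l hl hlen
      have hfaces : ∀ q ∈ (bd1 l).support, q.length ≤ n := by
        intro q hq
        have := face_len hq
        omega
      have h1 : H (bd1 l) ∈ K l := by
        apply mem_of_supp
        intro q hq
        exact hK l hl q hq (hH2 q (hher l hl q hq) (hfaces q hq)).1
      have h2 : H (bd1 l) ∈ Deg X (n + s) := by
        apply mem_of_supp
        intro q hq
        have h3 := (hH2 q (hher l hl q hq) (hfaces q hq)).2.1
        have h4 := face_len hq
        have h5 : q.length = n := by omega
        rwa [h5] at h3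
      have h3 : bdS (G (single l 1) + H (bd1 l)) ∈ R l := by
        have h4 : (G + bdS ∘ₗ H + H ∘ₗ bd) (bd1 l) ∈ R l := by
          apply mem_of_supp
          intro q hq
          refine hR l hl q hq ?_
          have := (hH2 q (hher l hl q hq) (hfaces q hq)).2.2
          simpa only [LinearMap.add_apply, LinearMap.comp_apply, bd_single] using this
        simp only [LinearMap.add_apply, LinearMap.comp_apply] at h4
        rw [bd_bd1, map_zero, add_zero] at h4
        have h5 := Submodule.add_mem _ h4 (hGR l hl)
        have h6 : G (bd1 l) + bdS (H (bd1 l)) + (bdS (G (single l 1)) + G (bd1 l)) =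
            bdS (G (single l 1) + H (bd1 l)) := by
          rw [map_add]
          calc G (bd1 l) + bdS (H (bd1 l)) + (bdS (G (single l 1)) + G (bd1 l))
              = bdS (G (single l 1)) + bdS (H (bd1 l)) + (G (bd1 l) + G (bd1 l)) := by abel
            _ = _ := by rw [add_self_eq_zero', add_zero]
        rwa [h6] at h5
      obtain ⟨a, ha1, ha2, ha3⟩ := hac l hl (by omega) (by omega) (n + s) (by omega)
        (G (single l 1) + H (bd1 l)) (Submodule.add_mem _ (hG l hl) h1)
        (Submodule.add_mem _ (hGd l hl (n + s) (by omega)) h2) h3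
      refine ⟨a, ha1, ?_, ?_⟩
      · have : l.length + s = n + s + 1 := by omega
        rwa [this]
      · have : G (single l 1) + bdS a + H (bd1 l) = G (single l 1) + H (bd1 l) + bdS a := by abel
        rwa [this]
    let H' : LC T →ₗ[F2] SC X := lin fun l =>
      if h : Good l ∧ l.length = n + 1 then (key l h.1 h.2).choose else H (single l 1)
    have hH'1 : ∀ l, l.length ≠ n + 1 → H' (single l 1) = H (single l 1) := by
      intro l hl
      change (lin _) (single l 1) = _
      rw [lin_single, dif_neg (fun h => hl h.2)]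
    have hH'b : ∀ l, l.length ≤ n + 1 → H' (bd1 l) = H (bd1 l) := by
      intro l hl
      apply eq_of_supp
      intro q hq
      apply hH'1
      have := face_len hq
      omega
    refine ⟨H', ?_, ?_⟩
    · intro l hl
      rw [hH'1 l (by omega), hH1 l hl]
    · intro l hl hlen
      rw [hH'b l hlen]
      by_cases h : l.length = n + 1
      · have h1 : H' (single l 1) = (key l hl h).choose := by
          change (lin _) (single l 1) = _
          rw [lin_single, dif_pos ⟨hl, h⟩]
        rw [h1]
        exact (key l hl h).choose_spec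
      · rw [hH'1 l h]
        exact hH2 l hl (by omega)

end carrier

end TP

end STop
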