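import Pool.Agent.Lib.Pbb5b69.TightA

/-!
# Module TightPart, second part: half spaces, acyclicity
-/

open Finsupp

set_option linter.unusedSectionVars false

namespace STop

namespace TP

section support

variable {P V : Type} [TopologicalSpace P] [CompactSpace P] [Nonempty P]
  [NormedAddCommGroup V] [InnerProductSpace ℝ V]

/-- The support function. -/
noncomputable def Mx (h : P → V) (v : V) : ℝ := ⨆ x, inner ℝ v (h x)

/-- The preimage of a closed half space. -/
def AA (h : P → V) (v : V) (e : ℝ) : Set P := {x | Mx h v - e ≤ inner ℝ v (h x)}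

variable {h : P → V} (hh : Continuous h)

include hh

theorem bddInner (v : V) : BddAbove (Set.range fun x => (inner ℝ v (h x) : ℝ)) := by
  have : Continuous fun x => (inner ℝ v (h x) : ℝ) := continuous_const.inner hh
  exact (isCompact_range this).bddAbove

theorem inner_le_Mx (v : V) (x : P) : inner ℝ v (h x) ≤ Mx h v :=
  le_ciSup (bddInner hh v) x

theorem exists_eq_Mx (v : V) : ∃ x, inner ℝ v (h x) = Mx h v := by
  have hc : Continuous fun x => (inner ℝ v (h x) : ℝ) := continuous_const.inner hh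
  obtain ⟨x, _, hx⟩ := isCompact_univ.exists_isMaxOn Set.univ_nonempty hc.continuousOn
  refine ⟨x, le_antisymm (inner_le_Mx hh v x) ?_⟩
  apply ciSup_le
  intro y
  exact hx (Set.mem_univ y)

theorem exists_bound : ∃ R0 : ℝ, 1 ≤ R0 ∧ ∀ x, ‖h x‖ ≤ R0 := by
  obtain ⟨x, _, hx⟩ := isCompact_univ.exists_isMaxOn Set.univ_nonempty hh.norm.continuousOn
  exact ⟨max 1 ‖h x‖, le_max_left _ _, fun y => (hx (Set.mem_univ y)).trans (le_max_right _ _)⟩

theorem AA_closed (v : V) (e : ℝ) : IsClosed (AA h v e) := by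
  have hc : Continuous fun x => (inner ℝ v (h x) : ℝ) := continuous_const.inner hh
  exact isClosed_le continuous_const hc

theorem AA_nonempty (v : V) {e : ℝ} (he : 0 ≤ e) : (AA h v e).Nonempty := by
  obtain ⟨x, hx⟩ := exists_eq_Mx hh v
  refine ⟨x, ?_⟩
  change Mx h v - e ≤ inner ℝ v (h x)
  linarith

theorem Mx_le {R0 : ℝ} (hR : ∀ x, ‖h x‖ ≤ R0) (v w : V) : Mx h v ≤ Mx h w + R0 * ‖v - w‖ := by
  obtain ⟨x, hx⟩ := exists_eq_Mx hh v
  rw [← hx]
  have h1 : (inner ℝ v (h x) : ℝ) = inner ℝ w (h x) + inner ℝ (v - w) (h x) := by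
    rw [← inner_add_left]; congr 1; abel
  have h2 := inner_le_Mx hh w x
  have h3 : (inner ℝ (v - w) (h x) : ℝ) ≤ ‖v - w‖ * ‖h x‖ := real_inner_le_norm _ _
  have h4 : ‖v - w‖ * ‖h x‖ ≤ ‖v - w‖ * R0 :=
    mul_le_mul_of_nonneg_left (hR x) (norm_nonneg _)
  linarith

theorem AA_mono {R0 : ℝ} (hR : ∀ x, ‖h x‖ ≤ R0) {v w : V} {e e' : ℝ}
    (he : e' + 2 * R0 * ‖v - w‖ ≤ e) : AA h w e' ⊆ AA h v e := by
  intro x hx
  have hx' : Mx h w - e' ≤ inner ℝ w (h x) := hx
  change Mx h v - e ≤ inner ℝ v (h x)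
  have h0 := Mx_le hh hR v w
  have h1 : (inner ℝ w (h x) : ℝ) = inner ℝ v (h x) + inner ℝ (w - v) (h x) := by
    rw [← inner_add_left]; congr 1; abel
  have h3 : (inner ℝ (w - v) (h x) : ℝ) ≤ ‖w - v‖ * ‖h x‖ := real_inner_le_norm _ _
  have h4 : ‖w - v‖ * ‖h x‖ ≤ ‖w - v‖ * R0 :=
    mul_le_mul_of_nonneg_left (hR x) (norm_nonneg _)
  rw [norm_sub_rev w v] at h3 h4
  linarith

theorem Mx_ge {δ : ℝ} (hδ : 0 ≤ δ) (hball : Metric.closedBall (0 : V) δ ⊆
    convexHull ℝ (Set.range h)) (v : V) : δ * ‖v‖ ≤ Mx h v := by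
  by_cases hv : v = 0
  · rw [hv, norm_zero, mul_zero]
    obtain ⟨x, hx⟩ := exists_eq_Mx hh (0 : V)
    rw [← hx, inner_zero_left]
  · have hv' : 0 < ‖v‖ := norm_pos_iff.2 hv
    have hmem : (δ / ‖v‖) • v ∈ convexHull ℝ (Set.range h) := by
      apply hball
      rw [mem_closedBall_zero_iff, norm_smul, Real.norm_eq_abs, abs_div, abs_norm,
        div_mul_cancel₀ _ hv'.ne', abs_of_nonneg hδ]
    have hconv : Convex ℝ {y : V | (inner ℝ v y : ℝ) ≤ Mx h v} := by
      have : IsLinearMap ℝ (fun y : V => (inner ℝ v y : ℝ)) :=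
        ⟨fun x y => inner_add_right _ _ _, fun c x => by rw [inner_smul_right]; rfl⟩
      exact convex_halfSpace_le this _
    have hsub : convexHull ℝ (Set.range h) ⊆ {y : V | (inner ℝ v y : ℝ) ≤ Mx h v} := by
      apply convexHull_min _ hconv
      rintro _ ⟨x, rfl⟩
      exact inner_le_Mx hh v x
    have := hsub hmem
    simp only [Set.mem_ofPred_eq, inner_smul_right, real_inner_self_eq_norm_sq] at this
    have e1 : δ / ‖v‖ * ‖v‖ ^ 2 = δ * ‖v‖ := by field_simp
    rwa [e1] at this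

theorem AA_ne_univ {δ : ℝ} (hδ : 0 < δ) (hball : Metric.closedBall (0 : V) δ ⊆
    convexHull ℝ (Set.range h)) {v : V} {e : ℝ} (he : e < 2 * δ * ‖v‖) :
    AA h v e ≠ Set.univ := by
  intro hcon
  obtain ⟨x, hx⟩ := exists_eq_Mx hh (-v)
  have h1 := Mx_ge hh hδ.le hball (-v)
  have h2 := Mx_ge hh hδ.le hball v
  rw [← hx, norm_neg, inner_neg_left] at h1
  have h3 : x ∈ AA h v e := by rw [hcon]; trivial
  have h4 : Mx h v - e ≤ inner ℝ v (h x) := h3
  linarith

end support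

section acyclic

variable {P V : Type} [TopologicalSpace P] [CompactSpace P] [Nonempty P]
  [NormedAddCommGroup V] [InnerProductSpace ℝ V] {d : ℕ} {g : SC P} (hF : Facts P d g)
  {h : P → V} (hh : Continuous h) (ht : TightC h)

/-- Essential sets. -/
def Ess (P : Type) [TopologicalSpace P] (d : ℕ) (A : Set P) : Prop :=
  ∃ z ∈ CIn A, z ∈ Deg P (d + 1) ∧ bdS z = 0 ∧ ∀ c, bdS c ≠ z

omit [CompactSpace P] [Nonempty P] in
theorem Ess.mono {A B : Set P} (h : Ess P d A) (hAB : A ⊆ B) : Ess P d B := by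
  obtain ⟨z, hz, h⟩ := h
  exact ⟨z, CIn_mono hAB hz, h⟩

omit [CompactSpace P] in
include hF in
/-- Cycles of a proper closed subset bound, away from degree `d`. -/
theorem bounds_of_ne {A : Set P} (hA : IsClosed A) (hAu : A ≠ Set.univ) {z : SC P}
    (hz : z ∈ CIn A) {m : ℕ} (hm : z ∈ Deg P m) (hmd : m ≠ d + 1) (hb : bdS z = 0) :
    ∃ c, bdS c = z := by
  rcases Nat.eq_zero_or_pos m with h0 | h0
  · subst h0
    have hx : z ∈ LinearMap.range (bdS : SC P →ₗ[F2] SC P) := by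
      refine supp_induction (LinearMap.range bdS) LinearMap.id ?_ hm
      intro σ hσ
      obtain ⟨x⟩ := ‹Nonempty P›
      refine ⟨single (cst x 1) 1, ?_⟩
      rw [bdS_cst, LinearMap.id_apply, eq_e0 hσ, eq_e0 (σ := cst x (1 - 1)) rfl]
      simp
    exact hx
  · obtain ⟨k, rfl⟩ : ∃ k, m = k + 1 := ⟨m - 1, by omega⟩
    rcases Nat.eq_zero_or_pos k with h1 | h1
    · subst h1
      exact hF.conn z hm hb
    · rcases lt_trichotomy k (2 * d) with h2 | h2 | h2
      · exact hF.low k h1 (by omega) h2 z hm hb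
      · subst h2
        exact hF.top A hA hAu z hz hm hb
      · obtain ⟨c, _, hc⟩ := hF.high Set.univ isOpen_univ k h2 z (CIn_univ z) hm hb
        exact ⟨c, hc⟩

omit [CompactSpace P] [Nonempty P] in
include ht in
/-- Tightness. -/
theorem tight_bounds {v : V} (hv : v ≠ 0) {e : ℝ} (hne : (AA h v e).Nonempty) {z : SC P}
    (hz : z ∈ CIn (AA h v e)) (hb : ∃ c, bdS c = z) : ∃ c ∈ CIn (AA h v e), bdS c = z :=
  ht v (Mx h v - e) hv hne z hz hb

include hF hh ht in
/-- Inessential half spaces are acyclic; all half spaces are acyclic outside degree `d`. -/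
theorem acyclic_of_ne {v : V} (hv : v ≠ 0) {e : ℝ} (he : 0 ≤ e) (hAu : AA h v e ≠ Set.univ)
    {z : SC P} (hz : z ∈ CIn (AA h v e)) {m : ℕ} (hm : z ∈ Deg P m)
    (hmd : m ≠ d + 1 ∨ ¬ Ess P d (AA h v e)) (hb : bdS z = 0) :
    ∃ a ∈ CIn (AA h v e), a ∈ Deg P (m + 1) ∧ bdS a = z := by
  have h1 : ∃ c, bdS c = z := by
    by_cases hmd' : m = d + 1
    · subst hmd'
      rcases hmd with h | h
      · exact absurd rfl h
      · by_contra hcon
        push Not at hcon
        exact h ⟨z, hz, hm, hb, hcon⟩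
    · exact bounds_of_ne hF (AA_closed hh v e) hAu hz hm hmd' hb
  obtain ⟨c, hc, hcz⟩ := tight_bounds ht hv (AA_nonempty hh v he) hz h1
  exact homog hm hc hcz

end acyclic

end TP

end STop
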