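import Pool.Agent.Lib.Pbb5b69.TightB

/-!
# Module TightPart, third part: the comparison argument
-/

open Finsupp

set_option linter.unusedSectionVars false

namespace STop

namespace TP

section final

variable {P V : Type} [TopologicalSpace P] [CompactSpace P] [Nonempty P]
  [NormedAddCommGroup V] [InnerProductSpace ℝ V]

/-- The convex carriers. -/
def BB (r : ℕ → ℝ) : List V → Set V
  | [] => ∅
  | (v :: l) => {y | ∀ w, ‖w - v‖ ≤ r (l.length + 1) → 0 < (inner ℝ w y : ℝ)}

theorem BB_convex (r : ℕ → ℝ) (l : List V) : Convex ℝ (BB r l) := by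
  cases l with
  | nil => exact convex_empty
  | cons v l =>
    intro x hx y hy a b ha hb hab w hw
    rw [inner_add_right, inner_smul_right, inner_smul_right]
    have h1 := hx w hw
    have h2 := hy w hw
    rcases eq_or_lt_of_le ha with h | h
    · rw [← h] at hab ⊢
      rw [zero_add] at hab
      rw [hab]
      linarith
    · have := mul_pos h h1
      have := mul_nonneg hb h2.le
      linarith

theorem BB_ne_zero (r : ℕ → ℝ) (hr : ∀ n, 0 ≤ r n) (l : List V) : BB r l ⊆ {0}ᶜ := by
  cases l with
  | nil => intro x hx; exact absurd hx (by simp [BB])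
  | cons v l =>
    intro y hy h0
    rw [Set.mem_singleton_iff] at h0
    rw [h0] at hy
    have := hy v (by rw [sub_self, norm_zero]; exact hr _)
    rw [inner_zero_right] at this
    exact lt_irrefl _ this

/-- The carriers in `P`. -/
def AL (h : P → V) (e : ℕ → ℝ) : List V → Set P
  | [] => ∅
  | (v :: l) => AA h v (e (l.length + 1))

variable {d : ℕ} {g : SC P} (hF : Facts P d g) {h : P → V} (hh : Continuous h)

include hF hh in
/-- The final contradiction. -/
theorem final_contra {n : ℕ} (hn : 2 * d + 2 ≤ n) {δ R0 R r1 ρ rm em : ℝ}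
    (hδ : 0 < δ) (hR : ∀ x, ‖h x‖ ≤ R0)
    (hball : Metric.closedBall (0 : V) δ ⊆ convexHull ℝ (Set.range h))
    (hρ : 0 < ρ) (hrm : ((n : ℝ) + 1) * ρ ≤ rm) (hr1 : 4 * rm ≤ r1)
    (hem : em + rm * R0 < δ * r1)
    (Good : List V → Prop) (hher : ∀ l, Good l → ∀ q ∈ (bd1 l).support, Good q)
    (hGood : ∀ l, Good l → l.length ≤ n ∧ Mesh ρ l ∧ ∀ v ∈ l, r1 ≤ ‖v‖ ∧ ‖v‖ ≤ R)
    (ty : List V → Prop) (hty : ∀ l, Good l → ∀ q ∈ (bd1 l).support, ty q → ty l)
    (Q : Set P) (p : V) (r' : ℝ) (hr' : 0 ≤ r') (hp : r' < ‖p‖)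
    (hQ : ∀ x ∈ Q, h x ∈ Metric.closedBall p r')
    (htyB : ∀ v l, Good (v :: l) → ty (v :: l) → ∀ y ∈ Metric.closedBall p r', ∀ w,
      ‖w - v‖ ≤ rm → 0 < (inner ℝ w y : ℝ))
    (Φ : LC V →ₗ[F2] SC P) (hΦ0 : Φ (single [] 1) = single (e0 P) 1)
    (hΦ : ∀ l, Good l → Φ (single l 1) ∈ CIn (AL h (fun _ => em) l) ∧
      Φ (single l 1) ∈ Deg P l.length)
    (hΦR0 : ∀ l, Good l → ¬ ty l → bdS (Φ (single l 1)) + Φ (bd1 l) = 0)
    (hΦR1 : ∀ l, Good l → ty l → bdS (Φ (single l 1)) + Φ (bd1 l) ∈ CIn Q)
    (L : LC V) (hL : bd L = 0) (hLs : ∀ l ∈ L.support, Good l ∧ l.length = n)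
    (hLb : ∃ b ∈ CIn Q, bdS (Φ L) = bdS b)
    (hLne : ¬ ∃ c ∈ CIn ({0}ᶜ : Set V), bdS c = affL L) : False := by
  classical
  let r : ℕ → ℝ := fun k => if k ≤ n then ((n : ℝ) + 1 - k) * ρ else 0
  have hr0 : ∀ k, 0 ≤ r k := by
    intro k
    by_cases hk : k ≤ n
    · have : (k : ℝ) ≤ n := by exact_mod_cast hk
      simp only [r, if_pos hk]
      apply mul_nonneg _ hρ.le
      linarith
    · simp only [r, if_neg hk]; exact le_rfl
  have hrrm : ∀ k, r k ≤ rm := by
    intro k
    by_cases hk : k ≤ n
    · simp only [r, if_pos hk]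
      refine le_trans ?_ hrm
      apply mul_le_mul_of_nonneg_right _ hρ.le
      linarith [show (0 : ℝ) ≤ k from by positivity]
    · simp only [r, if_neg hk]
      refine le_trans ?_ hrm
      positivity
  have hrsucc : ∀ k, k + 1 ≤ n → r (k + 1) + ρ = r k := by
    intro k hk
    simp only [r, if_pos hk, if_pos (show k ≤ n by omega)]
    push_cast
    ring
  have hρrm : ρ ≤ rm := by
    refine le_trans ?_ hrm
    have : (0 : ℝ) ≤ n := by positivity
    nlinarith
  have hrm0 : 0 < rm := lt_of_lt_of_le hρ hρrm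
  have hr10 : 0 < r1 := by linarith
  -- entries are in BB
  have hBBmem : ∀ v l, Good (v :: l) → ∀ y ∈ v :: l, y ∈ BB r (v :: l) := by
    intro v l hl y hy w hw
    obtain ⟨_, hmesh, hnorm⟩ := hGood _ hl
    have h1 : ‖y - v‖ ≤ ρ := by
      have := hmesh y hy v List.mem_cons_self
      rwa [dist_eq_norm] at this
    have hv := (hnorm v List.mem_cons_self).1
    have hw' : ‖w - v‖ ≤ rm := hw.trans (hrrm _)
    have h2 : ‖y - w‖ ≤ ρ + rm := by
      have : y - w = (y - v) - (w - v) := by abel
      rw [this]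
      exact (norm_sub_le _ _).trans (add_le_add h1 hw')
    have h3 : ‖v‖ - rm ≤ ‖w‖ := by
      have : ‖v‖ ≤ ‖w‖ + ‖w - v‖ := by
        have e : v = w - (w - v) := by abel
        conv_lhs => rw [e]
        exact norm_sub_le _ _
      linarith
    have h4 : (inner ℝ w y : ℝ) = ‖w‖ ^ 2 + inner ℝ w (y - w) := by
      rw [← real_inner_self_eq_norm_sq, ← inner_add_right]
      congr 1; abel
    have h5 : -(‖w‖ * ‖y - w‖) ≤ (inner ℝ w (y - w) : ℝ) := by
      have := abs_real_inner_le_norm w (y - w)
      exact (abs_le.1 this).1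
    rw [h4]
    have h6 : 0 < ‖w‖ := by linarith
    have h7 : ‖w‖ * ‖y - w‖ ≤ ‖w‖ * (ρ + rm) := mul_le_mul_of_nonneg_left h2 h6.le
    nlinarith
  -- half spaces map into BB
  have hAB : ∀ l, Good l → ∀ x ∈ AL h (fun _ => em) l, h x ∈ BB r l := by
    intro l hl x hx
    cases l with
    | nil => exact absurd hx (by simp [AL])
    | cons v l =>
      intro w hw
      have hx' : Mx h v - em ≤ inner ℝ v (h x) := hx
      have hw' : ‖w - v‖ ≤ rm := hw.trans (hrrm _)
      have hM := Mx_ge hh hδ.le hball v
      have hv := ((hGood _ hl).2.2 v List.mem_cons_self).1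
      have h1 : (inner ℝ w (h x) : ℝ) = inner ℝ v (h x) + inner ℝ (w - v) (h x) := by
        rw [← inner_add_left]; congr 1; abel
      have h2 : -(‖w - v‖ * ‖h x‖) ≤ (inner ℝ (w - v) (h x) : ℝ) := by
        have := abs_real_inner_le_norm (w - v) (h x)
        exact (abs_le.1 this).1
      have h3 : ‖w - v‖ * ‖h x‖ ≤ rm * R0 :=
        mul_le_mul hw' (hR x) (norm_nonneg _) hrm0.le
      have h4 : δ * r1 ≤ δ * ‖v‖ := mul_le_mul_of_nonneg_left hv hδ.le
      rw [h1]
      linarith
  have hALU : ∀ l, Good l → AL h (fun _ => em) l ⊆ {x | h x ≠ 0} := by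
    intro l hl x hx
    exact BB_ne_zero r hr0 l (hAB l hl x hx)
  let hC : C(P, V) := ⟨h, hh⟩
  let G : LC V →ₗ[F2] SC V := push hC ∘ₗ Φ + affL
  let K : List V → Submodule F2 (SC V) := fun l => CIn (BB r l)
  let Rr : List V → Submodule F2 (SC V) := fun l => if ty l then CIn (Metric.closedBall p r') else ⊥
  have hRr : ∀ l, Rr l ≤ CIn (Metric.closedBall p r') := by
    intro l
    by_cases hl : ty l
    · simp only [Rr, if_pos hl]; exact le_rfl
    · simp only [Rr, if_neg hl]; exact bot_le
  have hQp : ∀ x ∈ CIn Q, push hC x ∈ CIn (Metric.closedBall p r') :=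
    fun x hx => push_mem_CIn hC hQ hx
  have hBBsub : ∀ l, Good l → ∀ q ∈ (bd1 l).support, BB r q ⊆ BB r l := by
    intro l hl q hq
    have hlen := face_len hq
    have hmem := face_mem hq
    cases q with
    | nil => intro x hx; exact absurd hx (by simp [BB])
    | cons v' q =>
      cases l with
      | nil => simp at hq
      | cons v l =>
        intro y hy w hw
        apply hy
        obtain ⟨hln, hmesh, _⟩ := hGood _ hl
        have h1 : ‖v - v'‖ ≤ ρ := by
          have := hmesh v List.mem_cons_self v' (hmem v' List.mem_cons_self)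
          rwa [dist_eq_norm] at this
        have h2 : w - v' = (w - v) + (v - v') := by abel
        rw [h2]
        refine (norm_add_le _ _).trans ?_
        simp only [List.length_cons] at hlen hln
        have h3 := hrsucc (q.length + 1) (by omega)
        rw [← h3]
        have h4 : q.length + 1 + 1 = l.length + 1 := hlen
        rw [h4]
        exact add_le_add hw h1
  obtain ⟨H, _, hH⟩ := carrier (X := V) Good hher K Rr
    (fun l hl q hq => CIn_mono (hBBsub l hl q hq))
    (by
      intro l hl q hq
      by_cases hq' : ty q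
      · simp only [Rr, if_pos hq', if_pos (hty l hl q hq hq')]; exact le_rfl
      · simp only [Rr, if_neg hq']; exact bot_le)
    G 1 0
    (by
      intro l hl
      apply Submodule.add_mem
      · exact push_mem_CIn hC (hAB l hl) (hΦ l hl).1
      · rw [affL_single]
        apply single_mem_CIn
        intro t
        cases l with
        | nil => exact (show IsEmpty (Dl 0) from inferInstance).elim t
        | cons v l =>
          have : (aff (v :: l)).map t = ∑ i, t i • (v :: l).get i := rfl
          rw [this]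
          apply (BB_convex r (v :: l)).sum_mem (fun i _ => t.2.1 i) t.2.2
          intro i _
          exact hBBmem v l hl _ (List.get_mem _ _))
    (by
      intro l hl m hm
      have : m = l.length := by omega
      subst this
      apply Submodule.add_mem
      · exact push_mem_Deg hC (hΦ l hl).2
      · rw [affL_single]
        exact single_mem_supp (P := fun τ : Sing V => τ.nv = l.length) rfl)
    (by
      intro l hl
      have h1 : bdS (G (single l 1)) + G (bd1 l) =
          push hC (bdS (Φ (single l 1)) + Φ (bd1 l)) := by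
        change bdS (push hC (Φ (single l 1)) + affL (single l 1)) +
          (push hC (Φ (bd1 l)) + affL (bd1 l)) = _
        rw [map_add, map_add, push_bdS, bdS_affL, bd_single]
        calc bdS (push hC (Φ (single l 1))) + affL (bd1 l) + (push hC (Φ (bd1 l)) + affL (bd1 l))
            = bdS (push hC (Φ (single l 1))) + push hC (Φ (bd1 l)) +
              (affL (bd1 l) + affL (bd1 l)) := by abel
          _ = _ := by rw [add_self_eq_zero', add_zero]
      rw [h1]
      by_cases hl' : ty l
      · simp only [Rr, if_pos hl']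
        exact hQp _ (hΦR1 l hl hl')
      · rw [hΦR0 l hl hl', map_zero]
        exact Submodule.zero_mem _)
    0
    (by
      intro l hl hl0
      have hl1 : l = [] := List.length_eq_zero_iff.1 (by omega)
      subst hl1
      refine ⟨Submodule.zero_mem _, Submodule.zero_mem _, ?_⟩
      have h1 : G (single [] 1) = 0 := by
        change push hC (Φ (single [] 1)) + affL (single [] 1) = 0
        rw [hΦ0, push_e0, affL_single, eq_e0 (σ := aff ([] : List V)) rfl]
        exact add_self_eq_zero' _
      rw [h1]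
      simp)
    n
    (by
      intro l hl hl0 _ m hm c hc hcd hcR
      have hml : m = l.length := by omega
      cases l with
      | nil => simp at hl0
      | cons v l =>
        have hBne : (BB r (v :: l)).Nonempty := ⟨v, hBBmem v l hl v List.mem_cons_self⟩
        by_cases hl' : ty (v :: l)
        · simp only [Rr, if_pos hl'] at hcR ⊢
          have hpne : (Metric.closedBall p r').Nonempty := ⟨p, Metric.mem_closedBall_self hr'⟩
          obtain ⟨b, hb, hbc⟩ := convex_acyclic (convex_closedBall p r') hpne hcR (bdS_bdS c)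
          obtain ⟨k, rfl⟩ : ∃ k, m = k + 1 := ⟨l.length, by rw [hml]; rfl⟩
          obtain ⟨b, hb, hbd, hbc⟩ := homog (bdS_mem_Deg hcd) hb hbc
          have hbB : b ∈ CIn (BB r (v :: l)) := by
            refine CIn_mono ?_ hb
            intro y hy w hw
            exact htyB v l hl hl' y hy w (hw.trans (hrrm _))
          have hcyc : bdS (c + b) = 0 := by rw [map_add, hbc, add_self_eq_zero']
          obtain ⟨a, ha, hac⟩ := convex_acyclic (BB_convex r (v :: l)) hBne
            (Submodule.add_mem _ hc hbB) hcyc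
          obtain ⟨a, ha, had, hac⟩ := homog (Submodule.add_mem _ hcd hbd) ha hac
          refine ⟨a, ha, had, ?_⟩
          rw [hac, ← add_assoc, add_self_eq_zero', zero_add]
          exact hb
        · simp only [Rr, if_neg hl', Submodule.mem_bot] at hcR ⊢
          obtain ⟨a, ha, hac⟩ := convex_acyclic (BB_convex r (v :: l)) hBne hc hcR
          obtain ⟨a, ha, had, hac⟩ := homog hcd ha hac
          exact ⟨a, ha, had, by rw [hac, add_self_eq_zero']⟩)
  -- the final step
  obtain ⟨b, hb, hbL⟩ := hLb
  have hΦLd : Φ L ∈ Deg P n := by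
    apply mem_of_supp
    intro l hl
    have := (hΦ l (hLs l hl).1).2
    rwa [(hLs l hl).2] at this
  have hΦLU : Φ L ∈ CIn {x | h x ≠ 0} := by
    apply mem_of_supp
    intro l hl
    exact CIn_mono (hALU l (hLs l hl).1) (hΦ l (hLs l hl).1).1
  have hQU : CIn Q ≤ CIn {x | h x ≠ 0} := by
    apply CIn_mono
    intro x hx h0
    have := hQ x hx
    rw [h0, Metric.mem_closedBall, dist_zero_left] at this
    linarith
  obtain ⟨n', rfl⟩ : ∃ n', n = n' + 1 := ⟨n - 1, by omega⟩
  have hb' : bdS b = bdS (prv (n' + 1) b) := by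
    rw [bdS_prv, ← hbL, prv_of_mem (bdS_mem_Deg hΦLd)]
  have hz : bdS (Φ L + prv (n' + 1) b) = 0 := by
    rw [map_add, ← hb', hbL, add_self_eq_zero']
  have hUopen : IsOpen {x | h x ≠ 0} := by
    exact isOpen_ne_fun hh continuous_const
  obtain ⟨c, hcU, hcz⟩ := hF.high {x | h x ≠ 0} hUopen n' (by omega) _
    (Submodule.add_mem _ hΦLU (hQU (prv_CIn hb _)))
    (Submodule.add_mem _ hΦLd (prv_mem _ _)) hz
  set b' := prv (n' + 1) b with hb'def
  have hy : G L + bdS (H L) ∈ CIn (Metric.closedBall p r') := by
    have h1 : (G + bdS ∘ₗ H + H ∘ₗ bd) L ∈ CIn (Metric.closedBall p r') := by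
      apply mem_of_supp
      intro l hl
      have := (hH l (hLs l hl).1 (hLs l hl).2.le).2.2
      refine hRr l ?_
      simpa only [LinearMap.add_apply, LinearMap.comp_apply, bd_single] using this
    simpa only [LinearMap.add_apply, LinearMap.comp_apply, hL, map_zero, add_zero] using h1
  have hHL : H L ∈ CIn ({0}ᶜ : Set V) := by
    apply mem_of_supp
    intro l hl
    exact CIn_mono (BB_ne_zero r hr0 l) (hH l (hLs l hl).1 (hLs l hl).2.le).1
  have hy' : G L + bdS (H L) + push hC b' ∈ CIn (Metric.closedBall p r') :=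
    Submodule.add_mem _ hy (hQp _ (prv_CIn hb _))
  have hbs : push hC (Φ L) + push hC b' = bdS (push hC c) := by
    rw [← map_add, ← hcz, push_bdS]
  have e1 : G L + bdS (H L) + push hC b' = bdS (push hC c + H L) + affL L := by
    change push hC (Φ L) + affL L + bdS (H L) + push hC b' = _
    rw [map_add, ← hbs]
    abel
  have hcyc : bdS (G L + bdS (H L) + push hC b') = 0 := by
    rw [e1, map_add, bdS_bdS, bdS_affL, hL, map_zero, add_zero]
  obtain ⟨c', hc', hcc'⟩ := convex_acyclic (convex_closedBall p r')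
    ⟨p, Metric.mem_closedBall_self hr'⟩ hy' hcyc
  apply hLne
  refine ⟨push hC c + H L + c', ?_, ?_⟩
  · apply Submodule.add_mem
    · apply Submodule.add_mem _ _ hHL
      exact push_mem_CIn hC (fun x hx => hx) hcU
    · refine CIn_mono ?_ hc'
      intro y hy h0
      rw [Set.mem_singleton_iff] at h0
      rw [h0, Metric.mem_closedBall, dist_zero_left] at hy
      linarith
  · rw [map_add, hcc', e1, ← add_assoc, add_self_eq_zero', zero_add]

end final

end TP

end STop
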