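import Pool.Agent.Lib.Pbb5b69.TightF

/-!
# Module TightPart, fourth part: claim (B), faces which are points
-/

open Finsupp Module

set_option linter.unusedSectionVars false

namespace STop

namespace TP

section claimB

variable {P V : Type} [TopologicalSpace P] [CompactSpace P] [Nonempty P]
  [NormedAddCommGroup V] [InnerProductSpace ℝ V]

theorem prv_bdS_eq {X : Type} [TopologicalSpace X] {m : ℕ} {c b : SC X} (hc : c ∈ Deg X m)
    (h : bdS b = bdS c) : bdS (prv m b) = bdS c := by
  cases m with
  | zero => rw [bdS_Deg_zero hc, bdS_Deg_zero (prv_mem 0 b)]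
  | succ m => rw [bdS_prv, h, prv_of_mem (bdS_mem_Deg hc)]

/-- Points near the maximum are near the face. -/
theorem near_face {h : P → V} (hh : Continuous h) {u p : V} {r' c : ℝ} (hr' : 0 < r') (hc : 0 < c)
    (hp : ∀ x, inner ℝ u (h x) = Mx h u → h x = p) :
    ∃ e, 0 < e ∧ e ≤ c ∧ ∀ x ∈ AA h u e, h x ∈ Metric.closedBall p r' := by
  have hS : IsClosed {x | r' ≤ dist (h x) p} := isClosed_le continuous_const (hh.dist continuous_const)
  by_cases hne : {x | r' ≤ dist (h x) p}.Nonempty
  · have hφ : Continuous fun x => Mx h u - (inner ℝ u (h x) : ℝ) :=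
      continuous_const.sub (continuous_const.inner hh)
    obtain ⟨x₀, hx₀, hmin⟩ := hS.isCompact.exists_isMinOn hne hφ.continuousOn
    have h0 : 0 < Mx h u - (inner ℝ u (h x₀) : ℝ) := by
      rcases (sub_nonneg.2 (inner_le_Mx hh u x₀)).lt_or_eq with h1 | h1
      · exact h1
      · have h2 := hp x₀ (by linarith)
        have h3 : r' ≤ dist (h x₀) p := hx₀
        rw [h2, dist_self] at h3
        linarith
    refine ⟨min ((Mx h u - (inner ℝ u (h x₀) : ℝ)) / 2) c, lt_min (by linarith) hc,
      min_le_right _ _, ?_⟩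
    intro x hx
    by_contra hcon
    have h1 : r' ≤ dist (h x) p := by
      rw [Metric.mem_closedBall] at hcon
      linarith
    have h2 : Mx h u - (inner ℝ u (h x₀) : ℝ) ≤ Mx h u - (inner ℝ u (h x) : ℝ) := hmin h1
    have h3 : Mx h u - min ((Mx h u - (inner ℝ u (h x₀) : ℝ)) / 2) c ≤ inner ℝ u (h x) := hx
    have h4 := min_le_left ((Mx h u - (inner ℝ u (h x₀) : ℝ)) / 2) c
    linarith
  · refine ⟨c, hc, le_rfl, fun x _ => ?_⟩
    rw [Set.not_nonempty_iff_eq_empty] at hne
    by_contra hcon
    rw [Metric.mem_closedBall] at hcon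
    have : x ∈ {x | r' ≤ dist (h x) p} := by
      change r' ≤ dist (h x) p
      linarith
    rw [hne] at this
    exact this

/-- The base of the carrier constructions. -/
noncomputable def baseH (T P : Type) [TopologicalSpace P] : LC T →ₗ[F2] SC P :=
  lin fun l => if l.length = 0 then single (e0 P) 1 else 0

theorem baseH_nil {T : Type} : baseH T P (single [] 1) = single (e0 P) 1 := by
  rw [baseH, lin_single]; rfl

/-- carriers from levels -/
def ALg (h : P → V) (e : List V → ℝ) : List V → Set P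
  | [] => ∅
  | (v :: l) => AA h v (e (v :: l))

variable {d : ℕ} {g : SC P} (hF : Facts P d g) {h : P → V} (hh : Continuous h) (ht : TightC h)
  [FiniteDimensional ℝ V]

include hF hh ht in
theorem claimB (hfund : FundStatement) {δ : ℝ} (hδ : 0 < δ)
    (hball : Metric.closedBall (0 : V) δ ⊆ convexHull ℝ (Set.range h))
    (hn : 2 * d + 2 ≤ finrank ℝ V) {u : V} (hu : u ≠ 0)
    (hess : ∀ e > 0, Ess P d (AA h u e)) (p : V)
    (hp : ∀ x, inner ℝ u (h x) = Mx h u → h x = p) : False := by
  classical
  obtain ⟨R0, hR0, hR⟩ := exists_bound hh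
  obtain ⟨R, hR1, hfund⟩ := hfund V (by omega)
  set n := finrank ℝ V with hndef
  have hu' : 0 < ‖u‖ := norm_pos_iff.2 hu
  have hp0 : 0 < ‖p‖ := by
    rw [norm_pos_iff]
    rintro rfl
    obtain ⟨x, hx⟩ := exists_eq_Mx hh u
    have h1 := hp x hx
    have h2 := Mx_ge hh hδ.le hball u
    rw [← hx, h1, inner_zero_right] at h2
    have := mul_pos hδ hu'
    linarith
  -- constants
  set r' : ℝ := min (‖p‖ / 2) (δ / (16 * R)) with hr'def
  have hRpos : 0 < R := by linarith
  have hr'0 : 0 < r' := lt_min (by linarith) (by positivity)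
  have hr'p : r' < ‖p‖ := lt_of_le_of_lt (min_le_left _ _) (by linarith)
  have hr'R : 2 * r' * R ≤ δ / 8 := by
    have h1 : r' ≤ δ / (16 * R) := min_le_right _ _
    have h2 : r' * (16 * R) ≤ δ := by
      rwa [le_div_iff₀ (by positivity)] at h1
    linarith
  have hr'δ : 2 * r' ≤ δ / 8 := by
    have : 2 * r' * 1 ≤ 2 * r' * R := mul_le_mul_of_nonneg_left hR1 (by linarith)
    linarith
  obtain ⟨e', he'0, he'u, hQp⟩ := near_face hh (u := u) (p := p) hr'0 (mul_pos hδ hu') hp
  set Q : Set P := AA h u e' with hQdef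
  have hQc : IsClosed Q := AA_closed hh u e'
  have hQne : Q.Nonempty := AA_nonempty hh u he'0.le
  obtain ⟨gQ, hgQ, hgQd, hgQc, hgQn⟩ := hess e' he'0
  set ε1 : ℝ := δ / (8 * ((n : ℝ) + 1)) with hε1def
  have hn1 : (0 : ℝ) < (n : ℝ) + 1 := by positivity
  have hε1 : 0 < ε1 := by positivity
  have hε1n : ((n : ℝ) + 1) * ε1 = δ / 8 := by
    rw [hε1def]; field_simp
  have hlev : ∀ k : ℕ, k ≤ n → (k : ℝ) * ε1 ≤ δ / 8 := by
    intro k hk
    rw [← hε1n]
    apply mul_le_mul_of_nonneg_right _ hε1.le
    have : (k : ℝ) ≤ n := by exact_mod_cast hk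
    linarith
  set rm : ℝ := min (1 / 4) (δ / (8 * R0)) with hrmdef
  have hR0pos : 0 < R0 := by linarith
  have hrm0 : 0 < rm := lt_min (by norm_num) (by positivity)
  have hrm4 : 4 * rm ≤ 1 := by
    have : rm ≤ 1 / 4 := min_le_left _ _
    linarith
  have hrmR : rm * R0 ≤ δ / 8 := by
    have h1 : rm ≤ δ / (8 * R0) := min_le_right _ _
    have h2 : rm * (8 * R0) ≤ δ := by
      rwa [le_div_iff₀ (by positivity)] at h1
    linarith
  set ρ : ℝ := min (ε1 / (2 * R0)) (rm / ((n : ℝ) + 1)) with hρdef
  have hρ0 : 0 < ρ := lt_min (by positivity) (by positivity)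
  have hρ1 : 2 * R0 * ρ ≤ ε1 := by
    have h1 : ρ ≤ ε1 / (2 * R0) := min_le_left _ _
    have h2 : ρ * (2 * R0) ≤ ε1 := by
      rwa [le_div_iff₀ (by positivity)] at h1
    linarith
  have hρ2 : ((n : ℝ) + 1) * ρ ≤ rm := by
    have h1 : ρ ≤ rm / ((n : ℝ) + 1) := min_le_right _ _
    have h2 : ρ * ((n : ℝ) + 1) ≤ rm := by
      rwa [le_div_iff₀ (by positivity)] at h1
    linarith
  obtain ⟨L, hL, hLs, hLne⟩ := hfund ρ hρ0
  -- good lists and types
  let Good : List V → Prop := fun l => l.length ≤ n ∧ Mesh ρ l ∧ ∀ v ∈ l, 1 ≤ ‖v‖ ∧ ‖v‖ ≤ R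
  have hher : ∀ l, Good l → ∀ q ∈ (bd1 l).support, Good q := by
    rintro l ⟨h1, h2, h3⟩ q hq
    have hlen := face_len hq
    have hmem := face_mem hq
    exact ⟨by omega, fun a ha b hb => h2 a (hmem a ha) b (hmem b hb), fun v hv => h3 v (hmem v hv)⟩
  let ty : List V → Prop := fun l =>
    match l with
    | [] => False
    | (v :: l) => (Q ∩ AA h v (((l.length + 1 : ℕ) : ℝ) * ε1)).Nonempty
  have hclose : ∀ v l v' q, Good (v :: l) → (v' :: q) ∈ (bd1 (v :: l)).support →
      2 * R0 * ‖v - v'‖ ≤ ε1 := by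
    intro v l v' q hl hq
    have h1 := hl.2.1 v List.mem_cons_self v' (face_mem hq v' List.mem_cons_self)
    rw [dist_eq_norm] at h1
    refine le_trans ?_ hρ1
    exact mul_le_mul_of_nonneg_left h1 (by positivity)
  have hAAsub : ∀ v l v' q, Good (v :: l) → (v' :: q) ∈ (bd1 (v :: l)).support → ∀ c : ℝ,
      AA h v' (((q.length + 1 : ℕ) : ℝ) * ε1 + c) ⊆ AA h v (((l.length + 1 : ℕ) : ℝ) * ε1 + c) := by
    intro v l v' q hl hq c
    apply AA_mono hh hR
    have h1 := hclose v l v' q hl hq
    have h2 := face_len hq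
    simp only [List.length_cons] at h2
    have h3 : ((l.length + 1 : ℕ) : ℝ) = ((q.length + 1 : ℕ) : ℝ) + 1 := by
      rw [← h2]; push_cast; ring
    rw [h3]
    linarith
  have hty : ∀ l, Good l → ∀ q ∈ (bd1 l).support, ty q → ty l := by
    intro l hl q hq hq'
    cases q with
    | nil => exact absurd hq' id
    | cons v' q =>
      cases l with
      | nil => simp at hq
      | cons v l =>
        obtain ⟨x, hx1, hx2⟩ := hq'
        refine ⟨x, hx1, ?_⟩
        have := hAAsub v l v' q hl hq 0
        rw [add_zero, add_zero] at this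
        exact this hx2
  -- in the type case, `Q` is in the larger half space
  have hQsub : ∀ v l, Good (v :: l) → ty (v :: l) →
      Q ⊆ AA h v (((l.length + 1 : ℕ) : ℝ) * ε1 + 2 * r' * R) := by
    rintro v l hl ⟨x0, hx0, hx0'⟩ x hx
    have h1 : Mx h v - ((l.length + 1 : ℕ) : ℝ) * ε1 ≤ inner ℝ v (h x0) := hx0'
    change Mx h v - (((l.length + 1 : ℕ) : ℝ) * ε1 + 2 * r' * R) ≤ inner ℝ v (h x)
    have h2 : (inner ℝ v (h x) : ℝ) = inner ℝ v (h x0) + inner ℝ v (h x - h x0) := by
      rw [← inner_add_right]; congr 1; abel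
    have h3 : -(‖v‖ * ‖h x - h x0‖) ≤ (inner ℝ v (h x - h x0) : ℝ) := by
      have := abs_real_inner_le_norm v (h x - h x0)
      exact (abs_le.1 this).1
    have h4 : ‖h x - h x0‖ ≤ 2 * r' := by
      have h5 := hQp x hx
      have h6 := hQp x0 hx0
      rw [Metric.mem_closedBall] at h5 h6
      rw [← dist_eq_norm]
      calc dist (h x) (h x0) ≤ dist (h x) p + dist (h x0) p := dist_triangle_right _ _ _
        _ ≤ 2 * r' := by linarith
    have hv := (hl.2.2 v List.mem_cons_self).2
    have h7 : ‖v‖ * ‖h x - h x0‖ ≤ R * (2 * r') :=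
      mul_le_mul hv h4 (norm_nonneg _) hRpos.le
    linarith
  let KS : List V → Set P := fun l =>
    match l with
    | [] => ∅
    | (v :: l) => if ty (v :: l) then AA h v (((l.length + 1 : ℕ) : ℝ) * ε1 + 2 * r' * R)
        else AA h v (((l.length + 1 : ℕ) : ℝ) * ε1)
  let Rr : List V → Submodule F2 (SC P) := fun l => if ty l then CIn Q else ⊥
  have hKS1 : ∀ v l, ty (v :: l) →
      KS (v :: l) = AA h v (((l.length + 1 : ℕ) : ℝ) * ε1 + 2 * r' * R) := fun v l hl => if_pos hl
  have hKS0 : ∀ v l, ¬ ty (v :: l) → KS (v :: l) = AA h v (((l.length + 1 : ℕ) : ℝ) * ε1) :=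
    fun v l hl => if_neg hl
  have hKS : ∀ l, Good l → ∀ q ∈ (bd1 l).support, KS q ⊆ KS l := by
    intro l hl q hq
    cases q with
    | nil => exact Set.empty_subset _
    | cons v' q =>
      cases l with
      | nil => simp at hq
      | cons v l =>
        by_cases hq' : ty (v' :: q)
        · have hl' := hty _ hl _ hq hq'
          rw [hKS1 _ _ hq', hKS1 _ _ hl']
          exact hAAsub v l v' q hl hq _
        · rw [hKS0 _ _ hq']
          have h1 := hAAsub v l v' q hl hq 0
          rw [add_zero, add_zero] at h1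
          by_cases hl' : ty (v :: l)
          · rw [hKS1 _ _ hl']
            refine h1.trans (AA_mono hh hR ?_)
            rw [sub_self, norm_zero, mul_zero, add_zero]
            have : 0 ≤ 2 * r' * R := by positivity
            linarith
          · rw [hKS0 _ _ hl']
            exact h1
  obtain ⟨Φ, hΦ0, hΦ⟩ := carrier (X := P) Good hher (fun l => CIn (KS l)) Rr
    (fun l hl q hq => CIn_mono (hKS l hl q hq))
    (by
      intro l hl q hq
      by_cases hq' : ty q
      · simp only [Rr, if_pos hq', if_pos (hty l hl q hq hq')]; exact le_rfl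
      · simp only [Rr, if_neg hq']; exact bot_le)
    0 0 0 (fun l _ => Submodule.zero_mem _) (fun l _ m _ => Submodule.zero_mem _)
    (fun l _ => by simp) (baseH V P)
    (by
      intro l hl hl0
      have hl1 : l = [] := List.length_eq_zero_iff.1 (by omega)
      subst hl1
      rw [baseH_nil]
      refine ⟨e0_mem _, e0_deg, ?_⟩
      rw [bd1_nil, map_zero, bdS_Deg_zero e0_deg]
      simp)
    n
    (by
      intro l hl hl0 hln m hm c hc hcd hcR
      have hml : l.length = m + 1 := by omega
      cases l with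
      | nil => simp at hl0
      | cons v l =>
        have hvn := (hl.2.2 v List.mem_cons_self).1
        have hv : v ≠ 0 := by
          rintro rfl
          rw [norm_zero] at hvn
          linarith
        have hk := hlev (l.length + 1) (by simpa using hln)
        have hk0 : 0 ≤ ((l.length + 1 : ℕ) : ℝ) * ε1 := by positivity
        have hδv : δ ≤ δ * ‖v‖ := by nlinarith
        by_cases hl' : ty (v :: l)
        · simp only [Rr, if_pos hl'] at hcR ⊢
          have hKeq : KS (v :: l) = AA h v (((l.length + 1 : ℕ) : ℝ) * ε1 + 2 * r' * R) := if_pos hl'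
          rw [hKeq] at hc ⊢
          have hAne : AA h v (((l.length + 1 : ℕ) : ℝ) * ε1 + 2 * r' * R) ≠ Set.univ := by
            apply AA_ne_univ hh hδ hball
            linarith
          have hA0 : 0 ≤ ((l.length + 1 : ℕ) : ℝ) * ε1 + 2 * r' * R := by positivity
          have hQA := hQsub v l hl hl'
          obtain ⟨b, hb, hbc⟩ := tight_bounds ht hu hQne hcR ⟨c, rfl⟩
          have hb1 : prv m b ∈ CIn Q := prv_CIn hb m
          have hb2 := prv_bdS_eq hcd hbc
          set b' := prv m b with hb'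
          have hcyc : bdS (c + b') = 0 := by rw [map_add, hb2, add_self_eq_zero']
          have hzA : c + b' ∈ CIn (AA h v (((l.length + 1 : ℕ) : ℝ) * ε1 + 2 * r' * R)) :=
            Submodule.add_mem _ hc (CIn_mono hQA hb1)
          have hzd : c + b' ∈ Deg P m := Submodule.add_mem _ hcd (prv_mem _ _)
          by_cases hmd : m = d + 1
          · subst hmd
            -- use the generator
            have hcase : ∃ y ∈ CIn Q, y ∈ Deg P (d + 1) ∧ ∃ e, bdS e = c + b' + y := by
              rcases hF.g_gen _ hzd hcyc with h1 | ⟨c1, h1⟩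
              · obtain ⟨c1, h1⟩ := h1
                exact ⟨0, Submodule.zero_mem _, Submodule.zero_mem _, c1, by rw [h1, add_zero]⟩
              · rcases hF.g_gen _ hgQd hgQc with ⟨c2, h2⟩ | ⟨c2, h2⟩
                · exact absurd h2 (hgQn c2)
                · refine ⟨gQ, hgQ, hgQd, c1 + c2, ?_⟩
                  rw [map_add, h1, h2]
                  calc c + b' + g + (gQ + g) = c + b' + gQ + (g + g) := by abel
                    _ = _ := by rw [add_self_eq_zero', add_zero]
            obtain ⟨y, hy, hyd, e, he⟩ := hcase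
            obtain ⟨a, ha, hae⟩ := tight_bounds ht hv (AA_nonempty hh v hA0)
              (Submodule.add_mem _ hzA (CIn_mono hQA hy)) ⟨e, he⟩
            obtain ⟨a, ha, had, hae⟩ := homog (Submodule.add_mem _ hzd hyd) ha hae
            refine ⟨a, ha, had, ?_⟩
            rw [hae]
            have : c + (c + b' + y) = b' + y := by
              rw [← add_assoc, ← add_assoc, add_self_eq_zero', zero_add]
            rw [this]
            exact Submodule.add_mem _ hb1 hy
          · obtain ⟨a, ha, had, hae⟩ := acyclic_of_ne hF hh ht hv hA0 hAne hzA hzd (Or.inl hmd) hcyc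
            refine ⟨a, ha, had, ?_⟩
            rw [hae, ← add_assoc, add_self_eq_zero', zero_add]
            exact hb1
        · simp only [Rr, if_neg hl', Submodule.mem_bot] at hcR ⊢
          have hKeq : KS (v :: l) = AA h v (((l.length + 1 : ℕ) : ℝ) * ε1) := if_neg hl'
          rw [hKeq] at hc ⊢
          have hAne : AA h v (((l.length + 1 : ℕ) : ℝ) * ε1) ≠ Set.univ := by
            apply AA_ne_univ hh hδ hball
            linarith
          have hiness : ¬ Ess P d (AA h v (((l.length + 1 : ℕ) : ℝ) * ε1)) := by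
            rintro ⟨z, hz, hzd, hzc, hzn⟩
            have hdisj : Disjoint Q (AA h v (((l.length + 1 : ℕ) : ℝ) * ε1)) := by
              rw [Set.disjoint_iff_inter_eq_empty]
              exact Set.not_nonempty_iff_eq_empty.1 hl'
            rcases hF.disj Q _ hQc (AA_closed hh v _) hdisj gQ hgQ z hz hgQd hzd hgQc hzc with
              ⟨c1, h1⟩ | ⟨c1, h1⟩
            · exact hgQn c1 h1
            · exact hzn c1 h1
          obtain ⟨a, ha, had, hae⟩ := acyclic_of_ne hF hh ht hv hk0 hAne hc hcd (Or.inr hiness) hcR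
          exact ⟨a, ha, had, by rw [hae, add_self_eq_zero']⟩)
  -- apply the final contradiction
  have hΦR : ∀ l, Good l → bdS (Φ (single l 1)) + Φ (bd1 l) ∈ Rr l := by
    intro l hl
    have := (hΦ l hl hl.1).2.2
    rwa [LinearMap.zero_apply, zero_add] at this
  have hRrQ : ∀ l, Rr l ≤ CIn Q := by
    intro l
    by_cases hl : ty l
    · simp only [Rr, if_pos hl]; exact le_rfl
    · simp only [Rr, if_neg hl]; exact bot_le
  have hbL : bdS (Φ L) ∈ CIn Q := by
    have h1 : (bdS ∘ₗ Φ + Φ ∘ₗ bd) L ∈ CIn Q := by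
      apply mem_of_supp
      intro l hl
      have hlg : Good l := ⟨(hLs l hl).1.le, (hLs l hl).2.1, (hLs l hl).2.2⟩
      have := hRrQ l (hΦR l hlg)
      simpa only [LinearMap.add_apply, LinearMap.comp_apply, bd_single] using this
    simpa only [LinearMap.add_apply, LinearMap.comp_apply, hL, map_zero, add_zero] using h1
  refine final_contra hF hh (n := n) hn (δ := δ) (R0 := R0) (R := R) (r1 := 1) (ρ := ρ) (rm := rm)
    (em := δ / 4) hδ hR hball hρ0 hρ2 hrm4 (by linarith) Good hher (fun l hl => hl) ty hty Q p r'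
    hr'0.le hr'p hQp ?_ Φ ?_ ?_ ?_ ?_ L hL ?_ ?_ hLne
  · -- balls
    rintro v l hl ⟨x0, hx0, hx0'⟩ y hy w hw
    have h1 : Mx h v - ((l.length + 1 : ℕ) : ℝ) * ε1 ≤ inner ℝ v (h x0) := hx0'
    have hM := Mx_ge hh hδ.le hball v
    have hvn := hl.2.2 v List.mem_cons_self
    have hk := hlev (l.length + 1) (by simpa using hl.1)
    have hδv : δ ≤ δ * ‖v‖ := by nlinarith [hvn.1]
    have h4 : ‖y - h x0‖ ≤ 2 * r' := by
      have h6 := hQp x0 hx0
      rw [Metric.mem_closedBall] at hy h6
      rw [← dist_eq_norm]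
      calc dist y (h x0) ≤ dist y p + dist (h x0) p := dist_triangle_right _ _ _
        _ ≤ 2 * r' := by linarith
    have h5 : (inner ℝ w y : ℝ) = inner ℝ v (h x0) + inner ℝ v (y - h x0) + inner ℝ (w - v) y := by
      have e1 : h x0 + (y - h x0) = y := by abel
      have e2 : v + (w - v) = w := by abel
      rw [← inner_add_right, e1, ← inner_add_left, e2]
    have h6 : -(‖v‖ * ‖y - h x0‖) ≤ (inner ℝ v (y - h x0) : ℝ) := by
      have := abs_real_inner_le_norm v (y - h x0)
      exact (abs_le.1 this).1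
    have h7 : -(‖w - v‖ * ‖y‖) ≤ (inner ℝ (w - v) y : ℝ) := by
      have := abs_real_inner_le_norm (w - v) y
      exact (abs_le.1 this).1
    have h8 : ‖y‖ ≤ R0 + 2 * r' := by
      have : y = h x0 + (y - h x0) := by abel
      rw [this]
      exact (norm_add_le _ _).trans (add_le_add (hR x0) h4)
    have h9 : ‖v‖ * ‖y - h x0‖ ≤ R * (2 * r') := mul_le_mul hvn.2 h4 (norm_nonneg _) hRpos.le
    have h10 : ‖w - v‖ * ‖y‖ ≤ rm * (R0 + 2 * r') := mul_le_mul hw h8 (norm_nonneg _) hrm0.le
    have h11 : rm * (2 * r') ≤ 1 * (2 * r') := by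
      apply mul_le_mul_of_nonneg_right _ (by linarith)
      linarith
    rw [h5]
    nlinarith
  · rw [hΦ0 [] (by simp), baseH_nil]
  · intro l hl
    have h1 := hΦ l hl hl.1
    refine ⟨CIn_mono ?_ h1.1, by simpa using h1.2.1⟩
    cases l with
    | nil => exact Set.empty_subset _
    | cons v l =>
      have hk := hlev (l.length + 1) (by simpa using hl.1)
      change KS (v :: l) ⊆ AA h v (δ / 4)
      by_cases hl' : ty (v :: l)
      · rw [hKS1 _ _ hl']
        apply AA_mono hh hR
        rw [sub_self, norm_zero, mul_zero, add_zero]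
        linarith
      · rw [hKS0 _ _ hl']
        apply AA_mono hh hR
        rw [sub_self, norm_zero, mul_zero, add_zero]
        linarith
  · intro l hl hl'
    have := hΦR l hl
    simpa only [Rr, if_neg hl', Submodule.mem_bot] using this
  · intro l hl hl'
    have := hΦR l hl
    simpa only [Rr, if_pos hl'] using this
  · intro l hl
    exact ⟨⟨(hLs l hl).1.le, (hLs l hl).2.1, (hLs l hl).2.2⟩, (hLs l hl).1⟩
  · obtain ⟨b, hb, hbc⟩ := tight_bounds ht hu hQne hbL ⟨Φ L, rfl⟩
    exact ⟨b, hb, hbc.symm⟩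

end claimB

end TP

end STop
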