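import Pool.Agent.Lib.Pbb5b69.TightG

/-!
# Module TightPart, fifth part: claim (A), an essential face of small dimension
-/

open Finsupp Module

set_option linter.unusedSectionVars false

namespace STop

namespace TP

section sdconv

variable {V : Type} [NormedAddCommGroup V] [InnerProductSpace ℝ V]

theorem sum_mem_convex {B : Set V} (hB : Convex ℝ B) {k : ℕ} (t : Dl k) (p : Fin k → V)
    (hp : ∀ i, p i ∈ B) : (cc t p : V) ∈ B :=
  hB.sum_mem (fun i _ => t.2.1 i) t.2.2 (fun i _ => hp i)

theorem sd_convex {B : Set V} (hB : Convex ℝ B) (l : List V) (hl : ∀ v ∈ l, v ∈ B) :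
    sd (single l 1) ∈ supp fun q : List V => ∀ v ∈ q, v ∈ B := by
  revert l
  refine list_len_induction ?_ ?_
  · intro _
    rw [sd_single_nil]
    exact single_mem_supp (P := fun q : List V => ∀ v ∈ q, v ∈ B) (by simp)
  · intro a l ih hl
    rw [sd_single_cons]
    have h1 : sd (bd1 (a :: l)) ∈ supp fun q : List V => ∀ v ∈ q, v ∈ B := by
      apply mem_of_supp
      intro q hq
      apply ih q
      · have := face_len hq
        simpa using this
      · intro v hv
        exact hl v (face_mem hq v hv)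
    refine supp_induction _ (cone (bary a l)) ?_ h1
    intro q hq
    rw [cone_single]
    apply single_mem_supp (P := fun q : List V => ∀ v ∈ q, v ∈ B)
    intro v hv
    rcases List.mem_cons.1 hv with h | h
    · rw [h]
      exact sum_mem_convex hB _ _ (fun i => hl _ (List.get_mem _ _))
    · exact hq v h

theorem sd_iter_convex (l : List V) (m : ℕ) :
    (sd^[m]) (single l 1) ∈ supp fun q : List V => q.length = l.length ∧
      ∀ v ∈ q, v ∈ convexHull ℝ {y | y ∈ l} := by
  induction m with
  | zero =>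
    exact single_mem_supp (P := fun q : List V => q.length = l.length ∧
      ∀ v ∈ q, v ∈ convexHull ℝ {y | y ∈ l}) ⟨rfl, fun v hv => subset_convexHull _ _ hv⟩
  | succ m ih =>
    rw [Function.iterate_succ_apply']
    refine supp_induction _ sd ?_ ih
    rintro q ⟨hq1, hq2⟩
    have hA := sd_len q
    have hB := sd_convex (convex_convexHull ℝ {y | y ∈ l}) q hq2
    rw [mem_supp] at hA hB ⊢
    intro r hr
    exact ⟨by rw [hA r hr, hq1], hB r hr⟩

theorem bd_sd_pow (m : ℕ) (x : LC V) : bd ((sd ^ m) x) = (sd ^ m) (bd x) := by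
  induction m generalizing x with
  | zero => rfl
  | succ m ih =>
    rw [pow_succ]
    change bd ((sd ^ m) (sd x)) = (sd ^ m) (sd (bd x))
    rw [ih, bd_sd]

/-- Translation. -/
def trC (t : V) : C(V, V) := ⟨fun x => x + t, by fun_prop⟩

theorem isAff_tr (t : V) : IsAff (trC t) := by
  intro k s p
  change (∑ i, s i • p i) + t = ∑ i, s i • (p i + t)
  simp only [smul_add, Finset.sum_add_distrib]
  congr 1
  rw [← Finset.sum_smul, stdSimplex.sum_eq_one, one_smul]

/-- The translation homotopy. -/
noncomputable def trH (t : V) : C(V × unitInterval, V) :=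
  ⟨fun x => x.1 + (x.2 : ℝ) • t, by fun_prop⟩

theorem affL_tr {t : V} {L : LC V} (hL : bd L = 0) (hLs : ∀ l ∈ L.support, ∀ v ∈ l, 1 ≤ ‖v‖)
    {ρ : ℝ} (hρ : ρ ≤ 1 / 4) (hm : ∀ l ∈ L.support, Mesh ρ l) (hnil : ∀ l ∈ L.support, l ≠ [])
    (ht : ‖t‖ < 1 / 4)
    (hne : ¬ ∃ c ∈ CIn ({0}ᶜ : Set V), bdS c = affL L) :
    ¬ ∃ c ∈ CIn ({0}ᶜ : Set V), bdS c = affL (mapL (trC t) L) := by
  rintro ⟨c, hc, hcL⟩
  apply hne
  have hmem : affL L ∈ CIn {x : V | 3 / 4 ≤ ‖x‖} := by
    apply mem_of_supp
    intro l hl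
    rw [affL_single]
    apply single_mem_CIn
    intro s
    cases l with
    | nil => exact absurd rfl (hnil [] hl)
    | cons v l =>
      have h1 : (aff (v :: l)).map s ∈ Metric.closedBall v ρ := by
        have : (aff (v :: l)).map s = cc s (v :: l).get := rfl
        rw [this]
        apply sum_mem_convex (convex_closedBall v ρ)
        intro i
        rw [Metric.mem_closedBall]
        exact hm _ hl _ (List.get_mem _ _) _ List.mem_cons_self
      rw [Metric.mem_closedBall, dist_eq_norm] at h1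
      have h2 := hLs _ hl v List.mem_cons_self
      have h3 : ‖v‖ ≤ ‖(aff (v :: l)).map s‖ + ‖(aff (v :: l)).map s - v‖ := by
        have e : v = (aff (v :: l)).map s - ((aff (v :: l)).map s - v) := by abel
        conv_lhs => rw [e]
        exact norm_sub_le _ _
      change 3 / 4 ≤ ‖(aff (v :: l)).map s‖
      linarith
  have h1 := bdS_homS (trH t) (affL L)
  rw [bdS_affL, hL, map_zero, map_zero, add_zero] at h1
  have e1 : (trH t).comp (endMap V 0) = ContinuousMap.id V := by
    ext x; simp [trH, endMap]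
  have e2 : (trH t).comp (endMap V 1) = trC t := by
    ext x; simp [trH, endMap, trC]
  rw [e1, e2, push_id, push_affL _ (isAff_tr t), ← hcL] at h1
  refine ⟨c + homS (trH t) (affL L), Submodule.add_mem _ hc ?_, ?_⟩
  · apply homS_mem_CIn (A := {x : V | 3 / 4 ≤ ‖x‖}) (trH t) _ hmem
    intro a ha s h0
    rw [Set.mem_singleton_iff] at h0
    have ha' : 3 / 4 ≤ ‖a‖ := ha
    have h2 : a = -((s : ℝ) • t) := by
      have : a + (s : ℝ) • t = 0 := h0
      exact eq_neg_of_add_eq_zero_left this
    rw [h2, norm_neg, norm_smul, Real.norm_eq_abs, abs_of_nonneg s.2.1] at ha'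
    have : (s : ℝ) * ‖t‖ ≤ 1 * ‖t‖ := mul_le_mul_of_nonneg_right s.2.2 (norm_nonneg _)
    linarith
  · rw [map_add, h1, add_comm (affL L), ← add_assoc, add_self_eq_zero', zero_add]

end sdconv

section claimA

variable {P V : Type} [TopologicalSpace P] [CompactSpace P] [Nonempty P]
  [NormedAddCommGroup V] [InnerProductSpace ℝ V]
  {d : ℕ} {g : SC P} (hF : Facts P d g) {h : P → V} (hh : Continuous h) (ht : TightC h)
  [FiniteDimensional ℝ V]

include hh in
theorem uniform_iness {K0 : Set V} (hK0 : IsCompact K0) {R0 : ℝ} (hR0 : 1 ≤ R0)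
    (hR : ∀ x, ‖h x‖ ≤ R0) (hv : ∀ v ∈ K0, ∃ e > 0, ¬ Ess P d (AA h v e)) :
    ∃ e > 0, ∀ v ∈ K0, ¬ Ess P d (AA h v e) := by
  refine hK0.induction_on (p := fun s => ∃ e > 0, ∀ v ∈ s, ¬ Ess P d (AA h v e)) ?_ ?_ ?_ ?_
  · exact ⟨1, one_pos, fun v hv => absurd hv (Set.notMem_empty v)⟩
  · rintro s s' hss ⟨e, he, hs⟩
    exact ⟨e, he, fun v hv => hs v (hss hv)⟩
  · rintro s s' ⟨e, he, hs⟩ ⟨e', he', hs'⟩
    refine ⟨min e e', lt_min he he', ?_⟩
    rintro v (hv | hv) hE
    · refine hs v hv (hE.mono (AA_mono hh hR ?_))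
      rw [sub_self, norm_zero, mul_zero, add_zero]
      exact min_le_left _ _
    · refine hs' v hv (hE.mono (AA_mono hh hR ?_))
      rw [sub_self, norm_zero, mul_zero, add_zero]
      exact min_le_right _ _
  · intro v hvK
    obtain ⟨e, he, hE⟩ := hv v hvK
    have hR0p : 0 < R0 := by linarith
    refine ⟨Metric.ball v (e / (4 * R0)), mem_nhdsWithin_of_mem_nhds
      (Metric.ball_mem_nhds v (by positivity)), e / 2, by linarith, ?_⟩
    intro v' hv' hE'
    refine hE (hE'.mono (AA_mono hh hR ?_))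
    rw [Metric.mem_ball, dist_eq_norm, norm_sub_rev, lt_div_iff₀ (by positivity)] at hv'
    linarith

include hF hh ht in
theorem claimA (hgen : GenericStatement) (hfund : FundStatement) {δ : ℝ} (hδ : 0 < δ)
    (hball : Metric.closedBall (0 : V) δ ⊆ convexHull ℝ (Set.range h))
    (hn : 2 * d + 2 ≤ finrank ℝ V) :
    ∃ u : V, u ≠ 0 ∧ (∀ e > 0, Ess P d (AA h u e)) ∧
      finrank ℝ (vectorSpan ℝ (FaceOf (convexHull ℝ (Set.range h)) u)) ≤ d + 1 := by
  classical
  by_contra hcon
  push Not at hcon
  obtain ⟨R0, hR0, hR⟩ := exists_bound hh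
  obtain ⟨R, hR1, hfund⟩ := hfund V (by omega)
  set n := finrank ℝ V with hndef
  have hRpos : 0 < R := by linarith
  have hR0pos : 0 < R0 := by linarith
  set ε1 : ℝ := δ / (8 * ((n : ℝ) + 1)) with hε1def
  have hn1 : (0 : ℝ) < (n : ℝ) + 1 := by positivity
  have hε1 : 0 < ε1 := by positivity
  have hε1n : ((n : ℝ) + 1) * ε1 = δ / 8 := by
    rw [hε1def]; field_simp
  set rm : ℝ := min (1 / 8) (δ / (8 * R0)) with hrmdef
  have hrm0 : 0 < rm := lt_min (by norm_num) (by positivity)
  have hrm8 : rm ≤ 1 / 8 := min_le_left _ _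
  have hrmR : rm * R0 ≤ δ / 8 := by
    have h1 : rm ≤ δ / (8 * R0) := min_le_right _ _
    have h2 : rm * (8 * R0) ≤ δ := by
      rwa [le_div_iff₀ (by positivity)] at h1
    linarith
  set ρ : ℝ := min (ε1 / (2 * R0)) (rm / ((n : ℝ) + 1)) with hρdef
  have hρ0 : 0 < ρ := lt_min (by positivity) (by positivity)
  have hρ1 : 2 * R0 * ρ ≤ ε1 := by
    have h1 : ρ ≤ ε1 / (2 * R0) := min_le_left _ _
    have h2 : ρ * (2 * R0) ≤ ε1 := by
      rwa [le_div_iff₀ (by positivity)] at h1
    linarith
  have hρ2 : ((n : ℝ) + 1) * ρ ≤ rm := by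
    have h1 : ρ ≤ rm / ((n : ℝ) + 1) := min_le_right _ _
    have h2 : ρ * ((n : ℝ) + 1) ≤ rm := by
      rwa [le_div_iff₀ (by positivity)] at h1
    linarith
  have hρ3 : ρ ≤ rm := by
    have : (0 : ℝ) ≤ n := by positivity
    nlinarith
  have hρ4 : ρ ≤ 1 / 4 := by linarith
  obtain ⟨L, hL, hLs, hLne⟩ := hfund ρ hρ0
  -- the generic translation
  let S : Finset (List V) :=
    (L.support.biUnion fun l => l.sublists.toFinset).filter fun l => l.length ≤ d + 2
  have hSmem : ∀ q, q ∈ S ↔ (∃ l0 ∈ L.support, q.Sublist l0) ∧ q.length ≤ d + 2 := by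
    intro q
    simp only [S, Finset.mem_filter, Finset.mem_biUnion, List.mem_toFinset, List.mem_sublists]
  obtain ⟨t, ht4, hgt⟩ := hgen V (convexHull ℝ (Set.range h)) (convex_convexHull ℝ _) (d + 2)
    (by omega) S (fun l hl => ((hSmem l).1 hl).2) (1 / 4) (by norm_num)
  set L' : LC V := mapL (trC t) L with hL'def
  have hL' : bd L' = 0 := by rw [hL'def, ← mapL_bd, hL, map_zero]
  have hL's : ∀ l ∈ L'.support, ∃ l0 ∈ L.support, l = l0.map (trC t) := by
    have : L' ∈ supp fun l => ∃ l0 ∈ L.support, l = l0.map (trC t) := by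
      apply mem_of_supp
      intro l hl
      rw [mapL_single]
      exact single_mem_supp (P := fun l => ∃ l0 ∈ L.support, l = l0.map (trC t)) ⟨l, hl, rfl⟩
    exact mem_supp.1 this
  have hLnil : ∀ l ∈ L.support, l ≠ [] := by
    intro l hl h0
    have := (hLs l hl).1
    rw [h0] at this
    simp only [List.length_nil] at this
    omega
  have hL'ne := affL_tr (t := t) hL (fun l hl v hv => ((hLs l hl).2.2 v hv).1) hρ4
    (fun l hl => (hLs l hl).2.1) hLnil ht4 hLne
  -- the compact set
  let K0 : Set V := ⋃ q ∈ S, (fun x => x + t) '' convexHull ℝ {y | y ∈ q}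
  have hK0c : IsCompact K0 := by
    apply S.isCompact_biUnion
    intro q _
    apply IsCompact.image _ (by fun_prop)
    exact (List.finite_toSet q).isCompact_convexHull (𝕜 := ℝ)
  have hK0norm : ∀ v ∈ K0, 1 / 2 ≤ ‖v‖ := by
    intro v hv
    simp only [K0, Set.mem_iUnion] at hv
    obtain ⟨q, hq, x, hx, rfl⟩ := hv
    obtain ⟨⟨l0, hl0, hql⟩, _⟩ := (hSmem q).1 hq
    cases q with
    | nil => simp at hx
    | cons a q =>
      have h1 : x ∈ Metric.closedBall a ρ := by
        refine convexHull_min ?_ (convex_closedBall a ρ) hx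
        intro y hy
        rw [Metric.mem_closedBall]
        exact (hLs l0 hl0).2.1 y (hql.subset hy) a (hql.subset List.mem_cons_self)
      have h2 := ((hLs l0 hl0).2.2 a (hql.subset List.mem_cons_self)).1
      rw [Metric.mem_closedBall, dist_eq_norm] at h1
      have h3 : ‖a‖ ≤ ‖x + t‖ + (‖x - a‖ + ‖t‖) := by
        have e : a = (x + t) - ((x - a) + t) := by abel
        conv_lhs => rw [e]
        exact (norm_sub_le _ _).trans (add_le_add le_rfl (norm_add_le _ _))
      change 1 / 2 ≤ ‖x + t‖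
      linarith
  have hK0ne : ∀ v ∈ K0, v ≠ 0 := by
    rintro v hv rfl
    have := hK0norm 0 hv
    rw [norm_zero] at this
    linarith
  have hK0i : ∀ v ∈ K0, ∃ e > 0, ¬ Ess P d (AA h v e) := by
    intro v hv
    by_contra hc
    push Not at hc
    have h1 := hcon v (hK0ne v hv) hc
    simp only [K0, Set.mem_iUnion] at hv
    obtain ⟨q, hq, x, hx, rfl⟩ := hv
    have h2 := hgt q hq x hx
    simp only at h1
    omega
  obtain ⟨ε0', hε0', hiness'⟩ := uniform_iness hh hK0c hR0 hR hK0i
  set ε0 : ℝ := min ε0' ε1 with hε0def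
  have hε0 : 0 < ε0 := lt_min hε0' hε1
  have hε01 : ε0 ≤ ε1 := min_le_right _ _
  have hiness : ∀ v ∈ K0, ∀ e ≤ ε0, ¬ Ess P d (AA h v e) := by
    intro v hv e he hE
    refine hiness' v hv (hE.mono (AA_mono hh hR ?_))
    rw [sub_self, norm_zero, mul_zero, add_zero]
    exact he.trans (min_le_left _ _)
  -- the fine carrier map
  set εf : ℝ := ε0 / ((d : ℝ) + 2) with hεfdef
  have hd2 : (0 : ℝ) < (d : ℝ) + 2 := by positivity
  have hεf : 0 < εf := by positivity
  have hεfd : ((d : ℝ) + 2) * εf = ε0 := by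
    rw [hεfdef]; field_simp
  have hlevf : ∀ k : ℕ, k ≤ d + 2 → (k : ℝ) * εf ≤ ε0 := by
    intro k hk
    rw [← hεfd]
    apply mul_le_mul_of_nonneg_right _ hεf.le
    exact_mod_cast hk
  set ρf : ℝ := εf / (2 * R0) with hρfdef
  have hρf0 : 0 < ρf := by positivity
  have hρf1 : 2 * R0 * ρf ≤ εf := by
    rw [hρfdef]
    apply le_of_eq
    field_simp
  have hδ8 : ε1 ≤ δ / 8 := by
    rw [← hε1n]
    have : (0 : ℝ) ≤ n := by positivity
    nlinarith
  let GoodF : List V → Prop := fun l => l.length ≤ d + 2 ∧ Mesh ρf l ∧ ∀ v ∈ l, v ∈ K0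
  have hherF : ∀ l, GoodF l → ∀ q ∈ (bd1 l).support, GoodF q := by
    rintro l ⟨h1, h2, h3⟩ q hq
    have hlen := face_len hq
    have hmem := face_mem hq
    exact ⟨by omega, fun a ha b hb => h2 a (hmem a ha) b (hmem b hb), fun v hv => h3 v (hmem v hv)⟩
  let KF : List V → Set P := fun l =>
    match l with
    | [] => ∅
    | (v :: l) => AA h v (((l.length + 1 : ℕ) : ℝ) * εf)
  obtain ⟨Ψ, hΨ0, hΨ⟩ := carrier (X := P) GoodF hherF (fun l => CIn (KF l)) (fun _ => ⊥)
    (by
      intro l hl q hq
      apply CIn_mono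
      cases q with
      | nil => exact Set.empty_subset _
      | cons v' q =>
        cases l with
        | nil => simp at hq
        | cons v l =>
          apply AA_mono hh hR
          have h1 := hl.2.1 v List.mem_cons_self v' (face_mem hq v' List.mem_cons_self)
          rw [dist_eq_norm] at h1
          have h2 := face_len hq
          simp only [List.length_cons] at h2
          have h3 : ((l.length + 1 : ℕ) : ℝ) = ((q.length + 1 : ℕ) : ℝ) + 1 := by
            rw [← h2]; push_cast; ring
          rw [h3]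
          have h4 : 2 * R0 * ‖v - v'‖ ≤ 2 * R0 * ρf := mul_le_mul_of_nonneg_left h1 (by positivity)
          linarith)
    (fun _ _ _ _ => le_rfl)
    0 0 0 (fun l _ => Submodule.zero_mem _) (fun l _ m _ => Submodule.zero_mem _)
    (fun l _ => by simp) (baseH V P)
    (by
      intro l hl hl0
      have hl1 : l = [] := List.length_eq_zero_iff.1 (by omega)
      subst hl1
      rw [baseH_nil]
      refine ⟨e0_mem _, e0_deg, ?_⟩
      rw [bd1_nil, map_zero, bdS_Deg_zero e0_deg]
      simp)
    (d + 2)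
    (by
      intro l hl hl0 hln m hm c hc hcd hcR
      rw [Submodule.mem_bot] at hcR
      cases l with
      | nil => simp at hl0
      | cons v l =>
        have hvK := hl.2.2 v List.mem_cons_self
        have hv := hK0ne v hvK
        have hvn := hK0norm v hvK
        have hk := hlevf (l.length + 1) (by simpa using hln)
        have hk0 : 0 ≤ ((l.length + 1 : ℕ) : ℝ) * εf := by positivity
        have hAne : AA h v (((l.length + 1 : ℕ) : ℝ) * εf) ≠ Set.univ := by
          apply AA_ne_univ hh hδ hball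
          nlinarith
        obtain ⟨a, ha, had, hae⟩ := acyclic_of_ne hF hh ht hv hk0 hAne hc hcd
          (Or.inr (hiness v hvK _ hk)) hcR
        refine ⟨a, ha, had, ?_⟩
        rw [Submodule.mem_bot, hae, add_self_eq_zero'])
  -- number of subdivisions
  obtain ⟨m, hm⟩ : ∃ m : ℕ, (1 - 1 / ((d + 2 : ℕ) : ℝ)) ^ m * ρ ≤ ρf := by
    have hc1 : (1 : ℝ) - 1 / ((d + 2 : ℕ) : ℝ) < 1 := by
      have : (0 : ℝ) < 1 / ((d + 2 : ℕ) : ℝ) := by positivity
      linarith
    obtain ⟨k, hk⟩ := exists_pow_lt_of_lt_one (show 0 < ρf / ρ by positivity) hc1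
    refine ⟨k, ?_⟩
    have := mul_le_mul_of_nonneg_right hk.le hρ0.le
    rwa [div_mul_cancel₀ _ hρ0.ne'] at this
  -- the coarse lists
  let Good : List V → Prop := fun l => ∃ l0 ∈ L.support, ∃ q : List V, q.Sublist l0 ∧
    l = q.map (trC t)
  have hher : ∀ l, Good l → ∀ q ∈ (bd1 l).support, Good q := by
    rintro l ⟨l0, hl0, q0, hq0, rfl⟩ q hq
    have h1 := face_sublist hq
    obtain ⟨q1, hq1, rfl⟩ := List.sublist_map_iff.1 h1
    exact ⟨l0, hl0, q1, hq1.trans hq0, rfl⟩
  have hGood : ∀ l, Good l → l.length ≤ n ∧ Mesh ρ l ∧ ∀ v ∈ l, 1 / 2 ≤ ‖v‖ ∧ ‖v‖ ≤ R + 1 := by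
    rintro l ⟨l0, hl0, q0, hq0, rfl⟩
    obtain ⟨h1, h2, h3⟩ := hLs l0 hl0
    refine ⟨?_, ?_, ?_⟩
    · rw [List.length_map, ← h1]
      exact hq0.length_le
    · intro a ha b hb
      obtain ⟨a', ha', rfl⟩ := List.mem_map.1 ha
      obtain ⟨b', hb', rfl⟩ := List.mem_map.1 hb
      change dist (a' + t) (b' + t) ≤ ρ
      rw [dist_add_right]
      exact h2 a' (hq0.subset ha') b' (hq0.subset hb')
    · intro v hv
      obtain ⟨a, ha, rfl⟩ := List.mem_map.1 hv
      have h4 := h3 a (hq0.subset ha)
      change 1 / 2 ≤ ‖a + t‖ ∧ ‖a + t‖ ≤ R + 1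
      constructor
      · have : ‖a‖ ≤ ‖a + t‖ + ‖t‖ := by
          have e : a = (a + t) - t := by abel
          conv_lhs => rw [e]
          exact norm_sub_le _ _
        linarith [h4.1]
      · refine (norm_add_le _ _).trans ?_
        linarith [h4.2]
  have hGoodS : ∀ l, Good l → l.length ≤ d + 2 → convexHull ℝ {y | y ∈ l} ⊆ K0 := by
    rintro l ⟨l0, hl0, q0, hq0, rfl⟩ hlen x hx
    have hq0S : q0 ∈ S := (hSmem q0).2 ⟨⟨l0, hl0, hq0⟩, by simpa using hlen⟩
    simp only [K0, Set.mem_iUnion]
    refine ⟨q0, hq0S, x - t, ?_, by simp⟩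
    have hconv : Convex ℝ {y : V | y - t ∈ convexHull ℝ {y | y ∈ q0}} := by
      intro a ha b hb α β hα hβ hαβ
      change α • a + β • b - t ∈ convexHull ℝ {y | y ∈ q0}
      have e : α • a + β • b - t = α • (a - t) + β • (b - t) := by
        rw [smul_sub, smul_sub]
        have : t = α • t + β • t := by rw [← add_smul, hαβ, one_smul]
        conv_lhs => rw [this]
        abel
      rw [e]
      exact convex_convexHull ℝ _ ha hb hα hβ hαβ
    have hsub : convexHull ℝ {y | y ∈ q0.map (trC t)} ⊆
        {y : V | y - t ∈ convexHull ℝ {y | y ∈ q0}} := by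
      apply convexHull_min _ hconv
      intro y hy
      obtain ⟨a, ha, rfl⟩ := List.mem_map.1 hy
      have h1 : a + t - t ∈ convexHull ℝ {y | y ∈ q0} := by
        rw [add_sub_cancel_right]
        exact subset_convexHull _ _ ha
      exact h1
    exact hsub hx
  have hsdm : ∀ l, Good l → l.length ≤ d + 2 →
      (sd ^ m : LC V →ₗ[F2] LC V) (single l 1) ∈ supp fun q => GoodF q ∧ q.length = l.length ∧
        ∀ v ∈ q, v ∈ convexHull ℝ {y | y ∈ l} := by
    intro l hl hlen
    obtain ⟨_, h2, h3⟩ := hGood l hl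
    have hA := sd_iter_mesh ρ hρ0.le (d + 2) (by omega) l hlen h2 m
    have hB := sd_iter_convex l m
    rw [iterate_linear]
    rw [mem_supp] at hA hB ⊢
    intro q hq
    obtain ⟨hA1, hA2⟩ := hA q hq
    obtain ⟨hB1, hB2⟩ := hB q hq
    refine ⟨⟨hA1, ?_, fun v hv => hGoodS l hl hlen (hB2 v hv)⟩, hB1, hB2⟩
    intro a ha b hb
    exact (hA2 a ha b hb).trans hm
  have hΨR : ∀ l, GoodF l → bdS (Ψ (single l 1)) = Ψ (bd (single l 1)) := by
    intro l hl
    have := (hΨ l hl hl.1).2.2
    rw [LinearMap.zero_apply, zero_add, Submodule.mem_bot] at this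
    rw [bd_single]
    exact eq_of_add_eq_zero this
  let KC : List V → Set P := fun l =>
    match l with
    | [] => ∅
    | (v :: l) => AA h v (((l.length + 2 : ℕ) : ℝ) * ε1)
  obtain ⟨Φ, hΦ0, hΦ⟩ := carrier (X := P) Good hher (fun l => CIn (KC l)) (fun _ => ⊥)
    (by
      intro l hl q hq
      apply CIn_mono
      cases q with
      | nil => exact Set.empty_subset _
      | cons v' q =>
        cases l with
        | nil => simp at hq
        | cons v l =>
          apply AA_mono hh hR
          have h1 := (hGood _ hl).2.1 v List.mem_cons_self v' (face_mem hq v' List.mem_cons_self)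
          rw [dist_eq_norm] at h1
          have h2 := face_len hq
          simp only [List.length_cons] at h2
          have h3 : ((l.length + 2 : ℕ) : ℝ) = ((q.length + 2 : ℕ) : ℝ) + 1 := by
            have : l.length = q.length + 1 := by omega
            rw [this]; push_cast; ring
          rw [h3]
          have h4 : 2 * R0 * ‖v - v'‖ ≤ 2 * R0 * ρ := mul_le_mul_of_nonneg_left h1 (by positivity)
          linarith)
    (fun _ _ _ _ => le_rfl)
    0 0 (d + 2) (fun l _ => Submodule.zero_mem _) (fun l _ m _ => Submodule.zero_mem _)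
    (fun l _ => by simp) (Ψ ∘ₗ (sd ^ m : LC V →ₗ[F2] LC V))
    (by
      intro l hl hl0
      have hs := hsdm l hl hl0
      refine ⟨?_, ?_, ?_⟩
      · rw [LinearMap.comp_apply]
        refine supp_induction _ Ψ ?_ hs
        rintro q ⟨hq1, hq2, hq3⟩
        refine CIn_mono ?_ (hΨ q hq1 hq1.1).1
        cases q with
        | nil => exact Set.empty_subset _
        | cons v' q =>
          cases l with
          | nil => simp at hq2
          | cons v l =>
            apply AA_mono hh hR
            have h1 : v' ∈ Metric.closedBall v ρ := by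
              refine convexHull_min ?_ (convex_closedBall v ρ) (hq3 v' List.mem_cons_self)
              intro y hy
              rw [Metric.mem_closedBall]
              exact (hGood _ hl).2.1 y hy v List.mem_cons_self
            rw [Metric.mem_closedBall, dist_eq_norm, norm_sub_rev] at h1
            have h4 : 2 * R0 * ‖v - v'‖ ≤ 2 * R0 * ρ :=
              mul_le_mul_of_nonneg_left h1 (by positivity)
            have h5 := hlevf (q.length + 1) (by simpa using hq1.1)
            have h6 : (2 : ℝ) * ε1 ≤ ((l.length + 2 : ℕ) : ℝ) * ε1 := by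
              apply mul_le_mul_of_nonneg_right _ hε1.le
              push_cast
              linarith [show (0 : ℝ) ≤ l.length from by positivity]
            linarith
      · rw [LinearMap.comp_apply]
        refine supp_induction (Deg P (l.length + 0)) Ψ ?_ hs
        rintro q ⟨hq1, hq2, hq3⟩
        have := (hΨ q hq1 hq1.1).2.1
        rwa [hq2] at this
      · rw [LinearMap.zero_apply, zero_add, Submodule.mem_bot, LinearMap.comp_apply,
          LinearMap.comp_apply]
        have h1 : bdS (Ψ ((sd ^ m : LC V →ₗ[F2] LC V) (single l 1))) =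
            Ψ (bd ((sd ^ m : LC V →ₗ[F2] LC V) (single l 1))) :=
          supp_ext (bdS ∘ₗ Ψ) (Ψ ∘ₗ bd) (fun q hq => hΨR q hq.1) hs
        rw [h1, bd_sd_pow, bd_single, add_self_eq_zero'])
    n
    (by
      intro l hl hl0 hln m' hm' c hc hcd hcR
      rw [Submodule.mem_bot] at hcR
      cases l with
      | nil => simp at hl0
      | cons v l =>
        have hvn := ((hGood _ hl).2.2 v List.mem_cons_self).1
        have hv : v ≠ 0 := by
          rintro rfl
          rw [norm_zero] at hvn
          linarith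
        have hk : ((l.length + 2 : ℕ) : ℝ) * ε1 ≤ δ / 8 := by
          rw [← hε1n]
          apply mul_le_mul_of_nonneg_right _ hε1.le
          simp only [List.length_cons] at hln
          have : l.length + 2 ≤ n + 1 := by omega
          exact_mod_cast this
        have hk0 : 0 ≤ ((l.length + 2 : ℕ) : ℝ) * ε1 := by positivity
        have hAne : AA h v (((l.length + 2 : ℕ) : ℝ) * ε1) ≠ Set.univ := by
          apply AA_ne_univ hh hδ hball
          nlinarith
        obtain ⟨a, ha, had, hae⟩ := acyclic_of_ne hF hh ht hv hk0 hAne hc hcd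
          (Or.inl (by omega)) hcR
        refine ⟨a, ha, had, ?_⟩
        rw [Submodule.mem_bot, hae, add_self_eq_zero'])
  have hΦR : ∀ l, Good l → bdS (Φ (single l 1)) + Φ (bd1 l) = 0 := by
    intro l hl
    have := (hΦ l hl (hGood l hl).1).2.2
    rwa [LinearMap.zero_apply, zero_add, Submodule.mem_bot] at this
  have hL'good : ∀ l ∈ L'.support, Good l ∧ l.length = n := by
    intro l hl
    obtain ⟨l0, hl0, rfl⟩ := hL's l hl
    refine ⟨⟨l0, hl0, l0, List.Sublist.refl _, rfl⟩, ?_⟩
    rw [List.length_map]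
    exact (hLs l0 hl0).1
  have hnt : Nontrivial V := Module.nontrivial_of_finrank_pos (R := ℝ) (by omega)
  obtain ⟨p, hp⟩ := exists_ne (0 : V)
  refine final_contra hF hh (n := n) hn (δ := δ) (R0 := R0) (R := R + 1) (r1 := 1 / 2) (ρ := ρ)
    (rm := rm) (em := δ / 8) hδ hR hball hρ0 hρ2 (by linarith) (by linarith) Good hher hGood
    (fun _ => False) (fun _ _ _ _ h => h) ∅ p 0 le_rfl (norm_pos_iff.2 hp)
    (fun x hx => absurd hx (Set.notMem_empty x)) (fun _ _ _ h => absurd h id) Φ ?_ ?_
    (fun l hl _ => hΦR l hl) (fun _ _ h => absurd h id) L' hL' hL'good ?_ hL'ne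
  · rw [hΦ0 [] (by simp), LinearMap.comp_apply]
    have h1 : (sd ^ m : LC V →ₗ[F2] LC V) (single [] 1) = single [] 1 := by
      rw [iterate_linear]
      clear hm hsdm hΦ0
      induction m with
      | zero => rfl
      | succ m ih => rw [Function.iterate_succ_apply', ih, sd_single_nil]
    rw [h1, hΨ0 [] (by simp), baseH_nil]
  · intro l hl
    have h1 := hΦ l hl (hGood l hl).1
    refine ⟨CIn_mono ?_ h1.1, by simpa using h1.2.1⟩
    cases l with
    | nil => exact Set.empty_subset _
    | cons v l =>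
      have hln := (hGood _ hl).1
      change AA h v (((l.length + 2 : ℕ) : ℝ) * ε1) ⊆ AA h v (δ / 8)
      apply AA_mono hh hR
      rw [sub_self, norm_zero, mul_zero, add_zero, ← hε1n]
      apply mul_le_mul_of_nonneg_right _ hε1.le
      simp only [List.length_cons] at hln
      have : l.length + 2 ≤ n + 1 := by omega
      exact_mod_cast this
  · refine ⟨0, Submodule.zero_mem _, ?_⟩
    rw [map_zero]
    have h1 : (bdS ∘ₗ Φ + Φ ∘ₗ bd) L' ∈ (⊥ : Submodule F2 (SC P)) := by
      apply mem_of_supp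
      intro l hl
      rw [Submodule.mem_bot]
      simpa only [LinearMap.add_apply, LinearMap.comp_apply, bd_single] using
        hΦR l (hL'good l hl).1
    rw [Submodule.mem_bot] at h1
    simpa only [LinearMap.add_apply, LinearMap.comp_apply, hL', map_zero, add_zero] using h1

end claimA

end TP

end STop
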