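import Pool.Agent.Lib.Pbb5b69.TightH

/-!
# Module TightPart: the dimension bound for tight maps
-/

open Finsupp Module

namespace STop

open TP

theorem tight_bound {P E : Type} [TopologicalSpace P] [CompactSpace P] [T2Space P] [Nonempty P]
    [NormedAddCommGroup E] [InnerProductSpace ℝ E] [FiniteDimensional ℝ E] {d : ℕ} {g : SC P}
    (hF : Facts P d g) (hgen : GenericStatement) (hfund : FundStatement)
    (f : P → E) (hf : Continuous f) (hsub : affineSpan ℝ (Set.range f) = ⊤) (ht : TightC f) :
    Module.finrank ℝ E ≤ 3 * d + 2 := by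
  by_contra hcon
  push Not at hcon
  -- an interior point
  have hint : (interior (convexHull ℝ (Set.range f))).Nonempty := by
    rw [(convex_convexHull ℝ _).interior_nonempty_iff_affineSpan_eq_top, affineSpan_convexHull,
      hsub]
  obtain ⟨c0, hc0⟩ := hint
  obtain ⟨δ, hδ, hball0⟩ : ∃ δ > 0, Metric.closedBall c0 δ ⊆ convexHull ℝ (Set.range f) := by
    have := mem_interior_iff_mem_nhds.1 hc0
    exact Metric.nhds_basis_closedBall.mem_iff.1 this
  set h : P → E := fun x => f x - c0 with hhdef
  have hh : Continuous h := hf.sub continuous_const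
  have hball : Metric.closedBall (0 : E) δ ⊆ convexHull ℝ (Set.range h) := by
    have hconv : Convex ℝ {z : E | z - c0 ∈ convexHull ℝ (Set.range h)} := by
      intro a ha b hb α β hα hβ hαβ
      change α • a + β • b - c0 ∈ convexHull ℝ (Set.range h)
      have e : α • a + β • b - c0 = α • (a - c0) + β • (b - c0) := by
        rw [smul_sub, smul_sub]
        have : c0 = α • c0 + β • c0 := by rw [← add_smul, hαβ, one_smul]
        conv_lhs => rw [this]
        abel
      rw [e]
      exact convex_convexHull ℝ _ ha hb hα hβ hαβ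
    have hsub' : convexHull ℝ (Set.range f) ⊆ {z : E | z - c0 ∈ convexHull ℝ (Set.range h)} := by
      apply convexHull_min _ hconv
      rintro _ ⟨x, rfl⟩
      exact subset_convexHull _ _ ⟨x, rfl⟩
    intro y hy
    rw [mem_closedBall_zero_iff] at hy
    have h1 : y + c0 ∈ Metric.closedBall c0 δ := by
      rw [Metric.mem_closedBall, dist_eq_norm, add_sub_cancel_right]
      exact hy
    have h2 := hsub' (hball0 h1)
    have h3 : y + c0 - c0 ∈ convexHull ℝ (Set.range h) := h2
    rwa [add_sub_cancel_right] at h3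
  have ht' : TightC h := by
    intro v c hv hne z hz hb
    have hset : {x | c ≤ inner ℝ v (h x)} = {x | c + inner ℝ v c0 ≤ inner ℝ v (f x)} := by
      ext x
      change c ≤ inner ℝ v (f x - c0) ↔ c + inner ℝ v c0 ≤ inner ℝ v (f x)
      rw [inner_sub_right]
      constructor <;> intro h <;> linarith
    rw [hset] at hne hz ⊢
    exact ht v _ hv hne z hz hb
  obtain ⟨u, hu, hess, hdim⟩ := claimA hF hh ht' hgen hfund hδ hball (by omega)
  set C := convexHull ℝ (Set.range h) with hCdef
  set W : Submodule ℝ E := vectorSpan ℝ (FaceOf C u) with hWdef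
  let h' : P → Wᗮ := fun x => Wᗮ.orthogonalProjectionOnto (h x)
  have hh' : Continuous h' := (Wᗮ.orthogonalProjectionOnto).continuous.comp hh
  have hinner : ∀ (v : Wᗮ) (x : P), (inner ℝ v (h' x) : ℝ) = inner ℝ (v : E) (h x) := fun v x =>
    Submodule.inner_orthogonalProjectionOnto_eq_of_mem_left v (h x)
  have hMx : ∀ v : Wᗮ, Mx h' v = Mx h (v : E) := by
    intro v
    unfold Mx
    congr 1
    ext x
    exact hinner v x
  have hAA : ∀ (v : Wᗮ) (e : ℝ), AA h' v e = AA h (v : E) e := by
    intro v e
    ext x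
    change Mx h' v - e ≤ inner ℝ v (h' x) ↔ Mx h (v : E) - e ≤ inner ℝ (v : E) (h x)
    rw [hMx, hinner]
  have ht'' : TightC h' := by
    intro v c hv hne z hz hb
    have hset : {x | c ≤ inner ℝ v (h' x)} = {x | c ≤ inner ℝ (v : E) (h x)} := by
      ext x
      change c ≤ inner ℝ v (h' x) ↔ c ≤ inner ℝ (v : E) (h x)
      rw [hinner]
    rw [hset] at hne hz ⊢
    exact ht' (v : E) c (fun h0 => hv (Subtype.ext h0)) hne z hz hb
  have hball' : Metric.closedBall (0 : Wᗮ) δ ⊆ convexHull ℝ (Set.range h') := by
    intro y hy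
    rw [mem_closedBall_zero_iff] at hy
    have h1 : (y : E) ∈ C := by
      apply hball
      rw [mem_closedBall_zero_iff]
      exact hy
    have h2 : Set.range h' = (Wᗮ.orthogonalProjectionOnto).toLinearMap '' Set.range h := by
      rw [← Set.range_comp]
      rfl
    rw [h2, ← LinearMap.image_convexHull]
    refine ⟨y, h1, ?_⟩
    exact Submodule.orthogonalProjectionOnto_mem_subspace_eq_self y
  have hle : ∀ z ∈ C, (inner ℝ u z : ℝ) ≤ Mx h u := by
    intro z hz
    have hlin : IsLinearMap ℝ (fun y : E => (inner ℝ u y : ℝ)) :=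
      ⟨fun x y => inner_add_right _ _ _, fun c x => by rw [inner_smul_right]; rfl⟩
    have hsub2 : C ⊆ {y : E | (inner ℝ u y : ℝ) ≤ Mx h u} := by
      apply convexHull_min _ (convex_halfSpace_le hlin _)
      rintro _ ⟨x, rfl⟩
      exact inner_le_Mx hh u x
    exact hsub2 hz
  have hface : ∀ x, (inner ℝ u (h x) : ℝ) = Mx h u → h x ∈ FaceOf C u := by
    intro x hx
    refine ⟨subset_convexHull _ _ ⟨x, rfl⟩, fun z hz => ?_⟩
    rw [hx]
    exact hle z hz
  have huW : u ∈ Wᗮ := by
    rw [Submodule.mem_orthogonal]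
    intro w hw
    rw [hWdef, vectorSpan_def] at hw
    induction hw using Submodule.span_induction with
    | mem w hw =>
      obtain ⟨y, hy, y', hy', rfl⟩ := hw
      change (inner ℝ (y - y') u : ℝ) = 0
      rw [inner_sub_left]
      have h1 := hy.2 y' hy'.1
      have h2 := hy'.2 y hy.1
      rw [real_inner_comm u y, real_inner_comm u y']
      linarith
    | zero => rw [inner_zero_left]
    | add a b _ _ ha hb => rw [inner_add_left, ha, hb, add_zero]
    | smul a b _ hb => rw [inner_smul_left, hb, mul_zero]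
  obtain ⟨x0, hx0⟩ := exists_eq_Mx hh u
  have hfin := Submodule.finrank_add_finrank_orthogonal W
  refine claimB (V := Wᗮ) hF hh' ht'' hfund hδ hball' (by omega) (u := ⟨u, huW⟩) ?_ ?_ (h' x0) ?_
  · intro h0
    exact hu (congrArg Subtype.val h0)
  · intro e he
    rw [hAA]
    exact hess e he
  · intro x hx
    rw [hinner, hMx] at hx
    have h1 := hface x hx
    have h2 := hface x0 hx0
    have h3 : h x - h x0 ∈ W := vsub_mem_vectorSpan ℝ h1 h2
    change Wᗮ.orthogonalProjectionOnto (h x) = Wᗮ.orthogonalProjectionOnto (h x0)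
    rw [← sub_eq_zero, ← map_sub, Submodule.orthogonalProjectionOnto_eq_zero_iff,
      Submodule.orthogonal_orthogonal]
    exact h3

end STop
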